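import Pool.Agent.Run7.h245.SR.Iface1

/-! Piece WALK of project SR (by helper713): changing one prime at a time. -/

set_option autoImplicit false

open scoped Classical

namespace Pool.Agent.Run7.h245.SR.WALK

variable {ι : Type} [Fintype ι]

theorem card_le_two {V : Type} [AddCommGroup V] [Finite V] (A B : AddSubgroup V)
    (φ : V →+ ZMod 2) (h : ∀ l ∈ A, φ l = 0 → l ∈ B) : Nat.card A ≤ 2 * Nat.card B := by
  set ψ : A →+ ZMod 2 := φ.comp A.subtype with hψ
  have h1 : Nat.card ψ.ker * ψ.ker.index = Nat.card A := ψ.ker.card_mul_index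
  have h2 : ψ.ker.index = Nat.card ψ.range := AddSubgroup.index_ker ψ
  have h3 : Nat.card ψ.range ≤ 2 := by
    have : Nat.card ψ.range ≤ Nat.card (ZMod 2) :=
      Nat.card_le_card_of_injective (fun x : ψ.range => (x : ZMod 2)) Subtype.val_injective
    simpa using this
  have h4 : Nat.card ψ.ker ≤ Nat.card B := by
    refine Nat.card_le_card_of_injective
      (fun x : ψ.ker => (⟨(x : A), h _ (x : A).2 (by
        have := x.2
        rw [AddMonoidHom.mem_ker] at this
        exact this)⟩ : B)) ?_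
    intro x y hxy
    have : ((x : A) : V) = ((y : A) : V) := congrArg (fun b : B => (b : V)) hxy
    exact Subtype.ext (Subtype.ext this)
  calc Nat.card A = Nat.card ψ.ker * ψ.ker.index := h1.symm
    _ ≤ Nat.card B * 2 := by
        rw [h2]
        exact Nat.mul_le_mul h4 h3
    _ = 2 * Nat.card B := by ring

theorem pow_two (A : AddSubgroup (ι → ZMod 2 × ZMod 2)) : ∃ k : ℕ, Nat.card A = 2 ^ k := by
  have h : Nat.card (AddSubgroup.toZModSubmodule 2 A) = _ :=
    Module.natCard_eq_pow_finrank (K := ZMod 2)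
  refine ⟨_, Eq.trans ?_ (h.trans (by rw [Nat.card_zmod]))⟩
  rfl

variable (Λ : AddSubgroup (ι → ZMod 2 × ZMod 2))

theorem step_up (J : Finset ι) (i : ι) (hi : i ∉ J) :
    Nat.card (Sj Λ J) ≤ 2 * Nat.card (Sj Λ (insert i J)) := by
  refine card_le_two _ _ ((AddMonoidHom.snd (ZMod 2) (ZMod 2)).comp
    (Pi.evalAddMonoidHom (fun _ => ZMod 2 × ZMod 2) i)) ?_
  rintro l ⟨h1, h2, h3⟩ h4
  refine ⟨h1, fun j hj => h2 j (fun h => hj (Finset.mem_insert_of_mem h)), fun j hj => ?_⟩
  rcases Finset.mem_insert.1 hj with rfl | hj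
  · exact h4
  · exact h3 j hj

theorem step_down (J : Finset ι) (i : ι) :
    Nat.card (Sj Λ (insert i J)) ≤ 2 * Nat.card (Sj Λ J) := by
  refine card_le_two _ _ ((AddMonoidHom.fst (ZMod 2) (ZMod 2)).comp
    (Pi.evalAddMonoidHom (fun _ => ZMod 2 × ZMod 2) i)) ?_
  rintro l ⟨h1, h2, h3⟩ h4
  refine ⟨h1, fun j hj => ?_, fun j hj => h3 j (Finset.mem_insert_of_mem hj)⟩
  by_cases h : j = i
  · subst h
    exact h4
  · exact h2 j (fun h' => (Finset.mem_insert.1 h').elim h hj)

theorem walk_aux (d n : ℕ) : ∀ J₀ J₁ : Finset ι, (J₀ \ J₁ ∪ J₁ \ J₀).card = n →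
    Nat.card (Sj Λ J₀) ≤ 2 ^ d → 2 ^ d ≤ Nat.card (Sj Λ J₁) →
    ∃ J : Finset ι, Nat.card (Sj Λ J) = 2 ^ d := by
  induction n with
  | zero =>
    intro J₀ J₁ h h0 h1
    rw [Finset.card_eq_zero, Finset.union_eq_empty, Finset.sdiff_eq_empty_iff_subset,
      Finset.sdiff_eq_empty_iff_subset] at h
    have : J₀ = J₁ := Finset.Subset.antisymm h.1 h.2
    subst this
    exact ⟨J₀, le_antisymm h0 h1⟩
  | succ n ih =>
    intro J₀ J₁ h h0 h1
    by_cases he : Nat.card (Sj Λ J₀) = 2 ^ d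
    · exact ⟨J₀, he⟩
    obtain ⟨k, hk⟩ := pow_two (Sj Λ J₀)
    have hkd : k < d := by
      have h2 : 2 ^ k < 2 ^ d := by
        rw [← hk]
        exact lt_of_le_of_ne h0 he
      exact (Nat.pow_lt_pow_iff_right (by norm_num)).1 h2
    have hle : 2 * Nat.card (Sj Λ J₀) ≤ 2 ^ d := by
      rw [hk, ← pow_succ']
      exact Nat.pow_le_pow_right (by norm_num) hkd
    have hne : (J₀ \ J₁ ∪ J₁ \ J₀).Nonempty := by
      rw [← Finset.card_pos, h]
      exact Nat.succ_pos n
    obtain ⟨i, hi⟩ := hne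
    rcases Finset.mem_union.1 hi with hi' | hi'
    · obtain ⟨hi0, hi1⟩ := Finset.mem_sdiff.1 hi'
      refine ih (J₀.erase i) J₁ ?_ ?_ h1
      · have e : J₀.erase i \ J₁ ∪ J₁ \ J₀.erase i = (J₀ \ J₁ ∪ J₁ \ J₀).erase i := by
          ext j
          simp only [Finset.mem_union, Finset.mem_sdiff, Finset.mem_erase]
          by_cases hj : j = i
          · subst hj
            simp [hi1]
          · simp [hj]
        rw [e, Finset.card_erase_of_mem hi, h]
        rfl
      · have h3 := step_up Λ (J₀.erase i) i (Finset.notMem_erase i J₀)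
        rw [Finset.insert_erase hi0] at h3
        exact h3.trans hle
    · obtain ⟨hi1, hi0⟩ := Finset.mem_sdiff.1 hi'
      refine ih (insert i J₀) J₁ ?_ ?_ h1
      · have e : insert i J₀ \ J₁ ∪ J₁ \ insert i J₀ = (J₀ \ J₁ ∪ J₁ \ J₀).erase i := by
          ext j
          simp only [Finset.mem_union, Finset.mem_sdiff, Finset.mem_erase, Finset.mem_insert]
          by_cases hj : j = i
          · subst hj
            simp [hi1]
          · simp [hj]
        rw [e, Finset.card_erase_of_mem hi, h]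
        rfl
      · exact (step_down Λ J₀ i).trans hle

theorem walk : S_WALK := by
  intro ι _ Λ d J₀ J₁ h0 h1
  refine walk_aux Λ d _ J₀ J₁ rfl ?_ h1
  rw [h0]
  exact Nat.one_le_two_pow

end Pool.Agent.Run7.h245.SR.WALK
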