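import Pool.Agent.Run7.h245.SR.Kq
import Pool.Agent.Run7.h245.NF.Sel
import Pool.Agent.Run7.h245.NF.Fin

/-!
# Project SR, second theorem: from the algebraic statements to the arithmetic of the curves
-/

set_option autoImplicit false
set_option linter.all false

open Polynomial IsDedekindDomain Matrix NumberField WithZero
open scoped Classical

namespace Pool.Agent.Run7.h245.SR

open Pool.Agent.N874.PP (sW)
open Pool.Agent.N874.QM (SelC ShaC IsLoc)
open Pool.Agent.N783.PF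
open Pool.Agent.TH115.GD (Pt act rs IsCoc LocTriv Comp Sep)

theorem selC_of (hSELD : S_SELD) {M : Type} [Field M] [NumberField M] {A B : M}
    (hirr : Irreducible (cb A B)) (h : SelCard A B 0) : SelC (sW A B) := by
  have hd := disc_cb hirr
  have h1 := hSELD M A B 0 hd hirr h
  rw [pow_zero] at h1
  obtain ⟨hsub, -⟩ := Nat.card_eq_one_iff_unique.1 h1
  intro f hf h2 hloc
  have s1 : SelCoc M (sW A B) f := ⟨hf, h2, hloc.fin, hloc.real⟩
  have s2 : SelCoc M (sW A B) (fun _ => 0) := by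
    refine ⟨⟨IsLocallyConstant.const 0, fun σ τ => ?_⟩, fun σ => smul_zero _, fun v => ?_,
      fun ρ => ?_⟩
    · rw [map_zero, add_zero]
    · obtain ⟨ι, -, -⟩ := hloc.fin v
      exact ⟨ι, 0, fun τ σ _ => by rw [map_zero, map_zero, sub_zero]⟩
    · letI := ρ.toAlgebra
      obtain ⟨ι, -, -⟩ := hloc.real ρ
      exact ⟨ι, 0, fun τ σ _ => by rw [map_zero, map_zero, sub_zero]⟩
  have h3 : (Quotient.mk _ ⟨f, s1⟩ : Sel2 M (sW A B)) = Quotient.mk _ ⟨fun _ => 0, s2⟩ :=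
    hsub.elim _ _
  obtain ⟨T, hT, h4⟩ := Quotient.exact h3
  refine ⟨T, hT, fun σ => ?_⟩
  have h5 := h4 σ
  rw [← h5]
  exact (sub_zero _).symm

/-- Trivial 2-Selmer group: consequences. -/
theorem triv_of (hSELD : S_SELD) {M : Type} [Field M] [NumberField M] {A B : M}
    (hirr : Irreducible (cb A B)) (h : SelCard A B 0) :
    Finite (Pt (sW A B) M) ∧ Odd (Nat.card (Pt (sW A B) M)) ∧ ShaC (sW A B) := by
  have hd := disc_cb hirr
  obtain ⟨hdiv, hsha⟩ := Pool.Agent.N713.QM.gfc M A B hd (selC_of hSELD hirr h)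
  obtain ⟨hf, ho⟩ := Pool.Agent.N459.QM.finc M A B hd hdiv
  exact ⟨hf, ho, hsha⟩

theorem div_of_odd {G : Type} [AddCommGroup G] [Finite G] (h : Odd (Nat.card G)) (P : G) :
    ∃ Q : G, P = (2 : ℕ) • Q := by
  obtain ⟨k, hk⟩ := h
  refine ⟨(k + 1) • P, ?_⟩
  have h1 : Nat.card G • P = 0 := card_nsmul_eq_zero'
  rw [hk, add_smul, one_smul] at h1
  rw [smul_smul, show 2 * (k + 1) = 2 * k + 1 + 1 by ring, add_smul, add_smul, one_smul, h1,
    zero_add]

/-- The arithmetic of the curve over `K`. -/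
structure ArK {K : Type} [Field K] [NumberField K] (N : ℕ) (A B : K) : Prop where
  fin : Finite (Pt (sW A B) K)
  odd : Odd (Nat.card (Pt (sW A B) K))
  kill : ∀ f : (Sep K ≃ₐ[K] Sep K) → Pt (sW A B) (Sep K), IsCoc (sW A B) f → IsLoc (sW A B) f →
    (∃ (n : ℕ) (Q : Pt (sW A B) (Sep K)), ∀ σ, 2 ^ n • f σ = act (sW A B) (rs K σ) Q - Q) →
    ∃ Q : Pt (sW A B) (Sep K), ∀ σ, (2 : ℕ) • f σ = act (sW A B) (rs K σ) Q - Q
  many : ∃ φ : Fin (2 ^ N) → (Sep K ≃ₐ[K] Sep K) → Pt (sW A B) (Sep K),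
    (∀ i, SelCoc K (sW A B) (φ i)) ∧
    ∀ i j, i ≠ j → ¬ ∃ Q : Pt (sW A B) (Sep K), ∀ σ,
      φ i σ - φ j σ = act (sW A B) (rs K σ) Q - Q

/-- The arithmetic of the curve over `F`. -/
structure ArF {F : Type} [Field F] [NumberField F] (N D₀ : ℕ) (A B : F) : Prop where
  base : Finite (Pt (sW A B) F) ∧ Odd (Nat.card (Pt (sW A B) F)) ∧ ShaC (sW A B)
  ext : ∃ D : ℕ, D ≤ D₀ ∧ ¬ IsSquare (D : F) ∧
    (Finite (Pt (sW (A * (D : F) ^ 2) (B * (D : F) ^ 3)) F) ∧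
      Odd (Nat.card (Pt (sW (A * (D : F) ^ 2) (B * (D : F) ^ 3)) F)) ∧
      ShaC (sW (A * (D : F) ^ 2) (B * (D : F) ^ 3))) ∧
    ∀ (K : Type) [Field K] [NumberField K] [Algebra F K] (δ : K), Module.finrank F K = 2 →
      δ ^ 2 = (D : K) → ArK N (algebraMap F K A) (algebraMap F K B)

theorem arF_of (hSELD : S_SELD) (hK2 : S_K2) (hPTK : S_PTK) (hSHL : S_SHL)
    {F : Type} [Field F] [NumberField F] {N D₀ : ℕ} {A B : F} (hirr : Irreducible (cb A B))
    (h : QJ N D₀ A B) : ArF N D₀ A B := by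
  obtain ⟨h1, D, hDle, hD, h2, h3⟩ := h
  have hd := disc_cb hirr
  have hD0 : (D : F) ≠ 0 := by
    intro h0
    exact hD ⟨0, by rw [h0, mul_zero]⟩
  have hirrD : Irreducible (cb (A * (D : F) ^ 2) (B * (D : F) ^ 3)) := irr_cb hD0 hirr
  obtain ⟨a1, a2, a3⟩ := triv_of hSELD hirr h1
  obtain ⟨b1, b2, b3⟩ := triv_of hSELD hirrD h2
  refine ⟨⟨a1, a2, a3⟩, D, hDle, hD, ⟨b1, b2, b3⟩, ?_⟩
  intro K _ _ _ δ hrk hδ
  haveI : FiniteDimensional F K := Module.finite_of_finrank_pos (by rw [hrk]; omega)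
  have hcbK : (cb A B).map (algebraMap F K) = cb (algebraMap F K A) (algebraMap F K B) := cb_map _ _
  have hirrK : Irreducible (cb (algebraMap F K A) (algebraMap F K B)) := by
    rw [← hcbK]
    exact Pool.Agent.Run7.h245.NF.irr_up (n := 1) (by rw [hrk, pow_one]) hirr (cb_monic A B)
      (by rw [cb_natDegree]; exact ⟨1, rfl⟩)
  obtain ⟨c1, c2⟩ := hPTK F K A B D δ hrk hδ hD hd hirr a1 a2 b1 b2
  obtain ⟨H, g1, g2⟩ := h3 K δ hrk hδ
  haveI := c1
  refine ⟨c1, c2, hK2 F K A B D δ hrk hδ hD hd a3 b3, ?_⟩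
  exact hSHL K _ _ (disc_cb hirrK) hirrK (fun P => div_of_odd c2 P) (2 ^ N) H g1 g2

end Pool.Agent.Run7.h245.SR
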