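import Pool.Agent.Run7.h245.SR.Iface1

/-!
# Project SR, piece BIGJ (helper796): there is a `J` with a large group
-/

set_option autoImplicit false
set_option linter.all false

open scoped Classical

namespace Pool.Agent.Run7.h245.SR.BIGJ

open Pool.Agent.Run7.h245.SR

theorem add_self {ι : Type} (w : ι → ZMod 2 × ZMod 2) : w + w = 0 := by
  funext i
  have h : ∀ x : ZMod 2, x + x = 0 := by decide
  exact Prod.ext (h _) (h _)

/-- adjoin one vector -/
def adj {ι : Type} (V : AddSubgroup (ι → ZMod 2 × ZMod 2)) (w : ι → ZMod 2 × ZMod 2) :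
    AddSubgroup (ι → ZMod 2 × ZMod 2) where
  carrier := {l | l ∈ V ∨ l + w ∈ V}
  add_mem' := by
    rintro a b (ha | ha) (hb | hb)
    · exact Or.inl (V.add_mem ha hb)
    · right
      have := V.add_mem ha hb
      rwa [← add_assoc] at this
    · right
      have := V.add_mem ha hb
      rwa [show a + w + b = a + b + w by abel] at this
    · left
      have := V.add_mem ha hb
      rwa [show a + w + (b + w) = a + b + (w + w) by abel, add_self, add_zero] at this
  zero_mem' := Or.inl V.zero_mem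
  neg_mem' := by
    rintro a (ha | ha)
    · exact Or.inl (V.neg_mem ha)
    · right
      have h := V.neg_mem ha
      have e : -(a + w) = -a + w := by
        have h2 : -w = w := by
          rw [neg_eq_iff_add_eq_zero]; exact add_self w
        rw [neg_add, h2]
      rwa [e] at h

theorem mem_adj {ι : Type} (V : AddSubgroup (ι → ZMod 2 × ZMod 2)) (w l : ι → ZMod 2 × ZMod 2) :
    l ∈ adj V w ↔ l ∈ V ∨ l + w ∈ V := Iff.rfl

theorem card_adj {ι : Type} [Finite ι] (V : AddSubgroup (ι → ZMod 2 × ZMod 2))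
    (w : ι → ZMod 2 × ZMod 2) (hw : w ∉ V) : Nat.card (adj V w) = 2 * Nat.card V := by
  have h1 : ((adj V w : AddSubgroup _) : Set (ι → ZMod 2 × ZMod 2)) =
      (V : Set (ι → ZMod 2 × ZMod 2)) ∪ (fun v => v + w) '' (V : Set (ι → ZMod 2 × ZMod 2)) := by
    ext l
    simp only [SetLike.mem_coe, mem_adj, Set.mem_union, Set.mem_image]
    constructor
    · rintro (h | h)
      · exact Or.inl h
      · exact Or.inr ⟨l + w, h, by rw [add_assoc, add_self, add_zero]⟩
    · rintro (h | ⟨v, hv, rfl⟩)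
      · exact Or.inl h
      · right
        rwa [add_assoc, add_self, add_zero]
  have e1 : Nat.card (adj V w) = Set.ncard ((adj V w : AddSubgroup _) : Set (ι → ZMod 2 × ZMod 2)) :=
    (Nat.card_coe_set_eq _)
  have e2 : Nat.card V = Set.ncard (V : Set (ι → ZMod 2 × ZMod 2)) := (Nat.card_coe_set_eq _)
  rw [e1, e2, h1, Set.ncard_union_eq ?_ (Set.toFinite _) (Set.toFinite _),
    Set.ncard_image_of_injective _ (add_left_injective w)]
  · ring
  · rw [Set.disjoint_left]
    rintro l hl ⟨v, hv, rfl⟩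
    apply hw
    have := V.add_mem hl hv
    have e : v + w + v = w := by
      rw [show v + w + v = w + (v + v) by abel, add_self, add_zero]
    exact e ▸ this

variable {ι : Type} [Fintype ι]

theorem lev_mono {Λ : AddSubgroup (ι → ZMod 2 × ZMod 2)} {lev : ι → ℕ} {K c n₀ n₁ : ℕ} {ε : ℝ}
    (h : Lev ι Λ lev K c n₁ ε) (hn : n₀ ≤ n₁) : Lev ι Λ lev K c n₀ ε :=
  ⟨h.lt, fun k hk => hn.trans (h.big k hk), h.iso, h.size, h.pr⟩

/-- the state of the induction -/
structure St (Λ : AddSubgroup (ι → ZMod 2 × ZMod 2)) (lev : ι → ℕ) (K i : ℕ)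
    (V : AddSubgroup (ι → ZMod 2 × ZMod 2)) (J : Finset ι) : Prop where
  le : V ≤ Sj Λ J
  card : Nat.card V = 2 ^ i
  lv : ∀ j ∈ J, lev j < 2 * i
  jc : J.card ≤ 4 * i
  dens : ∀ k, 2 * i ≤ k → k < K → (1 / 8 : ℝ) ^ i * (Finset.univ.filter fun j => lev j = k).card ≤
    ((Finset.univ.filter fun j => lev j = k ∧ ∀ v ∈ V, (v j).2 = 0).card : ℝ)

/-- what one application of CAND gives -/
structure Good (Λ : AddSubgroup (ι → ZMod 2 × ZMod 2)) (lev : ι → ℕ) (k : ℕ)
    (V : AddSubgroup (ι → ZMod 2 × ZMod 2)) (J : Finset ι) (T : Finset ι)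
    (w : ι → ZMod 2 × ZMod 2) : Prop where
  mem : w ∈ Λ
  card : T.card ≤ 4
  lv : ∀ i ∈ T, lev i = k ∨ lev i = k + 1
  van : ∀ i ∈ T, ∀ v ∈ V, (v i).2 = 0
  sup : ∀ i ∉ T, (w i).1 = 0
  ne : ∃ i ∈ T, (w i).1 ≠ 0
  zero : ∀ i ∈ J ∪ T, (w i).2 = 0

/-- many disjoint candidates -/
theorem many {Λ : AddSubgroup (ι → ZMod 2 × ZMod 2)} {lev : ι → ℕ} {k : ℕ}
    {V : AddSubgroup (ι → ZMod 2 × ZMod 2)} {J : Finset ι} (M : ℕ)
    (h : ∀ U : Finset ι, U.card ≤ 4 * M → ∃ T w, Good Λ lev k V J T w ∧ Disjoint T U) :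
    ∀ m ≤ M, ∃ (T : ℕ → Finset ι) (w : ℕ → ι → ZMod 2 × ZMod 2),
      (∀ a < m, Good Λ lev k V J (T a) (w a)) ∧ ∀ a < m, ∀ b < a, Disjoint (T a) (T b) := by
  intro m
  induction m with
  | zero => exact fun _ => ⟨fun _ => ∅, fun _ => 0, fun a ha => absurd ha (Nat.not_lt_zero _),
      fun a ha => absurd ha (Nat.not_lt_zero _)⟩
  | succ m ih =>
    intro hm
    obtain ⟨T, w, h1, h2⟩ := ih (by omega)
    have hU : ((Finset.range m).biUnion T).card ≤ 4 * M := by
      refine (Finset.card_biUnion_le).trans ?_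
      refine (Finset.sum_le_card_nsmul _ _ 4 fun a ha => (h1 a (Finset.mem_range.mp ha)).card).trans ?_
      rw [Finset.card_range, smul_eq_mul]
      omega
    obtain ⟨T', w', h3, h4⟩ := h _ hU
    refine ⟨Function.update T m T', Function.update w m w', fun a ha => ?_, fun a ha b hb => ?_⟩
    · rcases Nat.lt_succ_iff_lt_or_eq.mp ha with h | rfl
      · rw [Function.update_of_ne h.ne, Function.update_of_ne h.ne]
        exact h1 a h
      · rw [Function.update_self, Function.update_self]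
        exact h3
    · rcases Nat.lt_succ_iff_lt_or_eq.mp ha with h | rfl
      · rw [Function.update_of_ne h.ne, Function.update_of_ne (hb.trans h).ne]
        exact h2 a h b hb
      · rw [Function.update_self, Function.update_of_ne hb.ne]
        rw [Finset.disjoint_biUnion_right] at h4
        exact h4 b (Finset.mem_range.mpr hb)

/-- two poor candidates at the same level are impossible -/
theorem not_both (h2 : S_POOR) {Λ : AddSubgroup (ι → ZMod 2 × ZMod 2)} {lev : ι → ℕ}
    {K c n₀ : ℕ} {ε : ℝ} (hL : Lev ι Λ lev K c n₀ ε) (hn : 1 ≤ n₀) {i k' : ℕ}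
    {V : AddSubgroup (ι → ZMod 2 × ZMod 2)} {J : Finset ι} (hS : St Λ lev K i V J)
    (hk1 : 2 * i + 2 ≤ k') (hk2 : k' < K) (hε0 : 0 < ε) (hε : ε < (1 / 8 : ℝ) ^ i / 4)
    {T T' : Finset ι} {w w' : ι → ZMod 2 × ZMod 2} (hG : Good Λ lev (2 * i) V J T w)
    (hG' : Good Λ lev (2 * i) V J T' w') (hd : Disjoint T T') :
    (1 / 8 : ℝ) ^ (i + 1) * (Finset.univ.filter fun j => lev j = k').card ≤
      ((Finset.univ.filter fun j => lev j = k' ∧ (∀ v ∈ V, (v j).2 = 0) ∧ (w j).2 = 0).card : ℝ) ∨
    (1 / 8 : ℝ) ^ (i + 1) * (Finset.univ.filter fun j => lev j = k').card ≤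
      ((Finset.univ.filter fun j => lev j = k' ∧ (∀ v ∈ V, (v j).2 = 0) ∧ (w' j).2 = 0).card : ℝ) := by
  have hcard : ∀ (p : ι → Prop) (i1 : DecidablePred fun x : {j // lev j = k'} => p x.1)
      (i2 : DecidablePred fun j => lev j = k' ∧ p j),
      (@Finset.filter _ (fun x : {j // lev j = k'} => p x.1) i1 Finset.univ).card =
      (@Finset.filter _ (fun j => lev j = k' ∧ p j) i2 Finset.univ).card := by
    intro p i1 i2
    rw [← Finset.card_map (Function.Embedding.subtype _)]
    congr 1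
    ext j
    simp only [Finset.mem_map, Finset.mem_filter, Finset.mem_univ, true_and,
      Function.Embedding.subtype_apply]
    constructor
    · rintro ⟨⟨x, hx⟩, hp, rfl⟩
      exact ⟨hx, hp⟩
    · rintro ⟨hx, hp⟩
      exact ⟨⟨j, hx⟩, hp, rfl⟩
  have hX : Fintype.card {j // lev j = k'} = (Finset.univ.filter fun j => lev j = k').card := by
    rw [Fintype.card_subtype]
  let φ : (ι → ZMod 2 × ZMod 2) →+ ({j // lev j = k'} → ZMod 2) :=
    { toFun := fun v x => (v x.1).2
      map_zero' := rfl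
      map_add' := fun _ _ => rfl }
  let Z : Finset {j // lev j = k'} := Finset.univ.filter fun x => ∀ v ∈ V, (v x.1).2 = 0
  have key := h2 {j // lev j = k'} (V.map φ) (fun x => (w x.1).2) (fun x => (w' x.1).2) Z
    ((1 / 8 : ℝ) ^ i) ε (by
      intro x
      simp only [Z, Finset.mem_filter, Finset.mem_univ, true_and]
      constructor
      · rintro h v ⟨v, hv, rfl⟩
        exact h v hv
      · intro h v hv
        exact h (φ v) ⟨v, hv, rfl⟩) (by positivity) hε0.le hε (by
      rw [hX]
      exact lt_of_lt_of_le (by omega) (hn.trans (hL.big k' hk2))) (by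
      rw [hX, show Z.card = (Finset.univ.filter fun j => lev j = k' ∧ ∀ v ∈ V, (v j).2 = 0).card from
        hcard (fun j => ∀ v ∈ V, (v j).2 = 0) _ _]
      exact hS.dens k' (by omega) hk2) (by
      rintro v ⟨v, hv, rfl⟩
      have hvS := hS.le hv
      rw [hX]
      have := hL.pr k' hk2 (w + w' + v) (Λ.add_mem (Λ.add_mem hG.mem hG'.mem) hvS.1) (by
        intro h0
        obtain ⟨t, ht, htn⟩ := hG.ne
        have e := congrArg Prod.fst (congrFun h0 t)
        have e1 : (w t).1 + (w' t).1 + (v t).1 = 0 := e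
        have htJ : t ∉ J := by
          intro hj
          have := hS.lv t hj
          rcases hG.lv t ht with h | h <;> omega
        rw [hG'.sup t (Finset.disjoint_left.mp hd ht), hvS.2.1 t htJ, add_zero, add_zero] at e1
        exact htn e1) (by
        intro j hj
        have hjT : j ∉ T := by
          intro hh
          rcases hG.lv j hh with h | h <;> omega
        have hjT' : j ∉ T' := by
          intro hh
          rcases hG'.lv j hh with h | h <;> omega
        have hjJ : j ∉ J := by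
          intro hh
          have := hS.lv j hh
          omega
        show (w j).1 + (w' j).1 + (v j).1 = 0
        rw [hG.sup j hjT, hG'.sup j hjT', hvS.2.1 j hjJ, add_zero, add_zero])
      refine le_trans (le_of_eq ?_) this
      rw [← hcard (fun j => ((w + w' + v) j).2 = 0) (fun _ => inferInstance) _]
      rfl)
  have e8 : (1 / 8 : ℝ) ^ i / 8 = (1 / 8 : ℝ) ^ (i + 1) := by rw [pow_succ]; ring
  rw [e8, hX] at key
  have hz : ∀ u : ι → ZMod 2 × ZMod 2, (Z.filter fun x => (u x.1).2 = 0).card =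
      (Finset.univ.filter fun j => lev j = k' ∧ (∀ v ∈ V, (v j).2 = 0) ∧ (u j).2 = 0).card := by
    intro u
    rw [← hcard (fun j => (∀ v ∈ V, (v j).2 = 0) ∧ (u j).2 = 0) (fun _ => inferInstance) _]
    congr 1
    ext x
    simp [Z]
  rw [hz, hz] at key
  exact key

/-- one step of the induction -/
theorem step (h2 : S_POOR) {Λ : AddSubgroup (ι → ZMod 2 × ZMod 2)} {lev : ι → ℕ}
    {K c n₀ : ℕ} {ε : ℝ} (hL : Lev ι Λ lev K c n₀ ε) (hn : 1 ≤ n₀) {i : ℕ}
    {V : AddSubgroup (ι → ZMod 2 × ZMod 2)} {J : Finset ι} (hS : St Λ lev K i V J)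
    (hε0 : 0 < ε) (hε : ε < (1 / 8 : ℝ) ^ i / 4)
    (h : ∀ U : Finset ι, U.card ≤ 4 * (K + 1) → ∃ T w, Good Λ lev (2 * i) V J T w ∧ Disjoint T U) :
    ∃ V' J', St Λ lev K (i + 1) V' J' := by
  obtain ⟨T, w, hG, hd⟩ := many (K + 1) h (K + 1) le_rfl
  have hex : ∃ a < K + 1, ∀ k', 2 * i + 2 ≤ k' → k' < K →
      (1 / 8 : ℝ) ^ (i + 1) * (Finset.univ.filter fun j => lev j = k').card ≤
      ((Finset.univ.filter fun j => lev j = k' ∧ (∀ v ∈ V, (v j).2 = 0) ∧ (w a j).2 = 0).card : ℝ) := by
    by_contra hcon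
    push Not at hcon
    choose! f hf1 hf2 hf3 using hcon
    have hmaps : ∀ a ∈ Finset.range (K + 1), f a ∈ Finset.range K := fun a ha =>
      Finset.mem_range.mpr (hf2 a (Finset.mem_range.mp ha))
    obtain ⟨a, ha, b, hb, hab, hfab⟩ := Finset.exists_ne_map_eq_of_card_lt_of_maps_to
      (by simp) hmaps
    have ha' := Finset.mem_range.mp ha
    have hb' := Finset.mem_range.mp hb
    have hdab : Disjoint (T a) (T b) := by
      rcases lt_or_gt_of_ne hab with h | h
      · exact (hd b hb' a h).symm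
      · exact hd a ha' b h
    rcases not_both h2 hL hn hS (hf1 a ha') (hf2 a ha') hε0 hε (hG a ha') (hG b hb') hdab with h | h
    · exact absurd h (not_le.mpr (hf3 a ha'))
    · have h3 := hf3 b hb'
      rw [← hfab] at h3
      exact absurd h (not_le.mpr h3)
  obtain ⟨a, ha, hpoor⟩ := hex
  have hga := hG a ha
  have hwV : w a ∉ V := by
    intro hw
    obtain ⟨t, ht, htn⟩ := hga.ne
    have htJ : t ∉ J := by
      intro hj
      have := hS.lv t hj
      rcases hga.lv t ht with h | h <;> omega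
    exact htn ((hS.le hw).2.1 t htJ)
  have hwS : w a ∈ Sj Λ (J ∪ T a) :=
    ⟨hga.mem, fun j hj => hga.sup j (fun h => hj (Finset.mem_union_right _ h)), hga.zero⟩
  have hVS : V ≤ Sj Λ (J ∪ T a) := by
    intro v hv
    have hvS := hS.le hv
    refine ⟨hvS.1, fun j hj => hvS.2.1 j (fun h => hj (Finset.mem_union_left _ h)), fun j hj => ?_⟩
    rcases Finset.mem_union.mp hj with h | h
    · exact hvS.2.2 j h
    · exact hga.van j h v hv
  refine ⟨adj V (w a), J ∪ T a, ?_, ?_, ?_, ?_, ?_⟩
  · rintro l (hl | hl)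
    · exact hVS hl
    · have := (Sj Λ (J ∪ T a)).add_mem (hVS hl) hwS
      rwa [add_assoc, add_self, add_zero] at this
  · rw [card_adj V (w a) hwV, hS.card, pow_succ]
    ring
  · intro j hj
    rcases Finset.mem_union.mp hj with h | h
    · have := hS.lv j h
      omega
    · rcases hga.lv j h with h | h <;> omega
  · have := Finset.card_union_le J (T a)
    have h1 := hS.jc
    have h3 := hga.card
    omega
  · intro k hk1 hk2
    refine (hpoor k (by omega) hk2).trans ?_
    norm_cast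
    apply Finset.card_le_card
    intro j hj
    rw [Finset.mem_filter] at hj ⊢
    refine ⟨hj.1, hj.2.1, ?_⟩
    rintro l (hl | hl)
    · exact hj.2.2.1 l hl
    · have h3 := hj.2.2.1 _ hl
      have h4 : (l j).2 + (w a j).2 = 0 := h3
      rwa [hj.2.2.2, add_zero] at h4

theorem bigj (h1 : S_CAND) (h2 : S_POOR) : S_BIGJ := by
  intro c d
  have hc := fun i : ℕ => h1 c d (4 * i) (4 * (2 * d + 1)) ((1 / 8 : ℝ) ^ i) (by positivity)
  choose ε₀ n₀ hε₀ hcand using hc
  obtain ⟨ε, hε0, hεle, hε8⟩ : ∃ ε : ℝ, 0 < ε ∧ (∀ i < d, ε ≤ ε₀ i) ∧ ε < (1 / 8 : ℝ) ^ d / 4 := by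
    have : ∀ m, ∃ ε : ℝ, 0 < ε ∧ (∀ i < m, ε ≤ ε₀ i) ∧ ε < (1 / 8 : ℝ) ^ d / 4 := by
      intro m
      induction m with
      | zero => exact ⟨(1 / 8 : ℝ) ^ d / 8, by positivity, fun i hi => absurd hi (Nat.not_lt_zero _), by
          have : 0 < (1 / 8 : ℝ) ^ d := by positivity
          linarith⟩
      | succ m ih =>
        obtain ⟨ε, h1, h2, h3⟩ := ih
        refine ⟨min ε (ε₀ m), lt_min h1 (hε₀ m), fun i hi => ?_, (min_le_left _ _).trans_lt h3⟩
        rcases Nat.lt_succ_iff_lt_or_eq.mp hi with h | rfl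
        · exact (min_le_left _ _).trans (h2 i h)
        · exact min_le_right _ _
    exact this d
  refine ⟨2 * d, (∑ i ∈ Finset.range d, n₀ i) + 1, ε, hε0, ?_⟩
  intro ι _ Λ lev hL
  by_cases hbig : 2 ^ d ≤ Nat.card {l : Λ // ∀ i, (l.1 i).1 = 0}
  · refine ⟨∅, hbig.trans ?_⟩
    refine Nat.card_le_card_of_injective
      (fun l => (⟨l.1.1, l.1.2, fun i _ => l.2 i, fun i hi => absurd hi (Finset.notMem_empty i)⟩ :
        Sj Λ ∅)) ?_
    intro a b hab
    have := congrArg Subtype.val hab
    exact Subtype.ext (Subtype.ext this)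
  · have ha : Nat.card {l : Λ // ∀ i, (l.1 i).1 = 0} ≤ 2 ^ d := by omega
    have hind : ∀ i ≤ d, ∃ V J, St Λ lev (2 * d) i V J := by
      intro i
      induction i with
      | zero =>
        intro _
        refine ⟨⊥, ∅, bot_le, ?_, fun j hj => absurd hj (Finset.notMem_empty j), by simp, ?_⟩
        · simp
        · intro k _ _
          rw [pow_zero, one_mul]
          norm_cast
          apply Finset.card_le_card
          intro j hj
          rw [Finset.mem_filter] at hj ⊢
          refine ⟨hj.1, hj.2, fun v hv => ?_⟩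
          rw [AddSubgroup.mem_bot] at hv
          subst hv
          rfl
      | succ i ih =>
        intro hi
        obtain ⟨V, J, hS⟩ := ih (by omega)
        refine step h2 hL (by omega) hS hε0 (hε8.trans_le ?_) ?_
        · have : (1 / 8 : ℝ) ^ d ≤ (1 / 8 : ℝ) ^ i :=
            pow_le_pow_of_le_one (by norm_num) (by norm_num) (by omega)
          linarith
        · intro U hU
          have hle : n₀ i ≤ (∑ i ∈ Finset.range d, n₀ i) + 1 := by
            have := Finset.single_le_sum (f := n₀) (fun _ _ => Nat.zero_le _)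
              (Finset.mem_range.mpr (show i < d by omega))
            omega
          obtain ⟨T, w, g1, g2, g3, g4, g5, g6, g7, g8⟩ := hcand i ι Λ lev (2 * d) ε hε0 (hεle i (by omega)) (lev_mono hL hle)
            ha (2 * i) V J U (by omega) hS.le hS.lv hS.jc hU (by
              rintro k' (rfl | rfl)
              · exact hS.dens _ le_rfl (by omega)
              · exact hS.dens _ (by omega) (by omega))
          exact ⟨T, w, ⟨g1, g2, g4, g5, g6, g7, g8⟩, g3⟩
    obtain ⟨V, J, hS⟩ := hind d le_rfl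
    refine ⟨J, ?_⟩
    rw [← hS.card]
    refine Nat.card_le_card_of_injective (fun l => (⟨l.1, hS.le l.2⟩ : Sj Λ J)) ?_
    intro a b hab
    have h := congrArg Subtype.val hab
    exact Subtype.ext h

end Pool.Agent.Run7.h245.SR.BIGJ
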