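import Pool.Agent.Run7.h277.SR.Base

/-!
# Project SR (helper245), piece INJ: equivalent cocycles and square classes (helper277)
-/

set_option autoImplicit false
set_option linter.all false

open Polynomial IsDedekindDomain WeierstrassCurve WeierstrassCurve.Affine
open Pool.Agent.TH115.GD Pool.Agent.N874.PP
open scoped Classical Pointwise

namespace Pool.Agent.Run7.h245.SR.INJ

open Pool.Agent.Run7.h245.SR (cb S_INJ)
open Pool.Agent.Run7.h277.SR
open Pool.Agent.N199.PP (cub exists_Z mem_Z exists_res interp Rt_map cub_map)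
open Pool.Agent.N630.PP (gp1 gp2 gp3 gp4)
open Pool.Agent.N187.PP (sg_sq sg_mul_self fix_sg sg_act' two_act' rt_map' rt_map root_cases
  prod_perm locConst_apply)

theorem inj : S_INJ := by
  intro M _ _ A B hd hirr f f' hf hf2 hf' hf2' β β' h h' hβ hβ' hh hh'
  have h6 : (6 : M) ≠ 0 := by norm_num
  haveI : CharZero (Sep M) := charZero_of_injective_algebraMap (algebraMap M (Sep M)).injective
  -- `f - f'` and `β β'`
  have hsub : ∀ (σ : Sep M ≃ₐ[M] Sep M) (t : Sep M), Rt A B t →
      sg (f σ - f' σ) t = sg (f σ) t * sg (f' σ) t := by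
    intro σ t ht
    rw [sub_eq_add_neg, neg_two (hf2' σ), sg_add h6 hd (hf2 σ) (hf2' σ) ht]
  have hsub2 : ∀ σ : Sep M ≃ₐ[M] Sep M, (2 : ℕ) • (f σ - f' σ) = 0 := by
    intro σ
    rw [nsmul_sub, hf2, hf2', sub_zero]
  have hcoc : IsCoc (sW A B) (fun σ => f σ - f' σ) := by
    refine ⟨?_, fun σ τ => ?_⟩
    · have h1 : IsLocallyConstant (fun σ : Sep M ≃ₐ[M] Sep M => (f σ, f' σ)) :=
        hf.lc.prodMk hf'.lc
      exact h1.comp (fun p : Pt (sW A B) (Sep M) × Pt (sW A B) (Sep M) => p.1 - p.2)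
    · show f (σ * τ) - f' (σ * τ) = f σ - f' σ + act (sW A B) (rs M σ) (f τ - f' τ)
      rw [hf.mul, hf'.mul, map_sub]
      abel
  have hβ'' : IsBeta A B (fun σ => f σ - f' σ) (fun t => β t * β' t) := by
    intro t ht
    refine ⟨mul_ne_zero (hβ t ht).1 (hβ' t ht).1, fun σ => ?_⟩
    show σ (β t * β' t) = sg (f σ - f' σ) (σ t) * (β (σ t) * β' (σ t))
    rw [hsub σ _ (rt_map' σ ht), map_mul, (hβ t ht).2 σ, (hβ' t ht).2 σ]
    ring
  have hhh : ∀ t : Sep M, Rt A B t → aeval t (h * h') = (β t * β' t) ^ 2 := by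
    intro t ht
    rw [map_mul, hh t ht, hh' t ht]
    ring
  constructor
  · rintro ⟨T, hT, hTf⟩
    obtain ⟨Z, hZ3, hZ⟩ := exists_Z (Ω := Sep M) A B hd
    have key := interp (K := M) (Ω := Sep M) (L := M) (Ω' := Sep M) hZ hZ3 (AlgHom.id M (Sep M))
      (fun τ => ⟨τ, fun x => rfl⟩) (fun t => sg T t * (β t * β' t)) (by
        intro τ σ hτσ t ht
        have hτ : ∀ x, τ x = σ x := hτσ
        have hR := (mem_Z hZ t).1 ht
        show τ (sg T t * (β t * β' t)) = sg T (σ t) * (β (σ t) * β' (σ t))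
        rw [hτ, map_mul, fix_sg]
        have e1 := (hβ'' t hR).2 σ
        simp only at e1
        rw [e1]
        have e2 : sg (f σ - f' σ) (σ t) = sg T t * sg T (σ t) := by
          rw [hTf σ, sub_eq_add_neg, neg_two hT,
            sg_add h6 hd (two_act' _ hT) hT (rt_map' σ hR), sg_act' gp4]
        rw [e2]
        linear_combination sg T (σ t) * (β (σ t) * β' (σ t)) * sg_mul_self T t) (h * h') (by
        intro t ht
        have hR := (mem_Z hZ t).1 ht
        show eval t ((h * h').map (algebraMap M (Sep M))) = (sg T t * (β t * β' t)) ^ 2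
        rw [eval_map_algebraMap, hhh t hR]
        linear_combination -(β t * β' t) ^ 2 * sg_mul_self T t)
    obtain ⟨g, hg⟩ := key
    exact ⟨g, hg⟩
  · rintro ⟨s, hs⟩
    haveI : Fact (Irreducible (cb A B)) := ⟨hirr⟩
    have hdeg : (cb A B).natDegree = 3 := by
      show (X ^ 3 + C A * X + C B : M[X]).natDegree = 3
      compute_degree!
    have ht : Rt A B (AdjoinRoot.root (cb A B)) := by
      have h1 := AdjoinRoot.eval₂_root (cb A B)
      have h2 : eval₂ (AdjoinRoot.of (cb A B)) (AdjoinRoot.root (cb A B))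
          (X ^ 3 + C A * X + C B : M[X]) = 0 := h1
      rw [eval₂_add, eval₂_add, eval₂_mul, eval₂_pow, eval₂_X, eval₂_C, eval₂_C] at h2
      exact h2
    have hL : Module.finrank M (AdjoinRoot (cb A B)) = 3 := by
      rw [(AdjoinRoot.powerBasis hirr.ne_zero).finrank, AdjoinRoot.powerBasis_dim, hdeg]
    obtain ⟨T, hT, hTf⟩ := Pool.Agent.N187.PP.gt gp3 gp4 M A B h6 hd hirr _ hcoc hsub2 _ (h * h')
      hβ'' hhh _ _ ht hL (by
        rw [AdjoinRoot.aeval_eq]
        refine ⟨AdjoinRoot.mk _ s, ?_⟩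
        have h1 := AdjoinRoot.mk_eq_zero.2 hs
        rw [map_sub, map_pow, sub_eq_zero] at h1
        rw [h1, pow_two])
    exact ⟨T, hT, hTf⟩

end Pool.Agent.Run7.h245.SR.INJ
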