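import Pool.Agent.Run7.h277.SR.Base

/-!
# Project SR (helper245), piece KUM: a cocycle from a square class (helper277)
-/

set_option autoImplicit false
set_option linter.all false

open Polynomial IsDedekindDomain WeierstrassCurve WeierstrassCurve.Affine
open Pool.Agent.TH115.GD Pool.Agent.N874.PP
open scoped Classical Pointwise

namespace Pool.Agent.Run7.h245.SR.KUM

open Pool.Agent.Run7.h245.SR (cb S_KUM)
open Pool.Agent.Run7.h277.SR
open Pool.Agent.N187.PP (sg_sq sg_mul_self fix_sg sg_act' two_act' rt_map' root_cases prod_perm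
  locConst_apply)

theorem cb_eq {K : Type} [Field K] (A B : K) : cb A B = X ^ 3 + C A * X + C B := rfl

theorem cb_monic {K : Type} [Field K] (A B : K) : (cb A B).Monic := by
  rw [cb_eq]; monicity!

theorem cb_deg {K : Type} [Field K] (A B : K) : (cb A B).natDegree = 3 := by
  rw [cb_eq]; compute_degree!

theorem aeval_cb {K Ω : Type} [Field K] [Field Ω] [Algebra K Ω] {A B : K} {t : Ω}
    (ht : Rt A B t) : aeval t (cb A B) = 0 := by
  have h : t ^ 3 + algebraMap K Ω A * t + algebraMap K Ω B = 0 := ht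
  rw [cb_eq]
  simpa using h

/-- the norm of a class is the product of the values at the zeros -/
theorem norm_mk {K Ω : Type} [Field K] [Field Ω] [Algebra K Ω] {A B : K} {t₁ t₂ t₃ : Ω}
    (n1 : t₁ ≠ t₂) (n2 : t₁ ≠ t₃) (n3 : t₂ ≠ t₃) (r1 : Rt A B t₁) (r2 : Rt A B t₂)
    (r3 : Rt A B t₃) (h : K[X]) :
    algebraMap K Ω (Algebra.norm K (AdjoinRoot.mk (cb A B) h)) =
      aeval t₁ h * aeval t₂ h * aeval t₃ h := by
  have hmon := cb_monic A B
  obtain ⟨pb, hpb⟩ : ∃ pb : PowerBasis K (AdjoinRoot (cb A B)), pb = AdjoinRoot.powerBasis' hmon :=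
    ⟨_, rfl⟩
  have hdim : pb.dim = 3 := by rw [hpb, AdjoinRoot.powerBasis'_dim, cb_deg]
  have hgen : pb.gen = AdjoinRoot.root (cb A B) := by rw [hpb, AdjoinRoot.powerBasis'_gen]
  let b : Module.Basis (Fin 3) K (AdjoinRoot (cb A B)) := pb.basis.reindex (finCongr hdim)
  have hb : ∀ i : Fin 3, b i = AdjoinRoot.root (cb A B) ^ (i : ℕ) := by
    intro i
    simp only [b, Module.Basis.reindex_apply, PowerBasis.basis_eq_pow, hgen]
    rfl
  let tt : Fin 3 → Ω := ![t₁, t₂, t₃]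
  have hr : ∀ i, Rt A B (tt i) := by
    intro i
    fin_cases i
    · exact r1
    · exact r2
    · exact r3
  have hinj : Function.Injective tt := by
    intro i j hij
    fin_cases i <;> fin_cases j <;> simp [tt] at hij ⊢
    · exact n1 hij
    · exact n2 hij
    · exact n1 hij.symm
    · exact n3 hij
    · exact n2 hij.symm
    · exact n3 hij.symm
  let φ : Fin 3 → (AdjoinRoot (cb A B) →ₐ[K] Ω) := fun i =>
    AdjoinRoot.liftAlgHom (cb A B) (Algebra.ofId K Ω) (tt i) (by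
      have := aeval_cb (hr i)
      rwa [aeval_def] at this)
  have hφr : ∀ i, φ i (AdjoinRoot.root (cb A B)) = tt i := by
    intro i
    simp only [φ]
    exact AdjoinRoot.liftAlgHom_root ..
  have hφ : ∀ i (q : K[X]), φ i (AdjoinRoot.mk (cb A B) q) = aeval (tt i) q := by
    intro i q
    rw [← AdjoinRoot.aeval_eq, ← aeval_algHom_apply, hφr]
  let x := AdjoinRoot.mk (cb A B) h
  let Mx : Matrix (Fin 3) (Fin 3) K := Algebra.leftMulMatrix b x
  have hnorm : Algebra.norm K x = Mx.det := Algebra.norm_eq_matrix_det b x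
  let V : Matrix (Fin 3) (Fin 3) Ω := Matrix.of fun i j => φ i (b j)
  have hV : V = Matrix.vandermonde tt := by
    ext i j
    rw [Matrix.vandermonde_apply]
    show φ i (b j) = _
    rw [hb, map_pow, hφr]
  have hVdet : V.det ≠ 0 := by
    rw [hV]
    exact Matrix.det_vandermonde_ne_zero_iff.2 hinj
  have hprod : V * Mx.map (algebraMap K Ω) = Matrix.diagonal (fun i => aeval (tt i) h) * V := by
    ext i j
    rw [Matrix.mul_apply, Matrix.diagonal_mul]
    show ∑ k, φ i (b k) * algebraMap K Ω (Mx k j) = aeval (tt i) h * φ i (b j)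
    have h1 : x * b j = ∑ k, Mx k j • b k := by
      conv_lhs => rw [← b.sum_repr (x * b j)]
      refine Finset.sum_congr rfl fun k _ => ?_
      have h5 : Mx k j = b.repr (x * b j) k := Algebra.leftMulMatrix_eq_repr_mul b x k j
      rw [h5]
    have h2 : φ i (x * b j) = aeval (tt i) h * φ i (b j) := by
      rw [map_mul, hφ]
    rw [← h2, h1, map_sum]
    refine Finset.sum_congr rfl fun k _ => ?_
    rw [map_smul, Algebra.smul_def, mul_comm]
  have hdet := congrArg Matrix.det hprod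
  rw [Matrix.det_mul, Matrix.det_mul, Matrix.det_diagonal] at hdet
  have h3 : (Mx.map (algebraMap K Ω)).det = algebraMap K Ω Mx.det :=
    (RingHom.map_det (algebraMap K Ω) Mx).symm
  rw [h3] at hdet
  have h4 : algebraMap K Ω Mx.det = ∏ i, aeval (tt i) h := by
    apply mul_left_cancel₀ hVdet
    rw [hdet, mul_comm]
  show algebraMap K Ω (Algebra.norm K x) = _
  rw [hnorm, h4, Fin.prod_univ_three]
  rfl

theorem kum : S_KUM := by
  intro M _ _ A B hd h hcop hsq
  have h6 : (6 : M) ≠ 0 := by norm_num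
  haveI : CharZero (Sep M) := charZero_of_injective_algebraMap (algebraMap M (Sep M)).injective
  obtain ⟨t₁, t₂, t₃, n1, n2, n3, r1, r2, r3, hall⟩ := roots3 (K := M) (Ω := Sep M) hd
  -- square roots
  have hβ : ∀ t : Sep M, ∃ b : Sep M, aeval t h = b ^ 2 := by
    intro t
    obtain ⟨z, hz⟩ := IsSepClosed.exists_pow_nat_eq (aeval t h) 2
    exact ⟨z, hz.symm⟩
  choose β hβ using hβ
  have hne : ∀ t : Sep M, Rt A B t → β t ≠ 0 := by
    intro t ht h0
    obtain ⟨a, b, hab⟩ := hcop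
    have h1 := congrArg (aeval t) hab
    rw [map_add, map_mul, map_mul, hβ t, h0, aeval_cb ht, map_one] at h1
    simp at h1
  -- the product is fixed
  have hb : ∀ σ : Sep M ≃ₐ[M] Sep M, σ (β t₁ * β t₂ * β t₃) = β t₁ * β t₂ * β t₃ := by
    intro σ
    obtain ⟨c, hc⟩ := hsq
    have h1 := norm_mk n1 n2 n3 r1 r2 r3 h
    rw [hc, hβ, hβ, hβ, map_mul] at h1
    have h2 : (β t₁ * β t₂ * β t₃) ^ 2 = algebraMap M (Sep M) c ^ 2 := by
      linear_combination -h1
    rcases sq_eq_sq_iff_eq_or_eq_neg.1 h2 with h3 | h3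
    · rw [h3, σ.commutes]
    · rw [h3, map_neg, σ.commutes]
  -- existence
  have hsq2 : ∀ (σ : Sep M ≃ₐ[M] Sep M) (t : Sep M), Rt A B t → σ (β t) ^ 2 = β (σ t) ^ 2 := by
    intro σ t ht
    rw [← map_pow, ← hβ, ← hβ]
    exact (aeval_algHom_apply σ.toAlgHom t h).symm
  have hex : ∀ σ : Sep M ≃ₐ[M] Sep M, ∃ T : Pt (sW A B) (Sep M), (2 : ℕ) • T = 0 ∧
      ∀ t : Sep M, Rt A B t → σ (β t) = sg T (σ t) * β (σ t) := by
    intro σ
    have hε : ∀ s : Sep M, Rt A B s → (σ (β (σ.symm s)) / β s = 1 ∨ σ (β (σ.symm s)) / β s = -1) := by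
      intro s hs
      have h1 := hsq2 σ (σ.symm s) (rt_map' σ.symm hs)
      rw [AlgEquiv.apply_symm_apply] at h1
      rw [← mul_self_eq_one_iff, ← pow_two, div_pow, h1, div_self (pow_ne_zero 2 (hne s hs))]
    have hprod : σ (β (σ.symm t₁)) / β t₁ * (σ (β (σ.symm t₂)) / β t₂) *
        (σ (β (σ.symm t₃)) / β t₃) = 1 := by
      have h1 := prod_perm n1 n2 n3 r1 r2 r3 σ.symm β
      have h2 : σ (β (σ.symm t₁)) * σ (β (σ.symm t₂)) * σ (β (σ.symm t₃)) =
          β t₁ * β t₂ * β t₃ := by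
        rw [← map_mul, ← map_mul, h1, hb σ]
      have e1 := hne _ r1
      have e2 := hne _ r2
      have e3 := hne _ r3
      field_simp
      linear_combination h2
    obtain ⟨T, hT, s1, s2, s3⟩ := (Pool.Agent.N630.PP.gp3 M (Sep M) A B h6 hd t₁ t₂ t₃ r1 r2 r3
      n1 n2 n3).2.2.2 _ _ _ (hε _ r1) (hε _ r2) (hε _ r3) hprod
    refine ⟨T, hT, ?_⟩
    have key : ∀ s : Sep M, Rt A B s → sg T s * β s = σ (β (σ.symm s)) := by
      intro s hs
      have e1 := hne s hs
      rcases hall s hs with rfl | rfl | rfl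
      · rw [s1, div_mul_cancel₀ _ e1]
      · rw [s2, div_mul_cancel₀ _ e1]
      · rw [s3, div_mul_cancel₀ _ e1]
    intro t ht
    rw [key (σ t) (rt_map' σ ht), AlgEquiv.symm_apply_apply]
  choose f hf2 hf using hex
  -- uniqueness
  have huniq : ∀ (σ : Sep M ≃ₐ[M] Sep M) (T : Pt (sW A B) (Sep M)), (2 : ℕ) • T = 0 →
      (∀ t : Sep M, Rt A B t → σ (β t) = sg T (σ t) * β (σ t)) → f σ = T := by
    intro σ T hT h1
    refine sg_ext h6 hd (hf2 σ) hT fun s hs => ?_
    have hs' : Rt A B (σ.symm s) := rt_map' σ.symm hs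
    have e1 := hf σ _ hs'
    have e2 := h1 _ hs'
    rw [AlgEquiv.apply_symm_apply] at e1 e2
    rw [e1] at e2
    exact mul_right_cancel₀ (hne s hs) e2
  refine ⟨f, ⟨?_, ?_⟩, hf2, β, fun t ht => ⟨hne t ht, fun σ => hf σ t ht⟩, fun t _ => hβ t⟩
  · -- locally constant
    rw [IsLocallyConstant.iff_exists_open]
    intro σ
    obtain ⟨l, hl⟩ : ∃ l : List (Sep M), l = [t₁, t₂, t₃, β t₁, β t₂, β t₃] := ⟨_, rfl⟩
    refine ⟨{τ | ∀ x ∈ l, τ x = σ x}, ?_, fun x _ => rfl, ?_⟩
    · have e : {τ : Sep M ≃ₐ[M] Sep M | ∀ x ∈ l, τ x = σ x} =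
          ⋂ x ∈ l.toFinset, (fun τ : Sep M ≃ₐ[M] Sep M => τ x) ⁻¹' {σ x} := by
        ext τ
        simp
      rw [e]
      exact isOpen_biInter_finset fun x _ => (locConst_apply x).isOpen_fiber (σ x)
    · intro τ hτ
      have h1 : ∀ t : Sep M, Rt A B t → τ t = σ t ∧ τ (β t) = σ (β t) := by
        intro t ht
        rcases hall t ht with rfl | rfl | rfl
        · exact ⟨hτ _ (by rw [hl]; simp), hτ _ (by rw [hl]; simp)⟩
        · exact ⟨hτ _ (by rw [hl]; simp), hτ _ (by rw [hl]; simp)⟩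
        · exact ⟨hτ _ (by rw [hl]; simp), hτ _ (by rw [hl]; simp)⟩
      refine huniq τ (f σ) (hf2 σ) fun t ht => ?_
      rw [(h1 t ht).2, (h1 t ht).1]
      exact hf σ t ht
  · intro σ τ
    refine huniq (σ * τ) _ (two_add (hf2 σ) (two_act' _ (hf2 τ))) fun t ht => ?_
    have hτ := rt_map' τ ht
    have hσ := rt_map' σ hτ
    have e1 : (σ * τ) t = σ (τ t) := rfl
    have e2 : (σ * τ) (β t) = σ (τ (β t)) := rfl
    rw [e1, e2, hf τ t ht, map_mul, fix_sg, hf σ _ hτ,
      sg_add h6 hd (hf2 σ) (two_act' _ (hf2 τ)) hσ, sg_act' Pool.Agent.N630.PP.gp4]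
    ring

end Pool.Agent.Run7.h245.SR.KUM
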