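import Pool.Agent.Run7.h277.SR.Base
import Pool.Agent.N721.PP.GF

/-!
# Project SR (helper245), piece LTR: a locally trivial cocycle from a local point (helper277)
-/

set_option autoImplicit false
set_option linter.all false

open Polynomial IsDedekindDomain WeierstrassCurve WeierstrassCurve.Affine
open Pool.Agent.TH115.GD Pool.Agent.N874.PP
open scoped Classical Pointwise

namespace Pool.Agent.Run7.h245.SR.LTR

open Pool.Agent.Run7.h245.SR (cb S_LTR)
open Pool.Agent.Run7.h277.SR
open Pool.Agent.N874.PM (PLoc)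
open Pool.Agent.N630.PP (gp1 gp2 gp3 gp4 two_smul_tor)
open Pool.Agent.N187.PP (sg_sq sg_mul_self fix_sg sg_act' two_act' rt_map' rt_map root_cases
  prod_perm locConst_apply)

theorem half' {M E : Type} [Field M] [CharZero M] [Field E] [Algebra M E] {A B : M}
    (hd : 4 * A ^ 3 + 27 * B ^ 2 ≠ 0) (Q : Pt (sW A B) (Sep E)) :
    ∃ P : Pt (sW A B) (Sep E), (2 : ℕ) • P = Q := by
  haveI : CharZero (Sep E) := charZero_of_injective_algebraMap (algebraMap M (Sep E)).injective
  have hd' : 4 * algebraMap M (Sep E) A ^ 3 + 27 * algebraMap M (Sep E) B ^ 2 ≠ 0 := by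
    have := (map_ne_zero (algebraMap M (Sep E))).2 hd
    rwa [map_add, map_mul, map_mul, map_pow, map_pow, map_ofNat, map_ofNat] at this
  obtain ⟨P, hP⟩ := Pool.Agent.N721.PP.halve_sep (Pool.Agent.N721.PP.isS A B (Sep E))
    (by norm_num) hd' Q
  exact ⟨P, by rw [two_nsmul, hP]⟩

/-- a divisibility evaluated at a zero -/
theorem eval_dvd {M E : Type} [Field M] [Field E] [Algebra M E] {A B : M} {H g : E[X]}
    (hg : X ^ 3 + C (algebraMap M E A) * X + C (algebraMap M E B) ∣ H - g ^ 2) {t : Sep E}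
    (ht : Rt A B t) : aeval t H = aeval t g ^ 2 := by
  obtain ⟨q, hq⟩ := hg
  have h1 := congrArg (aeval t) hq
  have h2 : t ^ 3 + algebraMap M (Sep E) A * t + algebraMap M (Sep E) B = 0 := ht
  have h3 : aeval t (X ^ 3 + C (algebraMap M E A) * X + C (algebraMap M E B) : E[X]) = 0 := by
    rw [map_add, map_add, map_mul, map_pow, aeval_X, aeval_C, aeval_C,
      ← IsScalarTower.algebraMap_apply M E (Sep E), ← IsScalarTower.algebraMap_apply M E (Sep E)]
    exact h2
  rw [map_mul, h3, zero_mul, map_sub, map_pow, sub_eq_zero] at h1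
  exact h1

theorem ltr : S_LTR := by
  intro M E _ _ _ _ A B hd f hf hf2 β h hβ hh hloc
  have h6 : (6 : M) ≠ 0 := by norm_num
  haveI : CharZero (Sep E) := charZero_of_injective_algebraMap (algebraMap M (Sep E)).injective
  haveI : Algebra.IsSeparable M (Sep M) := IsSepClosure.separable
  let ι : Sep M →ₐ[M] Sep E := IsSepClosed.lift
  -- values of `h`
  have hval : ∀ t : Sep M, Rt A B t → aeval (ι t) (h.map (algebraMap M E)) = ι (β t) ^ 2 := by
    intro t ht
    rw [aeval_map_algebraMap, aeval_algHom_apply, hh t ht, map_pow]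
  -- zeros over `Sep E` come from zeros over `Sep M`
  have hsurj : ∀ s : Sep E, Rt A B s → ∃ t : Sep M, Rt A B t ∧ ι t = s := by
    intro s hs
    obtain ⟨t₁, t₂, t₃, n1, n2, n3, r1, r2, r3, -⟩ := roots3 (K := M) (Ω := Sep M) hd
    rcases root_cases (fun e => n1 (ι.injective e)) (fun e => n2 (ι.injective e))
      (fun e => n3 (ι.injective e)) (rt_map ι r1) (rt_map ι r2) (rt_map ι r3) hs with e | e | e
    · exact ⟨t₁, r1, e.symm⟩
    · exact ⟨t₂, r2, e.symm⟩
    · exact ⟨t₃, r3, e.symm⟩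
  have hιne : ∀ t : Sep M, Rt A B t → ι (β t) ≠ 0 := by
    intro t ht
    exact (map_ne_zero ι).2 (hβ t ht).1
  -- it is enough to compare signs
  suffices key : ∃ P : Pt (sW A B) (Sep E), ∀ (τ : Sep E ≃ₐ[E] Sep E) (σ : Sep M ≃ₐ[M] Sep M),
      (∀ x, τ (ι x) = ι (σ x)) → (2 : ℕ) • (act (sW A B) (rs M τ) P - P) = 0 ∧
        ∀ t : Sep M, Rt A B t →
          sg (act (sW A B) (rs M τ) P - P) (ι (σ t)) = ι (sg (f σ) (σ t)) by
    obtain ⟨P, hP⟩ := key
    refine ⟨ι, P, fun τ σ hτσ => ?_⟩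
    obtain ⟨k1, k2⟩ := hP τ σ hτσ
    have h2 : (2 : ℕ) • act (sW A B) (ι.restrictScalars M) (f σ) = 0 := by
      rw [← map_nsmul, hf2, map_zero]
    refine sg_ext h6 hd h2 k1 fun s hs => ?_
    obtain ⟨t, ht, rfl⟩ := hsurj s hs
    have ht' : Rt A B (σ.symm t) := rt_map' σ.symm ht
    have e1 := k2 _ ht'
    rw [AlgEquiv.apply_symm_apply] at e1
    rw [e1]
    exact (gp4 M _ _ _ _ (ι.restrictScalars M) (f σ) t).1
  -- restriction: the action on the values
  have hgt : ∀ (g : E[X]) (τ : Sep E ≃ₐ[E] Sep E) (s : Sep E), τ (aeval s g) = aeval (τ s) g := by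
    intro g τ s
    exact (aeval_algHom_apply τ.toAlgHom s g).symm
  have hτβ : ∀ (τ : Sep E ≃ₐ[E] Sep E) (σ : Sep M ≃ₐ[M] Sep M), (∀ x, τ (ι x) = ι (σ x)) →
      ∀ t : Sep M, Rt A B t → τ (ι (β t)) = ι (sg (f σ) (σ t)) * ι (β (σ t)) := by
    intro τ σ hτσ t ht
    rw [hτσ, (hβ t ht).2 σ, map_mul]
  have hsg2 : ∀ (σ : Sep M ≃ₐ[M] Sep M) (t : Sep M), ι (sg (f σ) (σ t)) * ι (sg (f σ) (σ t)) = 1 := by
    intro σ t
    rw [← map_mul, sg_mul_self, map_one]
  rcases hloc with ⟨g, hg⟩ | ⟨x, y, hy, hxy, g, hg⟩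
  · -- the class is trivial
    have hev : ∀ t : Sep M, Rt A B t → ι (β t) ^ 2 = aeval (ι t) g ^ 2 := by
      intro t ht
      rw [← hval t ht, eval_dvd hg (rt_map ι ht)]
    have hgne : ∀ t : Sep M, Rt A B t → aeval (ι t) g ≠ 0 := by
      intro t ht h0
      have := hev t ht
      rw [h0] at this
      exact hιne t ht (pow_eq_zero_iff two_ne_zero |>.1 (by rw [this]; ring))
    choose! b hb1 hb2 using hsurj
    obtain ⟨T, c, hT, hc, hTc⟩ := sg_exists (K := M) (Ω := Sep E) h6 hd
      (fun s => ι (β (b s)) / aeval s g) (by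
        intro s hs
        have h1 := hev _ (hb1 s hs)
        have h2 := hgne _ (hb1 s hs)
        rw [hb2 s hs] at h1 h2
        rw [← mul_self_eq_one_iff, ← pow_two, div_pow, h1, div_self (pow_ne_zero 2 h2)])
    have hc2 : (c : Sep E) * c = 1 := by
      rcases hc with rfl | rfl <;> simp
    have hδ : ∀ t : Sep M, Rt A B t → ι (β t) = (c : Sep E) * sg T (ι t) * aeval (ι t) g := by
      intro t ht
      have h1 := hTc (ι t) (rt_map ι ht)
      have h2 : b (ι t) = t := ι.injective (hb2 _ (rt_map ι ht))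
      simp only [h2] at h1
      rw [← h1, div_mul_cancel₀ _ (hgne t ht)]
    refine ⟨T, fun τ σ hτσ => ?_⟩
    have hT' : (2 : ℕ) • act (sW A B) (rs M τ) T = 0 := by rw [← map_nsmul, hT, map_zero]
    rw [sub_eq_add_neg, neg_two hT]
    refine ⟨two_add hT' hT, fun t ht => ?_⟩
    have hσt : Rt A B (σ t) := rt_map' σ ht
    have hs : Rt A B (ι (σ t)) := rt_map ι hσt
    rw [sg_add h6 hd hT' hT hs]
    have e1 : sg (act (sW A B) (rs M τ) T) (ι (σ t)) = sg T (ι t) := by
      rw [← hτσ]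
      have := (gp4 M _ _ _ _ (rs M τ) T (ι t)).1
      have e : (rs M τ : Sep E →ₐ[M] Sep E) (ι t) = τ (ι t) := rfl
      rw [e] at this
      rw [this]
      have e' : (rs M τ : Sep E →ₐ[M] Sep E) (sg T (ι t)) = τ (sg T (ι t)) := rfl
      rw [e']
      rcases sg_sq T (ι t) with h | h <;> rw [h] <;> simp
    rw [e1]
    have h1 := hτβ τ σ hτσ t ht
    rw [hδ t ht, hδ (σ t) hσt, map_mul, map_mul, hgt, hτσ, map_intCast] at h1
    have e2 : τ (sg T (ι t)) = sg T (ι t) := by
      rcases sg_sq T (ι t) with h | h <;> rw [h] <;> simp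
    rw [e2] at h1
    have h2 : sg T (ι t) = ι (sg (f σ) (σ t)) * sg T (ι (σ t)) := by
      have hne : (c : Sep E) * aeval (ι (σ t)) g ≠ 0 := by
        refine mul_ne_zero ?_ (hgne _ hσt)
        intro h0
        rw [h0] at hc2
        simp at hc2
      apply mul_right_cancel₀ hne
      linear_combination h1
    rw [h2]
    linear_combination ι (sg (f σ) (σ t)) * sg_mul_self T (ι (σ t))
  · -- a point
    have hS := Pool.Agent.N630.PP.isS (Ω := E) h6 hd
    have hns : ((sW A B).baseChange E).toAffine.Nonsingular x y := (hS.nonsingular).2 hxy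
    let P₀ : Pt (sW A B) (Sep E) := act (sW A B) (incl M E (Sep E)) (Point.some x y hns)
    obtain ⟨R, hR⟩ := half' (E := E) hd P₀
    have hP₀ : ∃ h', P₀ = Point.some (algebraMap E (Sep E) x) (algebraMap E (Sep E) y) h' :=
      act_some (sW A B) (incl M E (Sep E)) hns
    have hR0 : (2 : ℕ) • R ≠ 0 := by
      rw [hR]
      obtain ⟨h', e⟩ := hP₀
      rw [e]
      exact Point.some_ne_zero _
    obtain ⟨X, Y, hXY, h2R, hrr⟩ := gp1 M _ A B h6 hd R hR0
    have hX : X = algebraMap E (Sep E) x := by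
      obtain ⟨h', e⟩ := hP₀
      rw [hR, e] at h2R
      exact (Point.some.inj h2R).1.symm
    subst hX
    -- the values
    have hev : ∀ t : Sep M, Rt A B t → (rr (ι t) R * ι (β t)) ^ 2 = aeval (ι t) g ^ 2 := by
      intro t ht
      have h1 := eval_dvd hg (rt_map ι ht)
      rw [map_mul, map_sub, aeval_C, aeval_X, hval t ht] at h1
      rw [mul_pow, hrr _ (rt_map ι ht), h1]
    have hxne : ∀ s : Sep E, Rt A B s → algebraMap E (Sep E) x - s ≠ 0 := by
      intro s hs h0
      have h1 : algebraMap E (Sep E) x = s := sub_eq_zero.1 h0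
      have h2 : s ^ 3 + algebraMap M (Sep E) A * s + algebraMap M (Sep E) B = 0 := hs
      rw [← h1, IsScalarTower.algebraMap_apply M E (Sep E), IsScalarTower.algebraMap_apply M E (Sep E),
        ← map_pow, ← map_mul, ← map_add, ← map_add, ← hxy, map_pow] at h2
      have h3 := pow_eq_zero_iff two_ne_zero |>.1 h2
      exact hy ((map_eq_zero _).1 h3)
    have hrne : ∀ s : Sep E, Rt A B s → rr s R ≠ 0 := by
      intro s hs h0
      have := hrr s hs
      rw [h0] at this
      exact hxne s hs (by rw [← this]; ring)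
    have hgne : ∀ t : Sep M, Rt A B t → aeval (ι t) g ≠ 0 := by
      intro t ht h0
      have := hev t ht
      rw [h0] at this
      exact mul_ne_zero (hrne _ (rt_map ι ht)) (hιne t ht)
        (pow_eq_zero_iff two_ne_zero |>.1 (by rw [this]; ring))
    choose! b hb1 hb2 using hsurj
    obtain ⟨T, c, hT, hc, hTc⟩ := sg_exists (K := M) (Ω := Sep E) h6 hd
      (fun s => rr s R * ι (β (b s)) / aeval s g) (by
        intro s hs
        have h1 := hev _ (hb1 s hs)
        have h2 := hgne _ (hb1 s hs)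
        rw [hb2 s hs] at h1 h2
        rw [← mul_self_eq_one_iff, ← pow_two, div_pow, h1, div_self (pow_ne_zero 2 h2)])
    have hc2 : (c : Sep E) * c = 1 := by
      rcases hc with rfl | rfl <;> simp
    have hc0 : (c : Sep E) ≠ 0 := by
      intro h0
      rw [h0] at hc2
      simp at hc2
    have hδ : ∀ t : Sep M, Rt A B t →
        rr (ι t) R * ι (β t) = (c : Sep E) * sg T (ι t) * aeval (ι t) g := by
      intro t ht
      have h1 := hTc (ι t) (rt_map ι ht)
      have h2 : b (ι t) = t := ι.injective (hb2 _ (rt_map ι ht))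
      simp only [h2] at h1
      rw [← h1, div_mul_cancel₀ _ (hgne t ht)]
    -- the point `Q = R + T`
    have h2Q : (2 : ℕ) • (R + T) = P₀ := by rw [nsmul_add, hT, add_zero, hR]
    have h2Q0 : (2 : ℕ) • (R + T) ≠ 0 := by
      rw [nsmul_add, hT, add_zero]
      exact hR0
    have hQv : ∀ t : Sep M, Rt A B t →
        rr (ι t) (R + T) * ι (β t) = (c : Sep E) * aeval (ι t) g := by
      intro t ht
      rw [gp2 M _ A B h6 hd R T hR0 hT (ι t) (rt_map ι ht)]
      linear_combination sg T (ι t) * hδ t ht + (c : Sep E) * aeval (ι t) g * sg_mul_self T (ι t)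
    have hQne : ∀ s : Sep E, Rt A B s → rr s (R + T) ≠ 0 := by
      intro s hs
      rw [gp2 M _ A B h6 hd R T hR0 hT s hs]
      exact mul_ne_zero (Pool.Agent.N187.PP.sg_ne _ _) (hrne s hs)
    refine ⟨R + T, fun τ σ hτσ => ?_⟩
    have hD : (2 : ℕ) • (act (sW A B) (rs M τ) (R + T) - (R + T)) = 0 := by
      rw [nsmul_sub, ← map_nsmul, h2Q]
      show act (sW A B) (rs M τ) (act (sW A B) (incl M E (Sep E)) (Point.some x y hns)) -
        act (sW A B) (incl M E (Sep E)) (Point.some x y hns) = 0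
      rw [rs_act_incl, sub_self]
    refine ⟨hD, fun t ht => ?_⟩
    have hσt : Rt A B (σ t) := rt_map' σ ht
    have hs : Rt A B (ι (σ t)) := rt_map ι hσt
    have h1 := congrArg τ (hQv t ht)
    rw [map_mul, map_mul, hgt, hτσ t, map_intCast, hτβ τ σ hτσ t ht, ← hQv _ hσt] at h1
    have h3 : τ (rr (ι t) (R + T)) = rr (ι (σ t)) (act (sW A B) (rs M τ) (R + T)) := by
      rw [← hτσ t]
      exact ((gp4 M _ _ _ _ (rs M τ) (R + T) (ι t)).2).symm
    have h4 : act (sW A B) (rs M τ) (R + T) =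
        (R + T) + (act (sW A B) (rs M τ) (R + T) - (R + T)) := by abel
    have h5 := gp2 M _ A B h6 hd (R + T) _ h2Q0 hD (ι (σ t)) hs
    rw [← h4] at h5
    rw [h3, h5] at h1
    have h6' : sg (act (sW A B) (rs M τ) (R + T) - (R + T)) (ι (σ t)) * ι (sg (f σ) (σ t)) = 1 := by
      have hne : rr (ι (σ t)) (R + T) * ι (β (σ t)) ≠ 0 := mul_ne_zero (hQne _ hs) (hιne _ hσt)
      apply mul_right_cancel₀ hne
      linear_combination h1
    linear_combination ι (sg (f σ) (σ t)) * h6' -
      sg (act (sW A B) (rs M τ) (R + T) - (R + T)) (ι (σ t)) * hsg2 σ t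
end Pool.Agent.Run7.h245.SR.LTR
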