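import Pool.Agent.Run7.h245.SR.Iface1

/-! Piece POOR of project SR (by helper713): averaging over a subgroup of `𝔽₂^X`. -/

set_option autoImplicit false

open scoped Classical

namespace Pool.Agent.Run7.h245.SR.POOR

theorem z2 (a : ZMod 2) : a = 0 ∨ a = 1 := by
  revert a
  decide

theorem half {X : Type} [Fintype X] (V : AddSubgroup (X → ZMod 2)) (x : X) (v₀ : X → ZMod 2)
    (hv₀ : v₀ ∈ V) (h : v₀ x ≠ 0) (a : ZMod 2) :
    2 * ((Finset.univ.filter fun v => v ∈ V).filter fun v => a + v x = 0).card =
      (Finset.univ.filter fun v : X → ZMod 2 => v ∈ V).card := by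
  set Vf := Finset.univ.filter fun v : X → ZMod 2 => v ∈ V with hVf
  have h1 : v₀ x = 1 := (z2 _).resolve_left h
  have h2 : (Vf.filter fun v => a + v x = 0).card = (Vf.filter fun v => ¬ a + v x = 0).card := by
    refine Finset.card_bij (fun v _ => v + v₀) ?_ ?_ ?_
    · intro v hv
      rw [Finset.mem_filter] at hv ⊢
      obtain ⟨hv1, hv2⟩ := hv
      refine ⟨?_, ?_⟩
      · rw [hVf, Finset.mem_filter] at hv1 ⊢
        exact ⟨Finset.mem_univ _, V.add_mem hv1.2 hv₀⟩
      · rw [Pi.add_apply, ← add_assoc, hv2, h1]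
        decide
    · intro v _ v' _ he
      exact add_right_cancel he
    · intro v hv
      rw [Finset.mem_filter] at hv
      obtain ⟨hv1, hv2⟩ := hv
      refine ⟨v + v₀, ?_, ?_⟩
      · rw [Finset.mem_filter]
        refine ⟨?_, ?_⟩
        · rw [hVf, Finset.mem_filter] at hv1 ⊢
          exact ⟨Finset.mem_univ _, V.add_mem hv1.2 hv₀⟩
        · rw [Pi.add_apply, ← add_assoc, (z2 _).resolve_left hv2, h1]
          decide
      · funext y
        rw [Pi.add_apply, Pi.add_apply, add_assoc]
        have : v₀ y + v₀ y = 0 := by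
          rcases z2 (v₀ y) with h | h <;> rw [h] <;> decide
        rw [this, add_zero]
  have h3 := Finset.card_filter_add_card_filter_not (s := Vf) (fun v => a + v x = 0)
  omega

theorem poor : S_POOR := by
  intro X _ V w w' Z ρ ε hZ hρ hε hερ hX hZρ hV
  by_contra hcon
  push Not at hcon
  obtain ⟨c1, c2⟩ := hcon
  set Vf := Finset.univ.filter fun v : X → ZMod 2 => v ∈ V with hVf
  have hVpos : (0 : ℝ) < Vf.card := by
    have : 0 < Vf.card := Finset.card_pos.2 ⟨0, by
      rw [hVf, Finset.mem_filter]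
      exact ⟨Finset.mem_univ _, V.zero_mem⟩⟩
    exact_mod_cast this
  have hXpos : (0 : ℝ) < Fintype.card X := by exact_mod_cast hX
  -- upper bound
  have hup : ∑ v ∈ Vf, ((Finset.univ.filter fun x => w x + w' x + v x = 0).card : ℝ) ≤
      Vf.card * ((1 / 2 + ε) * Fintype.card X) := by
    rw [← nsmul_eq_mul]
    refine Finset.sum_le_card_nsmul _ _ _ fun v hv => ?_
    rw [hVf, Finset.mem_filter] at hv
    exact hV v hv.2
  -- exchange
  have hswap : ∑ v ∈ Vf, ((Finset.univ.filter fun x => w x + w' x + v x = 0).card : ℝ) =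
      ∑ x : X, ((Vf.filter fun v => w x + w' x + v x = 0).card : ℝ) := by
    have e1 : ∀ v : X → ZMod 2, ((Finset.univ.filter fun x => w x + w' x + v x = 0).card : ℝ) =
        ∑ x : X, if w x + w' x + v x = 0 then (1 : ℝ) else 0 := by
      intro v
      rw [Finset.sum_boole]
    have e2 : ∀ x : X, ((Vf.filter fun v => w x + w' x + v x = 0).card : ℝ) =
        ∑ v ∈ Vf, if w x + w' x + v x = 0 then (1 : ℝ) else 0 := by
      intro x
      rw [Finset.sum_boole]
    simp_rw [e1, e2]
    exact Finset.sum_comm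
  -- the summands
  have hin : ∀ x ∈ Z, ((Vf.filter fun v => w x + w' x + v x = 0).card : ℝ) =
      Vf.card * (if w x + w' x = 0 then (1 : ℝ) else 0) := by
    intro x hx
    have h0 := (hZ x).1 hx
    by_cases h : w x + w' x = 0
    · rw [if_pos h, mul_one]
      congr 2
      rw [Finset.filter_eq_self]
      intro v hv
      rw [hVf, Finset.mem_filter] at hv
      rw [h0 v hv.2, add_zero, h]
    · rw [if_neg h, mul_zero, Nat.cast_eq_zero, Finset.card_eq_zero,
        Finset.filter_eq_empty_iff]
      intro v hv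
      rw [hVf, Finset.mem_filter] at hv
      rw [h0 v hv.2, add_zero]
      exact h
  have hout : ∀ x ∉ Z, ((Vf.filter fun v => w x + w' x + v x = 0).card : ℝ) =
      Vf.card * (1 / 2) := by
    intro x hx
    have : ∃ v ∈ V, v x ≠ 0 := by
      by_contra hc
      push Not at hc
      exact hx ((hZ x).2 hc)
    obtain ⟨v₀, hv₀, h⟩ := this
    have h1 := half V x v₀ hv₀ h (w x + w' x)
    have h2 : (2 : ℝ) * ((Vf.filter fun v => w x + w' x + v x = 0).card : ℝ) = Vf.card := by
      exact_mod_cast h1
    linarith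
  have hsum : ∑ x : X, ((Vf.filter fun v => w x + w' x + v x = 0).card : ℝ) =
      Vf.card * ((Z.filter fun x => w x + w' x = 0).card : ℝ) +
        Vf.card * (1 / 2) * (Fintype.card X - Z.card) := by
    rw [← Finset.sum_add_sum_compl Z, Finset.sum_congr rfl hin,
      Finset.sum_congr rfl (fun x hx => hout x (Finset.mem_compl.1 hx)), ← Finset.mul_sum,
      Finset.sum_boole, Finset.sum_const, nsmul_eq_mul, Finset.card_compl,
      Nat.cast_sub (Finset.card_le_univ Z)]
    ring
  -- lower bound for the zeros in Z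
  have hz : (Z.card : ℝ) ≤ ((Z.filter fun x => w x + w' x = 0).card : ℝ) +
      ((Z.filter fun x => w x = 0).card : ℝ) + ((Z.filter fun x => w' x = 0).card : ℝ) := by
    have h1 : Z ⊆ (Z.filter fun x => w x + w' x = 0) ∪ (Z.filter fun x => w x = 0) ∪
        (Z.filter fun x => w' x = 0) := by
      intro x hx
      simp only [Finset.mem_union, Finset.mem_filter]
      rcases z2 (w x) with h | h
      · exact Or.inl (Or.inr ⟨hx, h⟩)
      · rcases z2 (w' x) with h' | h'
        · exact Or.inr ⟨hx, h'⟩
        · refine Or.inl (Or.inl ⟨hx, ?_⟩)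
          rw [h, h']
          decide
    have h2 := (Finset.card_le_card h1).trans ((Finset.card_union_le _ _).trans
      (Nat.add_le_add_right (Finset.card_union_le _ _) _))
    exact_mod_cast h2
  have hfin : (Vf.card : ℝ) * ((Z.filter fun x => w x + w' x = 0).card : ℝ) +
      Vf.card * (1 / 2) * (Fintype.card X - Z.card) ≤
      Vf.card * ((1 / 2 + ε) * Fintype.card X) := by
    rw [← hsum, ← hswap]
    exact hup
  have h5 : ((Z.filter fun x => w x + w' x = 0).card : ℝ) +
      (1 / 2) * (Fintype.card X - Z.card) ≤ (1 / 2 + ε) * Fintype.card X := by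
    have : (Vf.card : ℝ) * (((Z.filter fun x => w x + w' x = 0).card : ℝ) +
        (1 / 2) * (Fintype.card X - Z.card)) ≤ Vf.card * ((1 / 2 + ε) * Fintype.card X) := by
      calc _ = _ := by ring
        _ ≤ _ := hfin
    exact le_of_mul_le_mul_left this hVpos
  have h6 : ε * (Fintype.card X : ℝ) < ρ / 4 * Fintype.card X :=
    mul_lt_mul_of_pos_right hερ hXpos
  nlinarith

end Pool.Agent.Run7.h245.SR.POOR
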