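import Pool.Agent.Run7.h245.SR.Iface1
import Pool.Agent.N187.PP.GN
import Pool.Agent.N630.PP.GP
import Pool.Agent.N42.QM.Glf
import Pool.Agent.N530.QM.Farc

/-!
# Project SR (helper245), piece SELD: from the algebraic Selmer group to cocycles (helper277)
-/

set_option autoImplicit false
set_option linter.all false

open Polynomial IsDedekindDomain NumberField WeierstrassCurve WeierstrassCurve.Affine
open Pool.Agent.TH115.GD Pool.Agent.N874.PP
open scoped Classical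

namespace Pool.Agent.Run7.h245.SR.SELD

open Pool.Agent.Run7.h245.SR (cb S_KUM S_LTR S_INJ S_SELD SelH SelCard SelCoc SelEqv Sel2)
open Pool.Agent.N630.PP (gp1 gp2 gp3 gp4)

/-- a Selmer cocycle has a class -/
theorem toH (M : Type) [Field M] [NumberField M] (A B : M) (hd : 4 * A ^ 3 + 27 * B ^ 2 ≠ 0)
    (hirr : Irreducible (cb A B)) (f : (Sep M ≃ₐ[M] Sep M) → Pt (sW A B) (Sep M))
    (hf : SelCoc M (sW A B) f) : ∃ (β : Sep M → Sep M) (h : M[X]), IsBeta A B f β ∧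
      (∀ t : Sep M, Rt A B t → aeval t h = β t ^ 2) ∧ SelH A B h := by
  have h6 : (6 : M) ≠ 0 := by norm_num
  obtain ⟨β, hβ⟩ := Pool.Agent.N187.PP.gb gp3 gp4 M A B h6 hd hirr f hf.coc hf.two
  obtain ⟨h, hh, hn⟩ := Pool.Agent.N187.PP.gn gp3 gp4 M A B h6 hd hirr f hf.coc hf.two β hβ
  haveI : Fact (Irreducible (cb A B)) := ⟨hirr⟩
  have hdeg : (cb A B).natDegree = 3 := by
    show (X ^ 3 + C A * X + C B : M[X]).natDegree = 3
    compute_degree!
  have ht : Rt A B (AdjoinRoot.root (cb A B)) := by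
    have h1 := AdjoinRoot.eval₂_root (cb A B)
    have h2 : eval₂ (AdjoinRoot.of (cb A B)) (AdjoinRoot.root (cb A B))
        (X ^ 3 + C A * X + C B : M[X]) = 0 := h1
    rw [eval₂_add, eval₂_add, eval₂_mul, eval₂_pow, eval₂_X, eval₂_C, eval₂_C] at h2
    exact h2
  have hL : Module.finrank M (AdjoinRoot (cb A B)) = 3 := by
    rw [(AdjoinRoot.powerBasis hirr.ne_zero).finrank, AdjoinRoot.powerBasis_dim, hdeg]
  obtain ⟨hn1, hn2⟩ := hn _ _ ht hL
  rw [AdjoinRoot.aeval_eq] at hn1 hn2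
  refine ⟨β, h, hβ, hh, ?_, hn2, fun w => ?_, fun ρ => ?_⟩
  · rw [isCoprime_comm, hirr.coprime_iff_not_dvd, ← AdjoinRoot.mk_eq_zero]
    exact hn1
  · exact Pool.Agent.N42.QM.glf gp1 gp2 gp3 gp4 M (Comp (𝓞 M) M w) A B h6 hd f hf.coc hf.two β h hβ
      hh (Pool.Agent.N530.QM.farc M A B hd w) (hf.finite w)
  · letI := ρ.toAlgebra
    exact Pool.Agent.N42.QM.glf gp1 gp2 gp3 gp4 M ℝ A B h6 hd f hf.coc hf.two β h hβ hh
      (Pool.Agent.N42.QM.farr M A B hd) (hf.real ρ)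

theorem seld (h1 : S_KUM) (h2 : S_LTR) (h3 : S_INJ) : S_SELD := by
  intro M _ _ A B d hd hirr hcard
  obtain ⟨H, hH1, hH2, hH3⟩ := hcard
  -- cocycles
  have hex : ∀ i, ∃ f : (Sep M ≃ₐ[M] Sep M) → Pt (sW A B) (Sep M), SelCoc M (sW A B) f ∧
      ∃ β : Sep M → Sep M, IsBeta A B f β ∧ ∀ t : Sep M, Rt A B t → aeval t (H i) = β t ^ 2 := by
    intro i
    obtain ⟨f, hf, hf2, β, hβ, hh⟩ := h1 M A B hd (H i) (hH1 i).cop (hH1 i).nrm
    refine ⟨f, ⟨hf, hf2, fun w => ?_, fun ρ => ?_⟩, β, hβ, hh⟩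
    · exact h2 M (Comp (𝓞 M) M w) A B hd f hf hf2 β (H i) hβ hh ((hH1 i).fin w)
    · letI := ρ.toAlgebra
      exact h2 M ℝ A B hd f hf hf2 β (H i) hβ hh ((hH1 i).real ρ)
  choose f hf β hβ hh using hex
  let S : Setoid {f : (Sep M ≃ₐ[M] Sep M) → Pt (sW A B) (Sep M) // SelCoc M (sW A B) f} :=
    ⟨fun f f' => SelEqv M (sW A B) f.1 f'.1, selEqv_equivalence M (sW A B)⟩
  let φ : Fin (2 ^ d) → Sel2 M (sW A B) := fun i => Quotient.mk S ⟨f i, hf i⟩
  have hφ : Function.Bijective φ := by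
    constructor
    · intro i j hij
      by_contra hne
      have h4 : SelEqv M (sW A B) (f i) (f j) := (Quotient.exact (s := S) hij :)
      obtain ⟨T, hT, hTf⟩ := h4
      exact hH2 i j hne ((h3 M A B hd hirr (f i) (f j) (hf i).coc (hf i).two (hf j).coc (hf j).two
        (β i) (β j) (H i) (H j) (hβ i) (hβ j) (hh i) (hh j)).1 ⟨T, hT, hTf⟩)
    · intro q
      induction q using Quotient.inductionOn with
      | _ a =>
      obtain ⟨g, hg⟩ := a
      obtain ⟨γ, h, hγ, hhγ, hsel⟩ := toH M A B hd hirr g hg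
      obtain ⟨i, s, hs⟩ := hH3 h hsel
      refine ⟨i, Quotient.sound (s := S) ?_⟩
      show SelEqv M (sW A B) (f i) g
      have h5 := (h3 M A B hd hirr (f i) g (hf i).coc (hf i).two hg.coc hg.two
        (β i) γ (H i) h (hβ i) hγ (hh i) hhγ).2 ⟨s, by rw [mul_comm (H i) h]; exact hs⟩
      exact h5
  rw [← Nat.card_eq_of_bijective φ hφ, Nat.card_eq_fintype_card, Fintype.card_fin]

end Pool.Agent.Run7.h245.SR.SELD
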