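import Pool.Agent.Run7.h245.SR.Find
import Pool.Agent.Run7.h13.SR.BADC
import Pool.Agent.Run7.h13.SR.CQC
import Pool.Agent.Run7.h13.SR.PBC
import Pool.Agent.Run7.h711.SR.SDR
import Pool.Agent.Run7.h711.SR.TVR
import Pool.Agent.Run7.h711.SR.CLF
import Pool.Agent.Run7.h711.SR.NEV
import Pool.Agent.Run7.h711.SR.SQR
import Pool.Agent.Run7.h382.SR.PAT
import Pool.Agent.Run7.h382.SR.CAND
import Pool.Agent.Run7.h382.SR.M16
import Pool.Agent.Run7.h382.SR.UN1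
import Pool.Agent.Run7.h382.SR.UNI
import Pool.Agent.Run7.h245.SR.BIGJ
import Pool.Agent.Run7.h245.SR.POOR
import Pool.Agent.Run7.h245.SR.WALK
import Pool.Agent.Run7.h245.SR.KUM
import Pool.Agent.Run7.h245.SR.LTR
import Pool.Agent.Run7.h245.SR.INJ
import Pool.Agent.Run7.h245.SR.SELD
import Pool.Agent.Run7.h697.SR.FF
import Pool.Agent.Run7.h697.SR.GOOD
import Pool.Agent.Run7.h366.SR.GAT
import Pool.Agent.Run7.h576.SR.HEN
import Pool.Agent.Run7.h576.SR.LEVB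
import Pool.Agent.Run7.h576.SR.LPR
import Pool.Agent.Run7.h576.SR.PL
import Pool.Agent.Run7.h576.SR.SCG
import Pool.Agent.Run7.h576.SR.SCL
import Pool.Agent.Run7.h228.SR.IRW
import Pool.Agent.Run7.h228.SR.SQ2
import Pool.Agent.Run7.h890.SR.Mulw
import Pool.Agent.Run7.h67.SR.RES
import Pool.Agent.Run7.h67.SR.SQW
import Pool.Agent.Run7.h824.SR.CHIR
import Pool.Agent.Run7.h824.SR.DISR
import Pool.Agent.Run7.h824.SR.LBR
import Pool.Agent.Run7.h824.SR.LP2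
import Pool.Agent.Run7.h824.SR.ORBC
import Pool.Agent.Run7.h824.SR.PRX
import Pool.Agent.Run7.h824.SR.REDR
import Pool.Agent.Run7.h824.SR.TYPR
import Pool.Agent.Run7.h824.SR.RAMQ
import Pool.Agent.Run7.h68.SR.HTU

/-!
# Assembly of project SR (helper245)
-/

set_option autoImplicit false

namespace Pool.Agent.Run7.h245.SR

open Pool.Agent.N783.PF

theorem badc : S_BADC :=
  Pool.Agent.Run7.h13.SR.badc
    (Pool.Agent.Run7.h13.SR.pbc Pool.Agent.N490.PF.pts Pool.Agent.N42.PF.cqa Pool.Agent.N42.PF.cqb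
      Pool.Agent.Run7.h13.SR.cqc)
    (Pool.Agent.Run7.h13.SR.pbc0 Pool.Agent.N490.PF.pts)
    (_root_.Run7.h824.SR.orbc Pool.Agent.N490.PF.pts)

theorem levb : S_LEVB := _root_.Run7.h576.SR.LEVB.levb badc

theorem lbr : S_LBR :=
  _root_.Run7.h824.SR.lbr
    (_root_.Run7.h824.SR.typr (_root_.Run7.h824.SR.redr _root_.Run7.h824.SR.disr)
      Pool.Agent.N707.PF.MAJ.maj)
    Pool.Agent.N707.PF.MAJ.maj _root_.Run7.h824.SR.chir Pool.Agent.N482.PF.sq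

theorem prx : S_PRX :=
  _root_.Run7.h824.SR.prx (Pool.Agent.Run7.h711.SR.sdr int) (Pool.Agent.Run7.h711.SR.tvr int) lbr
    (Pool.Agent.N426.PF.ns int exq)

theorem res : S_RES := Pool.Agent.Run7.h67.SR.res Pool.Agent.Run7.h366.SR.gat

theorem hen : S_HEN := _root_.Run7.h576.SR.HEN.hen

theorem henq : S_HENQ := _root_.Run7.h576.SR.HEN.henq hen

theorem sqw : S_SQW :=
  Pool.Agent.Run7.h67.SR.sqw Pool.Agent.Run7.h366.SR.gat res henq Pool.Agent.N352.PF.dscT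

theorem irw : S_IRW := Pool.Agent.Run7.h228.SR.irw res henq Pool.Agent.N352.PF.dscT

theorem good : S_GOOD :=
  Pool.Agent.Run7.h697.SR.good res Pool.Agent.Run7.h697.SR.ff henq hen _root_.Run7.h576.SR.PL.pl
    Pool.Agent.N352.PF.dscT

theorem mulw : S_MULW := Pool.Agent.Run7.h890.SR.mulw res henq _root_.Run7.h576.SR.PL.pl

theorem sq2 : S_SQ2 :=
  Pool.Agent.Run7.h228.SR.sq2 Pool.Agent.Run7.h366.SR.gat henq Pool.Agent.N352.PF.dscT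

theorem uni : S_UNI :=
  Pool.Agent.Run7.h382.SR.uni Pool.Agent.Run7.h382.SR.UN1 Pool.Agent.Run7.h711.SR.clf
    (Pool.Agent.Run7.h711.SR.nev int exq) Pool.Agent.Run7.h382.SR.M16 sq2
    Pool.Agent.Run7.h711.SR.sqr exq

theorem bigj : S_BIGJ :=
  Pool.Agent.Run7.h245.SR.BIGJ.bigj Pool.Agent.Run7.h382.SR.CAND Pool.Agent.Run7.h245.SR.POOR.poor

theorem seld : S_SELD :=
  Pool.Agent.Run7.h245.SR.SELD.seld Pool.Agent.Run7.h245.SR.KUM.kum Pool.Agent.Run7.h245.SR.LTR.ltr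
    Pool.Agent.Run7.h245.SR.INJ.inj

theorem ramq : S_RAMQ :=
  _root_.Run7.h824.SR.ramq sqw _root_.Run7.h576.SR.PL.pl exq csq (Pool.Agent.N426.PF.ns int exq)

theorem loccF : S_LOCC :=
  locc _root_.Run7.h824.SR.lp2 _root_.Run7.h576.SR.SCL.scl (_root_.Run7.h576.SR.HEN.sq8 hen) irw
    _root_.Run7.h576.SR.SCG.scg good mulw ramq _root_.Run7.h576.SR.LPR.lpr

theorem twdNF : S_TWDN :=
  twdN bigj Pool.Agent.Run7.h245.SR.WALK.walk uni rec exq loc loccF Pool.Agent.N667.PF.gen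

open NumberField in
/-- The theorem. -/
theorem findF (F : Type) [Field F] [NumberField F] (d N : ℕ) :
    ∃ D₀ : ℕ, ∃ c : ℝ, 0 < c ∧ ∃ X₀ : ℝ, ∀ X : ℝ,
    {p : 𝓞 F × 𝓞 F | 4 * p.1 ^ 3 + 27 * p.2 ^ 2 ≠ 0 ∧ HnX X p}.Finite ∧ (X₀ ≤ X →
      0 < {p : 𝓞 F × 𝓞 F | 4 * p.1 ^ 3 + 27 * p.2 ^ 2 ≠ 0 ∧ HnX X p}.ncard ∧
      c * ({p : 𝓞 F × 𝓞 F | 4 * p.1 ^ 3 + 27 * p.2 ^ 2 ≠ 0 ∧ HnX X p}.ncard : ℝ) ≤
        ({p : 𝓞 F × 𝓞 F | (4 * p.1 ^ 3 + 27 * p.2 ^ 2 ≠ 0 ∧ HnX X p) ∧ QE d N D₀ p}.ncard : ℝ)) :=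
  find prx levb twdNF Pool.Agent.Run7.h68.SR.htu seld F d N

end Pool.Agent.Run7.h245.SR
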