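import Pool.Agent.Run7.h245.SR.Locc
import Pool.Agent.Run7.h245.NF.Fin
import Pool.Agent.N710.PF.Exs

/-!
# Project SR: the levels (part LEV)
-/

set_option autoImplicit false
set_option linter.all false

open Polynomial IsDedekindDomain Matrix NumberField WithZero
open scoped Classical

namespace Pool.Agent.Run7.h245.SR

open Pool.Agent.N352.PJ (Mt Typ dd)
open Pool.Agent.N874.PP (Ev Sq1 U0 S_LIN)
open Pool.Agent.N783.PQ (LocIm)
open Pool.Agent.N874.JM (LocF)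
open Pool.Agent.N874.PM (PLoc)
open Pool.Agent.N783.PF

/-- The number of residue classes. -/
noncomputable def Pi1 (F : Type) [Field F] [NumberField F] (S : Finset ℕ) : ℝ :=
  (((∏ q ∈ S, q ^ (2 * 1)) ^ Module.finrank ℚ F : ℕ) : ℝ)

/-- The exponent. -/
noncomputable def De (F : Type) [Field F] [NumberField F] : ℕ := Module.finrank ℚ F * dd 1

/-- The content of `S_PRX`. -/
def PrxP (F : Type) [Field F] [NumberField F] (m₀ κ : ℕ) : Prop :=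
  ∀ (L : Type) [Field L] [NumberField L] [Algebra F L] (f : (𝓞 F)[X]) (θ : L) (B N W : ℕ)
  (S C : Finset ℕ) (𝔮 : ℕ → Ideal (𝓞 F)) (h P : ℕ → (𝓞 F)[X]), κ ≤ W → GoodS 1 W S 𝔮 h P →
  C ⊆ S → IsGen 1 f θ → SqF 1 f → Ht 1 B f → 2 ^ κ * B ≤ 4 ^ N →
  (∀ q ∈ S, Cg (sp F q) f (P q)) →
  ∀ α : L, α ≠ 0 → IsSquare (Algebra.norm F α) → ¬ IsSquare α →
  (∀ 𝔓 : HeightOneSpectrum (𝓞 L), Ev 𝔓 α ∨ (m₀ : 𝓞 L) ∈ 𝔓.asIdeal) →
  (∀ q ∈ C, ∀ 𝔓 : HeightOneSpectrum (𝓞 L), Ov (𝔮 q) 𝔓 → Ev 𝔓 α) →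
  (∀ q ∈ C, ∀ 𝔓 : HeightOneSpectrum (𝓞 L), Ov (𝔮 q) 𝔓 → 𝔓.valuation L θ = 1 → Sq1 𝔓 α) →
  LBadC 1 N κ S C 𝔮 P f

/-- The bad set of `S_LEVB`. -/
def LvSet {F : Type} [Field F] [NumberField F] (N κ m : ℕ) (ε : ℝ) (S T : Finset ℕ)
    (𝔮 : ℕ → Ideal (𝓞 F)) (P : ℕ → (𝓞 F)[X]) : Set ((𝓞 F)[X]) :=
  {f | ∃ Z ⊆ T, (1 / 2 + ε) * T.card ≤ Z.card ∧ ∀ C ⊆ Z, C.card = m → LBadC 1 N κ S C 𝔮 P f}

/-- The content of `S_LEVB`. -/
def LevP (F : Type) [Field F] [NumberField F] (κ m K : ℕ) (δ ε : ℝ) (T : Finset ℕ) : Prop :=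
  ∀ (W : ℕ) (S : Finset ℕ) (𝔮 : ℕ → Ideal (𝓞 F)) (h P : ℕ → (𝓞 F)[X]), K ≤ W →
  GoodS 1 W S 𝔮 h P → T ⊆ S → ∃ N₀ : ℕ, ∀ N ≥ N₀, (LvSet N κ m ε S T 𝔮 P).Finite ∧
  Pi1 F S * ((LvSet N κ m ε S T 𝔮 P).ncard : ℝ) ≤ δ * 2 ^ (Module.finrank ℚ F * (2 * N * dd 1))

/-- The data of a level. -/
structure LvD (F : Type) [Field F] [NumberField F] (η ε : ℝ) (n₀ : ℕ) (S' T : Finset ℕ)
    (W' : ℕ) : Prop where
  big : n₀ ≤ T.card
  dat : ∃ (κ m : ℕ) (δ : ℝ), 0 < δ ∧ κ ≤ W' ∧ Pi1 F S' * (δ * (4 * 2 ^ κ) ^ De F) ≤ η ∧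
    PrxP F (∏ q ∈ S', q) κ ∧ LevP F κ m W' δ ε T

section

variable {F : Type} [Field F] [NumberField F]

theorem Pi1_pos {S : Finset ℕ} (h : ∀ q ∈ S, 0 < q) : 0 < Pi1 F S := by
  unfold Pi1
  have : 0 < (∏ q ∈ S, q ^ (2 * 1)) ^ Module.finrank ℚ F :=
    pow_pos (Finset.prod_pos fun q hq => pow_pos (h q hq) _) _
  exact_mod_cast this

theorem Pi1_union {S S' : Finset ℕ} (h : Disjoint S S') :
    Pi1 F (S ∪ S') = Pi1 F S * Pi1 F S' := by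
  unfold Pi1
  rw [Finset.prod_union h, mul_pow, Nat.cast_mul]

theorem exists_N (κ B : ℕ) (hB : 1 ≤ B) :
    ∃ N : ℕ, 2 ^ κ * B ≤ 4 ^ N ∧ 4 ^ N ≤ 4 * (2 ^ κ * B) := by
  refine ⟨Nat.log 4 (2 ^ κ * B) + 1, (Nat.lt_pow_succ_log_self (by norm_num) _).le, ?_⟩
  rw [pow_succ, mul_comm]
  refine Nat.mul_le_mul_left 4 (Nat.pow_log_le_self 4 ?_)
  positivity

theorem pow_bound {κ B N : ℕ} (h : 4 ^ N ≤ 4 * (2 ^ κ * B)) :
    (2 : ℝ) ^ (Module.finrank ℚ F * (2 * N * dd 1)) ≤ (4 * 2 ^ κ) ^ De F * (B : ℝ) ^ De F := by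
  have e : Module.finrank ℚ F * (2 * N * dd 1) = 2 * N * De F := by
    unfold De
    ring
  rw [e, pow_mul, pow_mul, ← mul_pow]
  have h' : ((2 : ℝ) ^ 2) ^ N ≤ 4 * 2 ^ κ * B := by
    have h1 : (4 : ℝ) ^ N ≤ 4 * (2 ^ κ * B) := by exact_mod_cast h
    calc ((2 : ℝ) ^ 2) ^ N = 4 ^ N := by norm_num
      _ ≤ 4 * (2 ^ κ * B) := h1
      _ = 4 * 2 ^ κ * B := by ring
  exact pow_le_pow_left₀ (by positivity) h' _

theorem N_ge {κ B N N₀ : ℕ} (h : 2 ^ κ * B ≤ 4 ^ N) (hB : 4 ^ N₀ ≤ B) : N₀ ≤ N := by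
  have e1 : 4 ^ N₀ ≤ 4 ^ N := hB.trans ((Nat.le_mul_of_pos_left _ (by positivity)).trans h)
  exact (Nat.pow_le_pow_iff_right (by norm_num)).1 e1

/-- The bad polynomials of a level. -/
theorem level_bad {η ε : ℝ} {n₀ : ℕ} {S' T S : Finset ℕ} {W' W'' : ℕ}
    {𝔮 : ℕ → Ideal (𝓞 F)} {r P : ℕ → (𝓞 F)[X]} (h : LvD F η ε n₀ S' T W')
    (hS : GoodS 1 W' S 𝔮 r P) (hT : T ⊆ S) (hS' : GoodS 1 W'' S' 𝔮 r P)
    (hdj : Disjoint S' T) :
    ∃ B₀ : ℕ, ∀ B ≥ B₀, ∃ Bd : Set ((𝓞 F)[X]), Bd.Finite ∧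
      Pi1 F S' * (Pi1 F S * (Bd.ncard : ℝ)) ≤ η * (B : ℝ) ^ De F ∧
      ∀ f, Ht 1 B f → SqF 1 f → (∀ q ∈ S, Cg (sp F q) f (P q)) → f ∉ Bd → PrAt 1 f 𝔮 S' T ε := by
  obtain ⟨κ, m, δ, hδ, hκ, hsm, hprx, hlev⟩ := h.dat
  obtain ⟨N₀, hN₀⟩ := hlev W' S 𝔮 r P le_rfl hS hT
  refine ⟨max (4 ^ N₀) 1, fun B hB => ?_⟩
  have hB1 : 1 ≤ B := (le_max_right _ _).trans hB
  obtain ⟨N, hNa, hNb⟩ := exists_N κ B hB1
  have hNN : N₀ ≤ N := N_ge hNa ((le_max_left _ _).trans hB)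
  obtain ⟨hfin, hcard⟩ := hN₀ N hNN
  have hP' : 0 < Pi1 F S' := Pi1_pos fun q hq => (hS' q hq).1.pos
  refine ⟨LvSet N κ m ε S T 𝔮 P, hfin, ?_, ?_⟩
  · calc Pi1 F S' * (Pi1 F S * ((LvSet N κ m ε S T 𝔮 P).ncard : ℝ))
        ≤ Pi1 F S' * (δ * 2 ^ (Module.finrank ℚ F * (2 * N * dd 1))) :=
          mul_le_mul_of_nonneg_left hcard hP'.le
      _ ≤ Pi1 F S' * (δ * ((4 * 2 ^ κ) ^ De F * (B : ℝ) ^ De F)) := by
          refine mul_le_mul_of_nonneg_left ?_ hP'.le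
          exact mul_le_mul_of_nonneg_left (pow_bound hNb) hδ.le
      _ = (Pi1 F S' * (δ * (4 * 2 ^ κ) ^ De F)) * (B : ℝ) ^ De F := by ring
      _ ≤ η * (B : ℝ) ^ De F := mul_le_mul_of_nonneg_right hsm (by positivity)
  · intro f hht hsq hcon hnb L _ _ _ θ hG α hα hnrm hns hev
    by_contra hcon2
    rw [not_le] at hcon2
    apply hnb
    refine ⟨T.filter fun q => ∀ 𝔓 : HeightOneSpectrum (𝓞 L), Ov (𝔮 q) 𝔓 →
      𝔓.valuation L θ = 1 → Sq1 𝔓 α, Finset.filter_subset _ _, hcon2.le, fun C hC _ => ?_⟩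
    have hCT : C ⊆ T := hC.trans (Finset.filter_subset _ _)
    refine hprx L f θ B N W' S C 𝔮 r P hκ hS (hCT.trans hT) hG hsq hht hNa hcon α hα hnrm hns
      (fun 𝔓 => ?_) (fun q hq 𝔓 hO => ?_) (fun q hq 𝔓 hO hv => ?_)
    · by_cases h1 : Ev 𝔓 α
      · exact Or.inl h1
      · right
        have h2 : ¬ ∀ q ∈ S', Ov (𝔮 q) 𝔓 → 𝔓.valuation L θ ≠ 1 := fun h3 => h1 (hev 𝔓 h3)
        push Not at h2
        obtain ⟨q, hq, hO, hv⟩ := h2
        have h4 := ov_nat hS' hq hO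
        have h5 : q ∣ ∏ q ∈ S', q := Finset.dvd_prod_of_mem _ hq
        obtain ⟨t, ht⟩ := h5
        rw [ht, Nat.cast_mul]
        exact Ideal.mul_mem_right _ _ h4
    · refine hev 𝔓 fun q' hq' hO' _ => ?_
      have hqS := hT (hCT hq)
      have e : q = q' := nat_uniq (hS q hqS).1 (hS' q' hq').1 (ov_nat hS hqS hO)
        (ov_nat hS' hq' hO')
      subst e
      exact Finset.disjoint_left.1 hdj hq' (hCT hq)
    · exact (Finset.mem_filter.1 (hC hq)).2 𝔓 hO hv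

/-- Existence of a level. -/
theorem exists_level (hPRX : S_PRX) (hLEVB : S_LEVB) (hEXS : S_EXS) {η ε : ℝ} (hη : 0 < η)
    (hε : 0 < ε) (hε2 : ε < 1 / 2) (n₀ : ℕ) (S' : Finset ℕ) (hS' : ∀ q ∈ S', 0 < q) (M : ℕ) :
    ∃ (T : Finset ℕ) (W' : ℕ) (𝔮 : ℕ → Ideal (𝓞 F)) (r P : ℕ → (𝓞 F)[X]), M ≤ W' ∧
      GoodS 1 W' T 𝔮 r P ∧ LvD F η ε n₀ S' T W' := by
  have hm₀ : (∏ q ∈ S', q) ≠ 0 := Finset.prod_ne_zero_iff.2 fun q hq => (hS' q hq).ne'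
  obtain ⟨κ, hκ⟩ := hPRX 1 F (∏ q ∈ S', q) hm₀ le_rfl
  have hP' : 0 < Pi1 F S' := Pi1_pos hS'
  obtain ⟨δ, hδ, hsm⟩ : ∃ δ : ℝ, 0 < δ ∧ Pi1 F S' * (δ * (4 * 2 ^ κ) ^ De F) ≤ η := by
    refine ⟨η / (Pi1 F S' * (4 * 2 ^ κ) ^ De F), by positivity, le_of_eq ?_⟩
    have h1 : Pi1 F S' ≠ 0 := hP'.ne'
    have h2 : ((4 * 2 ^ κ : ℝ) ^ De F) ≠ 0 := by positivity
    field_simp
  obtain ⟨m, s₀, K, hlev⟩ := hLEVB F 1 κ le_rfl δ ε hδ hε hε2
  obtain ⟨T, 𝔮, r, P, hT, hcard⟩ := hEXS F 1 (max M (max κ K)) le_rfl (max s₀ n₀)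
  refine ⟨T, max M (max κ K), 𝔮, r, P, le_max_left _ _, hT, ?_, κ, m, δ, hδ,
    (le_max_left _ _).trans (le_max_right _ _), hsm, hκ, ?_⟩
  · rw [hcard]
    exact le_max_right _ _
  · intro W S 𝔮' h' P' hW hS hTS
    exact hlev W S T 𝔮' h' P' (((le_max_right _ _).trans (le_max_right _ _)).trans hW) hS hTS
      (by rw [hcard]; exact le_max_left _ _)

/-- Several levels. -/
structure Lvs (F : Type) [Field F] [NumberField F] (η ε : ℝ) (n₀ W₀ K : ℕ) (T : ℕ → Finset ℕ)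
    (Wk : ℕ → ℕ) (𝔮 : ℕ → Ideal (𝓞 F)) (r P : ℕ → (𝓞 F)[X]) : Prop where
  base : ∀ k < K, W₀ ≤ Wk k
  good : ∀ k < K, GoodS 1 (Wk k) (T k) 𝔮 r P
  mono : ∀ i j, i ≤ j → j < K → Wk i ≤ Wk j
  lt : ∀ i j, i < j → j < K → ∀ q ∈ T i, q ≤ Wk j
  dat : ∀ k < K, LvD F η ε n₀ ((Finset.range k).biUnion T) (T k) (Wk k)

theorem bi_congr {T T' : ℕ → Finset ℕ} {k : ℕ} (h : ∀ i < k, T i = T' i) :
    (Finset.range k).biUnion T = (Finset.range k).biUnion T' :=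
  Finset.biUnion_congr rfl fun i hi => h i (Finset.mem_range.1 hi)

theorem goodS_congr {g W : ℕ} {S : Finset ℕ} {𝔮 𝔮' : ℕ → Ideal (𝓞 F)} {r r' P P' : ℕ → (𝓞 F)[X]}
    (h : GoodS g W S 𝔮 r P) (e1 : ∀ q ∈ S, 𝔮' q = 𝔮 q) (e2 : ∀ q ∈ S, r' q = r q)
    (e3 : ∀ q ∈ S, P' q = P q) : GoodS g W S 𝔮' r' P' := by
  intro q hq
  rw [e1 q hq, e2 q hq, e3 q hq]
  exact h q hq

theorem exists_levels (hPRX : S_PRX) (hLEVB : S_LEVB) (hEXS : S_EXS) {η ε : ℝ} (hη : 0 < η)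
    (hε : 0 < ε) (hε2 : ε < 1 / 2) (n₀ W₀ K : ℕ) :
    ∃ (T : ℕ → Finset ℕ) (Wk : ℕ → ℕ) (𝔮 : ℕ → Ideal (𝓞 F)) (r P : ℕ → (𝓞 F)[X]),
      Lvs F η ε n₀ W₀ K T Wk 𝔮 r P := by
  induction K with
  | zero =>
    exact ⟨fun _ => ∅, fun _ => 0, fun _ => ⊥, fun _ => 0, fun _ => 0,
      fun k hk => absurd hk (Nat.not_lt_zero _), fun k hk => absurd hk (Nat.not_lt_zero _),
      fun i j _ hk => absurd hk (Nat.not_lt_zero _), fun i j _ hk => absurd hk (Nat.not_lt_zero _),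
      fun k hk => absurd hk (Nat.not_lt_zero _)⟩
  | succ K ih =>
    obtain ⟨T, Wk, 𝔮, r, P, H⟩ := ih
    obtain ⟨S', hS'⟩ : ∃ S', S' = (Finset.range K).biUnion T := ⟨_, rfl⟩
    have hpos : ∀ q ∈ S', 0 < q := by
      intro q hq
      rw [hS'] at hq
      obtain ⟨k, hk, hqk⟩ := Finset.mem_biUnion.1 hq
      exact (H.good k (Finset.mem_range.1 hk) q hqk).1.pos
    obtain ⟨M, hM⟩ : ∃ M, M = W₀ + (∑ i ∈ Finset.range K, Wk i) + ∑ q ∈ S', q := ⟨_, rfl⟩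
    obtain ⟨Tn, Wn, 𝔮n, rn, Pn, hMW, hgn, hdn⟩ :=
      exists_level (F := F) hPRX hLEVB hEXS hη hε hε2 n₀ S' hpos M
    have hW₀ : W₀ ≤ Wn := le_trans (by omega) hMW
    have hWi : ∀ i < K, Wk i ≤ Wn := by
      intro i hi
      have h1 := Finset.single_le_sum (f := fun i => Wk i) (fun _ _ => Nat.zero_le _)
        (Finset.mem_range.2 hi)
      exact le_trans (by omega) hMW
    have hqi : ∀ q ∈ S', q ≤ Wn := by
      intro q hq
      have h1 := Finset.single_le_sum (f := fun q : ℕ => q) (fun _ _ => Nat.zero_le _) hq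
      exact le_trans (by omega) hMW
    have hout : ∀ k < K, ∀ q ∈ T k, q ∉ Tn := by
      intro k hk q hq hqn
      have h1 := hqi q (by rw [hS']; exact Finset.mem_biUnion.2 ⟨k, Finset.mem_range.2 hk, hq⟩)
      have h2 : Wn < q := (hgn q hqn).2.1
      omega
    have hTk : ∀ k < K, Function.update T K Tn k = T k := fun k hk =>
      Function.update_of_ne hk.ne _ _
    have hWk : ∀ k < K, Function.update Wk K Wn k = Wk k := fun k hk =>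
      Function.update_of_ne hk.ne _ _
    have hbi : ∀ k ≤ K, (Finset.range k).biUnion (Function.update T K Tn) =
        (Finset.range k).biUnion T := fun k hk => bi_congr fun i hi => hTk i (hi.trans_le hk)
    refine ⟨Function.update T K Tn, Function.update Wk K Wn,
      fun q => if q ∈ Tn then 𝔮n q else 𝔮 q, fun q => if q ∈ Tn then rn q else r q,
      fun q => if q ∈ Tn then Pn q else P q, ?_, ?_, ?_, ?_, ?_⟩
    · intro k hk
      rcases Nat.lt_succ_iff_lt_or_eq.1 hk with hk | rfl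
      · rw [hWk k hk]
        exact H.base k hk
      · rw [Function.update_self]
        exact hW₀
    · intro k hk
      rcases Nat.lt_succ_iff_lt_or_eq.1 hk with hk | rfl
      · rw [hWk k hk, hTk k hk]
        exact goodS_congr (H.good k hk) (fun q hq => if_neg (hout k hk q hq))
          (fun q hq => if_neg (hout k hk q hq)) (fun q hq => if_neg (hout k hk q hq))
      · rw [Function.update_self, Function.update_self]
        exact goodS_congr hgn (fun q hq => if_pos hq) (fun q hq => if_pos hq)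
          (fun q hq => if_pos hq)
    · intro i j hij hj
      rcases Nat.lt_succ_iff_lt_or_eq.1 hj with hj | rfl
      · rw [hWk j hj, hWk i (hij.trans_lt hj)]
        exact H.mono i j hij hj
      · rw [Function.update_self]
        rcases hij.lt_or_eq with hij | rfl
        · rw [hWk i hij]
          exact hWi i hij
        · rw [Function.update_self]
    · intro i j hij hj q hq
      rcases Nat.lt_succ_iff_lt_or_eq.1 hj with hj | rfl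
      · rw [hWk j hj]
        rw [hTk i (hij.trans hj)] at hq
        exact H.lt i j hij hj q hq
      · rw [Function.update_self]
        rw [hTk i hij] at hq
        exact hqi q (by rw [hS']; exact Finset.mem_biUnion.2 ⟨i, Finset.mem_range.2 hij, hq⟩)
    · intro k hk
      rcases Nat.lt_succ_iff_lt_or_eq.1 hk with hk | rfl
      · rw [hWk k hk, hTk k hk, hbi k hk.le]
        exact H.dat k hk
      · rw [Function.update_self, Function.update_self, hbi k le_rfl, ← hS']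
        exact hdn

variable {η ε : ℝ} {n₀ W₀ K : ℕ} {T : ℕ → Finset ℕ} {Wk : ℕ → ℕ} {𝔮 : ℕ → Ideal (𝓞 F)}
  {r P : ℕ → (𝓞 F)[X]}

theorem Lvs.disj (H : Lvs F η ε n₀ W₀ K T Wk 𝔮 r P) : ∀ i < K, ∀ j < K, i ≠ j →
    Disjoint (T i) (T j) := by
  have key : ∀ i j, i < j → j < K → Disjoint (T i) (T j) := by
    intro i j hij hj
    rw [Finset.disjoint_left]
    intro q hq hq'
    have h1 := H.lt i j hij hj q hq
    have h2 : Wk j < q := (H.good j hj q hq').2.1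
    omega
  intro i hi j hj hij
  rcases lt_or_gt_of_ne hij with h | h
  · exact key i j h hj
  · exact (key j i h hi).symm

/-- The levels `≥ k`. -/
theorem Lvs.good_ge (H : Lvs F η ε n₀ W₀ K T Wk 𝔮 r P) {k : ℕ} (hk : k < K) :
    GoodS 1 (Wk k) ((Finset.Ico k K).biUnion T) 𝔮 r P := by
  intro q hq
  obtain ⟨j, hj, hqj⟩ := Finset.mem_biUnion.1 hq
  rw [Finset.mem_Ico] at hj
  obtain ⟨h1, h2, h3⟩ := H.good j hj.2 q hqj
  exact ⟨h1, (H.mono k j hj.1 hj.2).trans_lt h2, h3⟩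

/-- All levels. -/
theorem Lvs.good_all (H : Lvs F η ε n₀ W₀ K T Wk 𝔮 r P) :
    GoodS 1 W₀ ((Finset.range K).biUnion T) 𝔮 r P := by
  intro q hq
  obtain ⟨j, hj, hqj⟩ := Finset.mem_biUnion.1 hq
  rw [Finset.mem_range] at hj
  obtain ⟨h1, h2, h3⟩ := H.good j hj q hqj
  exact ⟨h1, (H.base j hj).trans_lt h2, h3⟩

theorem Lvs.union (H : Lvs F η ε n₀ W₀ K T Wk 𝔮 r P) {k : ℕ} (hk : k < K) :
    (Finset.range K).biUnion T = (Finset.range k).biUnion T ∪ (Finset.Ico k K).biUnion T ∧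
    Disjoint ((Finset.range k).biUnion T) ((Finset.Ico k K).biUnion T) := by
  constructor
  · ext q
    simp only [Finset.mem_biUnion, Finset.mem_union, Finset.mem_range, Finset.mem_Ico]
    constructor
    · rintro ⟨j, hj, hq⟩
      rcases lt_or_ge j k with h | h
      · exact Or.inl ⟨j, h, hq⟩
      · exact Or.inr ⟨j, ⟨h, hj⟩, hq⟩
    · rintro (⟨j, hj, hq⟩ | ⟨j, hj, hq⟩)
      · exact ⟨j, hj.trans hk, hq⟩
      · exact ⟨j, hj.2, hq⟩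
  · rw [Finset.disjoint_left]
    intro q hq hq'
    obtain ⟨i, hi, hqi⟩ := Finset.mem_biUnion.1 hq
    obtain ⟨j, hj, hqj⟩ := Finset.mem_biUnion.1 hq'
    rw [Finset.mem_range] at hi
    rw [Finset.mem_Ico] at hj
    exact Finset.disjoint_left.1 (H.disj i (hi.trans hk) j hj.2 (by omega)) hqi hqj

/-- The bad polynomials of all levels. -/
theorem Lvs.bad (H : Lvs F η ε n₀ W₀ K T Wk 𝔮 r P) (hη : 0 < η) :
    ∃ B₀ : ℕ, ∀ B ≥ B₀, ∃ Bd : Set ((𝓞 F)[X]), Bd.Finite ∧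
      Pi1 F ((Finset.range K).biUnion T) * (Bd.ncard : ℝ) ≤ K * η * (B : ℝ) ^ De F ∧
      ∀ f, Ht 1 B f → SqF 1 f → (∀ q ∈ (Finset.range K).biUnion T, Cg (sp F q) f (P q)) →
        f ∉ Bd → ∀ k < K, PrAt 1 f 𝔮 ((Finset.range k).biUnion T) (T k) ε := by
  have key : ∀ k < K, ∃ B₀ : ℕ, ∀ B ≥ B₀, ∃ Bd : Set ((𝓞 F)[X]), Bd.Finite ∧
      Pi1 F ((Finset.range K).biUnion T) * (Bd.ncard : ℝ) ≤ η * (B : ℝ) ^ De F ∧
      ∀ f, Ht 1 B f → SqF 1 f → (∀ q ∈ (Finset.range K).biUnion T, Cg (sp F q) f (P q)) →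
        f ∉ Bd → PrAt 1 f 𝔮 ((Finset.range k).biUnion T) (T k) ε := by
    intro k hk
    obtain ⟨hU, hD⟩ := H.union hk
    have hTk : T k ⊆ (Finset.Ico k K).biUnion T := by
      intro q hq
      exact Finset.mem_biUnion.2 ⟨k, Finset.mem_Ico.2 ⟨le_rfl, hk⟩, hq⟩
    have hS' : GoodS 1 W₀ ((Finset.range k).biUnion T) 𝔮 r P := by
      intro q hq
      refine H.good_all q ?_
      rw [hU]
      exact Finset.mem_union_left _ hq
    obtain ⟨B₀, hB₀⟩ := level_bad (H.dat k hk) (H.good_ge hk) hTk hS'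
      (Disjoint.mono_right hTk hD)
    refine ⟨B₀, fun B hB => ?_⟩
    obtain ⟨Bd, h1, h2, h3⟩ := hB₀ B hB
    refine ⟨Bd, h1, ?_, fun f a1 a2 a3 a4 => h3 f a1 a2 (fun q hq => a3 q ?_) a4⟩
    · rw [hU, Pi1_union hD, mul_assoc]
      exact h2
    · rw [hU]
      exact Finset.mem_union_right _ hq
  choose! B₀ hB₀ using key
  refine ⟨∑ k ∈ Finset.range K, B₀ k, fun B hB => ?_⟩
  have hB' : ∀ k < K, B₀ k ≤ B := by
    intro k hk
    have h1 := Finset.single_le_sum (f := fun i => B₀ i) (fun _ _ => Nat.zero_le _)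
      (Finset.mem_range.2 hk)
    exact h1.trans hB
  have key2 : ∀ k : ℕ, ∃ Bd : Set ((𝓞 F)[X]), k < K → (Bd.Finite ∧
      Pi1 F ((Finset.range K).biUnion T) * (Bd.ncard : ℝ) ≤ η * (B : ℝ) ^ De F ∧
      ∀ f, Ht 1 B f → SqF 1 f → (∀ q ∈ (Finset.range K).biUnion T, Cg (sp F q) f (P q)) →
        f ∉ Bd → PrAt 1 f 𝔮 ((Finset.range k).biUnion T) (T k) ε) := by
    intro k
    by_cases hk : k < K
    · obtain ⟨Bd, h⟩ := hB₀ k hk B (hB' k hk)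
      exact ⟨Bd, fun _ => h⟩
    · exact ⟨∅, fun h => absurd h hk⟩
  choose Bd hBd using key2
  have hP : 0 < Pi1 F ((Finset.range K).biUnion T) := Pi1_pos fun q hq =>
    (H.good_all q hq).1.pos
  -- the union
  have hun : ∀ n ≤ K, (⋃ k ∈ Finset.range n, Bd k).Finite ∧
      Pi1 F ((Finset.range K).biUnion T) * ((⋃ k ∈ Finset.range n, Bd k).ncard : ℝ) ≤
        n * η * (B : ℝ) ^ De F := by
    intro n
    induction n with
    | zero =>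
      intro _
      simp
    | succ n ih =>
      intro hn
      obtain ⟨i1, i2⟩ := ih (by omega)
      obtain ⟨j1, j2, -⟩ := hBd n (by omega)
      have e : (⋃ k ∈ Finset.range (n + 1), Bd k) = (⋃ k ∈ Finset.range n, Bd k) ∪ Bd n := by
        rw [Finset.range_add_one, Finset.set_biUnion_insert, Set.union_comm]
      rw [e]
      refine ⟨i1.union j1, ?_⟩
      have h1 : (((⋃ k ∈ Finset.range n, Bd k) ∪ Bd n).ncard : ℝ) ≤
          ((⋃ k ∈ Finset.range n, Bd k).ncard : ℝ) + (Bd n).ncard := by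
        exact_mod_cast Set.ncard_union_le _ _
      calc _ ≤ Pi1 F ((Finset.range K).biUnion T) *
            (((⋃ k ∈ Finset.range n, Bd k).ncard : ℝ) + (Bd n).ncard) :=
            mul_le_mul_of_nonneg_left h1 hP.le
        _ ≤ n * η * (B : ℝ) ^ De F + η * (B : ℝ) ^ De F := by
            rw [mul_add]
            exact add_le_add i2 j2
        _ = _ := by push_cast; ring
  obtain ⟨u1, u2⟩ := hun K le_rfl
  refine ⟨_, u1, u2, fun f a1 a2 a3 a4 k hk => (hBd k hk).2.2 f a1 a2 a3 fun h => a4 ?_⟩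
  exact Set.mem_biUnion (Finset.mem_coe.2 (Finset.mem_range.2 hk)) h

/-- The polynomials of the family satisfy the conditions at the small primes. -/
theorem small_of {W : ℕ} {f₁ f : (𝓞 F)[X]} (hf₁ : GoodF 1 W f₁)
    (hΨ : ∀ v : HeightOneSpectrum (𝓞 F), (W : 𝓞 F) ∈ v.asIdeal →
      Irreducible (Pool.Agent.N352.PF.rv v f₁))
    (hp : ∀ p : ℕ, p.Prime → p ≤ 7 → p ∣ W) (hm : f.Monic) (hd : f.natDegree = 2 * 1 + 1)
    (hc : Cg (sp F W) f f₁) : Small W f := by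
  have hcw : ∀ w : HeightOneSpectrum (𝓞 F), (W : 𝓞 F) ∈ w.asIdeal → Cg w.asIdeal f f₁ := by
    intro w hw j
    have h4 : sp F W ≤ w.asIdeal := by
      rw [sp, Ideal.span_singleton_le_iff_mem]
      exact hw
    exact h4 (hc j)
  refine ⟨hp, fun w hw => ?_, fun w hw => ?_⟩
  · have h6 : (W : 𝓞 F) ∈ w.asIdeal := by
      have e : (6 : 𝓞 F) = ((2 : ℕ) : 𝓞 F) * ((3 : ℕ) : 𝓞 F) := by norm_num
      rw [e] at hw
      rcases w.isPrime.mem_or_mem hw with h | h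
      · obtain ⟨t, ht⟩ := hp 2 Nat.prime_two (by norm_num)
        rw [ht, Nat.cast_mul]
        exact Ideal.mul_mem_right _ _ h
      · obtain ⟨t, ht⟩ := hp 3 Nat.prime_three (by norm_num)
        rw [ht, Nat.cast_mul]
        exact Ideal.mul_mem_right _ _ h
    rw [Pool.Agent.N771.PF.rd_eq (hcw w h6)]
    exact hΨ w h6
  · exact Pool.Agent.N352.PF.dscT F 1 w.asIdeal f f₁ le_rfl w.isPrime w.ne_bot hm hd (hcw w hw)
      (hf₁.sep w.asIdeal w.isPrime hw)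

end

/-- Existence of the levels and a positive proportion. -/
theorem lev (hPRX : S_PRX) (hLEVB : S_LEVB) : S_LEV := by
  intro F _ _ K n₀ ε hε
  have key : ∀ K : ℕ, 0 < K →
      ∃ (W : ℕ) (T : ℕ → Finset ℕ) (𝔮 : ℕ → Ideal (𝓞 F)) (r P : ℕ → (𝓞 F)[X]),
    GoodS 1 W ((Finset.range K).biUnion T) 𝔮 r P ∧ (∀ k < K, n₀ ≤ (T k).card) ∧
    (∀ i < K, ∀ j < K, i ≠ j → Disjoint (T i) (T j)) ∧
    ∃ c : ℝ, 0 < c ∧ ∃ B₀ : ℕ, ∀ B ≥ B₀, {f : (𝓞 F)[X] | Ht 1 B f}.Finite ∧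
      c * ({f : (𝓞 F)[X] | Ht 1 B f}.ncard : ℝ) ≤
      ({f : (𝓞 F)[X] | Ht 1 B f ∧ Irreducible (fF f) ∧ SqF 1 f ∧ Small W f ∧
        (∃ f₁ : (𝓞 F)[X], GoodF 1 W f₁ ∧ Cg (sp F W) f f₁) ∧
        (∀ q ∈ (Finset.range K).biUnion T, Cg (sp F q) f (P q)) ∧
        ∀ k < K, PrAt 1 f 𝔮 ((Finset.range k).biUnion T) (T k) ε}.ncard : ℝ) := by
    intro K hK
    obtain ⟨κ, hsqf⟩ := sqf 1 F le_rfl
    obtain ⟨C, Kb, hbad⟩ := bad F 1 κ le_rfl
    obtain ⟨W, f₁, hKW, hf₁, hΨ, hp, c, hc, hfam⟩ := Pool.Agent.Run7.h245.NF.fam1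
      Pool.Agent.N352.PF.bxT
      (Pool.Agent.N352.PF.SML99.sml Pool.Agent.N75.PF.cu Pool.Agent.N352.PF.bxT
        Pool.Agent.N189.PF.ld Pool.Agent.N195.PF.pr Pool.Agent.N195.PF.pf)
      Pool.Agent.N935.PF.WK.wk
      (Pool.Agent.N352.PF.STR331.str Pool.Agent.N75.PF.cu Pool.Agent.N364.PF.cl
        Pool.Agent.N195.PF.pf)
      Pool.Agent.N195.PF.dscp Pool.Agent.N195.PF.pf F 1
      (fun W f₁ => ∀ v : HeightOneSpectrum (𝓞 F), (W : 𝓞 F) ∈ v.asIdeal →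
        Irreducible (Pool.Agent.N352.PF.rv v f₁)) (Pool.Agent.Run7.h245.NF.gf1 F) le_rfl
      (max (max Kb κ) 7)
    obtain ⟨-, Cp, hCp, -, hpt⟩ := Pool.Agent.N490.PF.pts F
    have hη : 0 < c / (4 * (K + 1)) := by positivity
    obtain ⟨m, hm⟩ : ∃ m : ℕ, 4 * (C * (4 * 2 ^ κ : ℝ) ^ De F) / c < 2 ^ m :=
      pow_unbounded_of_one_lt _ (by norm_num)
    have hε1 : 0 < min ε (1 / 4) := lt_min hε (by norm_num)
    have hε2 : min ε (1 / 4) < 1 / 2 := (min_le_right _ _).trans_lt (by norm_num)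
    obtain ⟨T, Wk, 𝔮, r, P, H⟩ := exists_levels (F := F) hPRX hLEVB Pool.Agent.N710.PF.exs hη hε1
      hε2 (max n₀ m) W K
    obtain ⟨S, hSd⟩ : ∃ S, (Finset.range K).biUnion T = S := ⟨_, rfl⟩
    have hS := H.good_all
    have hcardS : m ≤ S.card := by
      have h1 : T 0 ⊆ S := by
        rw [← hSd]
        exact fun q hq => Finset.mem_biUnion.2 ⟨0, Finset.mem_range.2 hK, hq⟩
      exact ((le_max_right _ _).trans (H.dat 0 hK).big).trans (Finset.card_le_card h1)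
    obtain ⟨B₂, hB₂⟩ := H.bad hη
    rw [hSd] at hS hB₂
    obtain ⟨B₁, hB₁⟩ := hfam S 𝔮 r P hS
    obtain ⟨N₀, hN₀⟩ := hbad W S 𝔮 r P
      ((le_max_left _ _).trans ((le_max_left _ _).trans hKW)) hS
    have hκW : κ ≤ W := (le_max_right _ _).trans ((le_max_left _ _).trans hKW)
    have hPi : 0 < Pi1 F S := Pi1_pos fun q hq => (hS q hq).1.pos
    refine ⟨W, T, 𝔮, r, P, by rw [hSd]; exact hS, fun k hk => (le_max_left _ _).trans (H.dat k hk).big,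
      H.disj, c / 2 / (Pi1 F S * (2 * Cp) ^ (2 * 1)), by positivity,
      max (max B₁ (4 ^ N₀)) (max B₂ 1), fun B hB => ?_⟩
    have hb1 : 1 ≤ B := (le_max_right _ _).trans ((le_max_right _ _).trans hB)
    have hb2 : B₂ ≤ B := (le_max_left _ _).trans ((le_max_right _ _).trans hB)
    have hb3 : B₁ ≤ B := (le_max_left _ _).trans ((le_max_left _ _).trans hB)
    have hb4 : 4 ^ N₀ ≤ B := (le_max_right _ _).trans ((le_max_left _ _).trans hB)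
    obtain ⟨hHf, hHc⟩ := Pool.Agent.N99.PF.ht_card hCp hpt 1 B hb1
    refine ⟨hHf, ?_⟩
    obtain ⟨N, hNa, hNb⟩ := exists_N κ B hb1
    obtain ⟨hfin1, hcard1⟩ := hN₀ N (N_ge hNa hb4)
    obtain ⟨Bd, hfin2, hcard2, hBd⟩ := hB₂ B hb2
    have hfm := hB₁ B hb3
    rw [hSd]
    set G := {f : (𝓞 F)[X] | Ht 1 B f ∧ Irreducible (fF f) ∧ SqF 1 f ∧ Small W f ∧
        (∃ f₁ : (𝓞 F)[X], GoodF 1 W f₁ ∧ Cg (sp F W) f f₁) ∧
        (∀ q ∈ S, Cg (sp F q) f (P q)) ∧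
        ∀ k < K, PrAt 1 f 𝔮 ((Finset.range k).biUnion T) (T k) ε} with hGdef
    have hGf : G.Finite := hHf.subset fun f hf => hf.1
    have hsub : {f : (𝓞 F)[X] | Fam 1 B W f₁ S P f} ⊆
        G ∪ ({f : (𝓞 F)[X] | LBad 1 N κ S 𝔮 P f} ∪ Bd) := by
      intro f hf
      by_cases h1 : f ∈ {f : (𝓞 F)[X] | LBad 1 N κ S 𝔮 P f}
      · exact Or.inr (Or.inl h1)
      · by_cases h2 : f ∈ Bd
        · exact Or.inr (Or.inr h2)
        · left
          have hfa : Fam 1 B W f₁ S P f := hf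
          have hirr : Irreducible (fF f) := Pool.Agent.N667.PF.irr F 1 W f₁ f hf₁ hfa.one
            hfa.ht.mon hfa.ht.deg
          have hsq : SqF 1 f := hsqf B N W f₁ S 𝔮 r P f hκW hf₁ hS hfa hirr hNa hb1 h1
          refine ⟨hfa.ht, hirr, hsq, small_of hf₁ hΨ (fun p h3 h4 => hp p h3
            (h4.trans (le_max_right _ _))) hfa.ht.mon hfa.ht.deg hfa.one, ⟨f₁, hf₁, hfa.one⟩,
            hfa.con, fun k hk => ?_⟩
          have h5 := hBd f hfa.ht hsq hfa.con h2 k hk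
          intro L _ _ _ θ hG α hα hn hns hev
          refine (h5 L θ hG α hα hn hns hev).trans ?_
          refine mul_le_mul_of_nonneg_right ?_ (Nat.cast_nonneg _)
          linarith [min_le_left ε (1 / 4)]
    have hc1 : ({f : (𝓞 F)[X] | Fam 1 B W f₁ S P f}.ncard : ℝ) ≤
        (G.ncard : ℝ) + (({f : (𝓞 F)[X] | LBad 1 N κ S 𝔮 P f}.ncard : ℝ) + (Bd.ncard : ℝ)) := by
      have h1 := Set.ncard_le_ncard hsub (hGf.union (hfin1.union hfin2))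
      have h2 := Set.ncard_union_le G ({f : (𝓞 F)[X] | LBad 1 N κ S 𝔮 P f} ∪ Bd)
      have h3 := Set.ncard_union_le {f : (𝓞 F)[X] | LBad 1 N κ S 𝔮 P f} Bd
      exact_mod_cast h1.trans (h2.trans (Nat.add_le_add_left h3 _))
    have hc2 : Pi1 F S * ({f : (𝓞 F)[X] | LBad 1 N κ S 𝔮 P f}.ncard : ℝ) ≤
        c / 4 * (B : ℝ) ^ De F := by
      have h1 : (2 : ℝ) ^ S.card * Pi1 F S *
          ({f : (𝓞 F)[X] | LBad 1 N κ S 𝔮 P f}.ncard : ℝ) ≤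
          C * 2 ^ (Module.finrank ℚ F * (2 * N * dd 1)) := by
        unfold Pi1
        exact_mod_cast hcard1
      have h2 := h1.trans (mul_le_mul_of_nonneg_left (pow_bound hNb) (Nat.cast_nonneg C))
      have h3 : (2 : ℝ) ^ m ≤ 2 ^ S.card := pow_le_pow_right₀ (by norm_num) hcardS
      have h4 : 4 * (C * (4 * 2 ^ κ : ℝ) ^ De F) ≤ c * 2 ^ S.card := by
        rw [div_lt_iff₀ hc] at hm
        nlinarith
      have h5 : (0 : ℝ) < 2 ^ S.card := by positivity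
      have h6 : (0 : ℝ) ≤ (B : ℝ) ^ De F := by positivity
      have h7 : (2 : ℝ) ^ S.card * (Pi1 F S *
          ({f : (𝓞 F)[X] | LBad 1 N κ S 𝔮 P f}.ncard : ℝ)) ≤
          2 ^ S.card * (c / 4 * (B : ℝ) ^ De F) := by
        calc _ = (2 : ℝ) ^ S.card * Pi1 F S *
              ({f : (𝓞 F)[X] | LBad 1 N κ S 𝔮 P f}.ncard : ℝ) := by ring
          _ ≤ C * ((4 * 2 ^ κ) ^ De F * (B : ℝ) ^ De F) := h2
          _ = (C * (4 * 2 ^ κ : ℝ) ^ De F) * (B : ℝ) ^ De F := by ring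
          _ ≤ (c / 4 * 2 ^ S.card) * (B : ℝ) ^ De F :=
              mul_le_mul_of_nonneg_right (by linarith) h6
          _ = _ := by ring
      exact le_of_mul_le_mul_left h7 h5
    have hc3 : (K : ℝ) * (c / (4 * (K + 1))) * (B : ℝ) ^ De F ≤ c / 4 * (B : ℝ) ^ De F := by
      refine mul_le_mul_of_nonneg_right ?_ (by positivity)
      rw [mul_div_assoc', div_le_div_iff₀ (by positivity) (by norm_num)]
      nlinarith
    have hc4 : c * (B : ℝ) ^ De F ≤ Pi1 F S * ({f : (𝓞 F)[X] | Fam 1 B W f₁ S P f}.ncard : ℝ) := hfm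
    have hc5 : c / 2 * (B : ℝ) ^ De F ≤ Pi1 F S * (G.ncard : ℝ) := by
      have h1 := mul_le_mul_of_nonneg_left hc1 hPi.le
      nlinarith
    calc c / 2 / (Pi1 F S * (2 * Cp) ^ (2 * 1)) * ({f : (𝓞 F)[X] | Ht 1 B f}.ncard : ℝ)
        ≤ c / 2 / (Pi1 F S * (2 * Cp) ^ (2 * 1)) *
          ((2 * Cp) ^ (2 * 1) * (B : ℝ) ^ De F) :=
          mul_le_mul_of_nonneg_left hHc (by positivity)
      _ = (c / 2 * (B : ℝ) ^ De F) / Pi1 F S := by
          field_simp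
      _ ≤ (Pi1 F S * (G.ncard : ℝ)) / Pi1 F S := by gcongr
      _ = G.ncard := by field_simp
  rcases Nat.eq_zero_or_pos K with rfl | hK
  · obtain ⟨W, T, 𝔮, r, P, h1, h2, h3, c, hc, B₀, hB₀⟩ := key 1 one_pos
    refine ⟨W, T, 𝔮, r, P, fun q hq => absurd hq (by simp), fun k hk => absurd hk (Nat.not_lt_zero _),
      fun k hk => absurd hk (Nat.not_lt_zero _), c, hc, B₀, fun B hB => ?_⟩
    obtain ⟨a1, a2⟩ := hB₀ B hB
    refine ⟨a1, a2.trans ?_⟩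
    have h4 := Set.ncard_le_ncard (s := {f : (𝓞 F)[X] | Ht 1 B f ∧ Irreducible (fF f) ∧ SqF 1 f ∧
        Small W f ∧ (∃ f₁ : (𝓞 F)[X], GoodF 1 W f₁ ∧ Cg (sp F W) f f₁) ∧
        (∀ q ∈ (Finset.range 1).biUnion T, Cg (sp F q) f (P q)) ∧
        ∀ k < 1, PrAt 1 f 𝔮 ((Finset.range k).biUnion T) (T k) ε})
      (t := {f : (𝓞 F)[X] | Ht 1 B f ∧ Irreducible (fF f) ∧ SqF 1 f ∧
        Small W f ∧ (∃ f₁ : (𝓞 F)[X], GoodF 1 W f₁ ∧ Cg (sp F W) f f₁) ∧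
        (∀ q ∈ (Finset.range 0).biUnion T, Cg (sp F q) f (P q)) ∧
        ∀ k < 0, PrAt 1 f 𝔮 ((Finset.range k).biUnion T) (T k) ε}) ?_
        (a1.subset fun f hf => hf.1)
    · exact_mod_cast h4
    · rintro f ⟨b1, b2, b3, b4, b5, -, -⟩
      exact ⟨b1, b2, b3, b4, b5, fun q hq => absurd hq (by simp),
        fun k hk => absurd hk (Nat.not_lt_zero _)⟩
  · exact key K hK

end Pool.Agent.Run7.h245.SR
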