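import Pool.Agent.Run7.h245.SR.Grp
import Pool.Agent.N170.PF.Tw
import Pool.Agent.N61.PF.Fin1
import Pool.Agent.N521.QM.Selc

/-!
# Project SR: the cubic polynomial of the twist

After `N170/PF/Tw.lean` (helper170) and `N61/PF/Fin1.lean` (helper61).
-/

set_option autoImplicit false
set_option linter.all false

open Polynomial IsDedekindDomain Matrix NumberField WithZero
open scoped Classical

namespace Pool.Agent.Run7.h245.SR

open Pool.Agent.N874.PP (Ev Sq1 U0 S_LIN)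
open Pool.Agent.N783.PQ (LocIm)
open Pool.Agent.N874.JM (LocF)
open Pool.Agent.N874.PM (PLoc)
open Pool.Agent.N783.PF

section

variable {F : Type} [Field F] [NumberField F]

theorem fF_cub {f : (𝓞 F)[X]} (hm : f.Monic) (hd : f.natDegree = 3) (h2 : f.coeff 2 = 0) :
    fF f = cb ((f.coeff 1 : 𝓞 F) : F) ((f.coeff 0 : 𝓞 F) : F) := by
  have h3 : f.coeff 3 = 1 := by
    have := hm.coeff_natDegree
    rwa [hd] at this
  have hdc : (cb ((f.coeff 1 : 𝓞 F) : F) ((f.coeff 0 : 𝓞 F) : F)).natDegree = 3 := by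
    unfold cb; compute_degree!
  refine Polynomial.ext fun n => ?_
  rcases lt_or_ge n 4 with hn | hn
  · rw [fF, coeff_map]
    interval_cases n
    · simp
    · simp [coeff_X, coeff_C]
    · rw [h2]; simp [coeff_X, coeff_C]
    · rw [h3]; simp [coeff_X, coeff_C]
  · rw [coeff_eq_zero_of_natDegree_lt (p := cb _ _) (n := n) (by rw [hdc]; omega), fF, coeff_map,
      coeff_eq_zero_of_natDegree_lt (p := f) (n := n) (by omega), map_zero]

theorem cb_scale {f : (𝓞 F)[X]} (hm : f.Monic) (hd : f.natDegree = 3) (h2 : f.coeff 2 = 0)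
    (D : ℕ) : fF (f.scaleRoots (D : 𝓞 F)) =
      cb (((f.coeff 1 : 𝓞 F) : F) * (D : F) ^ 2) (((f.coeff 0 : 𝓞 F) : F) * (D : F) ^ 3) := by
  have hm' : (f.scaleRoots (D : 𝓞 F)).Monic := (monic_scaleRoots_iff (D : 𝓞 F)).2 hm
  have hd' : (f.scaleRoots (D : 𝓞 F)).natDegree = 3 := by rw [natDegree_scaleRoots, hd]
  have h2' : (f.scaleRoots (D : 𝓞 F)).coeff 2 = 0 := by rw [coeff_scaleRoots, h2, zero_mul]
  rw [fF_cub hm' hd' h2', coeff_scaleRoots, coeff_scaleRoots, hd]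
  norm_num

theorem theta_ne {L : Type} [Field L] [NumberField L] [Algebra F L] {f : (𝓞 F)[X]} {θ : L}
    (hG : IsGen 1 f θ) : θ ≠ 0 := by
  intro h0
  have h1 : ∀ x : L, ∃ c : F, algebraMap F L c = x := by
    intro x
    obtain ⟨c, hc⟩ := hG.gen x
    refine ⟨c 0, ?_⟩
    rw [hc, Fin.sum_univ_three, h0]
    simp
  have h2 : Module.finrank F L ≤ 1 := by
    apply finrank_le_one (1 : L)
    intro x
    obtain ⟨c, hc⟩ := h1 x
    exact ⟨c, by rw [Algebra.smul_def, mul_one, hc]⟩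
  have := hG.rank
  omega

/-- Squares modulo the polynomial of the twist. -/
theorem sq_iff {L : Type} [Field L] [NumberField L] [Algebra F L] {f : (𝓞 F)[X]} {θ : L}
    (hG : IsGen 1 f θ) (h2 : f.coeff 2 = 0) (hirr : Irreducible (fF f)) {D : ℕ} (hD : D ≠ 0) :
    Irreducible (cb (((f.coeff 1 : 𝓞 F) : F) * (D : F) ^ 2)
      (((f.coeff 0 : 𝓞 F) : F) * (D : F) ^ 3)) ∧
    (∀ h : F[X], IsCoprime h (cb (((f.coeff 1 : 𝓞 F) : F) * (D : F) ^ 2)
      (((f.coeff 0 : 𝓞 F) : F) * (D : F) ^ 3)) → aeval ((D : L) * θ) h ≠ 0) ∧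
    (∀ h : F[X], IsSquare (Algebra.norm F (AdjoinRoot.mk (cb (((f.coeff 1 : 𝓞 F) : F) * (D : F) ^ 2)
      (((f.coeff 0 : 𝓞 F) : F) * (D : F) ^ 3)) h)) ↔
      IsSquare (Algebra.norm F (aeval ((D : L) * θ) h))) ∧
    ∀ h h' : F[X], (∃ s : F[X], cb (((f.coeff 1 : 𝓞 F) : F) * (D : F) ^ 2)
      (((f.coeff 0 : 𝓞 F) : F) * (D : F) ^ 3) ∣ h * h' - s ^ 2) ↔
      IsSquare (aeval ((D : L) * θ) h * aeval ((D : L) * θ) h') := by
  have hm := hG.mon
  have hd : f.natDegree = 3 := hG.deg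
  have hD0F : (D : F) ≠ 0 := Nat.cast_ne_zero.2 hD
  have hmD : (f.scaleRoots (D : 𝓞 F)).Monic := (monic_scaleRoots_iff (D : 𝓞 F)).2 hm
  have hirrD : Irreducible (fF (f.scaleRoots (D : 𝓞 F))) := by
    rw [Pool.Agent.N170.PF.fF_scale hm]
    exact Pool.Agent.N170.PF.irr_scale hD0F hirr
  rw [← cb_scale hm hd h2]
  obtain ⟨F', hF'⟩ : ∃ F' : F[X], F' = fF (f.scaleRoots (D : 𝓞 F)) := ⟨_, rfl⟩
  obtain ⟨Θ, hΘ⟩ : ∃ Θ : L, Θ = (D : L) * θ := ⟨_, rfl⟩
  rw [← hΘ]
  have hroot : aeval Θ F' = 0 := by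
    have e1 := scaleRoots_eval₂_mul (p := fF f) (algebraMap F L) θ (D : F)
    have e2 : eval₂ (algebraMap F L) θ (fF f) = 0 := by
      rw [← aeval_def]
      exact hG.root
    rw [e2, mul_zero, map_natCast] at e1
    rw [hF', Pool.Agent.N170.PF.fF_scale hm, aeval_def, hΘ]
    exact e1
  have hmF' : F'.Monic := by
    rw [hF']
    exact hmD.map _
  have hdF' : F'.natDegree = 3 := by
    rw [hF', fF, hmD.natDegree_map, natDegree_scaleRoots, hd]
  rw [← hF'] at hirrD ⊢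
  haveI hfact' : Fact (Irreducible F') := ⟨hirrD⟩
  obtain ⟨φ, hφ⟩ : ∃ φ : AdjoinRoot F' →ₐ[F] L, φ = AdjoinRoot.liftAlgHom F' (Algebra.ofId F _) Θ hroot :=
    ⟨_, rfl⟩
  have hφmk : ∀ p : F[X], φ (AdjoinRoot.mk F' p) = aeval Θ p := by
    intro p
    have h1 := AdjoinRoot.liftAlgHom_mk F' (Algebra.ofId F L) Θ hroot p
    rw [Algebra.toRingHom_ofId, ← Polynomial.aeval_def] at h1
    rw [hφ]
    exact h1
  have hφinj : Function.Injective φ := φ.toRingHom.injective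
  haveI : FiniteDimensional F (AdjoinRoot F') := hmF'.finite_adjoinRoot
  haveI : FiniteDimensional F L := Module.finite_of_finrank_pos (by rw [hG.rank]; omega)
  have hrk : Module.finrank F (AdjoinRoot F') = Module.finrank F L := by
    rw [hG.rank, (AdjoinRoot.powerBasis hmF'.ne_zero).finrank, AdjoinRoot.powerBasis_dim, hdF']
  have hφsurj : Function.Surjective φ :=
    (LinearMap.injective_iff_surjective_of_finrank_eq_finrank (f := φ.toLinearMap) hrk).1 hφinj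
  obtain ⟨e, he⟩ : ∃ e : AdjoinRoot F' ≃ₐ[F] L, ∀ x, e x = φ x :=
    ⟨AlgEquiv.ofBijective φ ⟨hφinj, hφsurj⟩, fun _ => rfl⟩
  have hemk : ∀ p : F[X], e (AdjoinRoot.mk F' p) = aeval Θ p := fun p => (he _).trans (hφmk p)
  refine ⟨hirrD, ?_, ?_, ?_⟩
  · intro h hcop h0
    obtain ⟨u, v, huv⟩ := hcop
    have := congrArg (aeval Θ) huv
    rw [map_add, map_mul, map_mul, hroot, h0, mul_zero, mul_zero, add_zero, map_one] at this
    exact zero_ne_one this
  · intro h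
    rw [← hemk, Algebra.norm_eq_of_algEquiv]
  · intro h h'
    constructor
    · rintro ⟨s, hs⟩
      refine ⟨aeval Θ s, ?_⟩
      obtain ⟨t, ht⟩ := hs
      have := congrArg (aeval Θ) ht
      rw [map_sub, map_mul, map_mul, hroot, zero_mul, sub_eq_zero, map_pow, pow_two] at this
      exact this
    · rintro ⟨y, hy⟩
      obtain ⟨z, rfl⟩ := hφsurj y
      obtain ⟨s, rfl⟩ := AdjoinRoot.mk_surjective z
      refine ⟨s, ?_⟩
      rw [← AdjoinRoot.mk_eq_zero]
      apply hφinj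
      rw [map_zero, hφmk, map_sub, map_pow, map_mul, sub_eq_zero]
      rw [hφmk] at hy
      rw [pow_two]
      exact hy

theorem comp_aeval {L : Type} [Field L] [Algebra F L] (θ : L) {D : ℕ} (hD : D ≠ 0) (h : F[X]) :
    aeval ((D : L) * θ) (h.comp (C ((D : F)⁻¹) * X)) = aeval θ h := by
  have hD0 : (D : F) ≠ 0 := Nat.cast_ne_zero.2 hD
  have e : algebraMap F L ((D : F)⁻¹) * ((D : L) * θ) = θ := by
    rw [← mul_assoc]
    have : algebraMap F L ((D : F)⁻¹) * (D : L) = 1 := by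
      rw [← map_natCast (algebraMap F L) D, ← map_mul, inv_mul_cancel₀ hD0, map_one]
    rw [this, one_mul]
  rw [aeval_comp, map_mul, aeval_C, aeval_X, e]

theorem comp_aeval' {L : Type} [Field L] [Algebra F L] (θ : L) (D : ℕ) (h : F[X]) :
    aeval θ (h.comp (C (D : F) * X)) = aeval ((D : L) * θ) h := by
  rw [aeval_comp, map_mul, aeval_C, aeval_X, map_natCast]

end

end Pool.Agent.Run7.h245.SR
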