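import Pool.Agent.N783.PF.Loc
import Pool.Agent.N783.PF.Fin

/-!
# Project SR: every 2-Selmer dimension has positive proportion over every number field: definitions

Project SR (helper245). `Mt`, `Typ`, `dd` are in `N352/PJ/Def.lean`, `chp`, `form`, `Dist`, `Gap`, `Mid`,
`Deep`, `eA`, `eB`, `eU`, `uu` in `N783/PQ/Def.lean`, `Ht`, `GoodS`, `GoodF`, `Fam`, `Box`, `Xset`, `LBad` in
`N783/PF/Def.lean`, `IsGen`, `Lat`, `DVec`, `Gr`, `HH`, `SDn`, `Ov`, `SqF` in `N783/PF/Lat.lean`, `Ev`, `Sq1`,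
`U0` in `N874/PP/Def.lean`, `LocF` in `N874/JM/Stm.lean`, `PLoc` in `N874/PM/Stm.lean`.
-/

set_option autoImplicit false
set_option linter.all false

open Polynomial IsDedekindDomain Matrix NumberField
open scoped Classical

namespace Pool.Agent.Run7.h245.SR

open Pool.Agent.N352.PJ (Mt Typ dd)
open Pool.Agent.N783.PQ (chp form Dist Gap Mid Deep eA eB eU uu LocIm)
open Pool.Agent.N874.PP (Ev Sq1 U0 sW)
open Pool.Agent.N874.PM (PLoc)
open Pool.Agent.N874.JM (LocF)
open Pool.Agent.N783.PF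
open Pool.Agent.TH115.GD (Pt act rs IsCoc LocTriv Comp Sep)

/-! ### Pairs of symmetric matrices -/

section mats

variable {F : Type} [Field F] [NumberField F]

/-- The pairs over which we count: congruences at the primes in `S`, distinguished only at the
primes in `C`. -/
structure XsetC (g N c : ℕ) (w : Fin (2 * g + 1) → ℤ) (S C : Finset ℕ) (𝔮 : ℕ → Ideal (𝓞 F))
    (P : ℕ → (𝓞 F)[X]) (A B : Mt g (𝓞 F)) : Prop where
  box : Box g N c w A B
  con : ∀ q ∈ S, ∀ 𝔭 : Ideal (𝓞 F), 𝔭.IsPrime → (q : 𝓞 F) ∈ 𝔭 → chp (rm 𝔭 A) (rm 𝔭 B) = rd 𝔭 (P q)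
  dist : ∀ q ∈ C, Dist (rm (𝔮 q) A) (rm (𝔮 q) B)

/-- The polynomial `f` is bad: it is irreducible and comes from a pair. -/
def LBadC (g N c : ℕ) (S C : Finset ℕ) (𝔮 : ℕ → Ideal (𝓞 F)) (P : ℕ → (𝓞 F)[X])
    (f : (𝓞 F)[X]) : Prop :=
  Irreducible (fF f) ∧ ∃ w, Typ g w ∧ Gap g N w ∧ (Mid g N w ∨ Deep g N c w) ∧
    ∃ A B : Mt g (𝓞 F), XsetC g N c w S C 𝔮 P A B ∧ chp (mF A) (mF B) = fF f

end mats

/-! ### Lattices -/

section lat

variable {F L : Type} [Field F] [NumberField F] [Field L] [NumberField L] [Algebra F L]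
variable {g : ℕ} {f : (𝓞 F)[X]} {θ : L}

/-- `Λ` is a lattice stable under `θ` and integral for the form `x y / α` (coefficient of `θ ^ (2 g)`); its
dual is contained in `m₀⁻¹ Λ`. For `m₀ = 1` this is `Lat`. -/
structure LatR (h : IsGen g f θ) (m₀ : ℕ) (α : L) (Λ : Submodule (𝓞 F) L) : Prop where
  fg : Λ.FG
  span : ∀ x : L, ∃ m : 𝓞 F, m ≠ 0 ∧ m • x ∈ Λ
  stab : ∀ x ∈ Λ, θ * x ∈ Λ
  int : ∀ x ∈ Λ, ∀ y ∈ Λ, IsIntegral ℤ (h.top (x * y / α))
  dual : ∀ y : L, (∀ x ∈ Λ, IsIntegral ℤ (h.top (x * y / α))) → (m₀ : L) * y ∈ Λ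

end lat

/-! ### The algebraic Selmer group of `y ^ 2 = x ^ 3 + A x + B` -/

section sel

variable {F : Type} [Field F] [NumberField F]

/-- The cubic polynomial. -/
noncomputable abbrev cb {K : Type} [Field K] (A B : K) : K[X] := X ^ 3 + C A * X + C B

/-- `h` represents an element of the 2-Selmer group of `y ^ 2 = x ^ 3 + A x + B`. -/
structure SelH (A B : F) (h : F[X]) : Prop where
  cop : IsCoprime h (cb A B)
  nrm : IsSquare (Algebra.norm F (AdjoinRoot.mk (cb A B) h))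
  fin : ∀ w : HeightOneSpectrum (𝓞 F), PLoc (w.adicCompletion F) A B h
  real : ∀ σ : F →+* ℝ, letI := σ.toAlgebra; PLoc ℝ A B h

/-- The 2-Selmer group (in terms of polynomials modulo squares) has exactly `2 ^ d` elements. -/
def SelCard (A B : F) (d : ℕ) : Prop := ∃ H : Fin (2 ^ d) → F[X],
  (∀ i, SelH A B (H i)) ∧ (∀ i j, i ≠ j → ¬ ∃ s : F[X], cb A B ∣ H i * H j - s ^ 2) ∧
  ∀ h : F[X], SelH A B h → ∃ (i : Fin (2 ^ d)) (s : F[X]), cb A B ∣ h * H i - s ^ 2

end sel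

/-! ### The 2-Selmer group in terms of cocycles -/

section coc

variable (K : Type) [Field K] [NumberField K] (W : WeierstrassCurve K)

/-- A cocycle `f` of `Gal(Sep K / K)` with values in the points of order two, which is a coboundary (with
values in all points) over all completions: at every maximal ideal of the ring of integers and over `ℝ`
for every real embedding (over `ℂ` there is no condition). -/
structure SelCoc (f : (Sep K ≃ₐ[K] Sep K) → Pt W (Sep K)) : Prop where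
  coc : IsCoc W f
  two : ∀ σ, (2 : ℕ) • f σ = 0
  finite : ∀ v : HeightOneSpectrum (𝓞 K), LocTriv W (Comp (𝓞 K) K v) (Sep (Comp (𝓞 K) K v)) f
  real : ∀ ρ : K →+* ℝ, letI := ρ.toAlgebra; LocTriv W ℝ (Sep ℝ) f

/-- The cocycles `f` and `f'` differ by the coboundary of a point of order two. -/
def SelEqv (f f' : (Sep K ≃ₐ[K] Sep K) → Pt W (Sep K)) : Prop :=
  ∃ T : Pt W (Sep K), (2 : ℕ) • T = 0 ∧ ∀ σ, f σ - f' σ = act W (rs K σ) T - T

theorem selEqv_equivalence : Equivalence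
    (fun f f' : {f : (Sep K ≃ₐ[K] Sep K) → Pt W (Sep K) // SelCoc K W f} =>
      SelEqv K W f.1 f'.1) := by
  refine ⟨fun f => ⟨0, smul_zero _, fun σ => by rw [map_zero]; abel⟩, ?_, ?_⟩
  · rintro f f' ⟨T, hT, h⟩
    refine ⟨-T, by rw [smul_neg, hT, neg_zero], fun σ => ?_⟩
    have := h σ
    rw [map_neg]
    have e : f'.1 σ - f.1 σ = -(f.1 σ - f'.1 σ) := by abel
    rw [e, this]
    abel
  · rintro f f' f'' ⟨T, hT, h⟩ ⟨T', hT', h'⟩
    refine ⟨T + T', by rw [smul_add, hT, hT', add_zero], fun σ => ?_⟩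
    have e : f.1 σ - f''.1 σ = (f.1 σ - f'.1 σ) + (f'.1 σ - f''.1 σ) := by abel
    rw [e, h, h', map_add]
    abel

/-- The 2-Selmer group, as a set: locally trivial cocycles with values in the points of order two,
modulo coboundaries of points of order two. -/
def Sel2 : Type :=
  Quotient (⟨fun f f' : {f : (Sep K ≃ₐ[K] Sep K) → Pt W (Sep K) // SelCoc K W f} =>
      SelEqv K W f.1 f'.1, selEqv_equivalence K W⟩ : Setoid _)

end coc

end Pool.Agent.Run7.h245.SR
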