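import Pool.Agent.Run7.h245.SR.Iface2

/-!
# Project SR: statements, part 3 (quadratic extensions; the height of the problem)

Second aim: for every number field `F` and every `N`, for a positive proportion of all elliptic curves `E` over `F`
there is a quadratic extension `K = F(√D)`, `D ≤ D₀(F, N)`, such that `E(K)` is finite of odd order,
`Ш(E / F)[2 ^ ∞] = 0`, `Ш(E / K)[2 ^ ∞]` is killed by two and has at least `2 ^ N` elements.

Proof: choose disjoint `J₁`, `J₂` (with many elements) such that the twists of `f` by `D₁ = Dp J₁` and by `D₂ = Dp J₂` have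
trivial 2-Selmer groups over `F`; `E` is the twist of `f` by `D₁`, `K = F(√(D₁ D₂))`. Over `K` all the primes dividing `D₁ D₂`
are ramified and `E` has good reduction there, so all the classes of `S_UNI` (ramified at `J₁ ∪ J₂`) belong to the
2-Selmer group over `K`. Corestriction shows that twice an element of `Ш(E / K)[2 ^ ∞]` comes from
`Ш(E / F)[2 ^ ∞] = 0` and `Ш(E ^ (D₁ D₂) / F)[2 ^ ∞] = 0`.

Write `theorem x : S_X` in your own directory `Pool/Agent/Run7/<h>/SR/`, see the table `h245_pieces` (part 3).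
-/

set_option autoImplicit false
set_option linter.all false

open Polynomial IsDedekindDomain Matrix NumberField
open scoped Classical

namespace Pool.Agent.Run7.h245.SR

open Pool.Agent.N874.PP (Ev Sq1 U0 sW IsBeta Rt sg)
open Pool.Agent.N874.PM (PLoc)
open Pool.Agent.N874.QM (SelC ShaC IsLoc)
open Pool.Agent.N783.PF
open Pool.Agent.TH115.GD (Pt act rs ak IsCoc LocTriv Comp Sep)

/-! ### H. The height of the problem -/

/-- `H(a, b) ≤ X`, with normalized absolute values. -/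
def HnX {F : Type} [Field F] [NumberField F] (X : ℝ) (p : 𝓞 F × 𝓞 F) : Prop :=
  ∀ v : InfinitePlace F, (v (p.1 : F) ^ v.mult) ^ 3 ≤ X ∧ (v (p.2 : F) ^ v.mult) ^ 2 ≤ X

/-- HTU. By Dirichlet's unit theorem the box `H(a, b) ≤ X` becomes, after multiplication of `a` by `u ^ 4` and of `b` by
`u ^ 6`, `u` a unit, comparable with the box `|σ a| ≤ B ^ 2`, `|σ b| ≤ B ^ 3` for all `σ`. Proof. `H(a, b) ≤ X` means
`|a|_v ≤ t_v ^ 4`, `|b|_v ≤ t_v ^ 6` with `t_v = X ^ (1 / (12 m_v))`, `m_v = mult v`. Let `s` be the real number with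
`s ^ n = ∏ t_v ^ (m_v)`, `n = [F : ℚ]`. There is a constant `C₀` (depending on `F` only) and a unit `u` with
`C₀⁻¹ s / t_v ≤ |u|_v ≤ C₀ s / t_v` for all `v` (the vector `(m_v log (s / t_v))_v` has sum zero, and the logarithms of the
units are a full lattice in the hyperplane of sum zero, Mathlib: `NumberField.Units.dirichletUnitTheorem`, e.g. the
span of the unit lattice is the whole `logSpace`, finite generation and `Int.floor` of the coordinates). Take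
`B = ⌊s ^ 2 / C₀ ^ 2⌋` and `C` large (`s → ∞` with `X`). -/
def S_HTU : Prop := ∀ (F : Type) [Field F] [NumberField F], ∃ C : ℕ, 1 ≤ C ∧
  ∀ B₀ : ℕ, ∃ X₀ : ℝ, ∀ X ≥ X₀, ∃ (u : (𝓞 F)ˣ) (B : ℕ), B₀ ≤ B ∧
    (∀ p : 𝓞 F × 𝓞 F, Bd (((u : 𝓞 F) ^ 4 * p.1 : 𝓞 F) : F) ((B : ℝ) ^ 2) →
      Bd (((u : 𝓞 F) ^ 6 * p.2 : 𝓞 F) : F) ((B : ℝ) ^ 3) → HnX X p) ∧
    ∀ p : 𝓞 F × 𝓞 F, HnX X p → Bd (((u : 𝓞 F) ^ 4 * p.1 : 𝓞 F) : F) (((C * B : ℕ) : ℝ) ^ 2) ∧
      Bd (((u : 𝓞 F) ^ 6 * p.2 : 𝓞 F) : F) (((C * B : ℕ) : ℝ) ^ 3)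

/-! ### I. Completions of a quadratic extension -/

/-- MAPC. The completion of `F` at `w` maps to the completion of `K` at `v ∣ w`, and the latter is generated by `K`.
Proof. The valuation of `v` restricted to `F` is a power (`≥ 1`) of that of `w`, so `F → K_v` is uniformly continuous and
extends to `j` (compare `Run7/h245/NF/Emb.lean`; Mathlib may have a map of completions). If `K = F + F δ` then
`j(F_w) + j(F_w) δ` is a finite-dimensional subspace of `K_v` over the complete field `F_w`, so it is closed; it contains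
the dense subset `K`. -/
def S_MAPC : Prop := ∀ (F K : Type) [Field F] [NumberField F] [Field K] [NumberField K]
  [Algebra F K] (w : HeightOneSpectrum (𝓞 F)) (v : HeightOneSpectrum (𝓞 K)), Ov w.asIdeal v →
  ∃ j : w.adicCompletion F →+* v.adicCompletion K,
    (∀ x : F, j (algebraMap F (w.adicCompletion F) x) =
      algebraMap K (v.adicCompletion K) (algebraMap F K x)) ∧
    ∀ δ : K, (∀ x : K, ∃ a b : F, x = algebraMap F K a + algebraMap F K b * δ) →
      ∀ y : v.adicCompletion K, ∃ a b : w.adicCompletion F,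
        y = j a + j b * algebraMap K (v.adicCompletion K) δ

/-! ### J. The lower bound over `K` -/

/-- RAMK (`theorem ramk (h1 : S_GOOD) (h2 : S_SCL) (h3 : S_SCG) ... : S_RAMK`). The places of `K` over the primes `q` which divide
`D₁ D₂` exactly once. All hypotheses are about `F`; no condition on the class at the primes over `q` is needed.
Proof. Let `v ∣ q`, `w` the place of `F` under `v`. `f` is separable modulo `w` (`w = 𝔮 q`: `sep_q` in `N771/PF/Core.lean`; else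
`f` is congruent to `P q` modulo `w`, irreducible). Let `Ω` be a field with `IsGen 1 (f over 𝓞 K) θ'` (`S_GEN` over `K`; `f`
is irreducible over `K` because `3` is odd, `NF.irr_up` in `Run7/h245/NF/Sel.lean`), `L → Ω`, `θ ↦ θ'`. Let `𝔓'` be a prime of
`Ω` over `v`, `𝔓` the prime of `L` under `𝔓'`. As `q` is unramified in `L`, `D₁ D₂` has valuation one at `𝔓`, so `α` or
`α D₁ D₂` is even at `𝔓`, hence at `𝔓'` (the valuation of `𝔓'` on `L` is a power of that of `𝔓`), and `D₁ D₂ = δ ^ 2` is a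
square in `Ω`: `α` is even at `𝔓'`.
If `q ∤ D₁` apply `S_GOOD` over `K` to `f.scaleRoots D₁` (`S_SCG`; separable modulo `v`) and the polynomial `h₀(X / D₁)`.
If `q ∣ D₁` then `q ∤ D₂`; apply `S_GOOD` to `f.scaleRoots D₂` and `h₀(X / D₂)`, and then `S_SCL` with `D = u ^ 2`, `u = δ / D₂`,
`u ^ 2 = D₁ / D₂`. -/
def S_RAMK : Prop := ∀ (F K L : Type) [Field F] [NumberField F] [Field K] [NumberField K] [Field L]
  [NumberField L] [Algebra F K] [Algebra F L] (f : (𝓞 F)[X]) (θ : L) (W : ℕ) (S : Finset ℕ)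
  (𝔮 : ℕ → Ideal (𝓞 F)) (r P : ℕ → (𝓞 F)[X]) (D₁ D₂ : ℕ) (δ : K), IsGen 1 f θ → SqF 1 f →
  f.coeff 2 = 0 → GoodS 1 W S 𝔮 r P → (∀ q ∈ S, Cg (sp F q) f (P q)) →
  Module.finrank F K = 2 → D₁ ≠ 0 → D₂ ≠ 0 → δ ^ 2 = ((D₁ * D₂ : ℕ) : K) →
  ∀ h₀ : F[X], aeval θ h₀ ≠ 0 → IsSquare (Algebra.norm F (aeval θ h₀)) →
  ∀ q ∈ S, q ∣ D₁ * D₂ → ¬ q ^ 2 ∣ D₁ * D₂ → ∀ v : HeightOneSpectrum (𝓞 K), (q : 𝓞 K) ∈ v.asIdeal →
  PLoc (v.adicCompletion K) (algebraMap F K (((f.coeff 1 : 𝓞 F) : F) * (D₁ : F) ^ 2))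
    (algebraMap F K (((f.coeff 0 : 𝓞 F) : F) * (D₁ : F) ^ 3))
    ((h₀.comp (C ((D₁ : F)⁻¹) * X)).map (algebraMap F K))

/-- LOWI. A class with square norm which becomes trivial over `K` is trivial. Proof. Let `Ω` be an extension of `K` and of `L` with
`K(θ) = Ω` (see RAMK), `[Ω : L] = 2`, `Ω = L + L δ`. If `p(θ) = (x + y δ) ^ 2` with `x, y ∈ L` then `x y = 0`; if `y = 0` we are
done; if `x = 0` then `p(θ) = D y ^ 2` has norm `D ^ 3 N(y) ^ 2`, so `D` would be a square in `F`. -/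
def S_LOWI : Prop := ∀ (F K L : Type) [Field F] [NumberField F] [Field K] [NumberField K] [Field L]
  [NumberField L] [Algebra F K] [Algebra F L] (f : (𝓞 F)[X]) (θ : L) (D : ℕ) (δ : K), IsGen 1 f θ →
  Module.finrank F K = 2 → δ ^ 2 = (D : K) → ¬ IsSquare (D : F) → ∀ p : F[X], aeval θ p ≠ 0 →
  IsSquare (Algebra.norm F (aeval θ p)) →
  (∃ s : K[X], (fF f).map (algebraMap F K) ∣ p.map (algebraMap F K) - s ^ 2) →
  IsSquare (aeval θ p)

/-- SHL (`theorem shl (h1 : S_KUM) (h2 : S_LTR) (h3 : S_INJ) : S_SHL`). Elements of the Tate-Shafarevich group from the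
2-Selmer group if `E(M) = 2 E(M)`. Proof. `KUM`, `LTR` as in `SELD`. If `φ i - φ j` were the coboundary of a point `Q` then
`2 Q` would be fixed by the Galois group, so it is a point over `M`, `2 Q = 2 R` with `R` over `M`, and `Q - R` is of
order two and has the same coboundary; this contradicts `INJ`. -/
def S_SHL : Prop := ∀ (M : Type) [Field M] [NumberField M] (A B : M), 4 * A ^ 3 + 27 * B ^ 2 ≠ 0 →
  Irreducible (cb A B) → (∀ P : Pt (sW A B) M, ∃ Q : Pt (sW A B) M, P = (2 : ℕ) • Q) →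
  ∀ (n : ℕ) (H : Fin n → M[X]), (∀ i, SelH A B (H i)) →
  (∀ i j, i ≠ j → ¬ ∃ s : M[X], cb A B ∣ H i * H j - s ^ 2) →
  ∃ φ : Fin n → (Sep M ≃ₐ[M] Sep M) → Pt (sW A B) (Sep M), (∀ i, SelCoc M (sW A B) (φ i)) ∧
    ∀ i j, i ≠ j → ¬ ∃ Q : Pt (sW A B) (Sep M), ∀ σ,
      φ i σ - φ j σ = act (sW A B) (rs M σ) Q - Q

/-- PTK. The points over the quadratic extension. Proof. `P ↦ (P + σ P, P - σ P)` is an injective homomorphism from `E(K)` to
`E(F) × E ^ D(F)` (use an isomorphism of `E` and `E ^ D` over `K`, `TWI`): if `P + σ P = 0 = P - σ P` then `2 P = 0`, so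
`P = 0` since the cubic polynomial has no zero in `K`. The image is a subgroup of a group of odd order. -/
def S_PTK : Prop := ∀ (F K : Type) [Field F] [NumberField F] [Field K] [NumberField K]
  [Algebra F K] (A B : F) (D : ℕ) (δ : K), Module.finrank F K = 2 → δ ^ 2 = (D : K) →
  ¬ IsSquare (D : F) → 4 * A ^ 3 + 27 * B ^ 2 ≠ 0 → Irreducible (cb A B) →
  Finite (Pt (sW A B) F) → Odd (Nat.card (Pt (sW A B) F)) →
  Finite (Pt (sW (A * (D : F) ^ 2) (B * (D : F) ^ 3)) F) →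
  Odd (Nat.card (Pt (sW (A * (D : F) ^ 2) (B * (D : F) ^ 3)) F)) →
  Finite (Pt (sW (algebraMap F K A) (algebraMap F K B)) K) ∧
    Odd (Nat.card (Pt (sW (algebraMap F K A) (algebraMap F K B)) K))

/-! ### K. Corestriction -/

/-- Triviality of `φ` over `E` with respect to the embedding `ι` (compare `LocTriv`): here `ι` is only assumed to be
`F`-linear, so that `K` can be embedded in different ways. `LocTriv (K := F) (F := K) W E Ω' φ` means that there is a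
`K`-homomorphism `ι` with this property. -/
def LTri {F K Ω : Type} [Field F] [Field K] [Field Ω] [Algebra F K] [Algebra K Ω] [Algebra F Ω]
    [IsScalarTower F K Ω] (W : WeierstrassCurve F) (E : Type) {Ω' : Type} [Field E] [Field Ω']
    [Algebra F E] [Algebra E Ω'] [Algebra F Ω'] [IsScalarTower F E Ω']
    (φ : (Ω ≃ₐ[K] Ω) → Pt W Ω) (ι : Ω →ₐ[F] Ω') : Prop :=
  ∃ P : Pt W Ω', ∀ (τ : Ω' ≃ₐ[E] Ω') (σ : Ω ≃ₐ[K] Ω), (∀ x, τ (ι x) = ι (σ x)) →
    act W ι (φ σ) = act W (rs F τ) P - P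

/-- `c` is the corestriction of `φ`; `τ` is an automorphism which does not fix `K`. -/
structure IsCor {F K Ω : Type} [Field F] [Field K] [Field Ω] [Algebra F K] [Algebra K Ω]
    [Algebra F Ω] [IsScalarTower F K Ω] (W : WeierstrassCurve F) (τ : Ω ≃ₐ[F] Ω)
    (φ : (Ω ≃ₐ[K] Ω) → Pt W Ω) (c : (Ω ≃ₐ[F] Ω) → Pt W Ω) : Prop where
  one : ∀ (g : Ω ≃ₐ[F] Ω) (a b : Ω ≃ₐ[K] Ω), (∀ x, g x = a x) → (∀ x, g (τ x) = τ (b x)) →
    c g = φ a + act W (ak τ) (φ b)
  two : ∀ (g : Ω ≃ₐ[F] Ω) (a b : Ω ≃ₐ[K] Ω), (∀ x, g x = τ (a x)) → (∀ x, g (τ x) = b x) →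
    c g = act W (ak τ) (φ a) + φ b

/-- CORC. The corestriction exists and is a cocycle. (`K / F` quadratic, so every `g` satisfies the hypotheses of exactly
one of the two cases for unique `a`, `b`.) -/
def S_CORC : Prop := ∀ (F K Ω : Type) [Field F] [CharZero F] [Field K] [Field Ω] [Algebra F K]
  [Algebra K Ω] [Algebra F Ω] [IsScalarTower F K Ω] (W : WeierstrassCurve F) (τ : Ω ≃ₐ[F] Ω)
  (φ : (Ω ≃ₐ[K] Ω) → Pt W Ω), Module.finrank F K = 2 →
  (∃ x : K, τ (algebraMap K Ω x) ≠ algebraMap K Ω x) → IsCoc (K := F) (F := K) W φ →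
  ∃ c : (Ω ≃ₐ[F] Ω) → Pt W Ω, IsCoc (K := F) (F := F) W c ∧ IsCor W τ φ c

/-- CORS, the split case: `ι` maps `K` into `E`. The sum of the two points. -/
def S_CORS : Prop := ∀ (F K Ω E Ω' : Type) [Field F] [CharZero F] [Field K] [Field Ω] [Field E]
  [Field Ω'] [Algebra F K] [Algebra K Ω] [Algebra F Ω] [IsScalarTower F K Ω] [Algebra F E]
  [Algebra E Ω'] [Algebra F Ω'] [IsScalarTower F E Ω'] (W : WeierstrassCurve F) (τ : Ω ≃ₐ[F] Ω)
  (φ : (Ω ≃ₐ[K] Ω) → Pt W Ω) (c : (Ω ≃ₐ[F] Ω) → Pt W Ω) (ι : Ω →ₐ[F] Ω'),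
  Module.finrank F K = 2 → IsCoc (K := F) (F := K) W φ → IsCor W τ φ c →
  (∀ x : K, ∃ e : E, algebraMap E Ω' e = ι (algebraMap K Ω x)) →
  LTri W E φ ι → LTri W E φ (ι.comp (ak τ)) → LTri (K := F) W E c ι

/-- CORN, the nonsplit case: `E'` is the quadratic extension of `E` generated by `ι(K)`, contained in `Ω'`. Proof. Let
`τ' ∈ Gal(Ω' / E)` be an element which is not in `Gal(Ω' / E')` and `t : Ω ≃ₐ[F] Ω` its restriction (`τ' ι = ι t`; `Ω / F` is
normal). `t = τ h` with `h ∈ Gal(Ω / K)`; the corestriction `c'` formed with `t` instead of `τ` is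
`c'(g) = c(g) + g Q - Q`, `Q = τ φ(h)`. If `ι φ(σ) = τ'' P - P` for `τ'' ∈ Gal(Ω' / E')` then the restriction of `c'` to
`Gal(Ω' / E)` is the coboundary of `P + τ' P`. -/
def S_CORN : Prop := ∀ (F K Ω E E' Ω' : Type) [Field F] [CharZero F] [Field K] [Field Ω] [Field E]
  [Field E'] [Field Ω'] [Algebra F K] [Algebra K Ω] [Algebra F Ω] [IsScalarTower F K Ω]
  [Algebra F E] [Algebra F E'] [Algebra E E'] [Algebra E' Ω'] [Algebra E Ω'] [Algebra F Ω']
  [IsScalarTower F E Ω'] [IsScalarTower F E' Ω'] [IsScalarTower E E' Ω'] [IsGalois F Ω]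
  [IsGalois E Ω'] (W : WeierstrassCurve F) (τ : Ω ≃ₐ[F] Ω) (φ : (Ω ≃ₐ[K] Ω) → Pt W Ω)
  (c : (Ω ≃ₐ[F] Ω) → Pt W Ω) (ι : Ω →ₐ[F] Ω') (δ : K), Module.finrank F K = 2 →
  (∃ x : K, τ (algebraMap K Ω x) ≠ algebraMap K Ω x) → IsCoc (K := F) (F := K) W φ →
  IsCor W τ φ c → (∀ x : K, ∃ a b : F, x = algebraMap F K a + algebraMap F K b * δ) →
  (∀ e : E, algebraMap E Ω' e ≠ ι (algebraMap K Ω δ)) →
  (∀ x : K, ∃ e : E', algebraMap E' Ω' e = ι (algebraMap K Ω x)) →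
  (∀ y : E', ∃ a b : E, algebraMap E' Ω' y =
    algebraMap E Ω' a + algebraMap E Ω' b * ι (algebraMap K Ω δ)) →
  LTri W E' φ ι → LTri (K := F) W E c ι

/-- EMB. Change of the embedding. Proof. `ι' = ι s` with `s ∈ Gal(Ω / K)` (`Ω / K` normal); replace the point `P` by
`P + ι φ(s)`: `ι' φ(s⁻¹ σ s) = ι s φ(s⁻¹ σ s) = ι (φ(σ) + σ φ(s) - φ(s))`. -/
def S_EMB : Prop := ∀ (F K Ω E Ω' : Type) [Field F] [Field K] [Field Ω] [Field E]
  [Field Ω'] [Algebra F K] [Algebra K Ω] [Algebra F Ω] [IsScalarTower F K Ω] [Algebra F E]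
  [Algebra E Ω'] [Algebra F Ω'] [IsScalarTower F E Ω'] [IsGalois K Ω] (W : WeierstrassCurve F)
  (φ : (Ω ≃ₐ[K] Ω) → Pt W Ω) (ι ι' : Ω →ₐ[F] Ω'), IsCoc (K := F) (F := K) W φ →
  (∀ x : K, ι (algebraMap K Ω x) = ι' (algebraMap K Ω x)) → LTri W E φ ι → LTri W E φ ι'

/-- LTF. Larger fields. Proof. `τ₂ ∈ Gal(Ω₂ / E₂)` fixes `k(E)`, so it maps `k(Ω')` to itself and induces `τ' ∈ Gal(Ω' / E)`. -/
def S_LTF : Prop := ∀ (F K Ω E Ω' E₂ Ω₂ : Type) [Field F] [Field K] [Field Ω] [Field E]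
  [Field Ω'] [Field E₂] [Field Ω₂] [Algebra F K] [Algebra K Ω] [Algebra F Ω] [IsScalarTower F K Ω]
  [Algebra F E] [Algebra E Ω'] [Algebra F Ω'] [IsScalarTower F E Ω'] [Algebra F E₂]
  [Algebra E₂ Ω₂] [Algebra F Ω₂] [IsScalarTower F E₂ Ω₂] [IsGalois E Ω'] (W : WeierstrassCurve F)
  (φ : (Ω ≃ₐ[K] Ω) → Pt W Ω) (ι : Ω →ₐ[F] Ω') (k : Ω' →ₐ[F] Ω₂),
  (∀ e : E, ∃ e₂ : E₂, algebraMap E₂ Ω₂ e₂ = k (algebraMap E Ω' e)) →
  LTri W E φ ι → LTri W E₂ φ (k.comp ι)

/-- The 2-primary part of the Tate-Shafarevich group is zero, in terms of another separable closure. -/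
def ShaO (F Ω : Type) [Field F] [NumberField F] [Field Ω] [Algebra F Ω] (W : WeierstrassCurve F) :
    Prop :=
  ∀ f : (Ω ≃ₐ[F] Ω) → Pt W Ω, IsCoc (K := F) (F := F) W f →
    (∀ w : HeightOneSpectrum (𝓞 F), LocTriv W (Comp (𝓞 F) F w) (Sep (Comp (𝓞 F) F w)) f) →
    (∀ ρ : F →+* ℝ, letI := ρ.toAlgebra; LocTriv W ℝ (Sep ℝ) f) →
    (∃ (n : ℕ) (Q : Pt W Ω), ∀ σ, 2 ^ n • f σ = act W (rs F σ) Q - Q) →
    ∃ Q : Pt W Ω, ∀ σ, f σ = act W (rs F σ) Q - Q

/-- TRS. Transport by an isomorphism of `Sep F` and `Ω`. -/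
def S_TRS : Prop := ∀ (F Ω : Type) [Field F] [NumberField F] [Field Ω] [Algebra F Ω]
  [IsSepClosure F Ω] (W : WeierstrassCurve F), ShaC W → ShaO F Ω W

/-- TWI. The isomorphism of `y ^ 2 = x ^ 3 + A D ^ 2 x + B D ^ 3` and `y ^ 2 = x ^ 3 + A x + B`,
`(x, y) ↦ (x / D, y / (D δ))`, `δ ^ 2 = D`, and its behaviour under homomorphisms. -/
def S_TWI : Prop := ∀ (F : Type) [Field F] (A B D : F), D ≠ 0 →
  ∃ e : ∀ (Ω : Type) [Field Ω] [Algebra F Ω] (δ : Ω), δ ^ 2 = algebraMap F Ω D →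
      (Pt (sW (A * D ^ 2) (B * D ^ 3)) Ω ≃+ Pt (sW A B) Ω),
    ∀ (Ω Ω' : Type) [Field Ω] [Field Ω'] [Algebra F Ω] [Algebra F Ω'] (φ : Ω →ₐ[F] Ω') (δ : Ω)
      (δ' : Ω') (h : δ ^ 2 = algebraMap F Ω D) (h' : δ' ^ 2 = algebraMap F Ω' D)
      (P : Pt (sW (A * D ^ 2) (B * D ^ 3)) Ω),
      (φ δ = δ' → act (sW A B) φ (e Ω δ h P) = e Ω' δ' h' (act (sW (A * D ^ 2) (B * D ^ 3)) φ P)) ∧
      (φ δ = -δ' → act (sW A B) φ (e Ω δ h P) =
        -(e Ω' δ' h' (act (sW (A * D ^ 2) (B * D ^ 3)) φ P)))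

/-- TRW. The curve over `F` and the same curve over `K` have the same points over extensions of `K`. -/
def S_TRW : Prop := ∀ (F K : Type) [Field F] [Field K] [Algebra F K] (A B : F),
  ∃ e : ∀ (E : Type) [Field E] [Algebra K E] [Algebra F E] [IsScalarTower F K E],
      (Pt (sW A B) E ≃+ Pt (sW (algebraMap F K A) (algebraMap F K B)) E),
    ∀ (E E' : Type) [Field E] [Algebra K E] [Algebra F E] [IsScalarTower F K E] [Field E']
      [Algebra K E'] [Algebra F E'] [IsScalarTower F K E'] (φ : E →ₐ[K] E') (P : Pt (sW A B) E),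
      act (sW (algebraMap F K A) (algebraMap F K B)) φ (e E P) =
        e E' (act (sW A B) (φ.restrictScalars F) P)

/-- K2 (from `CORC`, `CORS`, `CORN`, `EMB`, `LTF`, `TRS`, `TWI`, `TRW`, `MAPC`, and `NF.emb`). If the 2-primary parts of the
Tate-Shafarevich groups of `E` and `E ^ D` over `F` are zero, then that of `E` over `K = F(√D)` is killed by two.
Proof. Let `Ω = Sep K`, `τ ∈ Gal(Ω / F)`, `τ δ = - δ`, `φ` the given cocycle, with values in `E(Ω)`, `E` over `F` (`TRW`). Its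
corestriction `c` is locally trivial: over `F_w` let `ι : Ω → Sep F_w`. If `ι(δ) ∈ F_w` then `ι` and `ι τ` restrict to two
embeddings of `K` in `F_w`, which extend to completions of `K` (`NF.emb`), so `φ` is trivial with respect to both (`LTF`, `EMB`),
and `CORS` applies. If not let `v` be a place of `K` over `w`, and apply `CORN` to `E = F_w`, `E' = K_v`, `Ω' = Sep K_v`
(`MAPC`), and `LTF` for an isomorphism of `Sep K_v` and `Sep F_w` over `F_w`. The real places are all split, as `D > 0`. If `2 ^ n φ`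
is a coboundary so is `2 ^ n c`. So `c` is the coboundary of a point `P` (`TRS`). The same for the curve `E ^ D` and the
cocycle `ψ = e⁻¹ φ` (`TWI`, `e` for `δ`): its corestriction is the coboundary of a point `P'`. For `σ ∈ Gal(Ω / K)`:
`φ(σ) + τ φ(τ⁻¹ σ τ) = σ P - P` and `ψ(σ) + τ ψ(τ⁻¹ σ τ) = σ P' - P'`; apply `e`: `φ(σ) - τ φ(τ⁻¹ σ τ) = σ e P' - e P'`. Add. -/
def S_K2 : Prop := ∀ (F K : Type) [Field F] [NumberField F] [Field K] [NumberField K]
  [Algebra F K] (A B : F) (D : ℕ) (δ : K), Module.finrank F K = 2 → δ ^ 2 = (D : K) →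
  ¬ IsSquare (D : F) → 4 * A ^ 3 + 27 * B ^ 2 ≠ 0 → ShaC (sW A B) →
  ShaC (sW (A * (D : F) ^ 2) (B * (D : F) ^ 3)) →
  ∀ f : (Sep K ≃ₐ[K] Sep K) → Pt (sW (algebraMap F K A) (algebraMap F K B)) (Sep K),
    IsCoc (sW (algebraMap F K A) (algebraMap F K B)) f →
    IsLoc (sW (algebraMap F K A) (algebraMap F K B)) f →
    (∃ (n : ℕ) (Q : Pt (sW (algebraMap F K A) (algebraMap F K B)) (Sep K)),
      ∀ σ, 2 ^ n • f σ = act _ (rs K σ) Q - Q) →
    ∃ Q : Pt (sW (algebraMap F K A) (algebraMap F K B)) (Sep K),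
      ∀ σ, (2 : ℕ) • f σ = act _ (rs K σ) Q - Q

end Pool.Agent.Run7.h245.SR
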