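import Pool.Agent.Run7.h245.SR.Maind
import Pool.Agent.Run7.h245.SR.Iface3

/-!
# Project SR: the theorem in terms of elliptic curves
-/

set_option autoImplicit false
set_option linter.all false

open Polynomial IsDedekindDomain NumberField WithZero
open scoped Classical

namespace Pool.Agent.Run7.h245.SR

open Pool.Agent.N352.PJ (dd)
open Pool.Agent.N874.PP (sW)
open Pool.Agent.N783.PF
open Pool.Agent.N61.PF (pol pol_natDegree pol_monic pol_coeff0 pol_coeff1 pol_coeff2 eq_pol)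

section

variable {K : Type} [Field K] {A B D : K}

theorem cb_scaleRoots : (cb A B).scaleRoots D = cb (A * D ^ 2) (B * D ^ 3) := by
  refine Polynomial.ext fun n => ?_
  have hdc : (cb A B).natDegree = 3 := cb_natDegree A B
  have hdc' : (cb (A * D ^ 2) (B * D ^ 3)).natDegree = 3 := cb_natDegree _ _
  rw [coeff_scaleRoots, hdc]
  rcases lt_or_ge n 4 with hn | hn
  · have hco : ∀ a b : K, (cb a b).coeff 0 = b ∧ (cb a b).coeff 1 = a ∧ (cb a b).coeff 2 = 0 ∧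
        (cb a b).coeff 3 = 1 := by
      intro a b
      refine ⟨?_, ?_, ?_, ?_⟩ <;> simp [coeff_X, coeff_C]
    obtain ⟨a0, a1, a2, a3⟩ := hco A B
    obtain ⟨b0, b1, b2, b3⟩ := hco (A * D ^ 2) (B * D ^ 3)
    interval_cases n
    · rw [a0, b0]
    · rw [a1, b1]
    · rw [a2, b2, zero_mul]
    · rw [a3, b3, Nat.sub_self, pow_zero, mul_one]
  · rw [coeff_eq_zero_of_natDegree_lt (p := cb _ _) (n := n) (by rw [hdc]; omega),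
      coeff_eq_zero_of_natDegree_lt (p := cb _ _) (n := n) (by rw [hdc']; omega), zero_mul]

theorem irr_cb (hD : D ≠ 0) (h : Irreducible (cb A B)) :
    Irreducible (cb (A * D ^ 2) (B * D ^ 3)) := by
  rw [← cb_scaleRoots]
  exact Pool.Agent.N170.PF.irr_scale hD h

end

section

variable {F : Type} [Field F] [NumberField F]

theorem hnX_bd {X : ℝ} {p : 𝓞 F × 𝓞 F} (h : HnX X p) :
    Bd (p.1 : F) (1 + |X|) ∧ Bd (p.2 : F) (1 + |X|) := by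
  have key : ∀ x : ℝ, 0 ≤ x → ∀ m k : ℕ, 1 ≤ m → 1 ≤ k → (x ^ m) ^ k ≤ X → x ≤ 1 + |X| := by
    intro x hx m k hm hk h
    by_contra hcon
    rw [not_le] at hcon
    have h5 : 1 ≤ x := by linarith [abs_nonneg X]
    have h6 : x ≤ (x ^ m) ^ k := by
      rw [← pow_mul]
      exact le_self_pow₀ h5 (by positivity)
    linarith [le_abs_self X]
  constructor
  · intro σ
    have h1 := (h (InfinitePlace.mk σ)).1
    rw [InfinitePlace.apply] at h1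
    exact key _ (norm_nonneg _) _ 3 InfinitePlace.mult_pos (by norm_num) h1
  · intro σ
    have h1 := (h (InfinitePlace.mk σ)).2
    rw [InfinitePlace.apply] at h1
    exact key _ (norm_nonneg _) _ 2 InfinitePlace.mult_pos (by norm_num) h1

theorem hnX_finite (X : ℝ) : {p : 𝓞 F × 𝓞 F | HnX X p}.Finite := by
  obtain ⟨-, C, hC, -, h2⟩ := Pool.Agent.N490.PF.pts F
  have hR : (0 : ℝ) ≤ 1 + |X| := by positivity
  have h3 := (h2 ⊤ 0 (1 + |X|) top_ne_bot hR).1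
  refine (h3.prod h3).subset ?_
  intro p hp
  obtain ⟨h4, h5⟩ := hnX_bd (show HnX X p from hp)
  exact Set.mem_prod.mpr ⟨⟨Submodule.mem_top, h4⟩, ⟨Submodule.mem_top, h5⟩⟩

/-- The property of the curves which we count. -/
structure QE (d N D₀ : ℕ) (p : 𝓞 F × 𝓞 F) : Prop where
  min : ∀ 𝔭 : Ideal (𝓞 F), 𝔭.IsPrime → 𝔭 ≠ ⊥ → ¬ (p.1 ∈ 𝔭 ^ 4 ∧ p.2 ∈ 𝔭 ^ 6)
  sel : Nat.card (Sel2 F (sW (p.1 : F) (p.2 : F))) = 2 ^ d
  all : ∀ d' ≤ N, ∃ D : ℕ, D ≠ 0 ∧ D ≤ D₀ ∧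
    Nat.card (Sel2 F (sW ((p.1 : F) * (D : F) ^ 2) ((p.2 : F) * (D : F) ^ 3))) = 2 ^ d'

theorem disc_cb {A B : F} (h : Irreducible (cb A B)) : 4 * A ^ 3 + 27 * B ^ 2 ≠ 0 :=
  Pool.Agent.N61.PF.disc_ne h

/-- From polynomials to curves. -/
theorem qe_of (hSELD : S_SELD) {d N D₀ B : ℕ} {f : (𝓞 F)[X]} (hf : Ht 1 B f) (hQ : QD d N D₀ f)
    (u : (𝓞 F)ˣ) :
    4 * ((u⁻¹ : (𝓞 F)ˣ) ^ 4 * f.coeff 1 : 𝓞 F) ^ 3 +
      27 * ((u⁻¹ : (𝓞 F)ˣ) ^ 6 * f.coeff 0 : 𝓞 F) ^ 2 ≠ 0 ∧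
    QE d N D₀ (((u⁻¹ : (𝓞 F)ˣ) ^ 4 * f.coeff 1 : 𝓞 F), ((u⁻¹ : (𝓞 F)ˣ) ^ 6 * f.coeff 0 : 𝓞 F)) := by
  obtain ⟨v, hv⟩ : ∃ v : F, v = algebraMap (𝓞 F) F ((u⁻¹ : (𝓞 F)ˣ) : 𝓞 F) := ⟨_, rfl⟩
  have hv0 : v ≠ 0 := by
    rw [hv]
    have h1 := (u⁻¹ : (𝓞 F)ˣ).ne_zero
    exact fun h => h1 ((map_eq_zero_iff _ (FaithfulSMul.algebraMap_injective (𝓞 F) F)).1 h)
  have e1 : ((((u⁻¹ : (𝓞 F)ˣ) : 𝓞 F) ^ 4 * f.coeff 1 : 𝓞 F) : F) =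
      ((f.coeff 1 : 𝓞 F) : F) * (v ^ 2) ^ 2 := by
    rw [hv]
    refine (map_mul (algebraMap (𝓞 F) F) _ _).trans ?_
    rw [map_pow]
    ring
  have e0 : ((((u⁻¹ : (𝓞 F)ˣ) : 𝓞 F) ^ 6 * f.coeff 0 : 𝓞 F) : F) =
      ((f.coeff 0 : 𝓞 F) : F) * (v ^ 2) ^ 3 := by
    rw [hv]
    refine (map_mul (algebraMap (𝓞 F) F) _ _).trans ?_
    rw [map_pow]
    ring
  have hcb : Irreducible (cb ((f.coeff 1 : 𝓞 F) : F) ((f.coeff 0 : 𝓞 F) : F)) := by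
    rw [← fF_cub hf.mon hf.deg hf.tr]
    exact hQ.irr
  have hcb' := irr_cb (pow_ne_zero 2 hv0) hcb
  refine ⟨?_, ?_, ?_, ?_⟩
  · intro h0
    apply disc_cb hcb'
    rw [← e1, ← e0]
    have h1 := congrArg (algebraMap (𝓞 F) F) h0
    simp only [map_add, map_mul, map_pow, map_zero, map_ofNat] at h1
    simp only [map_mul, map_pow]
    exact h1
  · intro 𝔭 hp hp0 hcon
    apply hQ.min 𝔭 hp hp0
    have hun : ∀ (k n : ℕ) (x : 𝓞 F), ((u⁻¹ : (𝓞 F)ˣ) : 𝓞 F) ^ k * x ∈ 𝔭 ^ n → x ∈ 𝔭 ^ n := by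
      intro k n x hx
      have h1 := Ideal.mul_mem_left _ ((u : 𝓞 F) ^ k) hx
      rw [← mul_assoc, ← mul_pow, Units.mul_inv, one_pow, one_mul] at h1
      exact h1
    intro j hj
    interval_cases j
    · exact hun 6 6 _ hcon.2
    · exact hun 4 4 _ hcon.1
    · have : f.coeff 2 = 0 := hf.tr
      rw [this]
      exact Submodule.zero_mem _
  · rw [e1, e0]
    exact hSELD F _ _ d (disc_cb hcb') hcb' (selCard_scale hv0 hQ.sel)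
  · intro d' hd'
    obtain ⟨D, hD, hD₀, hs⟩ := hQ.all d' hd'
    refine ⟨D, hD, hD₀, ?_⟩
    have hDF : (D : F) ≠ 0 := Nat.cast_ne_zero.2 hD
    have hcb2 := irr_cb hDF hcb'
    have e3 : ((f.coeff 1 : 𝓞 F) : F) * (v ^ 2) ^ 2 * (D : F) ^ 2 =
        ((f.coeff 1 : 𝓞 F) : F) * (D : F) ^ 2 * (v ^ 2) ^ 2 := by ring
    have e4 : ((f.coeff 0 : 𝓞 F) : F) * (v ^ 2) ^ 3 * (D : F) ^ 3 =
        ((f.coeff 0 : 𝓞 F) : F) * (D : F) ^ 3 * (v ^ 2) ^ 3 := by ring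
    rw [e3, e4] at hcb2
    rw [e1, e0, e3, e4]
    exact hSELD F _ _ d' (disc_cb hcb2) hcb2 (selCard_scale hv0 hs)

end

theorem find (hPRX : S_PRX) (hLEVB : S_LEVB) (hTW : S_TWDN) (hHTU : S_HTU) (hSELD : S_SELD)
    (F : Type) [Field F] [NumberField F] (d N : ℕ) :
    ∃ D₀ : ℕ, ∃ c : ℝ, 0 < c ∧ ∃ X₀ : ℝ, ∀ X : ℝ,
    {p : 𝓞 F × 𝓞 F | 4 * p.1 ^ 3 + 27 * p.2 ^ 2 ≠ 0 ∧ HnX X p}.Finite ∧ (X₀ ≤ X →
      0 < {p : 𝓞 F × 𝓞 F | 4 * p.1 ^ 3 + 27 * p.2 ^ 2 ≠ 0 ∧ HnX X p}.ncard ∧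
      c * ({p : 𝓞 F × 𝓞 F | 4 * p.1 ^ 3 + 27 * p.2 ^ 2 ≠ 0 ∧ HnX X p}.ncard : ℝ) ≤
        ({p : 𝓞 F × 𝓞 F | (4 * p.1 ^ 3 + 27 * p.2 ^ 2 ≠ 0 ∧ HnX X p) ∧ QE d N D₀ p}.ncard : ℝ)) := by
  obtain ⟨D₀, c, hc, B₀, hmain⟩ := maind hPRX hLEVB hTW F d N
  obtain ⟨C, hC, hX⟩ := hHTU F
  obtain ⟨X₀, hX₀⟩ := hX (max B₀ 1)
  obtain ⟨-, Cp, hCp, hlow, hpt⟩ := Pool.Agent.N490.PF.pts F
  refine ⟨D₀, c / (Cp ^ 2 * ((2 * Cp) ^ (2 * 1) * (C : ℝ) ^ De F)), by positivity, max X₀ 1,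
    fun X => ?_⟩
  have hfin : {p : 𝓞 F × 𝓞 F | 4 * p.1 ^ 3 + 27 * p.2 ^ 2 ≠ 0 ∧ HnX X p}.Finite :=
    (hnX_finite X).subset fun p hp => hp.2
  refine ⟨hfin, fun hXX => ?_⟩
  obtain ⟨u, B, hB, h1, h2⟩ := hX₀ X ((le_max_left _ _).trans hXX)
  have hB1 : 1 ≤ B := (le_max_right _ _).trans hB
  obtain ⟨hHf, hH⟩ := hmain B ((le_max_left _ _).trans hB)
  constructor
  · rw [Set.ncard_pos hfin]
    refine ⟨(1, 1), ?_, ?_⟩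
    · norm_num
    · intro v
      have hX1 : 1 ≤ X := (le_max_right _ _).trans hXX
      simp [hX1]
  · -- upper bound
    have hup : ({p : 𝓞 F × 𝓞 F | 4 * p.1 ^ 3 + 27 * p.2 ^ 2 ≠ 0 ∧ HnX X p}.ncard : ℝ) ≤
        (2 * Cp) ^ (2 * 1) * ((C : ℝ) ^ De F * (B : ℝ) ^ De F) := by
      have hCB : 1 ≤ C * B := Nat.one_le_iff_ne_zero.2 (by positivity)
      obtain ⟨f1, f2⟩ := Pool.Agent.N99.PF.ht_card hCp hpt 1 (C * B) hCB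
      have h3 := Set.ncard_le_ncard_of_injOn
        (fun p : 𝓞 F × 𝓞 F => pol ((u : 𝓞 F) ^ 4 * p.1) ((u : 𝓞 F) ^ 6 * p.2))
        (s := {p : 𝓞 F × 𝓞 F | 4 * p.1 ^ 3 + 27 * p.2 ^ 2 ≠ 0 ∧ HnX X p})
        (t := {f : (𝓞 F)[X] | Ht 1 (C * B) f})
        (fun p hp => Pool.Agent.N61.PF.ht_pol (h2 p hp.2).1 (h2 p hp.2).2)
        (by
          intro p _ q _ h
          have e1 := congrArg (fun g : (𝓞 F)[X] => g.coeff 1) h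
          have e0 := congrArg (fun g : (𝓞 F)[X] => g.coeff 0) h
          simp only [pol_coeff1, pol_coeff0] at e1 e0
          exact Prod.ext (mul_left_cancel₀ (pow_ne_zero _ u.ne_zero) e1)
            (mul_left_cancel₀ (pow_ne_zero _ u.ne_zero) e0)) f1
      calc ({p : 𝓞 F × 𝓞 F | 4 * p.1 ^ 3 + 27 * p.2 ^ 2 ≠ 0 ∧ HnX X p}.ncard : ℝ)
          ≤ ({f : (𝓞 F)[X] | Ht 1 (C * B) f}.ncard : ℝ) := by exact_mod_cast h3
        _ ≤ (2 * Cp) ^ (2 * 1) * ((C * B : ℕ) : ℝ) ^ De F := f2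
        _ = _ := by rw [Nat.cast_mul, mul_pow (C : ℝ) (B : ℝ)]
    -- lower bound
    have hlo : (B : ℝ) ^ De F ≤ Cp ^ 2 * ({f : (𝓞 F)[X] | Ht 1 B f}.ncard : ℝ) := by
      have h1 := Pool.Agent.N61.PF.ht_lower hCp hlow hB1 hHf
      have e : De F = 5 * Module.finrank ℚ F := by
        unfold De dd
        ring
      rw [e]
      exact h1
    have hgood : ({f : (𝓞 F)[X] | Ht 1 B f ∧ QD d N D₀ f}.ncard : ℝ) ≤
        ({p : 𝓞 F × 𝓞 F | (4 * p.1 ^ 3 + 27 * p.2 ^ 2 ≠ 0 ∧ HnX X p) ∧ QE d N D₀ p}.ncard : ℝ) := by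
      have h6 := Set.ncard_le_ncard_of_injOn (fun f : (𝓞 F)[X] =>
          ((((u⁻¹ : (𝓞 F)ˣ) : 𝓞 F) ^ 4 * f.coeff 1 : 𝓞 F),
            (((u⁻¹ : (𝓞 F)ˣ) : 𝓞 F) ^ 6 * f.coeff 0 : 𝓞 F)))
        (s := {f : (𝓞 F)[X] | Ht 1 B f ∧ QD d N D₀ f})
        (t := {p : 𝓞 F × 𝓞 F | (4 * p.1 ^ 3 + 27 * p.2 ^ 2 ≠ 0 ∧ HnX X p) ∧ QE d N D₀ p})
        (by
          intro f hf
          obtain ⟨g1, g2⟩ := qe_of hSELD hf.1 hf.2 u
          refine ⟨⟨g1, h1 _ ?_ ?_⟩, g2⟩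
          · have e : (u : 𝓞 F) ^ 4 * (((u⁻¹ : (𝓞 F)ˣ) : 𝓞 F) ^ 4 * f.coeff 1) = f.coeff 1 := by
              rw [← mul_assoc, ← mul_pow, Units.mul_inv, one_pow, one_mul]
            rw [e]
            exact hf.1.ht 1 (by norm_num)
          · have e : (u : 𝓞 F) ^ 6 * (((u⁻¹ : (𝓞 F)ˣ) : 𝓞 F) ^ 6 * f.coeff 0) = f.coeff 0 := by
              rw [← mul_assoc, ← mul_pow, Units.mul_inv, one_pow, one_mul]
            rw [e]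
            exact hf.1.ht 0 (by norm_num))
        (by
          intro f hf f' hf' h
          have e1 := congrArg Prod.fst h
          have e0 := congrArg Prod.snd h
          have i1 := mul_left_cancel₀ (pow_ne_zero 4 (u⁻¹ : (𝓞 F)ˣ).ne_zero) e1
          have i0 := mul_left_cancel₀ (pow_ne_zero 6 (u⁻¹ : (𝓞 F)ˣ).ne_zero) e0
          rw [eq_pol hf.1, eq_pol hf'.1, i1, i0])
        (hfin.subset fun p hp => hp.1)
      exact_mod_cast h6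
    have hCr : (0 : ℝ) < C := by exact_mod_cast hC
    calc c / (Cp ^ 2 * ((2 * Cp) ^ (2 * 1) * (C : ℝ) ^ De F)) *
          ({p : 𝓞 F × 𝓞 F | 4 * p.1 ^ 3 + 27 * p.2 ^ 2 ≠ 0 ∧ HnX X p}.ncard : ℝ)
        ≤ c / (Cp ^ 2 * ((2 * Cp) ^ (2 * 1) * (C : ℝ) ^ De F)) *
          ((2 * Cp) ^ (2 * 1) * ((C : ℝ) ^ De F *
            (Cp ^ 2 * ({f : (𝓞 F)[X] | Ht 1 B f}.ncard : ℝ)))) := by
          refine mul_le_mul_of_nonneg_left (hup.trans ?_) (by positivity)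
          gcongr
      _ = c * ({f : (𝓞 F)[X] | Ht 1 B f}.ncard : ℝ) := by
          field_simp
      _ ≤ _ := hH.trans hgood

end Pool.Agent.Run7.h245.SR
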