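import Pool.Agent.Run7.h245.SR.Find

/-!
# Project SR: the count for a general property of the twists
-/

set_option autoImplicit false
set_option linter.all false

open Polynomial IsDedekindDomain Matrix NumberField WithZero
open scoped Classical

namespace Pool.Agent.Run7.h245.SR

open Pool.Agent.N352.PJ (dd)
open Pool.Agent.N874.PP (Ev Sq1 U0 S_LIN sW)
open Pool.Agent.N783.PQ (LocIm)
open Pool.Agent.N874.JM (LocF)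
open Pool.Agent.N874.PM (PLoc)
open Pool.Agent.N783.PF
open Pool.Agent.N61.PF (pol pol_natDegree pol_monic pol_coeff0 pol_coeff1 pol_coeff2 eq_pol)

/-- A positive proportion of all polynomials, for a general property of the twists. -/
theorem maing (hPRX : S_PRX) (hLEVB : S_LEVB) (F : Type) [Field F] [NumberField F] (K n₀ : ℕ)
    (ε : ℝ) (hε : 0 < ε) (R : ℕ → F → F → Prop)
    (hR : ∀ (W : ℕ) (T : ℕ → Finset ℕ) (𝔮 : ℕ → Ideal (𝓞 F)) (r P : ℕ → (𝓞 F)[X]) (f : (𝓞 F)[X]),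
      GoodS 1 W ((Finset.range K).biUnion T) 𝔮 r P → (∀ k < K, n₀ ≤ (T k).card) →
      (∀ i < K, ∀ j < K, i ≠ j → Disjoint (T i) (T j)) → f.Monic → f.natDegree = 3 →
      f.coeff 2 = 0 → Irreducible (fF f) → SqF 1 f → Small W f →
      (∃ f₁ : (𝓞 F)[X], GoodF 1 W f₁ ∧ Cg (sp F W) f f₁) →
      (∀ q ∈ (Finset.range K).biUnion T, Cg (sp F q) f (P q)) →
      (∀ k < K, PrAt 1 f 𝔮 ((Finset.range k).biUnion T) (T k) ε) →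
      ∃ J ⊆ (Finset.range K).biUnion T,
        R ((∏ q ∈ (Finset.range K).biUnion T, q) * (∏ q ∈ (Finset.range K).biUnion T, q))
          (((f.coeff 1 : 𝓞 F) : F) * ((Dp J : ℕ) : F) ^ 2)
          (((f.coeff 0 : 𝓞 F) : F) * ((Dp J : ℕ) : F) ^ 3)) :
    ∃ D₀ : ℕ, ∃ c : ℝ, 0 < c ∧ ∃ B₀ : ℕ, ∀ B ≥ B₀, {f : (𝓞 F)[X] | Ht 1 B f}.Finite ∧
      c * ({f : (𝓞 F)[X] | Ht 1 B f}.ncard : ℝ) ≤
        ({f : (𝓞 F)[X] | Ht 1 B f ∧ Irreducible (fF f) ∧ Min 1 f ∧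
          R D₀ ((f.coeff 1 : 𝓞 F) : F) ((f.coeff 0 : 𝓞 F) : F)}.ncard : ℝ) := by
  obtain ⟨W, T, 𝔮, r, P, hS, hn, hdj, c, hc, B₁₀, hlev⟩ := lev hPRX hLEVB F K n₀ ε hε
  obtain ⟨-, Cp, hCp, hlow, hpt⟩ := Pool.Agent.N490.PF.pts F
  obtain ⟨S, hSd⟩ : ∃ S, (Finset.range K).biUnion T = S := ⟨_, rfl⟩
  have htw' := fun f => hR W T 𝔮 r P f hS hn hdj
  rw [hSd] at hS hlev htw'
  have hq1 : ∀ q ∈ S, 1 ≤ q := fun q hq => (hS q hq).1.pos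
  set Q : ℕ := ∏ q ∈ S, q with hQ
  have hQ1 : 1 ≤ Q := Finset.one_le_prod' hq1
  have hQ0 : (0 : ℝ) < Q := by exact_mod_cast hQ1
  set X₀ : ℕ := max B₁₀ 1 with hX₀
  refine ⟨Q * Q, c / (2 ^ S.card * (Cp ^ 2 * ((2 * Cp) ^ (2 * 1) * (2 * Q) ^ De F))), by positivity,
    X₀ * Q, fun B hB => ?_⟩
  set B₁ : ℕ := B / Q with hB₁
  have hBX : X₀ ≤ B₁ := (Nat.le_div_iff_mul_le hQ1).2 hB
  have hb1 : 1 ≤ B₁ := (le_max_right _ _).trans hBX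
  have hb2 : B₁₀ ≤ B₁ := (le_max_left _ _).trans hBX
  have hBQ : B₁ * Q ≤ B := Nat.div_mul_le_self B Q
  have hBQ2 : B ≤ 2 * Q * B₁ := by
    have e1 : B < B₁ * Q + Q := Nat.lt_div_mul_add (a := B) (b := Q) hQ1
    nlinarith
  have hB1 : 1 ≤ B := le_trans (by nlinarith) hBQ
  obtain ⟨hHf, hHc⟩ := Pool.Agent.N99.PF.ht_card hCp hpt 1 B hB1
  refine ⟨hHf, ?_⟩
  obtain ⟨hfin1, hlev1⟩ := hlev B₁ hb2
  set H := {f : (𝓞 F)[X] | Ht 1 B f ∧ Irreducible (fF f) ∧ Min 1 f ∧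
      R (Q * Q) ((f.coeff 1 : 𝓞 F) : F) ((f.coeff 0 : 𝓞 F) : F)} with hH
  set G := {f : (𝓞 F)[X] | Ht 1 B₁ f ∧ Irreducible (fF f) ∧ SqF 1 f ∧ Small W f ∧
        (∃ f₁ : (𝓞 F)[X], GoodF 1 W f₁ ∧ Cg (sp F W) f f₁) ∧
        (∀ q ∈ S, Cg (sp F q) f (P q)) ∧
        ∀ k < K, PrAt 1 f 𝔮 ((Finset.range k).biUnion T) (T k) ε} with hGdef
  have hHfin : H.Finite := hHf.subset fun f hf => hf.1
  have hGf : G.Finite := hfin1.subset fun f hf => hf.1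
  have hDle : ∀ J ⊆ S, Dp J ≤ Q := fun J hJ =>
    Finset.prod_le_prod_of_subset_of_one_le' hJ fun q hq _ => hq1 q hq
  have hD0 : ∀ J ⊆ S, Dp J ≠ 0 := fun J hJ =>
    (Finset.prod_pos fun q hq => hq1 q (hJ hq)).ne'
  have hJ0 : ∀ J ⊆ S, ((Dp J : ℕ) : 𝓞 F) ≠ 0 := fun J hJ => by exact_mod_cast hD0 J hJ
  have hcard1 := Pool.Agent.N99.PF.card_fib hGf hHfin S
    (fun J f => f.scaleRoots ((Dp J : ℕ) : 𝓞 F)) (by
      rintro f ⟨a1, a2, a3, a4, a5, a6, a7⟩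
      have a8 : f.natDegree = 3 := a1.deg
      obtain ⟨J, hJ, hsel⟩ := htw' f a1.mon a1.deg a1.tr a2 a3 a4 a5 a6 a7
      refine ⟨J, hJ, Pool.Agent.N99.PF.ht_scale a1 ((Nat.mul_le_mul_left _ (hDle J hJ)).trans hBQ),
        ?_, ?_, ?_⟩
      · rw [Pool.Agent.N170.PF.fF_scale a1.mon]
        exact Pool.Agent.N170.PF.irr_scale (Nat.cast_ne_zero.2 (hD0 J hJ)) a2
      · exact Pool.Agent.N547.PF.min 1 W F S J 𝔮 r P f le_rfl hS a3 a1.mon a1.deg a6 hJ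
      · rw [(coeff_scale a8 _).1, (coeff_scale a8 _).2]
        exact hsel) (by
      intro J hJ x hx y hy hxy
      exact Pool.Agent.N99.PF.scale_inj (hJ0 J hJ) (by rw [hx.1.deg, hy.1.deg]) hxy)
  have hcard' : (G.ncard : ℝ) ≤ 2 ^ S.card * H.ncard := by exact_mod_cast hcard1
  have hB₁1 : (1 : ℝ) ≤ B₁ := by exact_mod_cast hb1
  have hlow1 : (B₁ : ℝ) ^ De F ≤ Cp ^ 2 * ({f : (𝓞 F)[X] | Ht 1 B₁ f}.ncard : ℝ) := by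
    have h1 := Pool.Agent.N61.PF.ht_lower hCp hlow hb1 hfin1
    have e : De F = 5 * Module.finrank ℚ F := by
      unfold De dd
      ring
    rw [e]
    exact h1
  have hM' : ({f : (𝓞 F)[X] | Ht 1 B f}.ncard : ℝ) ≤
      (2 * Cp) ^ (2 * 1) * (2 * Q) ^ De F * (B₁ : ℝ) ^ De F := by
    have e1 : ({f : (𝓞 F)[X] | Ht 1 B f}.ncard : ℝ) ≤ (2 * Cp) ^ (2 * 1) * (B : ℝ) ^ De F := hHc
    refine e1.trans ?_
    rw [mul_assoc, ← mul_pow]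
    have e2 : (B : ℝ) ≤ 2 * Q * B₁ := by exact_mod_cast hBQ2
    gcongr
  calc c / (2 ^ S.card * (Cp ^ 2 * ((2 * Cp) ^ (2 * 1) * (2 * Q) ^ De F))) *
        ({f : (𝓞 F)[X] | Ht 1 B f}.ncard : ℝ)
      ≤ c / (2 ^ S.card * (Cp ^ 2 * ((2 * Cp) ^ (2 * 1) * (2 * Q) ^ De F))) *
        ((2 * Cp) ^ (2 * 1) * (2 * Q) ^ De F *
          (Cp ^ 2 * ({f : (𝓞 F)[X] | Ht 1 B₁ f}.ncard : ℝ))) := by
        refine mul_le_mul_of_nonneg_left (hM'.trans ?_) (by positivity)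
        exact mul_le_mul_of_nonneg_left hlow1 (by positivity)
    _ = c * ({f : (𝓞 F)[X] | Ht 1 B₁ f}.ncard : ℝ) / 2 ^ S.card := by
        field_simp
    _ ≤ (G.ncard : ℝ) / 2 ^ S.card := by gcongr
    _ ≤ (2 ^ S.card * (H.ncard : ℝ)) / 2 ^ S.card := by gcongr
    _ = H.ncard := by field_simp

/-- The curves with a general property. -/
structure QG {F : Type} [Field F] [NumberField F] (R : F → F → Prop) (p : 𝓞 F × 𝓞 F) : Prop where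
  min : ∀ 𝔭 : Ideal (𝓞 F), 𝔭.IsPrime → 𝔭 ≠ ⊥ → ¬ (p.1 ∈ 𝔭 ^ 4 ∧ p.2 ∈ 𝔭 ^ 6)
  irr : Irreducible (cb (p.1 : F) (p.2 : F))
  prop : R (p.1 : F) (p.2 : F)

/-- From polynomials to curves. -/
theorem qg_of {F : Type} [Field F] [NumberField F] {R : F → F → Prop}
    (hsc : ∀ A B v : F, v ≠ 0 → R A B → R (A * (v ^ 2) ^ 2) (B * (v ^ 2) ^ 3))
    {B : ℕ} {f : (𝓞 F)[X]} (hf : Ht 1 B f) (hirr : Irreducible (fF f)) (hmin : Min 1 f)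
    (hQ : R ((f.coeff 1 : 𝓞 F) : F) ((f.coeff 0 : 𝓞 F) : F)) (u : (𝓞 F)ˣ) :
    4 * ((u⁻¹ : (𝓞 F)ˣ) ^ 4 * f.coeff 1 : 𝓞 F) ^ 3 +
      27 * ((u⁻¹ : (𝓞 F)ˣ) ^ 6 * f.coeff 0 : 𝓞 F) ^ 2 ≠ 0 ∧
    QG R (((u⁻¹ : (𝓞 F)ˣ) ^ 4 * f.coeff 1 : 𝓞 F), ((u⁻¹ : (𝓞 F)ˣ) ^ 6 * f.coeff 0 : 𝓞 F)) := by
  obtain ⟨v, hv⟩ : ∃ v : F, v = algebraMap (𝓞 F) F ((u⁻¹ : (𝓞 F)ˣ) : 𝓞 F) := ⟨_, rfl⟩
  have hv0 : v ≠ 0 := by
    rw [hv]
    have h1 := (u⁻¹ : (𝓞 F)ˣ).ne_zero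
    exact fun h => h1 ((map_eq_zero_iff _ (FaithfulSMul.algebraMap_injective (𝓞 F) F)).1 h)
  have e1 : ((((u⁻¹ : (𝓞 F)ˣ) : 𝓞 F) ^ 4 * f.coeff 1 : 𝓞 F) : F) =
      ((f.coeff 1 : 𝓞 F) : F) * (v ^ 2) ^ 2 := by
    rw [hv]
    refine (map_mul (algebraMap (𝓞 F) F) _ _).trans ?_
    rw [map_pow]
    ring
  have e0 : ((((u⁻¹ : (𝓞 F)ˣ) : 𝓞 F) ^ 6 * f.coeff 0 : 𝓞 F) : F) =
      ((f.coeff 0 : 𝓞 F) : F) * (v ^ 2) ^ 3 := by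
    rw [hv]
    refine (map_mul (algebraMap (𝓞 F) F) _ _).trans ?_
    rw [map_pow]
    ring
  have hcb : Irreducible (cb ((f.coeff 1 : 𝓞 F) : F) ((f.coeff 0 : 𝓞 F) : F)) := by
    rw [← fF_cub hf.mon hf.deg hf.tr]
    exact hirr
  have hcb' := irr_cb (pow_ne_zero 2 hv0) hcb
  refine ⟨?_, ?_, ?_, ?_⟩
  · intro h0
    apply disc_cb hcb'
    rw [← e1, ← e0]
    have h1 := congrArg (algebraMap (𝓞 F) F) h0
    simp only [map_add, map_mul, map_pow, map_zero, map_ofNat] at h1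
    simp only [map_mul, map_pow]
    exact h1
  · intro 𝔭 hp hp0 hcon
    apply hmin 𝔭 hp hp0
    have hun : ∀ (k n : ℕ) (x : 𝓞 F), ((u⁻¹ : (𝓞 F)ˣ) : 𝓞 F) ^ k * x ∈ 𝔭 ^ n → x ∈ 𝔭 ^ n := by
      intro k n x hx
      have h1 := Ideal.mul_mem_left _ ((u : 𝓞 F) ^ k) hx
      rw [← mul_assoc, ← mul_pow, Units.mul_inv, one_pow, one_mul] at h1
      exact h1
    intro j hj
    interval_cases j
    · exact hun 6 6 _ hcon.2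
    · exact hun 4 4 _ hcon.1
    · have : f.coeff 2 = 0 := hf.tr
      rw [this]
      exact Submodule.zero_mem _
  · rw [e1, e0]
    exact hcb'
  · rw [e1, e0]
    exact hsc _ _ v hv0 hQ

/-- A positive proportion of all curves, for a general property of the twists. -/
theorem findg (hPRX : S_PRX) (hLEVB : S_LEVB) (hHTU : S_HTU) (F : Type) [Field F] [NumberField F]
    (K n₀ : ℕ) (ε : ℝ) (hε : 0 < ε) (R : ℕ → F → F → Prop)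
    (hsc : ∀ (D₀ : ℕ) (A B v : F), v ≠ 0 → R D₀ A B → R D₀ (A * (v ^ 2) ^ 2) (B * (v ^ 2) ^ 3))
    (hR : ∀ (W : ℕ) (T : ℕ → Finset ℕ) (𝔮 : ℕ → Ideal (𝓞 F)) (r P : ℕ → (𝓞 F)[X]) (f : (𝓞 F)[X]),
      GoodS 1 W ((Finset.range K).biUnion T) 𝔮 r P → (∀ k < K, n₀ ≤ (T k).card) →
      (∀ i < K, ∀ j < K, i ≠ j → Disjoint (T i) (T j)) → f.Monic → f.natDegree = 3 →
      f.coeff 2 = 0 → Irreducible (fF f) → SqF 1 f → Small W f →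
      (∃ f₁ : (𝓞 F)[X], GoodF 1 W f₁ ∧ Cg (sp F W) f f₁) →
      (∀ q ∈ (Finset.range K).biUnion T, Cg (sp F q) f (P q)) →
      (∀ k < K, PrAt 1 f 𝔮 ((Finset.range k).biUnion T) (T k) ε) →
      ∃ J ⊆ (Finset.range K).biUnion T,
        R ((∏ q ∈ (Finset.range K).biUnion T, q) * (∏ q ∈ (Finset.range K).biUnion T, q))
          (((f.coeff 1 : 𝓞 F) : F) * ((Dp J : ℕ) : F) ^ 2)
          (((f.coeff 0 : 𝓞 F) : F) * ((Dp J : ℕ) : F) ^ 3)) :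
    ∃ D₀ : ℕ, ∃ c : ℝ, 0 < c ∧ ∃ X₀ : ℝ, ∀ X : ℝ,
    {p : 𝓞 F × 𝓞 F | 4 * p.1 ^ 3 + 27 * p.2 ^ 2 ≠ 0 ∧ HnX X p}.Finite ∧ (X₀ ≤ X →
      0 < {p : 𝓞 F × 𝓞 F | 4 * p.1 ^ 3 + 27 * p.2 ^ 2 ≠ 0 ∧ HnX X p}.ncard ∧
      c * ({p : 𝓞 F × 𝓞 F | 4 * p.1 ^ 3 + 27 * p.2 ^ 2 ≠ 0 ∧ HnX X p}.ncard : ℝ) ≤
        ({p : 𝓞 F × 𝓞 F | (4 * p.1 ^ 3 + 27 * p.2 ^ 2 ≠ 0 ∧ HnX X p) ∧ QG (R D₀) p}.ncard : ℝ)) := by
  obtain ⟨D₀, c, hc, B₀, hmain⟩ := maing hPRX hLEVB F K n₀ ε hε R hR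
  obtain ⟨C, hC, hX⟩ := hHTU F
  obtain ⟨X₀, hX₀⟩ := hX (max B₀ 1)
  obtain ⟨-, Cp, hCp, hlow, hpt⟩ := Pool.Agent.N490.PF.pts F
  refine ⟨D₀, c / (Cp ^ 2 * ((2 * Cp) ^ (2 * 1) * (C : ℝ) ^ De F)), by positivity, max X₀ 1,
    fun X => ?_⟩
  have hfin : {p : 𝓞 F × 𝓞 F | 4 * p.1 ^ 3 + 27 * p.2 ^ 2 ≠ 0 ∧ HnX X p}.Finite :=
    (hnX_finite X).subset fun p hp => hp.2
  refine ⟨hfin, fun hXX => ?_⟩
  obtain ⟨u, B, hB, h1, h2⟩ := hX₀ X ((le_max_left _ _).trans hXX)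
  have hB1 : 1 ≤ B := (le_max_right _ _).trans hB
  obtain ⟨hHf, hH⟩ := hmain B ((le_max_left _ _).trans hB)
  constructor
  · rw [Set.ncard_pos hfin]
    refine ⟨(1, 1), ?_, ?_⟩
    · norm_num
    · intro v
      have hX1 : 1 ≤ X := (le_max_right _ _).trans hXX
      simp [hX1]
  · -- upper bound
    have hup : ({p : 𝓞 F × 𝓞 F | 4 * p.1 ^ 3 + 27 * p.2 ^ 2 ≠ 0 ∧ HnX X p}.ncard : ℝ) ≤
        (2 * Cp) ^ (2 * 1) * ((C : ℝ) ^ De F * (B : ℝ) ^ De F) := by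
      have hCB : 1 ≤ C * B := Nat.one_le_iff_ne_zero.2 (by positivity)
      obtain ⟨f1, f2⟩ := Pool.Agent.N99.PF.ht_card hCp hpt 1 (C * B) hCB
      have h3 := Set.ncard_le_ncard_of_injOn
        (fun p : 𝓞 F × 𝓞 F => pol ((u : 𝓞 F) ^ 4 * p.1) ((u : 𝓞 F) ^ 6 * p.2))
        (s := {p : 𝓞 F × 𝓞 F | 4 * p.1 ^ 3 + 27 * p.2 ^ 2 ≠ 0 ∧ HnX X p})
        (t := {f : (𝓞 F)[X] | Ht 1 (C * B) f})
        (fun p hp => Pool.Agent.N61.PF.ht_pol (h2 p hp.2).1 (h2 p hp.2).2)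
        (by
          intro p _ q _ h
          have e1 := congrArg (fun g : (𝓞 F)[X] => g.coeff 1) h
          have e0 := congrArg (fun g : (𝓞 F)[X] => g.coeff 0) h
          simp only [pol_coeff1, pol_coeff0] at e1 e0
          exact Prod.ext (mul_left_cancel₀ (pow_ne_zero _ u.ne_zero) e1)
            (mul_left_cancel₀ (pow_ne_zero _ u.ne_zero) e0)) f1
      calc ({p : 𝓞 F × 𝓞 F | 4 * p.1 ^ 3 + 27 * p.2 ^ 2 ≠ 0 ∧ HnX X p}.ncard : ℝ)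
          ≤ ({f : (𝓞 F)[X] | Ht 1 (C * B) f}.ncard : ℝ) := by exact_mod_cast h3
        _ ≤ (2 * Cp) ^ (2 * 1) * ((C * B : ℕ) : ℝ) ^ De F := f2
        _ = _ := by rw [Nat.cast_mul, mul_pow (C : ℝ) (B : ℝ)]
    -- lower bound
    have hlo : (B : ℝ) ^ De F ≤ Cp ^ 2 * ({f : (𝓞 F)[X] | Ht 1 B f}.ncard : ℝ) := by
      have h1 := Pool.Agent.N61.PF.ht_lower hCp hlow hB1 hHf
      have e : De F = 5 * Module.finrank ℚ F := by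
        unfold De dd
        ring
      rw [e]
      exact h1
    have hgood : ({f : (𝓞 F)[X] | Ht 1 B f ∧ Irreducible (fF f) ∧ Min 1 f ∧
          R D₀ ((f.coeff 1 : 𝓞 F) : F) ((f.coeff 0 : 𝓞 F) : F)}.ncard : ℝ) ≤
        ({p : 𝓞 F × 𝓞 F | (4 * p.1 ^ 3 + 27 * p.2 ^ 2 ≠ 0 ∧ HnX X p) ∧ QG (R D₀) p}.ncard : ℝ) := by
      have h6 := Set.ncard_le_ncard_of_injOn (fun f : (𝓞 F)[X] =>
          ((((u⁻¹ : (𝓞 F)ˣ) : 𝓞 F) ^ 4 * f.coeff 1 : 𝓞 F),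
            (((u⁻¹ : (𝓞 F)ˣ) : 𝓞 F) ^ 6 * f.coeff 0 : 𝓞 F)))
        (s := {f : (𝓞 F)[X] | Ht 1 B f ∧ Irreducible (fF f) ∧ Min 1 f ∧
          R D₀ ((f.coeff 1 : 𝓞 F) : F) ((f.coeff 0 : 𝓞 F) : F)})
        (t := {p : 𝓞 F × 𝓞 F | (4 * p.1 ^ 3 + 27 * p.2 ^ 2 ≠ 0 ∧ HnX X p) ∧ QG (R D₀) p})
        (by
          intro f hf
          obtain ⟨g1, g2⟩ := qg_of (hsc D₀) hf.1 hf.2.1 hf.2.2.1 hf.2.2.2 u
          refine ⟨⟨g1, h1 _ ?_ ?_⟩, g2⟩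
          · have e : (u : 𝓞 F) ^ 4 * (((u⁻¹ : (𝓞 F)ˣ) : 𝓞 F) ^ 4 * f.coeff 1) = f.coeff 1 := by
              rw [← mul_assoc, ← mul_pow, Units.mul_inv, one_pow, one_mul]
            rw [e]
            exact hf.1.ht 1 (by norm_num)
          · have e : (u : 𝓞 F) ^ 6 * (((u⁻¹ : (𝓞 F)ˣ) : 𝓞 F) ^ 6 * f.coeff 0) = f.coeff 0 := by
              rw [← mul_assoc, ← mul_pow, Units.mul_inv, one_pow, one_mul]
            rw [e]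
            exact hf.1.ht 0 (by norm_num))
        (by
          intro f hf f' hf' h
          have e1 := congrArg Prod.fst h
          have e0 := congrArg Prod.snd h
          have i1 := mul_left_cancel₀ (pow_ne_zero 4 (u⁻¹ : (𝓞 F)ˣ).ne_zero) e1
          have i0 := mul_left_cancel₀ (pow_ne_zero 6 (u⁻¹ : (𝓞 F)ˣ).ne_zero) e0
          rw [eq_pol hf.1, eq_pol hf'.1, i1, i0])
        (hfin.subset fun p hp => hp.1)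
      exact_mod_cast h6
    have hCr : (0 : ℝ) < C := by exact_mod_cast hC
    calc c / (Cp ^ 2 * ((2 * Cp) ^ (2 * 1) * (C : ℝ) ^ De F)) *
          ({p : 𝓞 F × 𝓞 F | 4 * p.1 ^ 3 + 27 * p.2 ^ 2 ≠ 0 ∧ HnX X p}.ncard : ℝ)
        ≤ c / (Cp ^ 2 * ((2 * Cp) ^ (2 * 1) * (C : ℝ) ^ De F)) *
          ((2 * Cp) ^ (2 * 1) * ((C : ℝ) ^ De F *
            (Cp ^ 2 * ({f : (𝓞 F)[X] | Ht 1 B f}.ncard : ℝ)))) := by
          refine mul_le_mul_of_nonneg_left (hup.trans ?_) (by positivity)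
          gcongr
      _ = c * ({f : (𝓞 F)[X] | Ht 1 B f}.ncard : ℝ) := by
          field_simp
      _ ≤ _ := hH.trans hgood

end Pool.Agent.Run7.h245.SR
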