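import Pool.Agent.Run7.h245.SR.Iface2
import Pool.Agent.N771.PF.Core

/-!
# Project SR: the group of classes which are ramified only at the primes `𝔔 q`

After `N771/PF/Core.lean` (helper771).
-/

set_option autoImplicit false
set_option linter.all false

open Polynomial IsDedekindDomain Matrix NumberField WithZero
open scoped Classical

namespace Pool.Agent.Run7.h245.SR

open Pool.Agent.N352.PJ (Mt Typ dd)
open Pool.Agent.N874.PP (Ev Sq1 U0 S_LIN)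
open Pool.Agent.N783.PQ (LocIm)
open Pool.Agent.N874.JM (LocF)
open Pool.Agent.N783.PF
open Pool.Agent.N891.PQ (cl cl_add_aux not_ev_exp locIm_one)
open Pool.Agent.N771.PF (locF_one locF_mul)

/-- The local conditions at `2` and at the real places. -/
structure LocB {F : Type} [Field F] [NumberField F] (f : (𝓞 F)[X]) (h : F[X]) : Prop where
  two : ∀ w : HeightOneSpectrum (𝓞 F), (2 : 𝓞 F) ∈ w.asIdeal →
    LocF (w.adicCompletion F) (fF f) h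
  real : ∀ σ : F →+* ℝ, LocIm ℝ ((fF f).map σ) (h.map σ)

/-- The group of classes. -/
structure InM {F L : Type} [Field F] [NumberField F] [Field L] [NumberField L] [Algebra F L]
    (f : (𝓞 F)[X]) (θ : L) (S : Finset ℕ) (𝔔 : ℕ → HeightOneSpectrum (𝓞 L)) (α : L) : Prop where
  ne : α ≠ 0
  nrm : IsSquare (Algebra.norm F α)
  ev : ∀ 𝔓 : HeightOneSpectrum (𝓞 L), (∀ q ∈ S, 𝔓 ≠ 𝔔 q) → Ev 𝔓 α
  loc : ∃ h₀ : F[X], aeval θ h₀ = α ∧ LocB f h₀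

/-- The classes at the primes `𝔔 q`. -/
noncomputable def psi {L : Type} [Field L] [NumberField L] (θ : L) (S : Finset ℕ)
    (𝔔 : ℕ → HeightOneSpectrum (𝓞 L)) (α : L) : S → ZMod 2 × ZMod 2 :=
  fun q => cl (𝔔 (q : ℕ)) (((q : ℕ) : L) * θ) α

/-- The primes `𝔔 q`. -/
structure IsQ {F L : Type} [Field F] [NumberField F] [Field L] [NumberField L] [Algebra F L]
    (θ : L) (S : Finset ℕ) (𝔮 : ℕ → Ideal (𝓞 F)) (𝔔 : ℕ → HeightOneSpectrum (𝓞 L)) : Prop where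
  ov : ∀ q ∈ S, Ov (𝔮 q) (𝔔 q)
  one : ∀ q ∈ S, (𝔔 q).valuation L θ = 1
  odd : ∀ q ∈ S, ¬ Ev (𝔔 q) ((q : L) * θ)
  uniq : ∀ q ∈ S, ∀ 𝔓 : HeightOneSpectrum (𝓞 L), Ov (𝔮 q) 𝔓 → 𝔓.valuation L θ = 1 → 𝔓 = 𝔔 q
  inj : ∀ q ∈ S, ∀ q' ∈ S, 𝔔 q = 𝔔 q' → q = q'
  ovinj : ∀ q ∈ S, ∀ q' ∈ S, ∀ 𝔓 : HeightOneSpectrum (𝓞 L), Ov (𝔮 q) 𝔓 → Ov (𝔮 q') 𝔓 → q = q'

theorem ev_mul {L : Type} [Field L] [NumberField L] {𝔓 : HeightOneSpectrum (𝓞 L)} {x y : L}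
    (hx : Ev 𝔓 x) (hy : Ev 𝔓 y) : Ev 𝔓 (x * y) := by
  obtain ⟨u, hu⟩ := hx
  obtain ⟨v, hv⟩ := hy
  exact ⟨u * v, by rw [map_mul, map_mul, hu, hv, mul_pow]⟩

section

variable {F L : Type} [Field F] [NumberField F] [Field L] [NumberField L] [Algebra F L]
  {f : (𝓞 F)[X]} {θ : L} {S : Finset ℕ} {𝔮 : ℕ → Ideal (𝓞 F)} {𝔔 : ℕ → HeightOneSpectrum (𝓞 L)}
  {W g : ℕ} {r P : ℕ → (𝓞 F)[X]}

theorem LocB.one : LocB f 1 :=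
  ⟨fun w _ => locF_one _ _, fun σ => by rw [Polynomial.map_one]; exact locIm_one _ _⟩

theorem LocB.mul {h h' : F[X]} (H : LocB f h) (H' : LocB f h') : LocB f (h * h') :=
  ⟨fun w hw => locF_mul (H.two w hw) (H'.two w hw), fun σ => by
    rw [Polynomial.map_mul]
    exact Pool.Agent.N891.PQ.LocIm.mul (H.real σ) (H'.real σ)⟩

theorem InM.one : InM f θ S 𝔔 (1 : L) :=
  ⟨one_ne_zero, by rw [map_one]; exact IsSquare.one, fun 𝔓 _ => ⟨1, by rw [map_one, one_pow]⟩,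
    1, by rw [map_one], LocB.one⟩

theorem InM.mul {α β : L} (hα : InM f θ S 𝔔 α) (hβ : InM f θ S 𝔔 β) : InM f θ S 𝔔 (α * β) := by
  obtain ⟨h1, h2, h3, a, h4, h5⟩ := hα
  obtain ⟨h1', h2', h3', b, h4', h5'⟩ := hβ
  refine ⟨mul_ne_zero h1 h1', ?_, fun 𝔓 h𝔓 => ev_mul (h3 𝔓 h𝔓) (h3' 𝔓 h𝔓), a * b, ?_, h5.mul h5'⟩
  · rw [map_mul]
    exact h2.mul h2'
  · rw [map_mul, h4, h4']

theorem cg_sp (hS : GoodS g W S 𝔮 r P) (hc : ∀ q ∈ S, Cg (sp F q) f (P q)) :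
    ∀ q ∈ S, Cg (𝔮 q) f (X * r q) := by
  intro q hq j
  obtain ⟨-, -, -, -, -, -, hmem, -, -, -, -, -, -, hcg, -⟩ := hS q hq
  have h1 := hc q hq j
  have h2 : sp F q ≤ 𝔮 q := by
    rw [sp, Ideal.span_singleton_le_iff_mem]
    exact hmem
  have h3 := Ideal.add_mem _ (h2 h1) (hcg j)
  have e : f.coeff j - (X * r q).coeff j =
      f.coeff j - (P q).coeff j + ((P q).coeff j - (X * r q).coeff j) := by ring
  rw [e]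
  exact h3

theorem ov_nat (hS : GoodS g W S 𝔮 r P) {q : ℕ} (hq : q ∈ S) {𝔓 : HeightOneSpectrum (𝓞 L)}
    (h : Ov (𝔮 q) 𝔓) : (q : 𝓞 L) ∈ 𝔓.asIdeal := by
  have h1 := h _ (hS q hq).2.2.2.2.2.2.1
  rw [map_natCast] at h1
  exact h1

theorem nat_uniq {q q' : ℕ} (hq : q.Prime) (hq' : q'.Prime) {𝔓 : HeightOneSpectrum (𝓞 L)}
    (h1 : (q : 𝓞 L) ∈ 𝔓.asIdeal) (h2 : (q' : 𝓞 L) ∈ 𝔓.asIdeal) : q = q' := by
  by_contra hne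
  have hco : Nat.Coprime q q' := (Nat.coprime_primes hq hq').2 hne
  have h3 : IsCoprime (q : ℤ) (q' : ℤ) := Nat.isCoprime_iff_coprime.2 hco
  obtain ⟨a, b, hab⟩ := h3
  apply 𝔓.isPrime.ne_top
  rw [Ideal.eq_top_iff_one]
  have h4 : (1 : 𝓞 L) = (a : 𝓞 L) * (q : 𝓞 L) + (b : 𝓞 L) * (q' : 𝓞 L) := by
    have := congrArg (fun z : ℤ => (z : 𝓞 L)) hab
    push_cast at this
    exact this.symm
  rw [h4]
  exact Ideal.add_mem _ (Ideal.mul_mem_left _ _ h1) (Ideal.mul_mem_left _ _ h2)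

/-- Existence of the primes `𝔔 q`. -/
theorem exists_Q (hEXQ : S_EXQ) (hg : 1 ≤ g) (hG : IsGen g f θ) (hsq : SqF g f)
    (hS : GoodS g W S 𝔮 r P) (hc : ∀ q ∈ S, Cg (sp F q) f (P q)) :
    ∃ 𝔔 : ℕ → HeightOneSpectrum (𝓞 L), IsQ θ S 𝔮 𝔔 := by
  have hcg := cg_sp hS hc
  have hex : ∀ q ∈ S, ∃ 𝔓₁ 𝔔 : HeightOneSpectrum (𝓞 L), Ov (𝔮 q) 𝔓₁ ∧ Ov (𝔮 q) 𝔔 ∧
      𝔓₁.valuation L θ < 1 ∧ 𝔔.valuation L θ = 1 ∧ ¬ Ev 𝔔 ((q : L) * θ) ∧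
      ∀ 𝔓 : HeightOneSpectrum (𝓞 L), Ov (𝔮 q) 𝔓 → 𝔓 = 𝔓₁ ∨ 𝔓 = 𝔔 := by
    intro q hq
    obtain ⟨𝔓₁, 𝔔, a1, a2, a3, a4, a5, a6, a7⟩ :=
      hEXQ g W F L f θ S 𝔮 r P hg hG hsq hS q hq (hcg q hq)
    refine ⟨𝔓₁, 𝔔, a1, a2, a3, a4, not_ev_exp ?_, a7⟩
    rw [map_mul, a6, a4, mul_one]
  haveI hne : Nonempty (HeightOneSpectrum (𝓞 L)) := by
    obtain ⟨m, hm⟩ := Ideal.exists_maximal (𝓞 L)
    exact ⟨⟨m, hm.isPrime, Ring.ne_bot_of_isMaximal_of_not_isField hm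
      (NumberField.RingOfIntegers.not_isField L)⟩⟩
  obtain ⟨𝔔, h𝔔⟩ : ∃ 𝔔 : ℕ → HeightOneSpectrum (𝓞 L), 𝔔 = fun q =>
    if hq : q ∈ S then (hex q hq).choose_spec.choose else Classical.arbitrary _ := ⟨_, rfl⟩
  have hpq : ∀ q ∈ S, Ov (𝔮 q) (𝔔 q) ∧ (𝔔 q).valuation L θ = 1 ∧ ¬ Ev (𝔔 q) ((q : L) * θ) ∧
      ∀ 𝔓 : HeightOneSpectrum (𝓞 L), Ov (𝔮 q) 𝔓 → 𝔓.valuation L θ = 1 → 𝔓 = 𝔔 q := by
    intro q hq
    have h := (hex q hq).choose_spec.choose_spec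
    rw [h𝔔]
    simp only [dif_pos hq]
    refine ⟨h.2.1, h.2.2.2.1, h.2.2.2.2.1, fun 𝔓 hO h1 => ?_⟩
    rcases h.2.2.2.2.2 𝔓 hO with e | e
    · rw [e] at h1
      exact absurd h1 h.2.2.1.ne
    · exact e
  have huniq : ∀ q ∈ S, ∀ q' ∈ S, ∀ 𝔓 : HeightOneSpectrum (𝓞 L), Ov (𝔮 q) 𝔓 → Ov (𝔮 q') 𝔓 →
      q = q' := fun q hq q' hq' 𝔓 h h' =>
    nat_uniq (hS q hq).1 (hS q' hq').1 (ov_nat hS hq h) (ov_nat hS hq' h')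
  refine ⟨𝔔, fun q hq => (hpq q hq).1, fun q hq => (hpq q hq).2.1, fun q hq => (hpq q hq).2.2.1,
    fun q hq => (hpq q hq).2.2.2, fun q hq q' hq' h => ?_, huniq⟩
  refine huniq q hq q' hq' (𝔔 q) (hpq q hq).1 ?_
  rw [h]
  exact (hpq q' hq').1

theorem psi_mul (hS : GoodS g W S 𝔮 r P) (hQ : IsQ θ S 𝔮 𝔔) (hθ : θ ≠ 0) {α β : L} (hα : α ≠ 0)
    (hβ : β ≠ 0) : psi θ S 𝔔 (α * β) = psi θ S 𝔔 α + psi θ S 𝔔 β := by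
  funext q
  have hq2 : (q : ℕ) ≠ 2 := by
    intro h
    have := (hS q q.2).2.2.2.1
    rw [h] at this
    omega
  have hϖ : ((q : ℕ) : L) * θ ≠ 0 :=
    mul_ne_zero (Nat.cast_ne_zero.2 (hS q q.2).1.ne_zero) hθ
  have h := Pool.Agent.N457.PQ.cls L q (𝔔 q) (((q : ℕ) : L) * θ) (hS q q.2).1 hq2
    (ov_nat hS q.2 (hQ.ov q q.2)) hϖ (hQ.odd q q.2) α β hα hβ
  exact Prod.ext (cl_add_aux h.1) (cl_add_aux h.2)

theorem psi_fst (α : L) (q : S) : (psi θ S 𝔔 α q).1 = 0 ↔ Ev (𝔔 q) α := by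
  have e : (psi θ S 𝔔 α q).1 = if Ev (𝔔 q) α then 0 else 1 := rfl
  rw [e]
  by_cases h : Ev (𝔔 q) α
  · rw [if_pos h]; exact iff_of_true rfl h
  · rw [if_neg h]; exact iff_of_false one_ne_zero h

theorem psi_snd (α : L) (q : S) :
    (psi θ S 𝔔 α q).2 = 0 ↔ U0 (𝔔 q) (((q : ℕ) : L) * θ) α := by
  have e : (psi θ S 𝔔 α q).2 = if U0 (𝔔 q) (((q : ℕ) : L) * θ) α then 0 else 1 := rfl
  rw [e]
  by_cases h : U0 (𝔔 q) (((q : ℕ) : L) * θ) α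
  · rw [if_pos h]; exact iff_of_true rfl h
  · rw [if_neg h]; exact iff_of_false one_ne_zero h

/-- The reciprocity law. -/
theorem psi_iso (hREC : S_REC) (hg : 1 ≤ g) (hG : IsGen g f θ) (hsq : SqF g f)
    (hS : GoodS g W S 𝔮 r P) (hc : ∀ q ∈ S, Cg (sp F q) f (P q)) (hQ : IsQ θ S 𝔮 𝔔) {α : L}
    (hα : InM f θ S 𝔔 α) : ∑ q : S, (psi θ S 𝔔 α q).1 * (psi θ S 𝔔 α q).2 = 0 := by
  obtain ⟨b1, b2, b3, h₀, b4, b5⟩ := hα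
  have h := hREC g W F L f θ S 𝔮 r P hg hG hsq hS hc 𝔔
    (fun q hq => ⟨hQ.ov q hq, hQ.one q hq⟩) h₀ (by rw [b4]; exact b1)
    (by rw [b4]; exact b2) (by rw [b4]; exact b3) b5.two b5.real
  rw [b4] at h
  have e1 : ∑ q : S, (psi θ S 𝔔 α q).1 * (psi θ S 𝔔 α q).2 = ∑ q ∈ S,
      (if ¬ Ev (𝔔 q) α ∧ ¬ Sq1 (𝔔 q) (α * ((q : L) * θ)) then (1 : ZMod 2) else 0) := by
    rw [← Finset.sum_coe_sort S]
    refine Finset.sum_congr rfl fun q _ => ?_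
    simp only [psi, cl]
    by_cases he : Ev (𝔔 q) α
    · rw [if_pos he, zero_mul, if_neg (fun h => h.1 he)]
    · by_cases hs : Sq1 (𝔔 q) (α * (((q : ℕ) : L) * θ))
      · have hu : U0 (𝔔 q) (((q : ℕ) : L) * θ) α := ⟨fun h => absurd h he, fun _ => hs⟩
        rw [if_neg he, if_pos hu, mul_zero, if_neg (fun h => h.2 hs)]
      · have hu : ¬ U0 (𝔔 q) (((q : ℕ) : L) * θ) α := fun h => hs (h.2 he)
        rw [if_neg he, if_neg hu, mul_one, if_pos ⟨he, hs⟩]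
  rw [e1, Finset.sum_ite, Finset.sum_const_zero, add_zero, Finset.sum_const, nsmul_eq_mul,
    mul_one]
  exact (ZMod.natCast_eq_zero_iff_even).2 h

/-- The image of the group. -/
noncomputable def Lam (f : (𝓞 F)[X]) (hS : GoodS g W S 𝔮 r P) (hQ : IsQ θ S 𝔮 𝔔) (hθ : θ ≠ 0) :
    AddSubgroup (S → ZMod 2 × ZMod 2) where
  carrier := {l | ∃ α, InM f θ S 𝔔 α ∧ psi θ S 𝔔 α = l}
  add_mem' := by
    rintro _ _ ⟨α, hα, rfl⟩ ⟨β, hβ, rfl⟩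
    exact ⟨α * β, hα.mul hβ, psi_mul hS hQ hθ hα.ne hβ.ne⟩
  zero_mem' := by
    refine ⟨1, InM.one, ?_⟩
    have h := psi_mul (𝔔 := 𝔔) hS hQ hθ (one_ne_zero (α := L)) (one_ne_zero (α := L))
    rw [mul_one] at h
    exact left_eq_add.1 h
  neg_mem' := by
    rintro _ ⟨α, hα, rfl⟩
    refine ⟨α, hα, ?_⟩
    rw [eq_neg_iff_add_eq_zero]
    funext Q
    exact Prod.ext (CharTwo.add_self_eq_zero _) (CharTwo.add_self_eq_zero _)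

theorem mem_Lam (hS : GoodS g W S 𝔮 r P) (hQ : IsQ θ S 𝔮 𝔔) (hθ : θ ≠ 0)
    {l : S → ZMod 2 × ZMod 2} : l ∈ Lam f hS hQ hθ ↔ ∃ α, InM f θ S 𝔔 α ∧ psi θ S 𝔔 α = l :=
  Iff.rfl

theorem psi_self (hS : GoodS g W S 𝔮 r P) (hQ : IsQ θ S 𝔮 𝔔) (hθ : θ ≠ 0) {s : L} (hs : s ≠ 0) :
    psi θ S 𝔔 (s * s) = 0 := by
  rw [psi_mul hS hQ hθ hs hs]
  funext Q
  exact Prod.ext (CharTwo.add_self_eq_zero _) (CharTwo.add_self_eq_zero _)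

end

end Pool.Agent.Run7.h245.SR
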