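import Pool.Agent.Run7.h245.SR.Defs

/-!
# Project SR: statements, part 1 (counting, lattices, linear algebra, cocycles)

Aim: for every number field `F` and every `d ≥ 0` a positive proportion of all elliptic curves over `F` has a
2-Selmer group of dimension exactly `d`.

Overview. Start from project PF (helper783): for `f` in the family and a finite set `S` of rational primes `q` (`f`
is `X h` modulo a prime `𝔮 q`, `h` irreducible) let `𝔔 q` be the prime of `L = F(θ)` of degree `2 g` over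
`𝔮 q`; the 2-Selmer group of the twist by `D = ∏_{q ∈ J} q`, `J ⊆ S`, consists of the `α ∈ L^* / L^*²` with
square norm, even valuations outside the `𝔔 q`, `q ∈ J`, `U0` at the `𝔔 q`, `q ∈ J`, and fixed conditions at
`2` and `∞`. New: `S` is a union of levels `T 0, ..., T (K - 1)`, and we count also the classes `α` which are
ramified at `𝔔 q`, `q` in the earlier levels; for most `f` such an `α` (not a square) is trivial at at most
`(1/2 + ε) |T k|` primes of the level `T k`. With the reciprocity law and a lower bound from `S`-units this makes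
the group large enough and random enough to find `J` with a group of dimension `≥ d`; changing one prime at a
time one finds `J` with dimension exactly `d`.

Every piece: write `theorem x : S_X` (or `theorem x (h1 : S_Y) ... : S_X` where the docstring says so) in
your own directory `Pool/Agent/Run7/<your seat>/SR/`; land it yourself. See the table `h245_pieces`.
-/

set_option autoImplicit false
set_option linter.all false

open Polynomial IsDedekindDomain Matrix NumberField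
open scoped Classical

namespace Pool.Agent.Run7.h245.SR

open Pool.Agent.N352.PJ (Mt Typ dd)
open Pool.Agent.N783.PQ (chp form Dist Gap Mid Deep eA eB eU uu LocIm)
open Pool.Agent.N874.PP (Ev Sq1 U0 sW IsBeta Rt sg)
open Pool.Agent.N874.PM (PLoc)
open Pool.Agent.N874.JM (LocF)
open Pool.Agent.N783.PF
open Pool.Agent.TH115.GD (Pt act rs IsCoc LocTriv Comp Sep)

/-! ### A. Counting pairs of matrices (adaptations of N42/PF/CQ, N456/PF/Pb, N999/PF/Orb, N134/PF/Bad) -/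

/-- CQC. Over a finite field: ALL symmetric `B` with characteristic polynomial `x h(x)` (with respect to `A`).
Proof. As in `N42/PF/CQ.lean`, `N456/PQ/CQA.lean`: let `E = κ[x]/(X h) = κ × κ'`. For `B` with `chp A B = X h`
pick `v` with `(v, A p(T) v) = top (c p)`, `T = A⁻¹ B`, `c` a unit of `E` (cyclic vector); up to squares of `E` the
class of `c` has norm a square (compare determinants), so there are two classes, `c = 1` (these are the `Dist`
ones, counted in `N42.PF.cqa`: `2 * # ≤ |κ|^(g(2g+1))`) and `c = c₀` for one fixed `c₀` (nonsquare at both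
factors). For the second class the same counting works: fix the Gram sequence `m ↦ top (c₀ x^m)`, `m ≤ 2 g`;
pairs `(B, ξ)` with this Gram sequence inject into matrices `M = (ξ, T ξ, ..., T^(2g) ξ)` with
`Mᵀ A M` fixed (a coset of the orthogonal group of `A`), and each `B` has exactly four `ξ` (`± 1` at the two
factors). So each class has `≤ |O(A)| / 4 = |SO(A)| / 2 ≤ |κ|^(g(2g+1)) / 2`. -/
def S_CQC : Prop := ∀ (g : ℕ) (κ : Type) [Field κ] [Finite κ], 1 ≤ g → (2 : κ) ≠ 0 →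
  ∀ h : κ[X], h.Monic → Irreducible h → h.natDegree = 2 * g → ∀ A : Mt g κ, A.IsSymm →
  (∃ x : κ, x ≠ 0 ∧ A.det = (-1) ^ g * x ^ 2) →
  Nat.card {B : Mt g κ // B.IsSymm ∧ chp A B = X * h} ≤ Nat.card κ ^ (g * (2 * g + 1))

/-- PBC (`theorem pbc (h1 : S_PTS) (h2 : S_CQA) (h3 : S_CQB) (h4 : S_CQC) : S_PBC`). Copy `N456/PF/Pb.lean` with
`XsetC` instead of `Xset`: for `q ∈ C` use `CQA` at `𝔮 q`, for `q ∈ S \ C` use `CQC` at `𝔮 q` (no factor 2), at the
other primes over `q` use `CQB` as there. -/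
def S_PBC : Prop := ∀ (F : Type) [Field F] [NumberField F] (g c : ℕ), 1 ≤ g → ∃ C₀ K : ℕ,
  ∀ (W : ℕ) (S C : Finset ℕ) (𝔮 : ℕ → Ideal (𝓞 F)) (h P : ℕ → (𝓞 F)[X]), K ≤ W →
  GoodS g W S 𝔮 h P → C ⊆ S → ∀ (N : ℕ) (w : Fin (2 * g + 1) → ℤ), Typ g w →
  ((∏ q ∈ S, q : ℕ) : ℝ) ≤ (2 : ℝ) ^ (2 * (N : ℤ) + 2 * w 0) →
  2 ^ C.card * (∏ q ∈ S, q ^ (2 * g)) ^ Module.finrank ℚ F *
      {p : Mt g (𝓞 F) × Mt g (𝓞 F) | XsetC g N c w S C 𝔮 P p.1 p.2}.ncard ≤
    C₀ * 2 ^ (Module.finrank ℚ F * (eA g w + 2 * N * dd g))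

/-- PBC0: the trivial bound (from `S_PB0` with `S = ∅`, since `XsetC ... S C ⊆ Xset ... ∅`). -/
def S_PBC0 : Prop := ∀ (F : Type) [Field F] [NumberField F] (g c : ℕ), 1 ≤ g → ∃ C₀ : ℕ,
  ∀ (S C : Finset ℕ) (𝔮 : ℕ → Ideal (𝓞 F)) (P : ℕ → (𝓞 F)[X]) (N : ℕ)
  (w : Fin (2 * g + 1) → ℤ), Typ g w →
  {p : Mt g (𝓞 F) × Mt g (𝓞 F) | XsetC g N c w S C 𝔮 P p.1 p.2}.Finite ∧
  2 ^ (Module.finrank ℚ F * (2 * N)) *
      {p : Mt g (𝓞 F) × Mt g (𝓞 F) | XsetC g N c w S C 𝔮 P p.1 p.2}.ncard ≤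
    C₀ * 2 ^ (Module.finrank ℚ F * (eA g w + eB g N w))

/-- ORBC (`theorem orbc (h1 : S_PTS) : S_ORBC`): copy `N999/PF/Orb.lean` with `XsetC` instead of `Xset` (the
unipotent matrices preserve `Dist` at the primes in `C`). -/
def S_ORBC : Prop := ∀ (F : Type) [Field F] [NumberField F] (g : ℕ), ∃ κ C₀ : ℕ, ∀ (c : ℕ)
  (S C : Finset ℕ) (𝔮 : ℕ → Ideal (𝓞 F)) (P : ℕ → (𝓞 F)[X]) (N : ℕ)
  (w : Fin (2 * g + 1) → ℤ), Typ g w →
  {p : Mt g (𝓞 F) × Mt g (𝓞 F) | XsetC g (N + κ) (c + κ) w S C 𝔮 P p.1 p.2}.Finite →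
  {f : (𝓞 F)[X] | Irreducible (fF f) ∧ ∃ A B : Mt g (𝓞 F), XsetC g N c w S C 𝔮 P A B ∧
      chp (mF A) (mF B) = fF f}.ncard * 2 ^ (Module.finrank ℚ F * eU g w) ≤
  C₀ * {p : Mt g (𝓞 F) × Mt g (𝓞 F) | XsetC g (N + κ) (c + κ) w S C 𝔮 P p.1 p.2}.ncard

/-- BADC (`theorem badc (h1 : S_PBC) (h2 : S_PBC0) (h3 : S_ORBC) : S_BADC`): copy `N134/PF/Bad.lean`. -/
def S_BADC : Prop := ∀ (F : Type) [Field F] [NumberField F] (g c : ℕ), 1 ≤ g → ∃ C₀ K : ℕ,
  ∀ (W : ℕ) (S C : Finset ℕ) (𝔮 : ℕ → Ideal (𝓞 F)) (h P : ℕ → (𝓞 F)[X]), K ≤ W →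
  GoodS g W S 𝔮 h P → C ⊆ S → ∃ N₀ : ℕ, ∀ N ≥ N₀, {f : (𝓞 F)[X] | LBadC g N c S C 𝔮 P f}.Finite ∧
  2 ^ C.card * (∏ q ∈ S, q ^ (2 * g)) ^ Module.finrank ℚ F *
      {f : (𝓞 F)[X] | LBadC g N c S C 𝔮 P f}.ncard ≤
    C₀ * 2 ^ (Module.finrank ℚ F * (2 * N * dd g))

/-! ### B. Lattices with a larger dual (adaptations of N547, N255, N169, N614, N438, N862) -/

/-- DISR: copy `N547/PF/Dis.lean` (the property `dual` is used there only once, `hL.dual`): the dual of `Λ` for the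
form `Tr_{L/ℚ}(x y / (α f'(θ)))` is contained in `(m₀ m_F)⁻¹ Λ`, where `m_F` kills the quotient of the inverse
different of `F`. `C` depends on `g`, `F`, `m₀`. -/
def S_DISR : Prop := ∀ (g : ℕ) (F : Type) [Field F] [NumberField F] (m₀ : ℕ), m₀ ≠ 0 → ∃ C : ℕ,
  ∀ (L : Type) [Field L] [NumberField L] [Algebra F L] (f : (𝓞 F)[X]) (θ : L) (hG : IsGen g f θ)
  (α : L) (Λ : Submodule (𝓞 F) L), α ≠ 0 → LatR hG m₀ α Λ →
  ∃ b : Fin ((2 * g + 1) * Module.finrank ℚ F) → L, LinearIndependent ℚ b ∧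
    (∀ x : L, x ∈ Λ ↔ ∃ c : Fin ((2 * g + 1) * Module.finrank ℚ F) → ℤ, x = ∑ i, (c i : L) * b i) ∧
    |(Matrix.of fun i j => Algebra.trace ℚ L
      (b i * b j / (α * aeval θ (derivative (fF f))))).det| ≤ C

/-- REDR (`theorem redr (h1 : S_DISR) : S_REDR`): copy `N255/PF/Red.lean`. -/
def S_REDR : Prop := ∀ (g : ℕ) (F : Type) [Field F] [NumberField F] (m₀ : ℕ), m₀ ≠ 0 → ∃ C : ℕ,
  ∀ (L : Type) [Field L] [NumberField L] [Algebra F L] (f : (𝓞 F)[X]) (θ : L) (hG : IsGen g f θ)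
  (α : L) (Λ : Submodule (𝓞 F) L), α ≠ 0 → LatR hG m₀ α Λ →
  ∃ e : Fin (2 * g + 1) → L, (∀ i, e i ∈ Λ) ∧ LinearIndependent F e ∧
    Monotone (fun i => HH f θ α (e i)) ∧ ∏ i, HH f θ α (e i) ≤ C

/-- TYPR (`theorem typr (h1 : S_REDR) (h2 : S_MAJ) : S_TYPR`): copy `N169/PF/Typ.lean`. -/
def S_TYPR : Prop := ∀ (g : ℕ) (F : Type) [Field F] [NumberField F] (m₀ : ℕ), m₀ ≠ 0 →
  ∃ C : ℕ, 1 ≤ g →
  ∀ (B : ℕ) (L : Type) [Field L] [NumberField L] [Algebra F L] (f : (𝓞 F)[X]) (θ : L)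
  (hG : IsGen g f θ) (α : L) (Λ : Submodule (𝓞 F) L), Ht g B f → α ≠ 0 → LatR hG m₀ α Λ →
  ∃ (e : Fin (2 * g + 1) → L) (w : Fin (2 * g + 1) → ℤ), (∀ i, e i ∈ Λ) ∧
    LinearIndependent F e ∧ Typ g w ∧ ∀ i, HH f θ α (e i) ≤ (4 : ℝ) ^ ((C : ℤ) + w i)

/-- CHIR: copy `N614/PF/Chi.lean`. -/
def S_CHIR : Prop := ∀ (g : ℕ) (F L : Type) [Field F] [NumberField F] [Field L] [NumberField L]
  [Algebra F L] (f : (𝓞 F)[X]) (θ : L) (hG : IsGen g f θ) (m₀ : ℕ) (α : L)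
  (Λ : Submodule (𝓞 F) L)
  (e : Fin (2 * g + 1) → L), f.coeff (2 * g) = 0 → α ≠ 0 → LatR hG m₀ α Λ → (∀ i, e i ∈ Λ) →
  LinearIndependent F e → ∃ A B : Mt g (𝓞 F), Gr hG α e A B ∧ A.IsSymm ∧ B.IsSymm ∧ A.det ≠ 0 ∧
    chp (mF A) (mF B) = fF f ∧ (A.adjugate * B).trace = 0 ∧
    (IsSquare (Algebra.norm F α) → ∃ x : 𝓞 F, x ≠ 0 ∧ A.det = (-1) ^ g * x ^ 2) ∧
    ∀ 𝔮 : Ideal (𝓞 F), 𝔮.IsPrime → 𝔮 ≠ ⊥ → A.det ∉ 𝔮 → chp (rm 𝔮 A) (rm 𝔮 B) = rd 𝔮 f ∧
      (DVec hG α Λ 𝔮 → Dist (rm 𝔮 A) (rm 𝔮 B))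

/-- LBR (`theorem lbr (h1 : S_TYPR) (h2 : S_MAJ) (h3 : S_CHIR) (h4 : S_SQ) : S_LBR`): copy `N438/PF/LB.lean`, only
the case `¬ IsSquare α` (so `Or.inl` for the middle gap). -/
def S_LBR : Prop := ∀ (g : ℕ) (F : Type) [Field F] [NumberField F] (m₀ : ℕ), m₀ ≠ 0 → 1 ≤ g →
  ∃ κ : ℕ,
  ∀ (L : Type) [Field L] [NumberField L] [Algebra F L] (f : (𝓞 F)[X]) (θ : L) (B N W : ℕ)
  (S C : Finset ℕ) (𝔮 : ℕ → Ideal (𝓞 F)) (h P : ℕ → (𝓞 F)[X]), κ ≤ W → GoodS g W S 𝔮 h P →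
  C ⊆ S → ∀ hG : IsGen g f θ, Ht g B f → 2 ^ κ * B ≤ 4 ^ N → (∀ q ∈ S, Cg (sp F q) f (P q)) →
  ∀ (α : L) (Λ : Submodule (𝓞 F) L), α ≠ 0 → IsSquare (Algebra.norm F α) → LatR hG m₀ α Λ →
  (∀ q ∈ C, DVec hG α Λ (𝔮 q)) → ¬ IsSquare α → LBadC g N κ S C 𝔮 P f

/-- SDR (`theorem sdr (h1 : S_INT) : S_SDR`): adapt `N862/PF/SD.lean`. Let `Λ = {x : x ^ 2 / α integral}`, i.e. the
`x` with `v_𝔓(x) ≥ ⌈v_𝔓(α) / 2⌉` for all `𝔓` (a fractional ideal, these values are attained). If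
`top (x y / α)` is integral for all `x ∈ Λ`, then (as `𝓞 L = 𝓞 F [θ]` is its own dual) `x y / α` is integral for
all `x ∈ Λ`, so `v_𝔓(y) ≥ v_𝔓(α) - ⌈v_𝔓(α) / 2⌉ = ⌊v_𝔓(α) / 2⌋`, and `v_𝔓(m₀ y) ≥ ⌈v_𝔓(α) / 2⌉` because
`v_𝔓(m₀) ≥ 1` where `v_𝔓(α)` is odd. -/
def S_SDR : Prop := ∀ (g : ℕ) (F L : Type) [Field F] [NumberField F] [Field L] [NumberField L]
  [Algebra F L] (f : (𝓞 F)[X]) (θ : L), ∀ hG : IsGen g f θ, SqF g f → ∀ (m₀ : ℕ) (α : L),
  m₀ ≠ 0 → α ≠ 0 → (∀ 𝔓 : HeightOneSpectrum (𝓞 L), Ev 𝔓 α ∨ (m₀ : 𝓞 L) ∈ 𝔓.asIdeal) →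
  ∃ Λ : Submodule (𝓞 F) L, SDn α Λ ∧ LatR hG m₀ α Λ

/-- TVR (`theorem tvr (h1 : S_INT) : S_TVR`): adapt `N862/PF/TV.lean` (the vector `x` is chosen by the Chinese
remainder theorem: close to `s √α` at the primes over `𝔮`, and with `v_𝔓(x) ≥ v_𝔓(α) / 2` at all others; `dual` is
not needed). Only the primes over `𝔮` matter for the hypothesis, `α` may have odd valuations elsewhere. -/
def S_TVR : Prop := ∀ (g : ℕ) (F L : Type) [Field F] [NumberField F] [Field L] [NumberField L]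
  [Algebra F L] (f : (𝓞 F)[X]) (θ : L), ∀ hG : IsGen g f θ, SqF g f → ∀ (m₀ : ℕ) (α : L)
  (Λ : Submodule (𝓞 F) L), α ≠ 0 → SDn α Λ → LatR hG m₀ α Λ →
  ∀ 𝔮 : Ideal (𝓞 F), 𝔮.IsPrime → 𝔮 ≠ ⊥ → (rd 𝔮 f).Separable →
  (∀ 𝔓 : HeightOneSpectrum (𝓞 L), Ov 𝔮 𝔓 → Sq1 𝔓 α) → DVec hG α Λ 𝔮

/-- PRX (`theorem prx (h1 : S_SDR) (h2 : S_TVR) (h3 : S_LBR) (h4 : S_NS) : S_PRX`). If `α` is not a square, has odd
valuations only at primes dividing `m₀`, and is trivial at the `q ∈ C` then `f` is bad. Proof: the end of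
`N771/PF/Core.lean` (`S_NS` gives that `α` is a square at all primes over `𝔮 q`, `q ∈ C`; `sep_q` there gives
separability). -/
def S_PRX : Prop := ∀ (g : ℕ) (F : Type) [Field F] [NumberField F] (m₀ : ℕ), m₀ ≠ 0 → 1 ≤ g →
  ∃ κ : ℕ,
  ∀ (L : Type) [Field L] [NumberField L] [Algebra F L] (f : (𝓞 F)[X]) (θ : L) (B N W : ℕ)
  (S C : Finset ℕ) (𝔮 : ℕ → Ideal (𝓞 F)) (h P : ℕ → (𝓞 F)[X]), κ ≤ W → GoodS g W S 𝔮 h P →
  C ⊆ S → IsGen g f θ → SqF g f → Ht g B f → 2 ^ κ * B ≤ 4 ^ N →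
  (∀ q ∈ S, Cg (sp F q) f (P q)) →
  ∀ α : L, α ≠ 0 → IsSquare (Algebra.norm F α) → ¬ IsSquare α →
  (∀ 𝔓 : HeightOneSpectrum (𝓞 L), Ev 𝔓 α ∨ (m₀ : 𝓞 L) ∈ 𝔓.asIdeal) →
  (∀ q ∈ C, ∀ 𝔓 : HeightOneSpectrum (𝓞 L), Ov (𝔮 q) 𝔓 → Ev 𝔓 α) →
  (∀ q ∈ C, ∀ 𝔓 : HeightOneSpectrum (𝓞 L), Ov (𝔮 q) 𝔓 → 𝔓.valuation L θ = 1 → Sq1 𝔓 α) →
  LBadC g N κ S C 𝔮 P f

/-! ### C. Linear algebra and combinatorics over the field with two elements (plain Mathlib) -/

/-- PAT. `u i` are vectors in `𝔽₂^X` such that every nonempty sum of them has at most `(1/2 + ε) |X|` zeros, and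
`R ⊆ X` is not too small. Then there are `i, j` and columns `r, r' ∈ R` with the pattern `(0 1 / 1 0)`.
Proof. For `r ∈ X` let `p(r) = (u i r)_i ∈ 𝔽₂^n`. For a pattern `p ∈ 𝔽₂^n` let `N_p` be the number of `r` with
`p(r) ∈ {0, p}`. Sum over the `2^(n-1)` (or `2^n` if `p = 0`) vectors `t ∈ 𝔽₂^n` orthogonal to `p`, of
`#{r : t · p(r) = 0} - #{r : t · p(r) = 1}`: the sum is `≥ 2^(n-1) N_p` (orthogonality: `∑_{t ⊥ p} (-1)^(t · x)`
is `0` unless `x ∈ {0, p}`, and is the number of `t`'s otherwise), and it is at most `|X|` (for `t = 0`) `+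
(2^(n-1) - 1) 2 ε |X|` (similarly for `p = 0`). So each pattern has at most `(2^(1-n) + 2 ε) |X|` columns.
If there were no `(0 1 / 1 0)` pattern in `R` the supports of the `u i` restricted to `R` would form a chain, and a
chain of `n` sets gives at most `n + 1` different columns, so `|R| ≤ (n + 1) (2^(1-n) + 2 ε) |X|`. -/
def S_PAT : Prop := ∀ (n : ℕ) (X : Type) [Fintype X] (u : Fin n → X → ZMod 2) (R : Finset X)
  (ε : ℝ), 1 ≤ n → 0 ≤ ε →
  (∀ s : Finset (Fin n), s.Nonempty →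
    ((Finset.univ.filter fun x => ∑ i ∈ s, u i x = 0).card : ℝ) ≤
      (1 / 2 + ε) * Fintype.card X) →
  ((n : ℝ) + 1) * ((1 / 2) ^ (n - 1) + 2 * ε) * Fintype.card X < R.card →
  ∃ i j : Fin n, ∃ r ∈ R, ∃ r' ∈ R, u i r = 0 ∧ u j r = 1 ∧ u i r' = 1 ∧ u j r' = 0

/-- POOR. `V` is a group of vectors in `𝔽₂^X` with common zero set `Z`, `|Z| ≥ ρ |X|`, and for `v ∈ V` the vector
`w + w' + v` has at most `(1/2 + ε) |X|` zeros, `ε < ρ / 4`. Then `w` or `w'` has at least `(ρ / 8) |X|` zeros in `Z`.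
Proof. Otherwise `w = w' = 1` on `Z` outside of a set of size `< (ρ / 4) |X|`, so `w + w' + v` (`v = 0` on `Z`) is
zero on more than `|Z| - (ρ / 4) |X|` elements of `Z`, for every `v ∈ V`; for `x ∉ Z` exactly half of the `v ∈ V`
have `w x + w' x + v x = 0`. So the average over `v ∈ V` of the number of zeros is more than
`(|X| - |Z|) / 2 + |Z| - (ρ / 4) |X| = |X| / 2 + |Z| / 2 - (ρ / 4) |X| ≥ (1/2 + ρ / 4) |X|`, a contradiction. -/
def S_POOR : Prop := ∀ (X : Type) [Fintype X] (V : AddSubgroup (X → ZMod 2)) (w w' : X → ZMod 2)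
  (Z : Finset X) (ρ ε : ℝ), (∀ x, x ∈ Z ↔ ∀ v ∈ V, v x = 0) → 0 < ρ → 0 ≤ ε → ε < ρ / 4 →
  0 < Fintype.card X → ρ * Fintype.card X ≤ Z.card →
  (∀ v ∈ V, ((Finset.univ.filter fun x => w x + w' x + v x = 0).card : ℝ) ≤
      (1 / 2 + ε) * Fintype.card X) →
  ρ / 8 * Fintype.card X ≤ ((Z.filter fun x => w x = 0).card : ℝ) ∨
    ρ / 8 * Fintype.card X ≤ ((Z.filter fun x => w' x = 0).card : ℝ)

/-- The data of the combinatorial theorem: `lev i` is the level of `i`, `l ∈ Λ` has components `(l i).1` (the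
ramification at `i`) and `(l i).2`. -/
structure Lev (ι : Type) [Fintype ι] (Λ : AddSubgroup (ι → ZMod 2 × ZMod 2)) (lev : ι → ℕ)
    (K c n₀ : ℕ) (ε : ℝ) : Prop where
  lt : ∀ i, lev i < K
  big : ∀ k < K, n₀ ≤ (Finset.univ.filter fun i => lev i = k).card
  iso : ∀ l ∈ Λ, ∑ i, (l i).1 * (l i).2 = 0
  size : 2 ^ Fintype.card ι ≤ 2 ^ c * Nat.card Λ
  pr : ∀ k < K, ∀ l ∈ Λ, l ≠ 0 → (∀ i, k ≤ lev i → (l i).1 = 0) →
    ((Finset.univ.filter fun i => lev i = k ∧ (l i).2 = 0).card : ℝ) ≤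
      (1 / 2 + ε) * (Finset.univ.filter fun i => lev i = k).card

/-- The subgroup belonging to `J`. -/
def Sj {ι : Type} (Λ : AddSubgroup (ι → ZMod 2 × ZMod 2)) (J : Finset ι) :
    AddSubgroup (ι → ZMod 2 × ZMod 2) where
  carrier := {l | l ∈ Λ ∧ (∀ i ∉ J, (l i).1 = 0) ∧ ∀ i ∈ J, (l i).2 = 0}
  add_mem' := by
    rintro a b ⟨h1, h2, h3⟩ ⟨h1', h2', h3'⟩
    refine ⟨Λ.add_mem h1 h1', fun i hi => ?_, fun i hi => ?_⟩
    · show (a i).1 + (b i).1 = 0
      rw [h2 i hi, h2' i hi, add_zero]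
    · show (a i).2 + (b i).2 = 0
      rw [h3 i hi, h3' i hi, add_zero]
  zero_mem' := ⟨Λ.zero_mem, fun i _ => rfl, fun i _ => rfl⟩
  neg_mem' := by
    rintro a ⟨h1, h2, h3⟩
    refine ⟨Λ.neg_mem h1, fun i hi => ?_, fun i hi => ?_⟩
    · show -(a i).1 = 0
      rw [h2 i hi, neg_zero]
    · show -(a i).2 = 0
      rw [h3 i hi, neg_zero]

/-- CAND: one step of the construction. `V` is a subgroup of `Sj Λ J`, `J` lies in the levels `< k`; in the levels `k`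
and `k + 1` the common zeros `Z` of the second components of `V` have density `≥ ρ`. `U` is a set of at most `u`
indices which must not be used. Then there are a set `T` of indices in the levels `k`, `k + 1`, outside `U`, at which
`V` vanishes, and `w ∈ Λ` with `(w i).1 = 0` outside `T`, `(w i).1 ≠ 0` for some `i ∈ T`, `|T| ≤ 4`, and
`(w i).2 = 0` on `J ∪ T`. The constants `ε₀ > 0` and `n₀` depend only on `c`, `a`, `u`, `ρ`.

Here the hypothesis `dim`: the unramified part of `Λ` has at most `2 ^ a` elements.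

Proof. Let `Λ₁ ⊆ 𝔽₂^ι` be the image of `Λ` under the first components; the kernel has at most `2 ^ a` elements,
so `Λ₁` has index at most `2 ^ (c + a)`. Let `Q₀` be the set of the `q` of level `k` outside `U` at which `V` vanishes,
`R₀` the same for level `k + 1`.
(1) By the pigeonhole principle there is a large subset `Q` of `Q₀` (density `2 ^ -(c + a + |J|)`) with a base point
`q₀ ∈ Q` such that all `e_q`, `q ∈ Q`, are in one coset of `Λ₁`, and there are `α_q ∈ Λ` (`q ∈ Q`) with first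
component `e_q + e_{q₀}` and with the same second component on `J`. Then `β_{q q'} = α_q + α_{q'}` has first component
`e_q + e_{q'}` and second component `0` on `J`.
(2) If for some `q ≠ q'` in `Q` the second component of `β_{q q'}` at `q` is `0`, then (by `iso`) it is also `0` at
`q'`, and `w = β_{q q'}`, `T = {q, q'}` works. So assume it is `1` at `q` and `q'` for all `q ≠ q'` in `Q`.
(3) The same for `R ⊆ R₀` with base point `r₀`, elements `α_r`, where we fix also the second component of `α_r` at `q₀`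
(so `R` has density `≥ ρ 2 ^ -(c + a + |J| + 2)`, if `n₀` is large): again assume that the second component of
`β_{r r'} = α_r + α_{r'}` is `1` at `r` and `r'`; it is `0` on `J ∪ {q₀}`.
(4) For `q ∈ Q`, `q ≠ q₀`, let `u_q` be the second component of `α_q` on the level `k + 1`. By `pr` (level `k + 1`) every
nonempty sum of the `u_q` has at most `(1/2 + ε)` times the number of indices of this level zeros (the first
component of the sum of the `α_q` is nonzero and is supported in level `k`). Take `n` elements `q`, `n` large in terms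
of the density of `R`, and `ε` small: by `S_PAT` there are `q, q'` and `r, r' ∈ R` with `u_q(r) = 0`,
`u_{q'}(r) = 1`, `u_q(r') = 1`, `u_{q'}(r') = 0`.
(5) `w = β_{q q'} + β_{r r'}`, `T = {q, q', r, r'}` works: write `⟨l, m⟩ = ∑ (l₁ m₂ + m₁ l₂) = 0` for `l, m ∈ Λ`
(polarise `iso`). From `l = α_q`, `m = β_{r r'}`: `m₂(q) + m₂(q₀) + u_q(r) + u_q(r') = 0`, and `m₂(q₀) = 0`, so
`m₂(q) = 1`; likewise `m₂(q') = 1`. And `β_{q q'}` has second component `u_q(r) + u_{q'}(r) = 1` at `r`, and `1` at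
`r'`. With (2), (3) the second component of `w` at `q, q', r, r'` is `1 + 1 = 0`. -/
def S_CAND : Prop := ∀ (c a jmax u : ℕ) (ρ : ℝ), 0 < ρ → ∃ (ε₀ : ℝ) (n₀ : ℕ), 0 < ε₀ ∧
  ∀ (ι : Type) [Fintype ι] (Λ : AddSubgroup (ι → ZMod 2 × ZMod 2)) (lev : ι → ℕ) (K : ℕ) (ε : ℝ),
  0 < ε → ε ≤ ε₀ → Lev ι Λ lev K c n₀ ε →
  Nat.card {l : Λ // ∀ i, (l.1 i).1 = 0} ≤ 2 ^ a →
  ∀ (k : ℕ) (V : AddSubgroup (ι → ZMod 2 × ZMod 2)) (J U : Finset ι), k + 1 < K → V ≤ Sj Λ J →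
  (∀ i ∈ J, lev i < k) → J.card ≤ jmax → U.card ≤ u →
  (∀ k' : ℕ, k' = k ∨ k' = k + 1 → ρ * (Finset.univ.filter fun i => lev i = k').card ≤
    ((Finset.univ.filter fun i => lev i = k' ∧ ∀ v ∈ V, (v i).2 = 0).card : ℝ)) →
  ∃ (T : Finset ι) (w : ι → ZMod 2 × ZMod 2), w ∈ Λ ∧ T.card ≤ 4 ∧ Disjoint T U ∧
    (∀ i ∈ T, lev i = k ∨ lev i = k + 1) ∧ (∀ i ∈ T, ∀ v ∈ V, (v i).2 = 0) ∧
    (∀ i ∉ T, (w i).1 = 0) ∧ (∃ i ∈ T, (w i).1 ≠ 0) ∧ ∀ i ∈ J ∪ T, (w i).2 = 0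

/-- BIGJ (`theorem bigj (h1 : S_CAND) (h2 : S_POOR) : S_BIGJ`). There is a `J` with a large group.
Proof. If the unramified part of `Λ` (all first components zero) has at least `2 ^ d` elements take `J = ∅`.
Otherwise it has at most `2 ^ d` elements, `a = d` in `S_CAND`. Let `K = 2 d`. Construct inductively, for `i = 0, ..., d`,
subgroups `V_i ≤ Sj Λ J_i` with `2 ^ i` elements, `J_i` in the levels `< 2 i`, `|J_i| ≤ 4 i`, such that in every level
`k ≥ 2 i`, `k < K`, the common zeros of the second components of `V_i` have density at least `ρ_i = 8 ^ (-i)`.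
Step: apply `S_CAND` (with `k = 2 i`, `V = V_i`, `J = J_i`, `ρ = ρ_i`) `K + 1` times, `U` being the union of the `T`'s
used before (`≤ 4 (K + 1)` elements), and get `w_0, ..., w_K ∈ Λ` with disjoint `T_0, ..., T_K`. For each level `k' ≥
2 i + 2` at most one `w_a` is poor, i.e. has less than `(ρ_i / 8) |level|` zeros in the common zeros of `V_i` in this
level: `S_POOR` (for `X` the level; `w_a + w_b + v` is not `0`, `v ∈ V_i`, since its first component is not zero at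
some element of `T_a`, and its first component vanishes on the levels `≥ 2 i + 2`, so `pr` applies). As there are
fewer than `K + 1` levels, some `w_a` is not poor for any level, and `V_{i+1} = V_i + {0, w_a}`, `J_{i+1} = J_i ∪ T_a`
do the job: `V_i` vanishes on `T_a`, `w_a` vanishes on `J_i ∪ T_a`, and `w_a ∉ V_i` by the first components. Finally
`V_d ≤ Sj Λ J_d`. (Choose `ε ≤` all the `ε₀` and `< 8 ^ (-d) / 4`, `n₀ ≥` all `n₀` and `≥ 1`.) -/
def S_BIGJ : Prop := ∀ c d : ℕ, ∃ (K n₀ : ℕ) (ε : ℝ), 0 < ε ∧ ∀ (ι : Type) [Fintype ι]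
  (Λ : AddSubgroup (ι → ZMod 2 × ZMod 2)) (lev : ι → ℕ), Lev ι Λ lev K c n₀ ε →
  ∃ J : Finset ι, 2 ^ d ≤ Nat.card (Sj Λ J)

/-- WALK. If `Sj Λ J₀` is trivial and `Sj Λ J₁` has at least `2 ^ d` elements then some `Sj Λ J` has exactly `2 ^ d`
elements. Proof. All `Sj Λ J` are groups of exponent two, so their orders are powers of two. If `J` and `J'` differ
in one element `i` then both contain `{l : l ∈ Sj Λ J, (l i).1 = 0, (l i).2 = 0}` with index at most two. So going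
from `J₀` to `J₁` one element at a time the order changes at most by a factor two. -/
def S_WALK : Prop := ∀ (ι : Type) [Fintype ι] (Λ : AddSubgroup (ι → ZMod 2 × ZMod 2)) (d : ℕ)
  (J₀ J₁ : Finset ι), Nat.card (Sj Λ J₀) = 1 → 2 ^ d ≤ Nat.card (Sj Λ J₁) →
  ∃ J : Finset ι, Nat.card (Sj Λ J) = 2 ^ d

/-! ### F. Cocycles (the tools are in `N630/PP/GP.lean` (`gp1` - `gp4`), `N187/PP/GN.lean`, `N187/PP/GB.lean`,
`N199/PP/GL.lean`, `N42/QM/Glf.lean`) -/

/-- KUM. Every class comes from a cocycle. Proof. Let `t₁, t₂, t₃` be the zeros of the cubic polynomial in `Sep M`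
(distinct, all there, since `M` is of characteristic zero). Choose `β t` with `β t ^ 2 = h(t)` (`h(t) ≠ 0` as `h` is
coprime to the polynomial). For `σ` and a zero `t` let `ε_σ(t) = σ(β(σ⁻¹ t)) / β(t) ∈ {1, -1}`. The product of the
three `ε_σ(t)` is `σ(b) / b`, `b = β(t₁) β(t₂) β(t₃)`, `b ^ 2 = h(t₁) h(t₂) h(t₃) = norm h = c ^ 2` with `c ∈ M`, so
`b = ± c` is fixed by `σ` and the product is `1`. By `gp3` there is a unique `T = f σ` with `2 T = 0`,
`sg T t = ε_σ(t)` for all zeros `t`. It is a cocycle by uniqueness and `gp3`, `gp4`, and locally constant because it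
depends only on the action of `σ` on the finitely many elements `t`, `β t`. -/
def S_KUM : Prop := ∀ (M : Type) [Field M] [CharZero M] (A B : M),
  4 * A ^ 3 + 27 * B ^ 2 ≠ 0 → ∀ h : M[X], IsCoprime h (cb A B) →
  IsSquare (Algebra.norm M (AdjoinRoot.mk (cb A B) h)) →
  ∃ f : (Sep M ≃ₐ[M] Sep M) → Pt (sW A B) (Sep M), IsCoc (sW A B) f ∧
    (∀ σ, (2 : ℕ) • f σ = 0) ∧ ∃ β : Sep M → Sep M, IsBeta A B f β ∧
    ∀ t : Sep M, Rt A B t → aeval t h = β t ^ 2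

/-- LTR: the converse of `S_GLF`. If the class of `h` comes from a point over `E` then the cocycle is trivial over
`E`. Proof. Let `ι : Sep M → Sep E`.
(a) If `cb ∣ h - g ^ 2` over `E` then `ι (β t) = δ(t) g(ι t)`, `δ(t) ∈ {1, -1}`. Replacing `g` by `-g` if necessary
the product of the three `δ(t)` is `1`. Let `T` be the point of order two over `Sep E` with `sg T (ι t) = δ(t)` for
the three zeros (`gp3`). Then `ι f(σ) = τ T - T` whenever `τ` restricts to `σ`: compare `sg` at the zeros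
(`σ (β t) = sg (f σ) (σ t) * β (σ t)`, `τ (g(ι t)) = g(ι (σ t))`).
(b) If `y ^ 2 = x ^ 3 + A x + B`, `y ≠ 0`, `cb ∣ (C x - X) h - g ^ 2`: let `P₀ = (x, y)` and `R` a point over
`Sep E` with `2 R = P₀` (multiplication by two is surjective on points over a separably closed field of
characteristic zero; look in the tree, e.g. `TH115/GD/Div.lean`, `N713/QM/GFC.lean`, or solve the quartic and
use `gp1`). By `gp1` `rr (ι t) R ^ 2 = x - ι t`, so `rr (ι t) R * ι (β t) = δ(t) g(ι t)` with `δ(t) = ± 1`, and after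
replacing `g` by `-g` if necessary the product of the `δ(t)` is `1`; take `T` as in (a) and `Q = R + T`. By `gp2`
`rr (ι t) Q * ι (β t) = g(ι t)`. Apply `τ` (restricting to `σ`): by `gp4` `rr (ι (σ t)) (τ Q) * ι (sg (f σ) (σ t)) *
ι (β (σ t)) = g(ι (σ t)) = rr (ι (σ t)) Q * ι (β (σ t))`. As `τ Q - Q` is of order two (`2 Q = P₀` is fixed by `τ`),
`gp2` gives `sg (τ Q - Q) (ι (σ t)) = ι (sg (f σ) (σ t))` at all zeros, so `τ Q - Q = ι f(σ)`. -/
def S_LTR : Prop := ∀ (M E : Type) [Field M] [CharZero M] [Field E] [Algebra M E] (A B : M),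
  4 * A ^ 3 + 27 * B ^ 2 ≠ 0 →
  ∀ f : (Sep M ≃ₐ[M] Sep M) → Pt (sW A B) (Sep M), IsCoc (sW A B) f → (∀ σ, (2 : ℕ) • f σ = 0) →
  ∀ (β : Sep M → Sep M) (h : M[X]), IsBeta A B f β →
    (∀ t : Sep M, Rt A B t → aeval t h = β t ^ 2) →
    PLoc E A B h → LocTriv (sW A B) E (Sep E) f

/-- INJ. Equivalent cocycles have equivalent `h`, and conversely.
Proof. `f - f' = f + f'` is a cocycle with values in the points of order two, `β β'` satisfies `IsBeta` for it (`sg` is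
multiplicative, `gp3`), with `h h'`. If `h h'` is a square modulo the polynomial apply `N187.PP.gt` to `f - f'` (with
`L = AdjoinRoot`). If `f - f' = σ T - T` then `b(t) = β(t) β'(t) / sg T t` satisfies `σ(b(t)) = b(σ t)` for all `σ`,
so there is a polynomial `s` over `M` with `s(t) = b(t)` (Lagrange interpolation and Galois descent, see `interp` in
`N199/PP/GL.lean`), and `h h' - s ^ 2` vanishes at the three zeros. -/
def S_INJ : Prop := ∀ (M : Type) [Field M] [CharZero M] (A B : M),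
  4 * A ^ 3 + 27 * B ^ 2 ≠ 0 → Irreducible (cb A B) →
  ∀ f f' : (Sep M ≃ₐ[M] Sep M) → Pt (sW A B) (Sep M), IsCoc (sW A B) f → (∀ σ, (2 : ℕ) • f σ = 0) →
  IsCoc (sW A B) f' → (∀ σ, (2 : ℕ) • f' σ = 0) →
  ∀ (β β' : Sep M → Sep M) (h h' : M[X]), IsBeta A B f β → IsBeta A B f' β' →
    (∀ t : Sep M, Rt A B t → aeval t h = β t ^ 2) →
    (∀ t : Sep M, Rt A B t → aeval t h' = β' t ^ 2) →
    ((∃ T : Pt (sW A B) (Sep M), (2 : ℕ) • T = 0 ∧ ∀ σ, f σ - f' σ = act (sW A B) (rs M σ) T - T) ↔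
      ∃ s : M[X], cb A B ∣ h * h' - s ^ 2)

/-- SELD (`theorem seld (h1 : S_KUM) (h2 : S_LTR) (h3 : S_INJ) : S_SELD`). From the algebraic Selmer group to
cocycles. Proof. The map of `N521/QM/Selc.lean` (cocycle ↦ `h`, by `N187.PP.gb`, `N187.PP.gn`, with `N42.QM.glf` and
`N530.QM.farc`, `N42.QM.farr` for the local conditions) sends a `SelCoc` cocycle to an `h` with `SelH`; by `S_KUM` and
`S_LTR` every `h` with `SelH` comes from a `SelCoc` cocycle; by `S_INJ` this is a bijection on classes. So `Sel2` is in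
bijection with `Fin (2 ^ d)`. -/
def S_SELD : Prop := ∀ (M : Type) [Field M] [NumberField M] (A B : M) (d : ℕ),
  4 * A ^ 3 + 27 * B ^ 2 ≠ 0 → Irreducible (cb A B) → SelCard A B d →
  Nat.card (Sel2 M (sW A B)) = 2 ^ d

end Pool.Agent.Run7.h245.SR
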