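import Pool.Agent.Run7.h245.SR.Iface1

/-!
# Project SR: statements, part 2 (local solvability, units, levels, assembly)

Write `theorem x : S_X` in your own directory `Pool/Agent/Run7/<h>/SR/`, see the table `h245_pieces`.
`R = w.adicCompletionIntegers F` is the ring of integers of the completion `w.adicCompletion F`.
-/

set_option autoImplicit false
set_option linter.all false

open Polynomial IsDedekindDomain Matrix NumberField
open scoped Classical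

namespace Pool.Agent.Run7.h245.SR

open Pool.Agent.N352.PJ (Mt Typ dd)
open Pool.Agent.N783.PQ (chp form Dist Gap Mid Deep eA eB eU uu LocIm)
open Pool.Agent.N874.PP (Ev Sq1 U0 sW IsBeta Rt sg)
open Pool.Agent.N874.PM (PLoc)
open Pool.Agent.N874.JM (LocF)
open Pool.Agent.N783.PF
open Pool.Agent.TH115.GD (Pt act rs IsCoc LocTriv Comp Sep)

/-! ### E. Local solvability at the finite places -/

/-- HEN. Hensel's lemma for `R[X] / (f)`. Proof. `R` is complete for its maximal ideal `𝔪` (`𝔪`-adic topology = valuation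
topology; `R` is a complete discrete valuation ring), `AdjoinRoot f` is a finite free `R`-module, hence complete for
`𝔪 (R[X]/(f))`; Mathlib: `IsAdicComplete.henselianRing`. (Or a direct Newton iteration with convergence of the
coefficients.) The second part is Hensel's lemma for `R` itself. -/
def S_HEN : Prop := ∀ (F : Type) [Field F] [NumberField F] (w : HeightOneSpectrum (𝓞 F)),
  (∀ f : (w.adicCompletionIntegers F)[X], f.Monic → HenselianRing (AdjoinRoot f)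
    ((IsLocalRing.maximalIdeal (w.adicCompletionIntegers F)).map
      (algebraMap (w.adicCompletionIntegers F) (AdjoinRoot f)))) ∧
  HenselianLocalRing (w.adicCompletionIntegers F)

/-- HENQ (`theorem henq (h : S_HEN) : S_HENQ`). Quadratic equations in `R[X] / (f)`, in terms of polynomials: an approximate
zero `y₀` of `y ^ 2 + b y + c` such that `2 y₀ + b` is invertible modulo `(𝔪, f)` can be improved to a zero. -/
def S_HENQ : Prop := ∀ (F : Type) [Field F] [NumberField F] (w : HeightOneSpectrum (𝓞 F))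
  (f b c y₀ u v v' : (w.adicCompletionIntegers F)[X]), f.Monic →
  (∀ i, (y₀ ^ 2 + b * y₀ + c - f * v).coeff i ∈
    IsLocalRing.maximalIdeal (w.adicCompletionIntegers F)) →
  (∀ i, ((2 * y₀ + b) * u - 1 - f * v').coeff i ∈
    IsLocalRing.maximalIdeal (w.adicCompletionIntegers F)) →
  ∃ y : (w.adicCompletionIntegers F)[X], f ∣ y ^ 2 + b * y + c

/-- GAT. `θ` generates the integers of `L` locally at `w`. Proof. Adapt `N31/PF/Int.lean` (`S_INT`). First choose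
`m ∉ w` with `m x` integral (the finitely many primes of `L` where `x` is not integral do not lie over `w`). If the
localisation of `𝓞 F [θ]` at `w` were not integrally closed there would be `c ∈ 𝓞 F` powers of a uniformiser and
an integral basis change of determinant in `w`, and `dsc g f` would be divisible by `w ^ 2` locally
(`dsc` of the basis `1, θ, ...` is the square of the determinant times an integral discriminant). -/
def S_GAT : Prop := ∀ (g : ℕ) (F L : Type) [Field F] [NumberField F] [Field L] [NumberField L]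
  [Algebra F L] (f : (𝓞 F)[X]) (θ : L), IsGen g f θ → ∀ w : HeightOneSpectrum (𝓞 F),
  dsc g f ∉ w.asIdeal ^ 2 → ∀ x : L,
  (∀ 𝔓 : HeightOneSpectrum (𝓞 L), Ov w.asIdeal 𝔓 → 𝔓.valuation L x ≤ 1) →
  ∃ m : 𝓞 F, m ∉ w.asIdeal ∧ ∃ a : (𝓞 F)[X], algebraMap F L (m : F) * x = aeval θ (fF a)

/-- RES (`theorem res (h : S_GAT) : S_RES`). An element with even valuations over `w` is, up to squares, `a(θ)` with
`a` integral and a unit modulo `w`. Proof. Let `α = aeval θ h`. Choose `s ∈ L` with `v_𝔓(α) = 2 v_𝔓(s)` for the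
(finitely many) `𝔓` over `w` (approximation). By `GAT` for `x = α / s ^ 2` there are `m ∉ w`, `a₀` with `m x = a₀(θ)`;
put `a = m a₀`, so `a(θ) = m ^ 2 α / s ^ 2` and `α a(θ) = (m α / s) ^ 2`, and write `m α / s = u(θ)`. The norm of `a(θ)`
is that of `α` times a square. `a(θ)` is a unit at all `𝔓` over `w`, so `a` is coprime to `f` modulo `w` (a common
irreducible factor `π` gives a prime of `L` over `w` containing `π(θ)`, lying over). The norm of `a(θ)` is the determinant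
of a matrix over `𝓞 F` (multiplication on `1, θ, ...`), whose reduction is the matrix of the multiplication by `a` on
`(𝓞 F / w)[X] / (f)`; it is the square of an element of `F` which is integral. -/
def S_RES : Prop := ∀ (g : ℕ) (F L : Type) [Field F] [NumberField F] [Field L] [NumberField L]
  [Algebra F L] (f : (𝓞 F)[X]) (θ : L), IsGen g f θ → ∀ w : HeightOneSpectrum (𝓞 F),
  dsc g f ∉ w.asIdeal ^ 2 → ∀ h : F[X], aeval θ h ≠ 0 →
  (∀ 𝔓 : HeightOneSpectrum (𝓞 L), Ov w.asIdeal 𝔓 → Ev 𝔓 (aeval θ h)) →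
  ∃ (a : (𝓞 F)[X]) (u : F[X]), fF f ∣ h * fF a - u ^ 2 ∧ aeval θ u ≠ 0 ∧
    IsCoprime (rd w.asIdeal a) (rd w.asIdeal f) ∧
    (IsSquare (Algebra.norm F (aeval θ h)) → IsSquare (Algebra.norm F (aeval θ (fF a))) ∧
      IsSquare (Algebra.norm (𝓞 F ⧸ w.asIdeal)
        (AdjoinRoot.mk (rd w.asIdeal f) (rd w.asIdeal a))))

/-- SQW (`theorem sqw (h1 : S_RES) (h2 : S_HENQ) (h3 : S_DSC) : S_SQW`). Squares at all primes over `w` are squares over
the completion. Proof. Take `a, u` of `RES` (`Sq1` implies `Ev`). `a(θ)` is `Sq1` at all `𝔓` over `w`. Modulo `w`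
the polynomial `f` is a product of different irreducible `π_i`, to each belongs a prime `𝔓_i` over `w` with
`𝓞 L / 𝔓_i = k[X]/(π_i)` (`k = 𝓞 F / w`), so `a` is a square modulo each `π_i`, hence `a ≡ s ^ 2` modulo `(w, f)` with
`s ∈ (𝓞 F)[X]`, `s` a unit modulo `(w, f)`. By `HENQ` (`b = 0`, `c = -a`, `y₀ = s`; 2 is a unit) `a` is a square modulo
`f` over `R`, and so is `h = u ^ 2 / a`. -/
def S_SQW : Prop := ∀ (g : ℕ) (F L : Type) [Field F] [NumberField F] [Field L] [NumberField L]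
  [Algebra F L] (f : (𝓞 F)[X]) (θ : L), 1 ≤ g → IsGen g f θ → ∀ w : HeightOneSpectrum (𝓞 F),
  (2 : 𝓞 F) ∉ w.asIdeal → (rd w.asIdeal f).Separable → ∀ h : F[X], aeval θ h ≠ 0 →
  (∀ 𝔓 : HeightOneSpectrum (𝓞 L), Ov w.asIdeal 𝔓 → Sq1 𝔓 (aeval θ h)) →
  ∃ s : (w.adicCompletion F)[X], (fF f).map (algebraMap F (w.adicCompletion F)) ∣
    h.map (algebraMap F (w.adicCompletion F)) - s ^ 2

/-- IRW (`theorem irw (h1 : S_RES) (h2 : S_HENQ) (h3 : S_DSC) : S_IRW`). If `f` is irreducible modulo `w` an even class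
with square norm is trivial. Proof. `a` of `RES` is an element of the finite field `k[X]/(f)`, of odd degree over `k`,
with square norm, so it is a square (`N42.PF.sq_of_norm`); then `HENQ` as in `SQW`. -/
def S_IRW : Prop := ∀ (g : ℕ) (F L : Type) [Field F] [NumberField F] [Field L] [NumberField L]
  [Algebra F L] (f : (𝓞 F)[X]) (θ : L), 1 ≤ g → IsGen g f θ → ∀ w : HeightOneSpectrum (𝓞 F),
  (2 : 𝓞 F) ∉ w.asIdeal → Irreducible (rd w.asIdeal f) → ∀ h : F[X], aeval θ h ≠ 0 →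
  IsSquare (Algebra.norm F (aeval θ h)) →
  (∀ 𝔓 : HeightOneSpectrum (𝓞 L), Ov w.asIdeal 𝔓 → Ev 𝔓 (aeval θ h)) →
  ∃ s : (w.adicCompletion F)[X], (fF f).map (algebraMap F (w.adicCompletion F)) ∣
    h.map (algebraMap F (w.adicCompletion F)) - s ^ 2

/-- FF. 2-descent over a finite field. Proof. Let `E : y ^ 2 = x ^ 3 + A x + B` over `k`, `G = E(k)`, `M` the group of the
units `a` of `k[X]/(cb)` with square norm modulo squares. The number `r` of irreducible factors of `cb` is `1`, `2`, `3`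
according to `0`, `1`, `3` zeros in `k`; `M` has `2 ^ (r - 1)` elements (units of `k[X]/(cb)` modulo squares:
`2 ^ r`, the norm is onto `k^*/k^*²` because `norm c = c ^ 3` for `c ∈ k`). `G[2]` has also `2 ^ (r - 1)` elements, and
`G / 2 G` has the same number as `G` is finite. The map `P ↦ x(P) - X` (for `P = (e, 0)`: `e - X` at the factors other
than `X - e`, and the value at `X = e` such that the norm is a square) is injective from `G / 2 G` to `M`, see below, so it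
is surjective, and the three cases are `P ∈ 2 G`, `P` not of order two, `P = (e, 0)`.
`r = 1`: `M` is trivial. In general only the following is needed: if `P ∉ 2 G` then its class is not trivial, and for
`r = 3` the classes of `P`, `P'` with `P - P' ∉ 2 G` are different (homomorphism property). If `x(P) - X` is a square
at all zeros `t` of `cb` in the algebraic closure by compatible elements `rr` (i.e. `x - X ≡ s ^ 2` modulo `cb` over
`k`) then `P ∈ 2 G`: explicit formula. Write `s = a X ^ 2 + b X + c`; then `a ≠ 0`, and the line through ... gives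
`Q` with `2 Q = P`; in the tree see `N630/PP/Cub.lean` (`double`, `add_tor`, `isS`), `N630.PP.gp1` - `gp4` (with
`K = k`, `Ω` an algebraic closure: choose `Q` over `Ω` with `2 Q = P`; `rr t Q = ± s(t)` for the three zeros `t`, change `Q` by a
point of order two (`gp2`, `gp3`) and `s` by a sign so that `rr t Q = s(t)` for all zeros; then the Frobenius fixes
`Q`: `Frob Q - Q` is of order two with all `sg = 1`, `gp3`). -/
def S_FF : Prop := ∀ (k : Type) [Field k] [Finite k] (A B : k), (6 : k) ≠ 0 →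
  4 * A ^ 3 + 27 * B ^ 2 ≠ 0 → ∀ a : k[X], IsCoprime a (cb A B) →
  IsSquare (Algebra.norm k (AdjoinRoot.mk (cb A B) a)) →
  (∃ s : k[X], cb A B ∣ a - s ^ 2) ∨
  (∃ (x : k) (s : k[X]), x ^ 3 + A * x + B ≠ 0 ∧ cb A B ∣ a * (C x - X) - s ^ 2) ∨
  ∃ (e : k) (s : k[X]), e ^ 3 + A * e + B = 0 ∧
    X ^ 2 + C e * X + C (e ^ 2 + A) ∣ a * (C e - X) - s ^ 2

/-- PL. The `y`-coordinate exists because of the norms. Proof. Norm of `C x - X` in `E[X]/(cb)` is `x ^ 3 + A x + B`, the norm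
of `h` is the image of a nonzero square `c ^ 2`, so `(x ^ 3 + A x + B) c ^ 2 = norm(g) ^ 2`. (`AdjoinRoot.powerBasis'`;
norms as determinants of the multiplication, compatible with the map `M → E`.) -/
def S_PL : Prop := ∀ (M E : Type) [Field M] [CharZero M] [Field E] [Algebra M E] (A B : M)
  (h : M[X]) (x : E) (g : E[X]), IsCoprime h (cb A B) →
  IsSquare (Algebra.norm M (AdjoinRoot.mk (cb A B) h)) →
  x ^ 3 + algebraMap M E A * x + algebraMap M E B ≠ 0 →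
  X ^ 3 + C (algebraMap M E A) * X + C (algebraMap M E B) ∣
    (C x - X) * h.map (algebraMap M E) - g ^ 2 → PLoc E A B h

/-- GOOD (`theorem good (h1 : S_RES) (h2 : S_FF) (h3 : S_HENQ) (h4 : S_HEN) (h5 : S_PL) (h6 : S_DSC) : S_GOOD`). Good reduction:
even classes with square norm come from points. Proof. Take `a, u` of `RES`; it is enough to treat `a` instead of `h`
(`h a = u ^ 2` modulo `f`, so `h ≡ a (u / a) ^ 2`). Apply `FF` over `k = 𝓞 F / w` to `a`.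
Case 1: `a ≡ s ^ 2` modulo `(w, f)`; by `HENQ` a square over `R`. Case 2: `a (x - X) ≡ s ^ 2` modulo `(w, f)`,
`f(x) ∉ w`: lift `x`, `HENQ`, then `PL`. Case 3: `e` a zero modulo `w`; it is simple, lift it to a zero `e ∈ R` of
`f` (`HEN`), `f = (X - e) q`, `q = X ^ 2 + e X + e ^ 2 + A` over `R`. Let `π ∈ R` be nonzero in the maximal ideal,
`t = a(e) π ^ 2`, `x = e + t` (`a(e)` is a unit). Then `a (x - X)` is the square `(a(e) π) ^ 2` at `X = e`, and modulo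
`(𝔪, q)` it is `a (e - X) ≡ s ^ 2`, a unit, so it is a square modulo `q` over `R` by `HENQ`; as `X - e` and `q` are
coprime it is a square modulo `f` over the completion. `f(x) = t q(e + t) ≠ 0`. Then `PL`. -/
def S_GOOD : Prop := ∀ (F L : Type) [Field F] [NumberField F] [Field L] [NumberField L]
  [Algebra F L] (f : (𝓞 F)[X]) (θ : L), IsGen 1 f θ → f.coeff 2 = 0 →
  ∀ w : HeightOneSpectrum (𝓞 F), (6 : 𝓞 F) ∉ w.asIdeal → (rd w.asIdeal f).Separable →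
  ∀ h : F[X], aeval θ h ≠ 0 → IsSquare (Algebra.norm F (aeval θ h)) →
  (∀ 𝔓 : HeightOneSpectrum (𝓞 L), Ov w.asIdeal 𝔓 → Ev 𝔓 (aeval θ h)) →
  PLoc (w.adicCompletion F) ((f.coeff 1 : 𝓞 F) : F) ((f.coeff 0 : 𝓞 F) : F) h

/-- MULW (`theorem mulw (h1 : S_RES) (h2 : S_HENQ) (h3 : S_PL) : S_MULW`). Discriminant of valuation one. Proof. Modulo `w`:
`f = x ^ 3 + A x + B`, `4 A ^ 3 + 27 B ^ 2 ∈ w` (`dsc` is this up to sign), not in `w ^ 2`, so `A ∉ w`, and `f = (X - a₀) ^ 2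
(X - b₀)` with `a₀ = -3 B / (2 A)`, `b₀ = -2 a₀`, `a₀ ≠ b₀`. Take `a` of `RES`. Choose `x ∈ k` such that
`a(a₀) (x - a₀)` and `a(b₀) (x - b₀)` are nonzero squares: possible because for given `ε, ε' ∈ {1, nonsquare}` the
equations `x - a₀ = ε s ^ 2`, `x - b₀ = ε' t ^ 2` mean `ε s ^ 2 - ε' t ^ 2 = b₀ - a₀ ≠ 0`, which has at least `|k| - 1`
solutions `(s, t)`, at most four of them with `s t = 0`, and `|k| ≥ 7`. Then `a (x - X) ≡ s ^ 2` modulo `(w, f)` (a square at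
`a₀` lifts modulo `(X - a₀) ^ 2`), `f(x) ≠ 0`, and `HENQ`, `PL` finish as in case 2 of `GOOD`. -/
def S_MULW : Prop := ∀ (F L : Type) [Field F] [NumberField F] [Field L] [NumberField L]
  [Algebra F L] (f : (𝓞 F)[X]) (θ : L), IsGen 1 f θ → f.coeff 2 = 0 →
  ∀ w : HeightOneSpectrum (𝓞 F), (6 : 𝓞 F) ∉ w.asIdeal → 7 ≤ Nat.card (𝓞 F ⧸ w.asIdeal) →
  dsc 1 f ∈ w.asIdeal → dsc 1 f ∉ w.asIdeal ^ 2 →
  ∀ h : F[X], aeval θ h ≠ 0 → IsSquare (Algebra.norm F (aeval θ h)) →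
  (∀ 𝔓 : HeightOneSpectrum (𝓞 L), Ov w.asIdeal 𝔓 → Ev 𝔓 (aeval θ h)) →
  PLoc (w.adicCompletion F) ((f.coeff 1 : 𝓞 F) : F) ((f.coeff 0 : 𝓞 F) : F) h

/-- RAMQ (`theorem ramq (h1 : S_SQW) (h2 : S_PL) (h3 : S_EXQ) (h4 : S_CSQ) (h5 : S_NS) : S_RAMQ`). The place `𝔮 q`, `q ∣ D`.
Proof. Let `α = aeval θ h₀`, `𝔓₁`, `𝔔` the two primes over `𝔮 q` (`EXQ`; `θ` is a nonunit at `𝔓₁`, a unit at `𝔔`).
(a) `α` even at `𝔔`: then `Sq1` at `𝔔` (`U0`), at all primes over `𝔮 q` by `S_NS`, so a square by `SQW`; substitute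
`X ↦ X / D`. (b) `α` odd at `𝔔`: `Sq1 𝔔 (α q θ)`. `0` is a simple zero of `f` modulo `w = 𝔮 q`, so for every `N` there is
`e ∈ w` with `f(e) ∈ w ^ N`; then `v(θ - e) ≥ N` at `𝔓₁` (`f(e) = (e - θ) k`, `k` a unit at `𝔓₁`). The residue field of
`𝔓₁` is that of `w` and `𝔓₁` is unramified, `α` is even at `𝔓₁`: there is `c ∈ F^*` with `Sq1 𝔓₁ (α c)`; let
`t = c m ^ 2` with `m ∈ F^*` such that `v_w(t) ≥ 3`, and `N > v_w(t)`. Put `x = D e + t ∈ F`. At `𝔓₁`: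
`x - D θ = t + D (e - θ)` is `t` up to a factor `1 + ...`, so `Sq1 𝔓₁ (α (x - D θ))`. At `𝔔`: `x - D θ = -D θ + (D e + t)` is
`-D θ` up to such a factor, and `-D / q` is a square at `𝔔` (`CSQ`), so `Sq1 𝔔 (α (x - D θ))`. By `SQW`
`h₀ (x - D X)` is a square modulo `f` over the completion. Substitute `X ↦ X / D` and use `PL` (`x ∈ F` is not a zero
because the polynomial is irreducible over `F`). -/
def S_RAMQ : Prop := ∀ (W : ℕ) (F L : Type) [Field F] [NumberField F] [Field L] [NumberField L]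
  [Algebra F L] (f : (𝓞 F)[X]) (θ : L) (S : Finset ℕ) (𝔮 : ℕ → Ideal (𝓞 F))
  (r P : ℕ → (𝓞 F)[X]), IsGen 1 f θ → SqF 1 f → f.coeff 2 = 0 → GoodS 1 W S 𝔮 r P →
  ∀ q ∈ S, Cg (𝔮 q) f (X * r q) → ∀ D D' : ℕ, D = q * D' → ¬ q ∣ D' → D ≠ 0 →
  ∀ h₀ : F[X], aeval θ h₀ ≠ 0 → IsSquare (Algebra.norm F (aeval θ h₀)) →
  (∀ 𝔓 : HeightOneSpectrum (𝓞 L), Ov (𝔮 q) 𝔓 → 𝔓.valuation L θ < 1 → Ev 𝔓 (aeval θ h₀)) →
  (∀ 𝔓 : HeightOneSpectrum (𝓞 L), Ov (𝔮 q) 𝔓 → 𝔓.valuation L θ = 1 →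
    U0 𝔓 ((q : L) * θ) (aeval θ h₀)) →
  ∀ w : HeightOneSpectrum (𝓞 F), w.asIdeal = 𝔮 q →
  PLoc (w.adicCompletion F) (((f.coeff 1 : 𝓞 F) : F) * (D : F) ^ 2)
    (((f.coeff 0 : 𝓞 F) : F) * (D : F) ^ 3) (h₀.comp (C ((D : F)⁻¹) * X))

/-- LP2. If the cubic polynomial is irreducible over `E` then `LocF` gives one point. Proof. By `S_CANT` (project PQ,
`N783/PQ/Loc.lean`, find the theorem `cant` in the tree) there are `u` monic coprime to the cubic `f`, `v`, `s`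
with `u ∣ v ^ 2 - f`, `f ∣ h (-1)^n u - s ^ 2`, `n = deg u`. By linear algebra (`n + 1` unknown coefficients, `n` equations)
there are `a, b ∈ E[X]`, not both zero, with `u ∣ a - b v`, `2 deg a ≤ n + 1`, `2 deg b + 3 ≤ n + 1`
(`b = 0` if `n ≤ 1`). Then `u ∣ a ^ 2 - b ^ 2 f ≠ 0`, say `a ^ 2 - b ^ 2 f = u u'`, `deg u' ≤ 1`. `f ∤ a` (otherwise
`f ∣ u u'`, `u` coprime to `f`, `deg u' ≤ 1`). The leading coefficient of `u'` is a square (case `deg` even) or minus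
a square (case `deg` odd), so with `u'` made monic, `u₁`, `(-1)^n u (-1)^(deg u₁) u₁` is a square (nonzero)
modulo `f`. So `h (-1)^(deg u₁) u₁` is a square modulo `f`. If `u₁ = 1` this is the first alternative of `PLoc`;
if `u₁ = X - x` then `x` is a zero of `a ^ 2 - b ^ 2 f`, `b(x) ≠ 0` (otherwise `a(x) = 0`, divide `a, b` by `X - x` first, or
choose `a, b` coprime), `y = a(x) / b(x)`, `y ≠ 0` as `f` has no zero. (Or use `S_PL`-like norms for the existence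
of `y`.) -/
def S_LP2 : Prop := ∀ (M E : Type) [Field M] [CharZero M] [Field E] [Algebra M E] (A B : M)
  (h : M[X]), Irreducible ((cb A B).map (algebraMap M E)) → IsCoprime h (cb A B) →
  IsSquare (Algebra.norm M (AdjoinRoot.mk (cb A B) h)) → LocF E (cb A B) h → PLoc E A B h

/-- LPR. The real places. Proof. Let `(u, v)` be as in `LocIm` (`f` the cubic polynomial over `ℝ`, `u ∣ v ^ 2 - f`, `u`
coprime to `f`): at a real zero `x` of `u` we have `f(x) = v(x) ^ 2 ≥ 0`, `f(x) ≠ 0`. If `f` has one real zero `e`: `u` has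
no zero `≤ e`, so `(-1)^(deg u) u(e) > 0`, so `h(e) > 0`, and `h` is a square modulo `f` over `ℝ`
(`Run7.h245.NF.exists_sq` in `Run7/h245/NF/Re.lean`). If `f` has three real zeros `e₁ < e₂ < e₃`: `u` has no zero
`≤ e₁` and none in `[e₂, e₃]`, so `(-1)^(deg u) u(e₁) > 0` and `u(e₂) u(e₃) > 0`; so `h(e₁) > 0`, `h(e₂) h(e₃) > 0`. If
`h(e₂) > 0` interpolate the square roots. Otherwise choose `x` in `(e₁, e₂)`, `y = √f(x) > 0`; `(x - X) h` is positive at the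
three zeros; interpolate. -/
def S_LPR : Prop := ∀ (a b : ℝ) (h : ℝ[X]), 4 * a ^ 3 + 27 * b ^ 2 ≠ 0 → IsCoprime h (cb a b) →
  LocIm ℝ (cb a b) h → (∃ g : ℝ[X], cb a b ∣ h - g ^ 2) ∨
  ∃ x y : ℝ, y ≠ 0 ∧ y ^ 2 = x ^ 3 + a * x + b ∧ ∃ g : ℝ[X], cb a b ∣ (C x - X) * h - g ^ 2

/-- SCL. Twists by squares (substitute `X ↦ X / δ ^ 2`; `(x, y) ↦ (δ ^ 2 x, δ ^ 3 y)`). -/
def S_SCL : Prop := ∀ (M E : Type) [Field M] [Field E] [Algebra M E] (A B D : M) (δ : E)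
  (h : M[X]), D ≠ 0 → algebraMap M E D = δ ^ 2 → PLoc E A B h →
  PLoc E (A * D ^ 2) (B * D ^ 3) (h.comp (C D⁻¹ * X))

/-- SQ8 (`theorem sq8 (h : S_HEN) : S_SQ8`). Natural numbers `≡ 1` modulo `8` are squares at the primes over `2`: `D = 1 + 8 k`,
`y ^ 2 + y = 2 k` has a zero in `R` by Hensel's lemma, `δ = 1 + 2 y`. -/
def S_SQ8 : Prop := ∀ (F : Type) [Field F] [NumberField F] (w : HeightOneSpectrum (𝓞 F)),
  (2 : 𝓞 F) ∈ w.asIdeal → ∀ D : ℕ, D % 8 = 1 →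
  ∃ δ : w.adicCompletion F, algebraMap F (w.adicCompletion F) (D : F) = δ ^ 2

/-- SCG. Scaling of the generator: `D θ` is a zero of `f.scaleRoots D`. -/
def S_SCG : Prop := ∀ (F L : Type) [Field F] [NumberField F] [Field L] [NumberField L]
  [Algebra F L] (f : (𝓞 F)[X]) (θ : L) (D : ℕ), IsGen 1 f θ → f.coeff 2 = 0 → D ≠ 0 →
  IsGen 1 (f.scaleRoots (D : 𝓞 F)) ((D : L) * θ) ∧ (f.scaleRoots (D : 𝓞 F)).coeff 2 = 0 ∧
  (f.scaleRoots (D : 𝓞 F)).coeff 1 = f.coeff 1 * (D : 𝓞 F) ^ 2 ∧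
  (f.scaleRoots (D : 𝓞 F)).coeff 0 = f.coeff 0 * (D : 𝓞 F) ^ 3 ∧
  (∃ ε : 𝓞 F, (ε = 1 ∨ ε = -1) ∧ dsc 1 f = ε * (4 * f.coeff 1 ^ 3 + 27 * f.coeff 0 ^ 2)) ∧
  dsc 1 (f.scaleRoots (D : 𝓞 F)) = (D : 𝓞 F) ^ 6 * dsc 1 f ∧
  ∀ w : HeightOneSpectrum (𝓞 F), (D : 𝓞 F) ∉ w.asIdeal → (6 : 𝓞 F) ∉ w.asIdeal →
    dsc 1 f ∉ w.asIdeal → (rd w.asIdeal (f.scaleRoots (D : 𝓞 F))).Separable

/-- The small primes: `f` is irreducible modulo all primes over `2` and `3`, separable modulo the primes over `W`. -/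
structure Small (W : ℕ) {F : Type} [Field F] [NumberField F] (f : (𝓞 F)[X]) : Prop where
  p : ∀ p : ℕ, p.Prime → p ≤ 7 → p ∣ W
  irr : ∀ w : HeightOneSpectrum (𝓞 F), (6 : 𝓞 F) ∈ w.asIdeal → Irreducible (rd w.asIdeal f)
  sep : ∀ w : HeightOneSpectrum (𝓞 F), (W : 𝓞 F) ∈ w.asIdeal → dsc 1 f ∉ w.asIdeal

/-- LOCC. The elements of `L` which satisfy the conditions for `J` belong to the 2-Selmer group of the twist by `D = Dp J`.
(Assembly of all the local statements; helper245.) -/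
def S_LOCC : Prop := ∀ (F L : Type) [Field F] [NumberField F] [Field L] [NumberField L]
  [Algebra F L] (f : (𝓞 F)[X]) (θ : L) (W : ℕ) (S J : Finset ℕ) (𝔮 : ℕ → Ideal (𝓞 F))
  (r P : ℕ → (𝓞 F)[X]), IsGen 1 f θ → SqF 1 f → f.coeff 2 = 0 → Small W f →
  GoodS 1 W S 𝔮 r P → (∀ q ∈ S, Cg (sp F q) f (P q)) → J ⊆ S →
  ∀ h₀ : F[X], aeval θ h₀ ≠ 0 → IsSquare (Algebra.norm F (aeval θ h₀)) →
  (∀ 𝔓 : HeightOneSpectrum (𝓞 L), (∀ q ∈ J, Ov (𝔮 q) 𝔓 → 𝔓.valuation L θ ≠ 1) →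
    Ev 𝔓 (aeval θ h₀)) →
  (∀ q ∈ J, ∀ 𝔓 : HeightOneSpectrum (𝓞 L), Ov (𝔮 q) 𝔓 → 𝔓.valuation L θ = 1 →
    U0 𝔓 ((q : L) * θ) (aeval θ h₀)) →
  (∀ w : HeightOneSpectrum (𝓞 F), (2 : 𝓞 F) ∈ w.asIdeal →
    LocF (w.adicCompletion F) (fF f) h₀) →
  (∀ σ : F →+* ℝ, LocIm ℝ ((fF f).map σ) (h₀.map σ)) →
  SelH (((f.coeff 1 : 𝓞 F) : F) * ((Dp J : ℕ) : F) ^ 2)
    (((f.coeff 0 : 𝓞 F) : F) * ((Dp J : ℕ) : F) ^ 3) (h₀.comp (C (((Dp J : ℕ) : F)⁻¹) * X))

/-! ### D. Units -/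

/-- UN1. Enough units outside a finite set `T` of primes. Proof. Let `h` be the class number, `U` the group of the `x ∈ L^*` with
trivial valuations outside `T`. The image of `U` in `ℤ^T` (valuations) contains `h ℤ^T`, so it is free of rank `|T|`; choose
`x_t ∈ U` (`t ∈ T`) whose images form a basis of it, and let `X` consist of the `2 ^ |T|` products of different
`x_t`. If a product of `x_t`, `t ∈ I ≠ ∅`, times a square of `L` were a square it would be `y ^ 2`, `y ∈ U`, so the sum of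
the basis vectors in `I` would be twice an element of the image: contradiction. (Products of two different elements of
`X` are such products up to squares.) -/
def S_UN1 : Prop := ∀ (L : Type) [Field L] [NumberField L] (T : Finset (HeightOneSpectrum (𝓞 L))),
  ∃ X : Finset L, X.card = 2 ^ T.card ∧
    (∀ x ∈ X, x ≠ 0 ∧ ∀ 𝔓 : HeightOneSpectrum (𝓞 L), 𝔓 ∉ T → 𝔓.valuation L x = 1) ∧
    ∀ x ∈ X, ∀ y ∈ X, x ≠ y → ¬ IsSquare (x * y)

/-- CLF. Finitely many classes of elements with even valuations. Proof. `y 𝓞 F = 𝔞 ^ 2`; the class of `𝔞` is one of finitely many;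
for `y, y'` with the same class of `𝔞`, `y' = y c ^ 2 ε` with a unit `ε`, and units modulo squares are finite in number
(the unit group is finitely generated, Mathlib: Dirichlet's unit theorem). -/
def S_CLF : Prop := ∀ (F : Type) [Field F] [NumberField F], ∃ (n : ℕ) (cl : F → Fin n),
  ∀ y y' : F, y ≠ 0 → y' ≠ 0 → (∀ w : HeightOneSpectrum (𝓞 F), Ev w y) →
    (∀ w : HeightOneSpectrum (𝓞 F), Ev w y') → cl y = cl y' → IsSquare (y * y')

/-- NEV. The norm of a unit outside the primes `𝔔 q` has even valuations, because the residue degree of `𝔔 q` over `𝔮 q` is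
`2 g` (tools: `N426/PF/Par.lean`, e.g. `parity`, `cn_eq`; `S_EXQ`, `S_CSQ`). -/
def S_NEV : Prop := ∀ (g W : ℕ) (F L : Type) [Field F] [NumberField F] [Field L] [NumberField L]
  [Algebra F L] (f : (𝓞 F)[X]) (θ : L) (S : Finset ℕ) (𝔮 : ℕ → Ideal (𝓞 F))
  (h P : ℕ → (𝓞 F)[X]), 1 ≤ g → IsGen g f θ → SqF g f → GoodS g W S 𝔮 h P →
  (∀ q ∈ S, Cg (𝔮 q) f (X * h q)) → ∀ x : L, x ≠ 0 →
  (∀ 𝔓 : HeightOneSpectrum (𝓞 L), (∀ q ∈ S, Ov (𝔮 q) 𝔓 → 𝔓.valuation L θ ≠ 1) →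
    𝔓.valuation L x = 1) →
  ∀ w : HeightOneSpectrum (𝓞 F), Ev w (Algebra.norm F x)

/-- M16. Invariants modulo `16` and signs. Proof. `x` a unit at the primes over `2`: `x = a / b` with `a ∈ 𝓞 L`, `b` an odd natural
number; invariant: `a b` modulo `16` (at most `16 ^ n` values, `𝓞 L / 16` has `16 ^ [L : ℚ]` elements) and the signs
under the real embeddings (at most `2 ^ n`). If `x = a / b`, `y = a' / b'` have the same invariants then
`x y (b b') ^ 2 = (a b) (a' b')`, `a' b' = a b + 16 c`, so `x y = (a / b')^2 (1 + 16 z)`, `z = c / (a b)`, integral at the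
primes over `2`. -/
def S_M16 : Prop := ∀ n : ℕ, ∃ N : ℕ, ∀ (L : Type) [Field L] [NumberField L],
  Module.finrank ℚ L ≤ n → ∃ κ : L → Fin N, ∀ x y : L, x ≠ 0 → y ≠ 0 →
  (∀ 𝔓 : HeightOneSpectrum (𝓞 L), (2 : 𝓞 L) ∈ 𝔓.asIdeal → 𝔓.valuation L x = 1) →
  (∀ 𝔓 : HeightOneSpectrum (𝓞 L), (2 : 𝓞 L) ∈ 𝔓.asIdeal → 𝔓.valuation L y = 1) → κ x = κ y →
  (∃ u z : L, u ≠ 0 ∧ x * y = u ^ 2 * (1 + 16 * z) ∧
    ∀ 𝔓 : HeightOneSpectrum (𝓞 L), (2 : 𝓞 L) ∈ 𝔓.asIdeal → 𝔓.valuation L z ≤ 1) ∧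
  ∀ ρ : L →+* ℝ, 0 < ρ (x * y)

/-- SQ2 (`theorem sq2 (h1 : S_GAT) (h2 : S_HENQ) (h3 : S_DSC) : S_SQ2`). `u ^ 2 (1 + 16 z)` is a square over the completion at
`w ∣ 2`. Proof. By `GAT` `m z = Z(θ)` with `m ∉ w`, `Z` integral. Over `R`: `1 + 16 Z / m` is `(1 + 2 y) ^ 2` modulo `f` if
`y ^ 2 + y - 4 Z / m` is `0` modulo `f`; `HENQ` with `b = 1`, `c = -4 Z / m`, `y₀ = 0`, `u = 1`. -/
def S_SQ2 : Prop := ∀ (g : ℕ) (F L : Type) [Field F] [NumberField F] [Field L] [NumberField L]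
  [Algebra F L] (f : (𝓞 F)[X]) (θ : L), 1 ≤ g → IsGen g f θ → ∀ w : HeightOneSpectrum (𝓞 F),
  (2 : 𝓞 F) ∈ w.asIdeal → (rd w.asIdeal f).Separable → ∀ (h₀ : F[X]) (u z : L),
  aeval θ h₀ = u ^ 2 * (1 + 16 * z) →
  (∀ 𝔓 : HeightOneSpectrum (𝓞 L), Ov w.asIdeal 𝔓 → 𝔓.valuation L z ≤ 1) →
  ∃ s : (w.adicCompletion F)[X], (fF f).map (algebraMap F (w.adicCompletion F)) ∣
    h₀.map (algebraMap F (w.adicCompletion F)) - s ^ 2

/-- SQR. Positive elements are squares at the real places. Proof. Every real zero `e` of `σ(f)` gives `ρ : L → ℝ` extending `σ` with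
`ρ θ = e` (`L = F[X]/(f)`), so `σ(h₀)(e) = ρ(aeval θ h₀) > 0`. A polynomial over `ℝ` which is positive at the real zeros of a
separable cubic polynomial is a square modulo it (one real zero: `Run7.h245.NF.exists_sq`; three: interpolate). -/
def S_SQR : Prop := ∀ (F L : Type) [Field F] [NumberField F] [Field L] [NumberField L]
  [Algebra F L] (f : (𝓞 F)[X]) (θ : L), IsGen 1 f θ → f.coeff 2 = 0 → ∀ (h₀ : F[X]),
  (∀ ρ : L →+* ℝ, 0 < ρ (aeval θ h₀)) → ∀ σ : F →+* ℝ,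
  ∃ s : ℝ[X], (fF f).map σ ∣ h₀.map σ - s ^ 2

/-- UNI (`theorem uni (h1 : S_UN1) (h2 : S_CLF) (h3 : S_NEV) (h4 : S_M16) (h5 : S_SQ2) (h6 : S_SQR) (h7 : S_EXQ) : S_UNI`). Many
classes which are ramified only at the `𝔔 q`, trivial at `2` and `∞`. Proof. `T` the set of the primes `𝔔 q`, `q ∈ S` (`|T| =
|S|`), `X₀` the set of `UN1`; by the pigeonhole principle there is a subset `X₁` of at least `2 ^ |S| / 2 ^ c` elements with
the same invariants `cl (norm x)` (`CLF`, `NEV`) and `κ x` (`M16`, `n = 3 [F : ℚ]`). Fix `x₀ ∈ X₁`, `X = {x x₀}`. -/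
def S_UNI : Prop := ∀ (F : Type) [Field F] [NumberField F], ∃ c : ℕ,
  ∀ (L : Type) [Field L] [NumberField L] [Algebra F L] (f : (𝓞 F)[X]) (θ : L) (W : ℕ)
  (S : Finset ℕ) (𝔮 : ℕ → Ideal (𝓞 F)) (r P : ℕ → (𝓞 F)[X]), IsGen 1 f θ → SqF 1 f →
  f.coeff 2 = 0 →
  (∀ w : HeightOneSpectrum (𝓞 F), (2 : 𝓞 F) ∈ w.asIdeal → (rd w.asIdeal f).Separable) →
  GoodS 1 W S 𝔮 r P → (∀ q ∈ S, Cg (𝔮 q) f (X * r q)) →
  ∃ X : Finset L, 2 ^ S.card ≤ 2 ^ c * X.card ∧ (∀ x ∈ X, ∀ y ∈ X, x ≠ y → ¬ IsSquare (x * y)) ∧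
    ∀ x ∈ X, x ≠ 0 ∧ IsSquare (Algebra.norm F x) ∧
      (∀ 𝔓 : HeightOneSpectrum (𝓞 L), (∀ q ∈ S, Ov (𝔮 q) 𝔓 → 𝔓.valuation L θ ≠ 1) → Ev 𝔓 x) ∧
      ∃ h₀ : F[X], aeval θ h₀ = x ∧
        (∀ w : HeightOneSpectrum (𝓞 F), (2 : 𝓞 F) ∈ w.asIdeal →
          ∃ s : (w.adicCompletion F)[X], (fF f).map (algebraMap F (w.adicCompletion F)) ∣
            h₀.map (algebraMap F (w.adicCompletion F)) - s ^ 2) ∧
        ∀ σ : F →+* ℝ, ∃ s : ℝ[X], (fF f).map σ ∣ h₀.map σ - s ^ 2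

/-! ### G. Levels -/

/-- LEVB (`theorem levb (h : S_BADC) : S_LEVB`): the moment argument. Proof. Let `C₀, K` be those of `S_BADC`. Choose `m` with
`C₀ (1 + ε) ^ (-m) ≤ δ` and `s₀ ≥ m / ε`, `s₀ ≥ 4 m`. If `f` is in the set then at least `binom(⌈(1/2 + ε) s⌉, m)`
subsets `C ⊆ T` with `|C| = m` have `LBadC` (`s = |T|`). So the number of `f` is at most
`binom(s, m) C₀ 2^(-m) 2^(..) / (∏ ...) / binom(⌈(1/2 + ε) s⌉, m)`, and
`binom(s, m) / binom(t, m) = ∏_{i < m} (s - i) / (t - i) ≤ (2 / (1 + ε)) ^ m` for `t ≥ (1/2 + ε) s`, because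
`(1 + ε) (s - i) ≤ 2 ((1/2 + ε) s - i)` means `(1 - ε) i ≤ ε s`. `N₀` is the maximum over the finitely many `C`. -/
def S_LEVB : Prop := ∀ (F : Type) [Field F] [NumberField F] (g κ : ℕ), 1 ≤ g →
  ∀ δ ε : ℝ, 0 < δ → 0 < ε → ε < 1 / 2 → ∃ m s₀ K : ℕ,
  ∀ (W : ℕ) (S T : Finset ℕ) (𝔮 : ℕ → Ideal (𝓞 F)) (h P : ℕ → (𝓞 F)[X]), K ≤ W →
  GoodS g W S 𝔮 h P → T ⊆ S → s₀ ≤ T.card → ∃ N₀ : ℕ, ∀ N ≥ N₀,
  {f : (𝓞 F)[X] | ∃ Z ⊆ T, (1 / 2 + ε) * T.card ≤ Z.card ∧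
    ∀ C ⊆ Z, C.card = m → LBadC g N κ S C 𝔮 P f}.Finite ∧
  (((∏ q ∈ S, q ^ (2 * g)) ^ Module.finrank ℚ F : ℕ) : ℝ) *
    ({f : (𝓞 F)[X] | ∃ Z ⊆ T, (1 / 2 + ε) * T.card ≤ Z.card ∧
      ∀ C ⊆ Z, C.card = m → LBadC g N κ S C 𝔮 P f}.ncard : ℝ) ≤
    δ * 2 ^ (Module.finrank ℚ F * (2 * N * dd g))

/-- `f` is pseudorandom at the level `T`, for the classes ramified at most in `S₀`. -/
def PrAt (g : ℕ) {F : Type} [Field F] [NumberField F] (f : (𝓞 F)[X]) (𝔮 : ℕ → Ideal (𝓞 F))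
    (S₀ T : Finset ℕ) (ε : ℝ) : Prop :=
  ∀ (L : Type) [Field L] [NumberField L] [Algebra F L] (θ : L), IsGen g f θ →
  ∀ α : L, α ≠ 0 → IsSquare (Algebra.norm F α) → ¬ IsSquare α →
  (∀ 𝔓 : HeightOneSpectrum (𝓞 L), (∀ q ∈ S₀, Ov (𝔮 q) 𝔓 → 𝔓.valuation L θ ≠ 1) → Ev 𝔓 α) →
  ((T.filter fun q => ∀ 𝔓 : HeightOneSpectrum (𝓞 L), Ov (𝔮 q) 𝔓 → 𝔓.valuation L θ = 1 →
    Sq1 𝔓 α).card : ℝ) ≤ (1 / 2 + ε) * T.card

/-- LEV: existence of the levels. (`helper245` writes it; from `S_LEVB`, `S_PRX`, `S_EXS`, `S_SQF`, `S_BAD` and the count of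
the family.) -/
def S_LEV : Prop := ∀ (F : Type) [Field F] [NumberField F] (K n₀ : ℕ) (ε : ℝ), 0 < ε →
  ∃ (W : ℕ) (T : ℕ → Finset ℕ) (𝔮 : ℕ → Ideal (𝓞 F)) (r P : ℕ → (𝓞 F)[X]),
    GoodS 1 W ((Finset.range K).biUnion T) 𝔮 r P ∧ (∀ k < K, n₀ ≤ (T k).card) ∧
    (∀ i < K, ∀ j < K, i ≠ j → Disjoint (T i) (T j)) ∧
    ∃ c : ℝ, 0 < c ∧ ∃ B₀ : ℕ, ∀ B ≥ B₀, {f : (𝓞 F)[X] | Ht 1 B f}.Finite ∧
      c * ({f : (𝓞 F)[X] | Ht 1 B f}.ncard : ℝ) ≤
      ({f : (𝓞 F)[X] | Ht 1 B f ∧ Irreducible (fF f) ∧ SqF 1 f ∧ Small W f ∧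
        (∃ f₁ : (𝓞 F)[X], GoodF 1 W f₁ ∧ Cg (sp F W) f f₁) ∧
        (∀ q ∈ (Finset.range K).biUnion T, Cg (sp F q) f (P q)) ∧
        ∀ k < K, PrAt 1 f 𝔮 ((Finset.range k).biUnion T) (T k) ε}.ncard : ℝ)

/-- TWD: the choice of the twist. (helper245; from `S_BIGJ`, `S_WALK`, `S_LIN`, `S_UNI`, `S_REC`, `S_NS`, `S_EXQ`, `S_LOC`,
`S_LOCC`.) For every `d` there are `K, n₀, ε` such that for `f` as in `S_LEV` some twist has a 2-Selmer group with exactly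
`2 ^ d` elements. -/
def S_TWD : Prop := ∀ (F : Type) [Field F] [NumberField F] (d : ℕ), ∃ (K n₀ : ℕ) (ε : ℝ), 0 < ε ∧
  ∀ (W : ℕ) (T : ℕ → Finset ℕ) (𝔮 : ℕ → Ideal (𝓞 F)) (r P : ℕ → (𝓞 F)[X]) (f : (𝓞 F)[X]),
    GoodS 1 W ((Finset.range K).biUnion T) 𝔮 r P → (∀ k < K, n₀ ≤ (T k).card) →
    (∀ i < K, ∀ j < K, i ≠ j → Disjoint (T i) (T j)) → f.Monic → f.natDegree = 3 →
    f.coeff 2 = 0 → Irreducible (fF f) → SqF 1 f → Small W f →
    (∃ f₁ : (𝓞 F)[X], GoodF 1 W f₁ ∧ Cg (sp F W) f f₁) →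
    (∀ q ∈ (Finset.range K).biUnion T, Cg (sp F q) f (P q)) →
    (∀ k < K, PrAt 1 f 𝔮 ((Finset.range k).biUnion T) (T k) ε) →
    ∃ J ⊆ (Finset.range K).biUnion T,
      SelCard (((f.coeff 1 : 𝓞 F) : F) * ((Dp J : ℕ) : F) ^ 2)
        (((f.coeff 0 : 𝓞 F) : F) * ((Dp J : ℕ) : F) ^ 3) d

end Pool.Agent.Run7.h245.SR
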