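import Pool.Agent.Run7.h245.SR.Maind

/-!
# Project SR, second theorem: two disjoint twists with trivial 2-Selmer groups, one of them by a prescribed set
-/

set_option autoImplicit false
set_option linter.all false

open Polynomial IsDedekindDomain Matrix NumberField WithZero
open scoped Classical

namespace Pool.Agent.Run7.h245.SR

open Pool.Agent.N352.PJ (dd)
open Pool.Agent.N874.PP (Ev Sq1 U0 S_LIN)
open Pool.Agent.N783.PQ (LocIm)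
open Pool.Agent.N874.JM (LocF)
open Pool.Agent.N874.PM (PLoc)
open Pool.Agent.N783.PF

/-- Linear algebra: `J` contains the prescribed set `I`. -/
theorem exists_JI {ι : Type} [Fintype ι] {Λ : AddSubgroup (ι → ZMod 2 × ZMod 2)}
    (hiso : ∀ l ∈ Λ, ∑ i, (l i).1 * (l i).2 = 0) (I : Finset ι)
    (hI : ∀ l ∈ Λ, (∀ i, i ∉ I → l i = 0) → l = 0) :
    ∃ J : Finset ι, I ⊆ J ∧ Nat.card (Sj Λ J) = 1 := by
  let Λ' : AddSubgroup ({i : ι // ¬ i ∈ I} → ZMod 2 × ZMod 2) :=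
    { carrier := {m | ∃ l ∈ Λ, (∀ i ∈ I, (l i).2 = 0) ∧ ∀ i : {i : ι // ¬ i ∈ I}, l i = m i}
      add_mem' := by
        rintro _ _ ⟨l, h1, h2, h3⟩ ⟨l', h1', h2', h3'⟩
        refine ⟨l + l', Λ.add_mem h1 h1', fun i hi => ?_, fun i => ?_⟩
        · show (l i).2 + (l' i).2 = 0
          rw [h2 i hi, h2' i hi, add_zero]
        · show l i + l' i = _
          rw [h3 i, h3' i]
          rfl
      zero_mem' := ⟨0, Λ.zero_mem, fun i _ => rfl, fun i => rfl⟩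
      neg_mem' := by
        rintro _ ⟨l, h1, h2, h3⟩
        refine ⟨-l, Λ.neg_mem h1, fun i hi => ?_, fun i => ?_⟩
        · show -(l i).2 = 0
          rw [h2 i hi, neg_zero]
        · show -(l i) = _
          rw [h3 i]
          rfl }
  have hiso' : ∀ m ∈ Λ', ∑ i, (m i).1 * (m i).2 = 0 := by
    rintro m ⟨l, h1, h2, h3⟩
    have e1 := Fintype.sum_subtype_add_sum_subtype (fun i => i ∈ I)
      (fun i => (l i).1 * (l i).2)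
    rw [hiso l h1] at e1
    have e2 : ∀ (s : Finset {i : ι // i ∈ I}), ∑ i ∈ s, (l i).1 * (l i).2 = 0 := fun s =>
      Finset.sum_eq_zero fun i _ => by rw [h2 i i.2, mul_zero]
    rw [e2, zero_add] at e1
    rw [← e1]
    refine Finset.sum_congr (by ext i; simp) fun i _ => by rw [h3 i]
  obtain ⟨J', hJ'⟩ := Pool.Agent.N498.PP.lin _ Λ' hiso'
  refine ⟨Finset.univ.filter fun i => i ∈ I ∨ ∃ h : ¬ i ∈ I, (⟨i, h⟩ : {i : ι // ¬ i ∈ I}) ∈ J',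
    fun i hi => Finset.mem_filter.2 ⟨Finset.mem_univ _, Or.inl hi⟩, ?_⟩
  rw [Nat.card_eq_one_iff_unique]
  refine ⟨⟨fun a b => ?_⟩, ⟨0⟩⟩
  have h : ∀ l : Sj Λ (Finset.univ.filter fun i => i ∈ I ∨
      ∃ h : ¬ i ∈ I, (⟨i, h⟩ : {i : ι // ¬ i ∈ I}) ∈ J'), l.1 = 0 := by
    intro l
    obtain ⟨l1, l2, l3⟩ := l.2
    have hm : (fun i : {i : ι // ¬ i ∈ I} => l.1 i) ∈ Λ' :=
      ⟨l.1, l1, fun i hi => l3 i (Finset.mem_filter.2 ⟨Finset.mem_univ _, Or.inl hi⟩), fun i => rfl⟩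
    have h0 := hJ' _ hm (fun i hi => l3 i (Finset.mem_filter.2 ⟨Finset.mem_univ _,
      Or.inr ⟨i.2, hi⟩⟩)) (fun i hi => l2 i (fun hcon => ?_))
    · exact hI l.1 l1 fun i hi => congrFun h0 ⟨i, hi⟩
    · rcases (Finset.mem_filter.1 hcon).2 with h1 | ⟨h1, h2⟩
      · exact i.2 h1
      · exact hi h2
  exact Subtype.ext ((h a).trans (h b).symm)

section

variable {F L : Type} [Field F] [NumberField F] [Field L] [NumberField L] [Algebra F L]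
  {f : (𝓞 F)[X]} {θ : L} {S S' : Finset ℕ} {𝔮 : ℕ → Ideal (𝓞 F)}
  {W : ℕ} {r P : ℕ → (𝓞 F)[X]}

/-- A twist by a set which contains `S'`, with trivial 2-Selmer group. -/
theorem sel_zero (hREC : S_REC) (hEXQ : S_EXQ) (hLOC : S_LOC) (hLOCC : S_LOCC) (hG : IsGen 1 f θ)
    (hsq : SqF 1 f) (h2 : f.coeff 2 = 0) (hirr : Irreducible (fF f)) (hsm : Small W f)
    (hf₁ : ∃ f₁ : (𝓞 F)[X], GoodF 1 W f₁ ∧ Cg (sp F W) f f₁)
    (hS : GoodS 1 W S 𝔮 r P) (hc : ∀ q ∈ S, Cg (sp F q) f (P q)) (hS' : S' ⊆ S)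
    (H : ∀ α : L, α ≠ 0 → IsSquare (Algebra.norm F α) →
      (∀ 𝔓 : HeightOneSpectrum (𝓞 L), (∀ q ∈ S', Ov (𝔮 q) 𝔓 → 𝔓.valuation L θ ≠ 1) → Ev 𝔓 α) →
      (∀ q ∈ S, q ∉ S' → ∀ 𝔓 : HeightOneSpectrum (𝓞 L), Ov (𝔮 q) 𝔓 → 𝔓.valuation L θ = 1 →
        Sq1 𝔓 α) → IsSquare α) :
    ∃ J ⊆ S, S' ⊆ J ∧ SelCard (((f.coeff 1 : 𝓞 F) : F) * ((Dp J : ℕ) : F) ^ 2)
      (((f.coeff 0 : 𝓞 F) : F) * ((Dp J : ℕ) : F) ^ 3) 0 := by
  have hθ := theta_ne hG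
  obtain ⟨𝔔, hQ⟩ := exists_Q hEXQ le_rfl hG hsq hS hc
  have key : ∀ α, InM f θ S 𝔔 α → (∀ q : S, (q : ℕ) ∉ S' → psi θ S 𝔔 α q = 0) → IsSquare α := by
    intro α hα h0
    refine H α hα.ne hα.nrm (fun 𝔓 h𝔓 => ?_) (fun q hq hqS 𝔓 hO hv => ?_)
    · by_cases h : ∀ q ∈ S, 𝔓 ≠ 𝔔 q
      · exact hα.ev 𝔓 h
      · push Not at h
        obtain ⟨q, hq, rfl⟩ := h
        have hqS : q ∉ S' := fun hqS => h𝔓 q hqS (hQ.ov q hq) (hQ.one q hq)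
        have h3 := h0 ⟨q, hq⟩ hqS
        exact (psi_fst α ⟨q, hq⟩).1 (by rw [h3]; rfl)
    · have h3 := h0 ⟨q, hq⟩ hqS
      rw [hQ.uniq q hq 𝔓 hO hv]
      exact ((psi_snd α ⟨q, hq⟩).1 (by rw [h3]; rfl)).1
        ((psi_fst α ⟨q, hq⟩).1 (by rw [h3]; rfl))
  have hsqp : ∀ α, InM f θ S 𝔔 α → psi θ S 𝔔 α = 0 → IsSquare α := fun α hα h0 =>
    key α hα fun q _ => congrFun h0 q
  have hiso : ∀ l ∈ Lam f hS hQ hθ, ∑ i, (l i).1 * (l i).2 = 0 := by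
    rintro _ ⟨α, hα, rfl⟩
    exact psi_iso hREC le_rfl hG hsq hS hc hQ hα
  obtain ⟨J, hIJ, hJ⟩ := exists_JI hiso (Finset.univ.filter fun i : S => (i : ℕ) ∈ S') (by
    rintro _ ⟨α, hα, rfl⟩ h0
    obtain ⟨s, rfl⟩ := key α hα fun q hq => h0 q fun hmem => hq (Finset.mem_filter.1 hmem).2
    exact psi_self hS hQ hθ (left_ne_zero_of_mul hα.ne))
  refine ⟨Jn S J, Jn_sub, fun q hq => ?_, sel_Jn hLOC hLOCC hG hsq h2 hirr hsm hf₁ hS hc hQ hθ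
    hsqp (d := 0) (by rw [pow_zero]; exact hJ)⟩
  rw [mem_Jn (hS' hq)]
  exact hIJ (Finset.mem_filter.2 ⟨Finset.mem_univ _, hq⟩)

/-- From pseudorandomness. -/
theorem sq_of_pr {S₀ T : Finset ℕ} (hG : IsGen 1 f θ) (hP : PrAt 1 f 𝔮 S₀ T (1 / 4))
    (hT : 1 ≤ T.card) (h : S' ⊆ S₀) {α : L} (hα : α ≠ 0) (hn : IsSquare (Algebra.norm F α))
    (hev : ∀ 𝔓 : HeightOneSpectrum (𝓞 L), (∀ q ∈ S', Ov (𝔮 q) 𝔓 → 𝔓.valuation L θ ≠ 1) → Ev 𝔓 α)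
    (hs : ∀ q ∈ T, ∀ 𝔓 : HeightOneSpectrum (𝓞 L), Ov (𝔮 q) 𝔓 → 𝔓.valuation L θ = 1 → Sq1 𝔓 α) :
    IsSquare α := by
  by_contra hns
  have h1 := hP L θ hG α hα hn hns (fun 𝔓 h𝔓 => hev 𝔓 fun q hq => h𝔓 q (h hq))
  rw [Finset.filter_true_of_mem hs] at h1
  have h3 : (1 : ℝ) ≤ T.card := by exact_mod_cast hT
  linarith

end

/-- Two disjoint sets `J₁`, `J₂`. -/
theorem two_sets (hREC : S_REC) (hEXQ : S_EXQ) (hLOC : S_LOC) (hLOCC : S_LOCC) (hGEN : S_GEN)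
    {F : Type} [Field F] [NumberField F] {W n₀ : ℕ} {T : ℕ → Finset ℕ} {𝔮 : ℕ → Ideal (𝓞 F)}
    {r P : ℕ → (𝓞 F)[X]} {f : (𝓞 F)[X]} (hS : GoodS 1 W ((Finset.range 3).biUnion T) 𝔮 r P)
    (hn : ∀ k < 3, n₀ ≤ (T k).card) (hn0 : 1 ≤ n₀)
    (hdj : ∀ i < 3, ∀ j < 3, i ≠ j → Disjoint (T i) (T j)) (hm : f.Monic)
    (hd : f.natDegree = 3) (h2 : f.coeff 2 = 0) (hirr : Irreducible (fF f)) (hsq : SqF 1 f)
    (hsm : Small W f) (hf₁ : ∃ f₁ : (𝓞 F)[X], GoodF 1 W f₁ ∧ Cg (sp F W) f f₁)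
    (hcon : ∀ q ∈ (Finset.range 3).biUnion T, Cg (sp F q) f (P q))
    (hP : ∀ k < 3, PrAt 1 f 𝔮 ((Finset.range k).biUnion T) (T k) (1 / 4)) :
    ∃ J₁ J₂ : Finset ℕ, J₁ ⊆ (Finset.range 3).biUnion T ∧ J₂ ⊆ (Finset.range 3).biUnion T ∧
      Disjoint J₁ J₂ ∧ n₀ ≤ J₂.card ∧
      SelCard (((f.coeff 1 : 𝓞 F) : F) * ((Dp J₁ : ℕ) : F) ^ 2)
        (((f.coeff 0 : 𝓞 F) : F) * ((Dp J₁ : ℕ) : F) ^ 3) 0 ∧
      SelCard (((f.coeff 1 : 𝓞 F) : F) * ((Dp J₂ : ℕ) : F) ^ 2)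
        (((f.coeff 0 : 𝓞 F) : F) * ((Dp J₂ : ℕ) : F) ^ 3) 0 := by
  obtain ⟨L, _, _, _, θ, hG⟩ := hGEN F 1 f hm hd hirr
  have hsub : ∀ k < 3, T k ⊆ (Finset.range 3).biUnion T := fun k hk q hq =>
    Finset.mem_biUnion.2 ⟨k, Finset.mem_range.2 hk, hq⟩
  have hS1 : GoodS 1 W (T 1) 𝔮 r P := fun q hq => hS q (hsub 1 (by norm_num) hq)
  have hc1 : ∀ q ∈ T 1, Cg (sp F q) f (P q) := fun q hq => hcon q (hsub 1 (by norm_num) hq)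
  have hsub02 : T 0 ∪ T 2 ⊆ (Finset.range 3).biUnion T :=
    Finset.union_subset (hsub 0 (by norm_num)) (hsub 2 (by norm_num))
  have hS2 : GoodS 1 W (T 0 ∪ T 2) 𝔮 r P := fun q hq => hS q (hsub02 hq)
  have hc2 : ∀ q ∈ T 0 ∪ T 2, Cg (sp F q) f (P q) := fun q hq => hcon q (hsub02 hq)
  obtain ⟨J₁, hJ₁, -, hs₁⟩ := sel_zero (S' := ∅) hREC hEXQ hLOC hLOCC hG hsq h2 hirr hsm hf₁ hS1 hc1
    (Finset.empty_subset _) (fun α h1 h3 h4 h5 => sq_of_pr (S' := ∅) hG (hP 1 (by norm_num))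
      (hn0.trans (hn 1 (by norm_num))) (Finset.empty_subset _) h1 h3 h4
      (fun q hq => h5 q hq (Finset.notMem_empty q)))
  obtain ⟨J₂, hJ₂, hJ₂', hs₂⟩ := sel_zero (S' := T 0) hREC hEXQ hLOC hLOCC hG hsq h2 hirr hsm hf₁
    hS2 hc2 Finset.subset_union_left (fun α h1 h3 h4 h5 => sq_of_pr (S' := T 0) hG
      (hP 2 (by norm_num)) (hn0.trans (hn 2 (by norm_num))) (fun q hq =>
        Finset.mem_biUnion.2 ⟨0, by norm_num, hq⟩) h1 h3 h4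
      (fun q hq => h5 q (Finset.mem_union_right _ hq)
        (Finset.disjoint_right.1 (hdj 0 (by norm_num) 2 (by norm_num) (by norm_num)) hq)))
  refine ⟨J₁, J₂, hJ₁.trans (hsub 1 (by norm_num)), hJ₂.trans hsub02, ?_,
    (hn 0 (by norm_num)).trans (Finset.card_le_card hJ₂'), hs₁, hs₂⟩
  rw [Finset.disjoint_left]
  intro q hq hq'
  rcases Finset.mem_union.1 (hJ₂ hq') with h | h
  · exact Finset.disjoint_left.1 (hdj 1 (by norm_num) 0 (by norm_num) (by norm_num)) (hJ₁ hq) h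
  · exact Finset.disjoint_left.1 (hdj 1 (by norm_num) 2 (by norm_num) (by norm_num)) (hJ₁ hq) h

end Pool.Agent.Run7.h245.SR
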