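import Pool.Agent.Run7.h245.SR.Jt
import Pool.Agent.Run7.h245.SR.Iface3
import Pool.Agent.Run7.h576.SR.PL
import Pool.Agent.N459.PF.Ram

/-!
# Project SR, second theorem: many classes over the quadratic extension
-/

set_option autoImplicit false
set_option linter.all false

open Polynomial IsDedekindDomain Matrix NumberField WithZero
open scoped Classical

namespace Pool.Agent.Run7.h245.SR

open Pool.Agent.N874.PP (Ev Sq1 U0 S_LIN)
open Pool.Agent.N783.PQ (LocIm)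
open Pool.Agent.N874.JM (LocF)
open Pool.Agent.N874.PM (PLoc)
open Pool.Agent.N783.PF

theorem ploc_map {M K E E' : Type} [Field M] [Field K] [Field E] [Field E'] [Algebra M E]
    [Algebra M K] [Algebra K E'] {A B : M} {h : M[X]} (j : E →+* E')
    (hj : ∀ x : M, j (algebraMap M E x) = algebraMap K E' (algebraMap M K x))
    (H : PLoc E A B h) :
    PLoc E' (algebraMap M K A) (algebraMap M K B) (h.map (algebraMap M K)) := by
  have e1 : (X ^ 3 + C (algebraMap M E A) * X + C (algebraMap M E B) : E[X]).map j =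
      X ^ 3 + C (algebraMap K E' (algebraMap M K A)) * X +
        C (algebraMap K E' (algebraMap M K B)) := by
    simp only [Polynomial.map_add, Polynomial.map_mul, Polynomial.map_pow, map_X, map_C, hj]
  have e2 : (h.map (algebraMap M E)).map j = (h.map (algebraMap M K)).map (algebraMap K E') := by
    rw [Polynomial.map_map, Polynomial.map_map]
    congr 1
    exact RingHom.ext hj
  rcases H with ⟨g, hg⟩ | ⟨x, y, hy, hxy, g, hg⟩
  · left
    refine ⟨g.map j, ?_⟩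
    have h1 := Polynomial.map_dvd j hg
    rw [e1, Polynomial.map_sub, Polynomial.map_pow, e2] at h1
    exact h1
  · right
    refine ⟨j x, j y, (map_ne_zero j).2 hy, ?_, g.map j, ?_⟩
    · have h1 := congrArg j hxy
      rw [map_add, map_add, map_mul, map_pow, map_pow, hj, hj] at h1
      exact h1
    · have h1 := Polynomial.map_dvd j hg
      rw [e1, Polynomial.map_sub, Polynomial.map_pow, Polynomial.map_mul, Polynomial.map_sub,
        map_C, map_X, e2] at h1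
      exact h1

section

variable {F L : Type} [Field F] [NumberField F] [Field L] [NumberField L] [Algebra F L]
  {f : (𝓞 F)[X]} {θ : L} {S : Finset ℕ} {𝔮 : ℕ → Ideal (𝓞 F)}
  {W : ℕ} {r P : ℕ → (𝓞 F)[X]} {D : ℕ} {h₀ : F[X]}

/-- The class is coprime to the polynomial of the twist and its norm is a square. -/
theorem cop_nrm (hG : IsGen 1 f θ) (h2 : f.coeff 2 = 0) (hD0 : D ≠ 0) (hne : aeval θ h₀ ≠ 0)
    (hnrm : IsSquare (Algebra.norm F (aeval θ h₀))) :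
    IsCoprime (h₀.comp (C ((D : F)⁻¹) * X)) (cb (((f.coeff 1 : 𝓞 F) : F) * (D : F) ^ 2)
      (((f.coeff 0 : 𝓞 F) : F) * (D : F) ^ 3)) ∧
    IsSquare (Algebra.norm F (AdjoinRoot.mk (cb (((f.coeff 1 : 𝓞 F) : F) * (D : F) ^ 2)
      (((f.coeff 0 : 𝓞 F) : F) * (D : F) ^ 3)) (h₀.comp (C ((D : F)⁻¹) * X)))) := by
  have hm := hG.mon
  have hd : f.natDegree = 3 := hG.deg
  have hirr : Irreducible (fF f) := irr_of_gen hG
  obtain ⟨k1, k2, k3, k4⟩ := sq_iff hG h2 hirr hD0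
  have hne' : aeval ((D : L) * θ) (h₀.comp (C ((D : F)⁻¹) * X)) ≠ 0 := by
    rw [comp_aeval θ hD0]
    exact hne
  refine ⟨?_, (k3 _).2 (by rw [comp_aeval θ hD0]; exact hnrm)⟩
  rw [isCoprime_comm, k1.coprime_iff_not_dvd, ← cb_scale hm hd h2]
  rintro ⟨t, ht⟩
  apply hne'
  have hroot : aeval ((D : L) * θ) (fF (f.scaleRoots (D : 𝓞 F))) = 0 := by
    have e1 := scaleRoots_eval₂_mul (p := fF f) (algebraMap F L) θ (D : F)
    have e2 : eval₂ (algebraMap F L) θ (fF f) = 0 := by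
      rw [← aeval_def]
      exact hG.root
    rw [e2, mul_zero, map_natCast] at e1
    rw [Pool.Agent.N170.PF.fF_scale hm, aeval_def]
    exact e1
  rw [ht, map_mul, hroot, zero_mul]

/-- The local condition of the twist at the places at which the class is even. -/
theorem ploc_w (hIRW : S_IRW) (hSCG : S_SCG) (hGOOD : S_GOOD) (hMULW : S_MULW)
    (hG : IsGen 1 f θ) (hsq : SqF 1 f) (h2 : f.coeff 2 = 0) (hsm : Small W f) (hD0 : D ≠ 0)
    (hne : aeval θ h₀ ≠ 0) (hnrm : IsSquare (Algebra.norm F (aeval θ h₀)))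
    (w : HeightOneSpectrum (𝓞 F))
    (hev : ∀ 𝔓 : HeightOneSpectrum (𝓞 L), Ov w.asIdeal 𝔓 → Ev 𝔓 (aeval θ h₀))
    (hwD : ((D : ℕ) : 𝓞 F) ∉ w.asIdeal)
    (htwo : (2 : 𝓞 F) ∈ w.asIdeal → ∃ s : (w.adicCompletion F)[X],
      (fF f).map (algebraMap F (w.adicCompletion F)) ∣
        h₀.map (algebraMap F (w.adicCompletion F)) - s ^ 2) :
    PLoc (w.adicCompletion F) (((f.coeff 1 : 𝓞 F) : F) * (D : F) ^ 2)
      (((f.coeff 0 : 𝓞 F) : F) * (D : F) ^ 3) (h₀.comp (C ((D : F)⁻¹) * X)) := by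
  have hm := hG.mon
  have hd : f.natDegree = 3 := hG.deg
  have hirr : Irreducible (fF f) := irr_of_gen hG
  have hDF : (D : F) ≠ 0 := Nat.cast_ne_zero.2 hD0
  have hcA := fF_cub hm hd h2
  have hnr : IsSquare (Algebra.norm F (aeval ((D : L) * θ)
      (h₀.comp (C ((D : F)⁻¹) * X)))) := by
    rw [comp_aeval θ hD0]
    exact hnrm
  have hne' : aeval ((D : L) * θ) (h₀.comp (C ((D : F)⁻¹) * X)) ≠ 0 := by
    rw [comp_aeval θ hD0]
    exact hne
  by_cases hw2 : (2 : 𝓞 F) ∈ w.asIdeal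
  · refine ploc_sq hDF ?_
    rw [← hcA]
    exact htwo hw2
  · by_cases hw6 : (6 : 𝓞 F) ∈ w.asIdeal
    · -- over 3
      have hi := hsm.irr w hw6
      refine ploc_sq hDF ?_
      rw [← hcA]
      exact hIRW 1 F L f θ le_rfl hG w hw2 hi h₀ hne hnrm hev
    · obtain ⟨s1, s2, s3, s4, ⟨ε, hε, hdε⟩, s5, s6⟩ := hSCG F L f θ D hG h2 hD0
      have hev' : ∀ 𝔓 : HeightOneSpectrum (𝓞 L), Ov w.asIdeal 𝔓 →
          Ev 𝔓 (aeval ((D : L) * θ) (h₀.comp (C ((D : F)⁻¹) * X))) := by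
        intro 𝔓 hO
        rw [comp_aeval θ hD0]
        exact hev 𝔓 hO
      have e1 : (((f.scaleRoots (D : 𝓞 F)).coeff 1 : 𝓞 F) : F) =
          ((f.coeff 1 : 𝓞 F) : F) * (D : F) ^ 2 := by
        rw [s3]
        exact (map_mul (algebraMap (𝓞 F) F) _ _).trans (by rw [map_pow, map_natCast])
      have e0 : (((f.scaleRoots (D : 𝓞 F)).coeff 0 : 𝓞 F) : F) =
          ((f.coeff 0 : 𝓞 F) : F) * (D : F) ^ 3 := by
        rw [s4]
        exact (map_mul (algebraMap (𝓞 F) F) _ _).trans (by rw [map_pow, map_natCast])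
      rw [← e1, ← e0]
      by_cases hdw : dsc 1 f ∈ w.asIdeal
      · refine hMULW F L _ _ s1 s2 w hw6 ?_ ?_ ?_ _ hne' hnr hev'
        · refine card_seven w fun p hp hp7 hpw => ?_
          have h1 := hsm.p p hp hp7
          obtain ⟨t, ht⟩ := h1
          refine hsm.sep w ?_ hdw
          rw [ht, Nat.cast_mul]
          exact Ideal.mul_mem_right _ _ hpw
        · rw [s5]
          exact Ideal.mul_mem_left _ _ hdw
        · rw [s5]
          intro hcon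
          have h1 : ((D : 𝓞 F) ^ 6) ∉ w.asIdeal := fun h3 =>
            hwD (w.isPrime.mem_of_pow_mem _ h3)
          have h3 := (Ideal.IsPrime.mul_mem_pow _ hcon).resolve_left h1
          exact hsq w.asIdeal w.isPrime w.ne_bot h3
      · exact hGOOD F L _ _ s1 s2 w hw6 (s6 w hwD hw6 hdw) _ hne' hnr hev'

theorem dp_union {J₁ J₂ : Finset ℕ} (h : Disjoint J₁ J₂) : Dp J₁ * Dp J₂ = Dp (J₁ ∪ J₂) := by
  unfold Dp
  rw [Finset.prod_union h]

theorem dp_sq {J : Finset ℕ} (hJ : ∀ q ∈ J, q.Prime) {q : ℕ} (hq : q ∈ J) :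
    q ∣ Dp J ∧ ¬ q ^ 2 ∣ Dp J := by
  refine ⟨Finset.dvd_prod_of_mem _ hq, fun h => ?_⟩
  have hDD : Dp J = q * Dp (J.erase q) := by
    rw [Dp, Dp, Finset.mul_prod_erase _ (fun x => x) hq]
  rw [hDD, pow_two] at h
  have h1 : q ∣ Dp (J.erase q) := Nat.dvd_of_mul_dvd_mul_left (hJ q hq).pos h
  rw [Dp, (hJ q hq).prime.dvd_finsetProd_iff] at h1
  obtain ⟨q', hq', hdv⟩ := h1
  rw [Finset.mem_erase] at hq'
  exact hq'.1 ((Nat.prime_dvd_prime_iff_eq (hJ q hq) (hJ q' hq'.2)).1 hdv).symm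

/-- The classes over the quadratic extension. -/
theorem selH_K (hIRW : S_IRW) (hSCG : S_SCG) (hGOOD : S_GOOD) (hMULW : S_MULW) (hRAMK : S_RAMK)
    (hMAPC : S_MAPC) {K : Type} [Field K] [NumberField K] [Algebra F K]
    (hG : IsGen 1 f θ) (hsq : SqF 1 f) (h2 : f.coeff 2 = 0) (hsm : Small W f)
    (hS : GoodS 1 W S 𝔮 r P) (hc : ∀ q ∈ S, Cg (sp F q) f (P q)) {J₁ J₂ : Finset ℕ}
    (hJ₁ : J₁ ⊆ S) (hJ₂ : J₂ ⊆ S) (hdj : Disjoint J₁ J₂) (hrk : Module.finrank F K = 2) {δ : K}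
    (hδ : δ ^ 2 = ((Dp J₁ * Dp J₂ : ℕ) : K)) (hne : aeval θ h₀ ≠ 0)
    (hnrm : IsSquare (Algebra.norm F (aeval θ h₀)))
    (hev : ∀ 𝔓 : HeightOneSpectrum (𝓞 L), (∀ q ∈ J₁ ∪ J₂, Ov (𝔮 q) 𝔓 → 𝔓.valuation L θ ≠ 1) →
      Ev 𝔓 (aeval θ h₀))
    (htwo : ∀ w : HeightOneSpectrum (𝓞 F), (2 : 𝓞 F) ∈ w.asIdeal →
      ∃ s : (w.adicCompletion F)[X], (fF f).map (algebraMap F (w.adicCompletion F)) ∣
        h₀.map (algebraMap F (w.adicCompletion F)) - s ^ 2)
    (hreal : ∀ σ : F →+* ℝ, ∃ s : ℝ[X], (fF f).map σ ∣ h₀.map σ - s ^ 2) :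
    SelH (algebraMap F K (((f.coeff 1 : 𝓞 F) : F) * ((Dp J₁ : ℕ) : F) ^ 2))
      (algebraMap F K (((f.coeff 0 : 𝓞 F) : F) * ((Dp J₁ : ℕ) : F) ^ 3))
      ((h₀.comp (C (((Dp J₁ : ℕ) : F)⁻¹) * X)).map (algebraMap F K)) := by
  have hm := hG.mon
  have hd : f.natDegree = 3 := hG.deg
  have hcA := fF_cub hm hd h2
  have hqp₁ : ∀ q ∈ J₁, q.Prime := fun q hq => (hS q (hJ₁ hq)).1
  have hqp₂ : ∀ q ∈ J₂, q.Prime := fun q hq => (hS q (hJ₂ hq)).1
  have hqp : ∀ q ∈ J₁ ∪ J₂, q.Prime := fun q hq =>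
    (Finset.mem_union.1 hq).elim (hqp₁ q) (hqp₂ q)
  have hJS : J₁ ∪ J₂ ⊆ S := Finset.union_subset hJ₁ hJ₂
  have hD1 : Dp J₁ ≠ 0 := by
    rw [Dp, Finset.prod_ne_zero_iff]
    exact fun q hq => (hqp₁ q hq).ne_zero
  have hD2 : Dp J₂ ≠ 0 := by
    rw [Dp, Finset.prod_ne_zero_iff]
    exact fun q hq => (hqp₂ q hq).ne_zero
  obtain ⟨c1, c2⟩ := cop_nrm hG h2 hD1 hne hnrm
  have hcbK : (cb (((f.coeff 1 : 𝓞 F) : F) * ((Dp J₁ : ℕ) : F) ^ 2)
      (((f.coeff 0 : 𝓞 F) : F) * ((Dp J₁ : ℕ) : F) ^ 3)).map (algebraMap F K) =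
      cb (algebraMap F K (((f.coeff 1 : 𝓞 F) : F) * ((Dp J₁ : ℕ) : F) ^ 2))
        (algebraMap F K (((f.coeff 0 : 𝓞 F) : F) * ((Dp J₁ : ℕ) : F) ^ 3)) := cb_map _ _
  refine ⟨?_, ?_, fun v => ?_, fun σ => ?_⟩
  · rw [← hcbK]
    exact c1.map (mapRingHom (algebraMap F K))
  · rw [← hcbK, Run7.h576.SR.PL.norm_bc (algebraMap F K) (cb_monic _ _).ne_zero]
    exact c2.map (algebraMap F K)
  · obtain ⟨w, hwv, hwi, -⟩ := Pool.Agent.N459.PF.lie F K v
    by_cases hex : ∃ q ∈ J₁ ∪ J₂, (q : 𝓞 F) ∈ w.asIdeal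
    · obtain ⟨q, hq, hqw⟩ := hex
      obtain ⟨g1, g2⟩ := dp_sq hqp hq
      have hqv : (q : 𝓞 K) ∈ v.asIdeal := by
        have h5 := hwv _ hqw
        rw [map_natCast] at h5
        exact h5
      refine hRAMK F K L f θ W S 𝔮 r P (Dp J₁) (Dp J₂) δ hG hsq h2 hS hc hrk hD1 hD2 hδ h₀ hne
        hnrm q (hJS hq) ?_ ?_ v hqv
      · rw [dp_union hdj]; exact g1
      · rw [dp_union hdj]; exact g2
    · push Not at hex
      have hw := ploc_w hIRW hSCG hGOOD hMULW hG hsq h2 hsm hD1 hne hnrm w (fun 𝔓 hO => ?_) ?_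
        (htwo w)
      · obtain ⟨j, hj, -⟩ := hMAPC F K w v hwv
        exact ploc_map j hj hw
      · refine hev 𝔓 fun q hq hOq _ => ?_
        exact hex q hq (mem_of_ov hO (ov_nat hS (hJS hq) hOq))
      · intro hcon
        have h1 : ((Dp J₁ : ℕ) : 𝓞 F) = ∏ q ∈ J₁, (q : 𝓞 F) := by
          rw [Dp, Nat.cast_prod]
        rw [h1] at hcon
        haveI := w.isPrime
        obtain ⟨q, hq, hqw⟩ := (Ideal.IsPrime.prod_mem_iff).1 hcon
        exact hex q (Finset.mem_union_left _ hq) hqw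
  · obtain ⟨s, hs⟩ := hreal (σ.comp (algebraMap F K))
    letI := σ.toAlgebra
    letI := (σ.comp (algebraMap F K)).toAlgebra
    have h1 : PLoc ℝ (((f.coeff 1 : 𝓞 F) : F) * ((Dp J₁ : ℕ) : F) ^ 2)
        (((f.coeff 0 : 𝓞 F) : F) * ((Dp J₁ : ℕ) : F) ^ 3)
        (h₀.comp (C (((Dp J₁ : ℕ) : F)⁻¹) * X)) := by
      refine ploc_sq (Nat.cast_ne_zero.2 hD1) ⟨s, ?_⟩
      rw [← hcA]
      exact hs
    exact ploc_map (RingHom.id ℝ) (fun x => rfl) h1

/-- Different classes remain different over the quadratic extension. -/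
theorem ineq_K (hLOWI : S_LOWI) {K : Type} [Field K] [NumberField K] [Algebra F K]
    (hG : IsGen 1 f θ) (h2 : f.coeff 2 = 0) (hD0 : D ≠ 0) {D' : ℕ}
    (hrk : Module.finrank F K = 2) {δ : K} (hδ : δ ^ 2 = (D' : K)) (hns : ¬ IsSquare (D' : F))
    {h h' : F[X]} (hne : aeval θ h ≠ 0) (hne' : aeval θ h' ≠ 0)
    (hn : IsSquare (Algebra.norm F (aeval θ h))) (hn' : IsSquare (Algebra.norm F (aeval θ h')))
    (H : ∃ s : K[X], cb (algebraMap F K (((f.coeff 1 : 𝓞 F) : F) * (D : F) ^ 2))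
        (algebraMap F K (((f.coeff 0 : 𝓞 F) : F) * (D : F) ^ 3)) ∣
      (h.comp (C ((D : F)⁻¹) * X)).map (algebraMap F K) *
        (h'.comp (C ((D : F)⁻¹) * X)).map (algebraMap F K) - s ^ 2) :
    IsSquare (aeval θ h * aeval θ h') := by
  obtain ⟨s, hs⟩ := H
  have hd : f.natDegree = 3 := hG.deg
  have hDK : (D : K) ≠ 0 := Nat.cast_ne_zero.2 hD0
  have hDF : (D : F) ≠ 0 := Nat.cast_ne_zero.2 hD0
  have e1 : algebraMap F K (((f.coeff 1 : 𝓞 F) : F) * (D : F) ^ 2) =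
      algebraMap F K ((f.coeff 1 : 𝓞 F) : F) * (D : K) ^ 2 := by
    rw [map_mul, map_pow, map_natCast]
  have e0 : algebraMap F K (((f.coeff 0 : 𝓞 F) : F) * (D : F) ^ 3) =
      algebraMap F K ((f.coeff 0 : 𝓞 F) : F) * (D : K) ^ 3 := by
    rw [map_mul, map_pow, map_natCast]
  rw [e1, e0] at hs
  have h3 := dvd_comp hDK hs
  have key : ∀ p : F[X], ((p.comp (C ((D : F)⁻¹) * X)).map (algebraMap F K)).comp (C (D : K) * X) =
      p.map (algebraMap F K) := by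
    intro p
    have e : (C (D : K) * X : K[X]) = (C (D : F) * X : F[X]).map (algebraMap F K) := by
      rw [Polynomial.map_mul, map_X, map_C, map_natCast (algebraMap F K)]
    rw [e, ← Polynomial.map_comp, comp_comp_inv hDF]
  rw [sub_comp, mul_comp, pow_comp, key, key] at h3
  have h4 := hLOWI F K L f θ D' δ hG hrk hδ hns (h * h') (by
    rw [map_mul]
    exact mul_ne_zero hne hne') (by
    rw [map_mul, map_mul]
    exact hn.mul hn') ⟨s.comp (C (D : K) * X), by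
      rw [fF_cub hG.mon hd h2, cb_map, Polynomial.map_mul]
      exact h3⟩
  rw [map_mul] at h4
  exact h4

end

end Pool.Agent.Run7.h245.SR
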