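import Pool.Agent.Run7.h245.SR.Kcl
import Pool.Agent.Run7.h245.SR.Gen

/-!
# Project SR, second theorem: the property of the curves
-/

set_option autoImplicit false
set_option linter.all false

open Polynomial IsDedekindDomain Matrix NumberField WithZero
open scoped Classical

namespace Pool.Agent.Run7.h245.SR

open Pool.Agent.N874.PP (Ev Sq1 U0 S_LIN sW)
open Pool.Agent.N783.PQ (LocIm)
open Pool.Agent.N874.JM (LocF)
open Pool.Agent.N874.PM (PLoc)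
open Pool.Agent.N874.QM (SelC ShaC IsLoc)
open Pool.Agent.N783.PF
open Pool.Agent.TH115.GD (Pt act rs IsCoc LocTriv Comp Sep)

/-- Products of different primes are not squares. -/
theorem not_sq {F : Type} [Field F] [NumberField F] {W : ℕ} {S J : Finset ℕ}
    {𝔮 : ℕ → Ideal (𝓞 F)} {r P : ℕ → (𝓞 F)[X]} (hS : GoodS 1 W S 𝔮 r P) (hJ : J ⊆ S)
    (hne : J.Nonempty) : ¬ IsSquare ((Dp J : ℕ) : F) := by
  rintro ⟨s, hs⟩
  obtain ⟨q, hq⟩ := hne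
  obtain ⟨hqp, -, -, -, hunr, hpr, hmem, -⟩ := hS q (hJ hq)
  have hint : IsIntegral ℤ s := by
    refine IsIntegral.of_pow (n := 2) (by norm_num) ?_
    rw [pow_two, ← hs]
    have h0 := isIntegral_algebraMap (R := ℤ) (A := F) (x := ((Dp J : ℕ) : ℤ))
    rwa [map_natCast] at h0
  obtain ⟨t, ht⟩ : ∃ t : 𝓞 F, algebraMap (𝓞 F) F t = s := ⟨⟨s, hint⟩, rfl⟩
  have h1 : ((Dp J : ℕ) : 𝓞 F) = t * t := by
    apply FaithfulSMul.algebraMap_injective (𝓞 F) F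
    rw [map_mul, ht, map_natCast]
    exact hs
  have hDD : Dp J = q * Dp (J.erase q) := by
    rw [Dp, Dp, Finset.mul_prod_erase _ (fun x => x) hq]
  have hbot : 𝔮 q ≠ ⊥ := by
    intro h0
    rw [h0, Ideal.mem_bot] at hmem
    exact hqp.ne_zero (by exact_mod_cast hmem)
  haveI := hpr
  have h2 : t * t ∈ 𝔮 q := by
    rw [← h1, hDD, Nat.cast_mul]
    exact Ideal.mul_mem_right _ _ hmem
  have h3 : t ∈ 𝔮 q := (hpr.mem_or_mem h2).elim id id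
  have h4 : ((Dp (J.erase q) : ℕ) : 𝓞 F) * (q : 𝓞 F) ∈ 𝔮 q ^ 2 := by
    rw [mul_comm, ← Nat.cast_mul, ← hDD, h1, pow_two]
    exact Ideal.mul_mem_mul h3 h3
  have h5 : ((Dp (J.erase q) : ℕ) : 𝓞 F) ∉ 𝔮 q := by
    intro hcon
    have e : ((Dp (J.erase q) : ℕ) : 𝓞 F) = ∏ x ∈ J.erase q, (x : 𝓞 F) := by
      rw [Dp, Nat.cast_prod]
    rw [e] at hcon
    obtain ⟨q', hq', hqw⟩ := (Ideal.IsPrime.prod_mem_iff).1 hcon
    rw [Finset.mem_erase] at hq'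
    exact hq'.1 (nat_uniq (L := F) (𝔓 := ⟨𝔮 q, hpr, hbot⟩) (hS q' (hJ hq'.2)).1 hqp hqw hmem)
  exact hunr _ hpr ((Ideal.IsPrime.mul_mem_pow _ h4).resolve_left h5)

/-- The property of the curve `y ^ 2 = x ^ 3 + A x + B` over `F`. -/
structure QJ {F : Type} [Field F] [NumberField F] (N D₀ : ℕ) (A B : F) : Prop where
  sel : SelCard A B 0
  tw : ∃ D : ℕ, D ≤ D₀ ∧ ¬ IsSquare (D : F) ∧ SelCard (A * (D : F) ^ 2) (B * (D : F) ^ 3) 0 ∧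
    ∀ (K : Type) [Field K] [NumberField K] [Algebra F K] (δ : K), Module.finrank F K = 2 →
      δ ^ 2 = (D : K) → ∃ H : Fin (2 ^ N) → K[X],
        (∀ i, SelH (algebraMap F K A) (algebraMap F K B) (H i)) ∧
        ∀ i j, i ≠ j → ¬ ∃ s : K[X], cb (algebraMap F K A) (algebraMap F K B) ∣
          H i * H j - s ^ 2

theorem qj_scale {F : Type} [Field F] [NumberField F] (N : ℕ) (D₀ : ℕ) (A B v : F) (hv : v ≠ 0)
    (h : QJ N D₀ A B) : QJ N D₀ (A * (v ^ 2) ^ 2) (B * (v ^ 2) ^ 3) := by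
  obtain ⟨h1, D, h2, h3, h4, h5⟩ := h
  refine ⟨selCard_scale hv h1, D, h2, h3, ?_, ?_⟩
  · have h6 := selCard_scale hv h4
    have e1 : A * (v ^ 2) ^ 2 * (D : F) ^ 2 = A * (D : F) ^ 2 * (v ^ 2) ^ 2 := by ring
    have e2 : B * (v ^ 2) ^ 3 * (D : F) ^ 3 = B * (D : F) ^ 3 * (v ^ 2) ^ 3 := by ring
    rw [e1, e2]
    exact h6
  · intro K _ _ _ δ hrk hδ
    obtain ⟨H, g1, g2⟩ := h5 K δ hrk hδ
    have hvK : algebraMap F K v ≠ 0 := (_root_.map_ne_zero _).2 hv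
    have e1 : algebraMap F K (A * (v ^ 2) ^ 2) = algebraMap F K A * ((algebraMap F K v) ^ 2) ^ 2 := by
      rw [map_mul, map_pow, map_pow]
    have e2 : algebraMap F K (B * (v ^ 2) ^ 3) = algebraMap F K B * ((algebraMap F K v) ^ 2) ^ 3 := by
      rw [map_mul, map_pow, map_pow]
    rw [e1, e2]
    refine ⟨fun i => (H i).comp (C ((algebraMap F K v) ^ 2)⁻¹ * X),
      fun i => selH_scale hvK (g1 i), ?_⟩
    rintro i j hij ⟨s, hs⟩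
    refine g2 i j hij ⟨s.comp (C ((algebraMap F K v) ^ 2) * X), ?_⟩
    have h4 := dvd_comp (A := algebraMap F K A) (B := algebraMap F K B) (pow_ne_zero 2 hvK) hs
    rw [sub_comp, mul_comp, pow_comp, comp_comp_inv (pow_ne_zero 2 hvK),
      comp_comp_inv (pow_ne_zero 2 hvK)] at h4
    exact h4

/-- The classes over `K`. -/
theorem many_K (hUNI : S_UNI) (hIRW : S_IRW) (hSCG : S_SCG) (hGOOD : S_GOOD) (hMULW : S_MULW)
    (hRAMK : S_RAMK) (hMAPC : S_MAPC) (hLOWI : S_LOWI) (hGEN : S_GEN) (F : Type) [Field F]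
    [NumberField F] (N : ℕ) : ∃ n₀ : ℕ, ∀ {W : ℕ} {S : Finset ℕ} {𝔮 : ℕ → Ideal (𝓞 F)}
    {r P : ℕ → (𝓞 F)[X]} {f : (𝓞 F)[X]} (hS : GoodS 1 W S 𝔮 r P) (hm : f.Monic)
    (hd : f.natDegree = 3) (h2 : f.coeff 2 = 0) (hirr : Irreducible (fF f)) (hsq : SqF 1 f)
    (hsm : Small W f) (hcon : ∀ q ∈ S, Cg (sp F q) f (P q)) {J₁ J₂ : Finset ℕ} (hJ₁ : J₁ ⊆ S)
    (hJ₂ : J₂ ⊆ S) (hdj : Disjoint J₁ J₂) (hcard : n₀ ≤ J₂.card)
    (hns : ¬ IsSquare ((Dp J₁ * Dp J₂ : ℕ) : F)),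
    ∀ (K : Type) [Field K] [NumberField K] [Algebra F K] (δ : K), Module.finrank F K = 2 →
      δ ^ 2 = ((Dp J₁ * Dp J₂ : ℕ) : K) → ∃ H : Fin (2 ^ N) → K[X],
        (∀ i, SelH (algebraMap F K (((f.coeff 1 : 𝓞 F) : F) * ((Dp J₁ : ℕ) : F) ^ 2))
          (algebraMap F K (((f.coeff 0 : 𝓞 F) : F) * ((Dp J₁ : ℕ) : F) ^ 3)) (H i)) ∧
        ∀ i j, i ≠ j → ¬ ∃ s : K[X],
          cb (algebraMap F K (((f.coeff 1 : 𝓞 F) : F) * ((Dp J₁ : ℕ) : F) ^ 2))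
            (algebraMap F K (((f.coeff 0 : 𝓞 F) : F) * ((Dp J₁ : ℕ) : F) ^ 3)) ∣
          H i * H j - s ^ 2 := by
  obtain ⟨c, hc⟩ := hUNI F
  refine ⟨N + c, ?_⟩
  intro W S 𝔮 r P f hS hm hd h2 hirr hsq hsm hcon J₁ J₂ hJ₁ hJ₂ hdj hcard hns K _ _ _ δ hrk hδ
  obtain ⟨L, _, _, _, θ, hG⟩ := hGEN F 1 f hm hd hirr
  have hJS : J₁ ∪ J₂ ⊆ S := Finset.union_subset hJ₁ hJ₂
  have hSJ : GoodS 1 W (J₁ ∪ J₂) 𝔮 r P := fun q hq => hS q (hJS hq)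
  have hD1 : Dp J₁ ≠ 0 := by
    rw [Dp, Finset.prod_ne_zero_iff]
    exact fun q hq => (hS q (hJ₁ hq)).1.ne_zero
  obtain ⟨X, hX1, hX2, hX3⟩ := hc L f θ W (J₁ ∪ J₂) 𝔮 r P hG hsq h2 (fun w hw => by
    have h6 : (6 : 𝓞 F) ∈ w.asIdeal := by
      have e : (6 : 𝓞 F) = 3 * 2 := by norm_num
      rw [e]
      exact Ideal.mul_mem_left _ _ hw
    have hi := hsm.irr w h6
    haveI hmax : w.asIdeal.IsMaximal := w.isPrime.isMaximal w.ne_bot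
    haveI hfin : Finite (𝓞 F ⧸ w.asIdeal) := Ideal.finiteQuotientOfFreeOfNeBot _ w.ne_bot
    letI : Field (𝓞 F ⧸ w.asIdeal) := Ideal.Quotient.field _
    exact PerfectField.separable_of_irreducible hi) hSJ
    (fun q hq => cg_sp hS hcon q (hJS hq))
  have hXc : 2 ^ N ≤ X.card := by
    have h1 : N + c ≤ (J₁ ∪ J₂).card :=
      hcard.trans (Finset.card_le_card Finset.subset_union_right)
    have h3 : 2 ^ c * 2 ^ N ≤ 2 ^ c * X.card := by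
      refine le_trans ?_ hX1
      rw [← pow_add]
      exact Nat.pow_le_pow_right (by norm_num) (by omega)
    exact Nat.le_of_mul_le_mul_left h3 (by positivity)
  obtain ⟨e⟩ : Nonempty (Fin (2 ^ N) ↪ X) :=
    Function.Embedding.nonempty_of_card_le (by rw [Fintype.card_fin, Fintype.card_coe]; exact hXc)
  have hh : ∀ x : X, ∃ h₀ : F[X], aeval θ h₀ = (x : L) ∧
        (∀ w : HeightOneSpectrum (𝓞 F), (2 : 𝓞 F) ∈ w.asIdeal →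
          ∃ s : (w.adicCompletion F)[X], (fF f).map (algebraMap F (w.adicCompletion F)) ∣
            h₀.map (algebraMap F (w.adicCompletion F)) - s ^ 2) ∧
        ∀ σ : F →+* ℝ, ∃ s : ℝ[X], (fF f).map σ ∣ h₀.map σ - s ^ 2 := fun x =>
    (hX3 x x.2).2.2.2
  choose p hp1 hp2 hp3 using hh
  have hne : ∀ x : X, aeval θ (p x) ≠ 0 := fun x => by rw [hp1]; exact (hX3 x x.2).1
  have hnr : ∀ x : X, IsSquare (Algebra.norm F (aeval θ (p x))) := fun x => by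
    rw [hp1]; exact (hX3 x x.2).2.1
  refine ⟨fun i => ((p (e i)).comp (C (((Dp J₁ : ℕ) : F)⁻¹) * Polynomial.X)).map (algebraMap F K),
    fun i => ?_, fun i j hij hs => ?_⟩
  · exact selH_K hIRW hSCG hGOOD hMULW hRAMK hMAPC hG hsq h2 hsm hS hcon hJ₁ hJ₂ hdj hrk hδ
      (hne _) (hnr _) (fun 𝔓 h𝔓 => by rw [hp1]; exact (hX3 _ (e i).2).2.2.1 𝔓 h𝔓) (hp2 _) (hp3 _)
  · have h5 := ineq_K hLOWI hG h2 hD1 hrk hδ hns (hne (e i)) (hne (e j)) (hnr _) (hnr _) hs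
    rw [hp1, hp1] at h5
    exact hX2 _ (e i).2 _ (e j).2 (fun h => hij (e.injective (Subtype.ext h))) h5

/-- A positive proportion of all curves has the property. -/
theorem findJ (hPRX : S_PRX) (hLEVB : S_LEVB) (hHTU : S_HTU) (hREC : S_REC) (hEXQ : S_EXQ)
    (hLOC : S_LOC) (hLOCC : S_LOCC) (hUNI : S_UNI) (hIRW : S_IRW) (hSCG : S_SCG) (hGOOD : S_GOOD)
    (hMULW : S_MULW) (hRAMK : S_RAMK) (hMAPC : S_MAPC) (hLOWI : S_LOWI) (hGEN : S_GEN)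
    (F : Type) [Field F] [NumberField F] (N : ℕ) :
    ∃ D₀ : ℕ, ∃ c : ℝ, 0 < c ∧ ∃ X₀ : ℝ, ∀ X : ℝ,
    {p : 𝓞 F × 𝓞 F | 4 * p.1 ^ 3 + 27 * p.2 ^ 2 ≠ 0 ∧ HnX X p}.Finite ∧ (X₀ ≤ X →
      0 < {p : 𝓞 F × 𝓞 F | 4 * p.1 ^ 3 + 27 * p.2 ^ 2 ≠ 0 ∧ HnX X p}.ncard ∧
      c * ({p : 𝓞 F × 𝓞 F | 4 * p.1 ^ 3 + 27 * p.2 ^ 2 ≠ 0 ∧ HnX X p}.ncard : ℝ) ≤
        ({p : 𝓞 F × 𝓞 F | (4 * p.1 ^ 3 + 27 * p.2 ^ 2 ≠ 0 ∧ HnX X p) ∧
          QG (QJ N D₀) p}.ncard : ℝ)) := by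
  obtain ⟨n₀, hn₀⟩ := many_K hUNI hIRW hSCG hGOOD hMULW hRAMK hMAPC hLOWI hGEN F N
  refine findg hPRX hLEVB hHTU F 3 (max n₀ 1) (1 / 4) (by norm_num) (fun D₀ => QJ N D₀)
    (fun D₀ A B v hv h => qj_scale N D₀ A B v hv h) ?_
  intro W T 𝔮 r P f hS hn hdj hm hd h2 hirr hsq hsm hf₁ hcon hP
  obtain ⟨J₁, J₂, hJ₁, hJ₂, hd12, hcard, hs₁, hs₂⟩ := two_sets hREC hEXQ hLOC hLOCC hGEN hS hn
    (le_max_right _ _) hdj hm hd h2 hirr hsq hsm hf₁ hcon hP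
  have hq1 : ∀ q ∈ (Finset.range 3).biUnion T, 1 ≤ q := fun q hq => (hS q hq).1.pos
  have hDle : ∀ J ⊆ (Finset.range 3).biUnion T, Dp J ≤ ∏ q ∈ (Finset.range 3).biUnion T, q :=
    fun J hJ => Finset.prod_le_prod_of_subset_of_one_le' hJ fun q hq _ => hq1 q hq
  have hD0 : ∀ J ⊆ (Finset.range 3).biUnion T, Dp J ≠ 0 := fun J hJ =>
    (Finset.prod_pos fun q hq => hq1 q (hJ hq)).ne'
  have hns : ¬ IsSquare ((Dp J₁ * Dp J₂ : ℕ) : F) := by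
    rw [dp_union hd12]
    refine not_sq hS (Finset.union_subset hJ₁ hJ₂) ?_
    have h1 : 1 ≤ J₂.card := (le_max_right _ _).trans hcard
    obtain ⟨q, hq⟩ := Finset.card_pos.1 h1
    exact ⟨q, Finset.mem_union_right _ hq⟩
  refine ⟨J₁, hJ₁, hs₁, Dp J₁ * Dp J₂, Nat.mul_le_mul (hDle _ hJ₁) (hDle _ hJ₂), hns, ?_, ?_⟩
  · have h1 := selCard_scale (u := ((Dp J₁ : ℕ) : F)) (Nat.cast_ne_zero.2 (hD0 J₁ hJ₁)) hs₂
    have e1 : ((f.coeff 1 : 𝓞 F) : F) * ((Dp J₁ : ℕ) : F) ^ 2 *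
        ((Dp J₁ * Dp J₂ : ℕ) : F) ^ 2 =
        ((f.coeff 1 : 𝓞 F) : F) * ((Dp J₂ : ℕ) : F) ^ 2 * (((Dp J₁ : ℕ) : F) ^ 2) ^ 2 := by
      push_cast
      ring
    have e0 : ((f.coeff 0 : 𝓞 F) : F) * ((Dp J₁ : ℕ) : F) ^ 3 *
        ((Dp J₁ * Dp J₂ : ℕ) : F) ^ 3 =
        ((f.coeff 0 : 𝓞 F) : F) * ((Dp J₂ : ℕ) : F) ^ 3 * (((Dp J₁ : ℕ) : F) ^ 2) ^ 3 := by
      push_cast
      ring
    rw [e1, e0]
    exact h1
  · intro K _ _ _ δ hrk hδ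
    exact hn₀ hS hm hd h2 hirr hsq hsm hcon hJ₁ hJ₂ hd12 ((le_max_left _ _).trans hcard) hns K δ
      hrk hδ

end Pool.Agent.Run7.h245.SR
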