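import Pool.Agent.Run7.h245.SR.Alg
import Pool.Agent.Run7.h245.NF.Rt

/-!
# Project SR: the classes belong to the 2-Selmer group of the twist (part LOCC)
-/

set_option autoImplicit false
set_option linter.all false

open Polynomial IsDedekindDomain Matrix NumberField WithZero
open scoped Classical

namespace Pool.Agent.Run7.h245.SR

open Pool.Agent.N874.PP (Ev Sq1 U0 S_LIN)
open Pool.Agent.N783.PQ (LocIm)
open Pool.Agent.N874.JM (LocF)
open Pool.Agent.N874.PM (PLoc)
open Pool.Agent.N783.PF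
open Pool.Agent.N61.PF (pol pol_natDegree pol_monic pol_coeff0 pol_coeff1 pol_coeff2)
open Pool.Agent.Run7.h245.NF (io noroot_of_irr)

section

variable {F L : Type} [Field F] [NumberField F] [Field L] [NumberField L] [Algebra F L]

theorem eq_pol' {f : (𝓞 F)[X]} (hm : f.Monic) (hd : f.natDegree = 3) (h2 : f.coeff 2 = 0) :
    f = pol (f.coeff 1) (f.coeff 0) := by
  have h3 : f.coeff 3 = 1 := by
    have := hm.coeff_natDegree
    rwa [hd] at this
  refine Polynomial.ext fun n => ?_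
  rcases lt_or_ge n 4 with hn | hn
  · interval_cases n
    · rw [pol_coeff0]
    · rw [pol_coeff1]
    · rw [pol_coeff2, h2]
    · rw [h3]
      have := (pol_monic (f.coeff 1) (f.coeff 0)).coeff_natDegree
      rw [pol_natDegree] at this
      exact this.symm
  · rw [coeff_eq_zero_of_natDegree_lt (by omega), coeff_eq_zero_of_natDegree_lt (by rw [pol_natDegree]; omega)]

theorem cb_map {K E : Type} [Field K] [Field E] [Algebra K E] (A B : K) :
    (cb A B).map (algebraMap K E) = cb (algebraMap K E A) (algebraMap K E B) := by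
  simp only [cb, Polynomial.map_add, Polynomial.map_mul, Polynomial.map_pow, Polynomial.map_X,
    Polynomial.map_C]

theorem cb_monic {K : Type} [Field K] (A B : K) : (cb A B).Monic := by
  unfold cb; monicity!

theorem cb_natDegree {K : Type} [Field K] (A B : K) : (cb A B).natDegree = 3 := by
  unfold cb; compute_degree!

/-- Irreducible over the completion. -/
theorem irr_comp {f : (𝓞 F)[X]} (hm : f.Monic) (hd : f.natDegree = 3) (h2 : f.coeff 2 = 0)
    (w : HeightOneSpectrum (𝓞 F)) (hi : Irreducible (rd w.asIdeal f)) :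
    Irreducible ((cb ((f.coeff 1 : 𝓞 F) : F) ((f.coeff 0 : 𝓞 F) : F)).map
      (algebraMap F (w.adicCompletion F))) := by
  rw [eq_pol' hm hd h2] at hi
  rw [cb_map]
  have hmm := cb_monic (algebraMap F (w.adicCompletion F) ((f.coeff 1 : 𝓞 F) : F))
    (algebraMap F (w.adicCompletion F) ((f.coeff 0 : 𝓞 F) : F))
  have hdd := cb_natDegree (algebraMap F (w.adicCompletion F) ((f.coeff 1 : 𝓞 F) : F))
    (algebraMap F (w.adicCompletion F) ((f.coeff 0 : 𝓞 F) : F))
  rw [hmm.irreducible_iff_roots_eq_zero_of_degree_le_three (by rw [hdd]; norm_num) (by rw [hdd]),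
    Multiset.eq_zero_iff_forall_notMem]
  intro x hx
  rw [mem_roots hmm.ne_zero, IsRoot.def] at hx
  refine noroot_of_irr w _ _ hi x ?_
  rw [← hx]
  simp [cb, io]

/-- Substitution in the first alternative. -/
theorem ploc_sq {M E : Type} [Field M] [Field E] [Algebra M E] {A B : M} {D : ℕ} (hD : (D : M) ≠ 0)
    {h : M[X]} (H : ∃ s : E[X], (cb A B).map (algebraMap M E) ∣ h.map (algebraMap M E) - s ^ 2) :
    PLoc E (A * (D : M) ^ 2) (B * (D : M) ^ 3) (h.comp (C ((D : M)⁻¹) * X)) := by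
  obtain ⟨s, t, ht⟩ := H
  have hDE : (D : E) ≠ 0 := by
    have := (map_ne_zero (algebraMap M E)).2 hD
    rwa [map_natCast] at this
  left
  refine ⟨s.comp (C ((D : E)⁻¹) * X), C (((D : E)⁻¹) ^ 3) * t.comp (C ((D : E)⁻¹) * X), ?_⟩
  have e1 : (h.comp (C ((D : M)⁻¹) * X)).map (algebraMap M E) =
      (h.map (algebraMap M E)).comp (C ((D : E)⁻¹) * X) := by
    rw [Polynomial.map_comp, Polynomial.map_mul, Polynomial.map_X, Polynomial.map_C, map_inv₀,
      map_natCast]
  rw [e1]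
  have e2 : ((h.map (algebraMap M E)).comp (C ((D : E)⁻¹) * X) - (s.comp (C ((D : E)⁻¹) * X)) ^ 2) =
      (h.map (algebraMap M E) - s ^ 2).comp (C ((D : E)⁻¹) * X) := by
    rw [sub_comp, pow_comp]
  rw [e2, ht, mul_comp, cb_map]
  have e3 : (cb (algebraMap M E A) (algebraMap M E B)).comp (C ((D : E)⁻¹) * X) =
      (X ^ 3 + C (algebraMap M E (A * (D : M) ^ 2)) * X + C (algebraMap M E (B * (D : M) ^ 3))) *
        C (((D : E)⁻¹) ^ 3) := by
    simp only [cb, add_comp, mul_comp, pow_comp, X_comp, C_comp, map_mul, map_pow, map_natCast]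
    have hC : (C ((D : E)⁻¹) : E[X]) * (D : E[X]) = 1 := by
      rw [← map_natCast C D, ← C_mul, inv_mul_cancel₀ hDE, C_1]
    linear_combination (-(C (algebraMap M E A) * (C ((D : E)⁻¹) * X)) *
      ((C ((D : E)⁻¹) : E[X]) * (D : E[X]) + 1) -
      C (algebraMap M E B) * (((C ((D : E)⁻¹) : E[X]) * (D : E[X])) ^ 2 +
        (C ((D : E)⁻¹) : E[X]) * (D : E[X]) + 1)) * hC
  rw [e3]
  ring

/-- The primes over `6` or such that `f` is irreducible modulo `w`. -/
theorem mem_of_ov {w : HeightOneSpectrum (𝓞 F)} {𝔓 : HeightOneSpectrum (𝓞 L)}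
    (h : Ov w.asIdeal 𝔓) {n : ℕ} (hn : (n : 𝓞 L) ∈ 𝔓.asIdeal) : (n : 𝓞 F) ∈ w.asIdeal := by
  by_contra hcon
  have hmax : w.asIdeal.IsMaximal := w.isMaximal
  have h1 := hmax.out.2 _ (lt_of_le_of_ne (le_sup_left (a := w.asIdeal)
    (b := Ideal.span {(n : 𝓞 F)})) ?_)
  · rw [sup_comm, Ideal.eq_top_iff_one, Ideal.mem_span_singleton_sup] at h1
    obtain ⟨a, b, hb, hab⟩ := h1
    apply 𝔓.isPrime.ne_top
    rw [Ideal.eq_top_iff_one]
    have h2 := congrArg (algebraMap (𝓞 F) (𝓞 L)) hab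
    rw [map_add, map_mul, map_natCast, map_one] at h2
    rw [← h2]
    exact Ideal.add_mem _ (Ideal.mul_mem_left _ _ hn) (h b hb)
  · intro he
    apply hcon
    rw [he]
    exact Ideal.mem_sup_right (Ideal.mem_span_singleton_self _)

theorem eq_of_ov {w w' : HeightOneSpectrum (𝓞 F)} {𝔓 : HeightOneSpectrum (𝓞 L)}
    (h : Ov w.asIdeal 𝔓) (h' : Ov w'.asIdeal 𝔓) : w.asIdeal = w'.asIdeal := by
  have hmax : w.asIdeal.IsMaximal := w.isMaximal
  have hmax' : w'.asIdeal.IsMaximal := w'.isMaximal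
  by_contra hne
  have h1 := Ideal.isCoprime_iff_sup_eq.1 (Ideal.isCoprime_of_isMaximal hne)
  apply 𝔓.isPrime.ne_top
  rw [Ideal.eq_top_iff_one] at h1 ⊢
  obtain ⟨a, ha, b, hb, hab⟩ := Submodule.mem_sup.1 h1
  have h2 := congrArg (algebraMap (𝓞 F) (𝓞 L)) hab
  rw [map_add, map_one] at h2
  rw [← h2]
  exact Ideal.add_mem _ (h a ha) (h' b hb)

end

theorem irr_of_gen {F L : Type} [Field F] [NumberField F] [Field L] [NumberField L] [Algebra F L]
    {g : ℕ} {f : (𝓞 F)[X]} {θ : L} (hG : IsGen g f θ) : Irreducible (fF f) := by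
  haveI : FiniteDimensional F L := Module.finite_of_finrank_pos (by rw [hG.rank]; omega)
  have hint : IsIntegral F θ := IsIntegral.of_finite F θ
  have htop : IntermediateField.adjoin F {θ} = ⊤ := by
    rw [eq_top_iff]
    intro x _
    obtain ⟨c, rfl⟩ := hG.gen x
    refine sum_mem fun i _ => mul_mem (IntermediateField.algebraMap_mem _ _) (pow_mem ?_ _)
    exact IntermediateField.mem_adjoin_simple_self F θ
  have h1 := IntermediateField.adjoin.finrank hint
  rw [htop, IntermediateField.finrank_top', hG.rank] at h1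
  have h2 : minpoly F θ ∣ fF f := minpoly.dvd F θ hG.root
  have hm : (fF f).Monic := hG.mon.map _
  have hd : (fF f).natDegree = 2 * g + 1 := by
    rw [fF, hG.mon.natDegree_map, hG.deg]
  have h3 := eq_of_monic_of_dvd_of_natDegree_le (minpoly.monic hint) hm h2 (by rw [hd, h1])
  rw [h3]
  exact minpoly.irreducible hint

theorem dp_mod {J : Finset ℕ} (h : ∀ q ∈ J, q % 8 = 1) : Dp J % 8 = 1 := by
  unfold Dp
  refine Finset.prod_induction _ (fun n : ℕ => n % 8 = 1) (fun a b ha hb => ?_) (by norm_num) h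
  rw [Nat.mul_mod, ha, hb]

/-- A rational prime in `𝔓`. -/
theorem six_nm {q : ℕ} {L : Type} [Field L] [NumberField L] {𝔓 : HeightOneSpectrum (𝓞 L)}
    (hq : q.Prime) (hq2 : q ≠ 2) (hq3 : q ≠ 3) (h : (q : 𝓞 L) ∈ 𝔓.asIdeal) :
    (6 : 𝓞 L) ∉ 𝔓.asIdeal := by
  intro h6
  have e : (6 : 𝓞 L) = ((2 : ℕ) : 𝓞 L) * ((3 : ℕ) : 𝓞 L) := by norm_num
  rw [e] at h6
  rcases 𝔓.isPrime.mem_or_mem h6 with h2 | h3
  · exact hq2 (nat_uniq hq Nat.prime_two h h2)
  · exact hq3 (nat_uniq hq Nat.prime_three h h3)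

theorem six_nm' {q : ℕ} {F : Type} [Field F] [NumberField F] {w : HeightOneSpectrum (𝓞 F)}
    (hq : q.Prime) (hq2 : q ≠ 2) (hq3 : q ≠ 3) (h : (q : 𝓞 F) ∈ w.asIdeal) :
    (6 : 𝓞 F) ∉ w.asIdeal := six_nm hq hq2 hq3 h

/-- The residue field is large. -/
theorem card_seven {F : Type} [Field F] [NumberField F] (w : HeightOneSpectrum (𝓞 F))
    (h : ∀ p : ℕ, p.Prime → p ≤ 7 → (p : 𝓞 F) ∉ w.asIdeal) :
    7 ≤ Nat.card (𝓞 F ⧸ w.asIdeal) := by
  haveI hmax : w.asIdeal.IsMaximal := w.isMaximal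
  haveI hfin : Finite (𝓞 F ⧸ w.asIdeal) := Ideal.finiteQuotientOfFreeOfNeBot _ w.ne_bot
  letI : Field (𝓞 F ⧸ w.asIdeal) := Ideal.Quotient.field _
  letI : Fintype (𝓞 F ⧸ w.asIdeal) := Fintype.ofFinite _
  obtain ⟨p, hp⟩ := CharP.exists (𝓞 F ⧸ w.asIdeal)
  obtain ⟨n, hpp, hcard⟩ := FiniteField.card (𝓞 F ⧸ w.asIdeal) p
  rw [Nat.card_eq_fintype_card, hcard]
  have h1 : (p : 𝓞 F) ∈ w.asIdeal := by
    rw [← Ideal.Quotient.eq_zero_iff_mem, map_natCast]
    exact CharP.cast_eq_zero _ _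
  have h2 : 7 < p := by
    by_contra hcon
    exact h p hpp (not_lt.1 hcon) h1
  exact h2.le.trans (Nat.le_self_pow n.ne_zero p)

/-- Assembly. -/
theorem locc (hLP2 : S_LP2) (hSCL : S_SCL) (hSQ8 : S_SQ8) (hIRW : S_IRW) (hSCG : S_SCG)
    (hGOOD : S_GOOD) (hMULW : S_MULW) (hRAMQ : S_RAMQ) (hLPR : S_LPR) : S_LOCC := by
  intro F L _ _ _ _ _ f θ W S J 𝔮 r P hG hsq h2 hsm hS hc hJ h₀ hne hnrm hev hu0 hloc hreal
  have hm := hG.mon
  have hd : f.natDegree = 3 := hG.deg
  have hcg := cg_sp hS hc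
  have hqp : ∀ q ∈ J, q.Prime := fun q hq => (hS q (hJ hq)).1
  have hq8 : ∀ q ∈ J, q % 8 = 1 := fun q hq => (hS q (hJ hq)).2.2.2.1
  have hq2 : ∀ q ∈ J, q ≠ 2 := by
    rintro q hq rfl
    have := hq8 _ hq
    omega
  have hq3 : ∀ q ∈ J, q ≠ 3 := by
    rintro q hq rfl
    have := hq8 _ hq
    omega
  have hD0 : Dp J ≠ 0 := by
    rw [Dp, Finset.prod_ne_zero_iff]
    exact fun q hq => (hqp q hq).ne_zero
  have hD8 : Dp J % 8 = 1 := dp_mod hq8
  have hirr : Irreducible (fF f) := irr_of_gen hG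
  have hDF : ((Dp J : ℕ) : F) ≠ 0 := Nat.cast_ne_zero.2 hD0
  obtain ⟨k1, k2, k3, k4⟩ := sq_iff hG h2 hirr hD0
  have hcA := fF_cub hm hd h2
  -- the classes over `F`
  have hcop₀ : IsCoprime h₀ (cb ((f.coeff 1 : 𝓞 F) : F) ((f.coeff 0 : 𝓞 F) : F)) := by
    rw [← hcA, isCoprime_comm, hirr.coprime_iff_not_dvd]
    rintro ⟨t, ht⟩
    apply hne
    rw [ht, map_mul, hG.root, zero_mul]
  have hnrm₀ : IsSquare (Algebra.norm F (AdjoinRoot.mk
      (cb ((f.coeff 1 : 𝓞 F) : F) ((f.coeff 0 : 𝓞 F) : F)) h₀)) := by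
    have h1 := (sq_iff hG h2 hirr one_ne_zero).2.2.1 h₀
    rw [Nat.cast_one, Nat.cast_one, one_pow, one_pow, mul_one, mul_one, one_mul] at h1
    exact h1.2 hnrm
  have hnr : IsSquare (Algebra.norm F (aeval (((Dp J : ℕ) : L) * θ)
      (h₀.comp (C (((Dp J : ℕ) : F)⁻¹) * X)))) := by
    rw [comp_aeval θ hD0]
    exact hnrm
  have hne' : aeval (((Dp J : ℕ) : L) * θ) (h₀.comp (C (((Dp J : ℕ) : F)⁻¹) * X)) ≠ 0 := by
    rw [comp_aeval θ hD0]
    exact hne
  refine ⟨?_, (k3 _).2 hnr, fun w => ?_, fun σ => ?_⟩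
  · -- coprime
    rw [isCoprime_comm, k1.coprime_iff_not_dvd, ← cb_scale hm hd h2]
    rintro ⟨t, ht⟩
    apply hne'
    have hroot : aeval (((Dp J : ℕ) : L) * θ) (fF (f.scaleRoots ((Dp J : ℕ) : 𝓞 F))) = 0 := by
      have e1 := scaleRoots_eval₂_mul (p := fF f) (algebraMap F L) θ (((Dp J : ℕ) : F))
      have e2 : eval₂ (algebraMap F L) θ (fF f) = 0 := by
        rw [← aeval_def]
        exact hG.root
      rw [e2, mul_zero, map_natCast] at e1
      rw [Pool.Agent.N170.PF.fF_scale hm, aeval_def]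
      exact e1
    rw [ht, map_mul, hroot, zero_mul]
  · -- finite places
    by_cases hw2 : (2 : 𝓞 F) ∈ w.asIdeal
    · -- over 2
      have hi := hsm.irr w (by
        have e : (6 : 𝓞 F) = 3 * 2 := by norm_num
        rw [e]
        exact Ideal.mul_mem_left _ _ hw2)
      obtain ⟨δ, hδ⟩ := hSQ8 F w hw2 (Dp J) hD8
      refine hSCL F (w.adicCompletion F) _ _ _ δ h₀ hDF hδ ?_
      refine hLP2 F (w.adicCompletion F) _ _ h₀ (irr_comp hm hd h2 w hi) hcop₀ hnrm₀ ?_
      rw [← hcA]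
      exact hloc w hw2
    · by_cases hw6 : (6 : 𝓞 F) ∈ w.asIdeal
      · -- over 3
        have hi := hsm.irr w hw6
        refine ploc_sq hDF ?_
        rw [← hcA]
        refine hIRW 1 F L f θ le_rfl hG w hw2 hi h₀ hne hnrm (fun 𝔓 hO => ?_)
        refine hev 𝔓 fun q hq hOq _ => ?_
        have h1 := six_nm' (hqp q hq) (hq2 q hq) (hq3 q hq)
          (mem_of_ov hO (ov_nat hS (hJ hq) hOq))
        exact h1 hw6
      · by_cases hwD : ((Dp J : ℕ) : 𝓞 F) ∈ w.asIdeal
        · -- `D ∈ w`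
          have hex : ∃ q ∈ J, (q : 𝓞 F) ∈ w.asIdeal := by
            have h1 : ((Dp J : ℕ) : 𝓞 F) = ∏ q ∈ J, (q : 𝓞 F) := by
              rw [Dp, Nat.cast_prod]
            rw [h1] at hwD
            haveI := w.isPrime
            exact (Ideal.IsPrime.prod_mem_iff).1 hwD
          obtain ⟨q, hq, hqw⟩ := hex
          obtain ⟨D', hD'⟩ : ∃ D' : ℕ, D' = Dp (J.erase q) := ⟨_, rfl⟩
          have hDD : Dp J = q * D' := by
            rw [hD', Dp, Dp, Finset.mul_prod_erase _ (fun x => x) hq]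
          have hnd : ¬ q ∣ D' := by
            rw [hD', Dp, (hqp q hq).prime.dvd_finsetProd_iff]
            rintro ⟨q', hq', hdv⟩
            rw [Finset.mem_erase] at hq'
            exact hq'.1 ((Nat.prime_dvd_prime_iff_eq (hqp q hq) (hqp q' hq'.2)).1 hdv).symm
          by_cases hwq : w.asIdeal = 𝔮 q
          · exact hRAMQ W F L f θ S 𝔮 r P hG hsq h2 hS q (hJ hq) (hcg q (hJ hq)) (Dp J) D' hDD hnd
              hD0 h₀ hne hnrm (fun 𝔓 _ hv => hev 𝔓 fun q' _ _ => hv.ne)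
              (fun 𝔓 hO hv => hu0 q hq 𝔓 hO hv) w hwq
          · obtain ⟨-, -, -, -, -, hpr, hmem, -, -, -, -, -, -, -, hoth⟩ := hS q (hJ hq)
            have hi : Irreducible (rd w.asIdeal f) := by
              have h1 := hoth w.asIdeal w.isPrime hqw hwq
              have h3 : rd w.asIdeal f = rd w.asIdeal (P q) := by
                refine Pool.Agent.N771.PF.rd_eq fun j => ?_
                have h4 : sp F q ≤ w.asIdeal := by
                  rw [sp, Ideal.span_singleton_le_iff_mem]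
                  exact hqw
                exact h4 (hc q (hJ hq) j)
              rw [h3]
              exact h1
            refine ploc_sq hDF ?_
            rw [← hcA]
            refine hIRW 1 F L f θ le_rfl hG w hw2 hi h₀ hne hnrm (fun 𝔓 hO => ?_)
            refine hev 𝔓 fun q' hq' hOq _ => ?_
            have e : q' = q := by
              refine nat_uniq (hqp q' hq') (hqp q hq) (ov_nat hS (hJ hq') hOq) ?_
              have h5 := hO _ hqw
              rw [map_natCast] at h5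
              exact h5
            subst e
            have hbot : 𝔮 q' ≠ ⊥ := by
              intro h0
              rw [h0, Ideal.mem_bot] at hmem
              exact (hqp q' hq').ne_zero (by exact_mod_cast hmem)
            exact hwq (eq_of_ov (w := w) (w' := ⟨𝔮 q', hpr, hbot⟩) hO hOq)
        · -- `D ∉ w`
          obtain ⟨s1, s2, s3, s4, ⟨ε, hε, hdε⟩, s5, s6⟩ := hSCG F L f θ (Dp J) hG h2 hD0
          have hev' : ∀ 𝔓 : HeightOneSpectrum (𝓞 L), Ov w.asIdeal 𝔓 →
              Ev 𝔓 (aeval (((Dp J : ℕ) : L) * θ) (h₀.comp (C (((Dp J : ℕ) : F)⁻¹) * X))) := by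
            intro 𝔓 hO
            rw [comp_aeval θ hD0]
            refine hev 𝔓 fun q hq hOq _ => ?_
            have h1 := mem_of_ov hO (ov_nat hS (hJ hq) hOq)
            apply hwD
            have h3 : q ∣ Dp J := Finset.dvd_prod_of_mem _ hq
            obtain ⟨t, ht⟩ := h3
            rw [ht, Nat.cast_mul]
            exact Ideal.mul_mem_right _ _ h1
          have e1 : (((f.scaleRoots ((Dp J : ℕ) : 𝓞 F)).coeff 1 : 𝓞 F) : F) =
              ((f.coeff 1 : 𝓞 F) : F) * ((Dp J : ℕ) : F) ^ 2 := by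
            rw [s3]
            exact (map_mul (algebraMap (𝓞 F) F) _ _).trans (by rw [map_pow, map_natCast])
          have e0 : (((f.scaleRoots ((Dp J : ℕ) : 𝓞 F)).coeff 0 : 𝓞 F) : F) =
              ((f.coeff 0 : 𝓞 F) : F) * ((Dp J : ℕ) : F) ^ 3 := by
            rw [s4]
            exact (map_mul (algebraMap (𝓞 F) F) _ _).trans (by rw [map_pow, map_natCast])
          rw [← e1, ← e0]
          by_cases hdw : dsc 1 f ∈ w.asIdeal
          · refine hMULW F L _ _ s1 s2 w hw6 ?_ ?_ ?_ _ hne' hnr hev'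
            · refine card_seven w fun p hp hp7 hpw => ?_
              have h1 := hsm.p p hp hp7
              obtain ⟨t, ht⟩ := h1
              refine hsm.sep w ?_ hdw
              rw [ht, Nat.cast_mul]
              exact Ideal.mul_mem_right _ _ hpw
            · rw [s5]
              exact Ideal.mul_mem_left _ _ hdw
            · rw [s5]
              intro hcon
              have h1 : (((Dp J : ℕ) : 𝓞 F) ^ 6) ∉ w.asIdeal := fun h3 =>
                hwD (w.isPrime.mem_of_pow_mem _ h3)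
              have h3 := (Ideal.IsPrime.mul_mem_pow _ hcon).resolve_left h1
              exact hsq w.asIdeal w.isPrime w.ne_bot h3
          · exact hGOOD F L _ _ s1 s2 w hw6 (s6 w hwD hw6 hdw) _ hne' hnr hev'
  · -- real places
    letI := σ.toAlgebra
    have hab : 4 * (σ ((f.coeff 1 : 𝓞 F) : F)) ^ 3 + 27 * (σ ((f.coeff 0 : 𝓞 F) : F)) ^ 2 ≠ 0 := by
      have h1 : Irreducible (X ^ 3 + C ((f.coeff 1 : 𝓞 F) : F) * X + C ((f.coeff 0 : 𝓞 F) : F)) := by
        have := hirr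
        rw [hcA] at this
        exact this
      have h3 := Pool.Agent.N61.PF.disc_ne h1
      intro h0
      apply h3
      apply σ.injective
      rw [map_add, map_mul, map_mul, map_pow, map_pow, map_ofNat, map_ofNat, map_zero]
      exact h0
    have hmapc : (cb ((f.coeff 1 : 𝓞 F) : F) ((f.coeff 0 : 𝓞 F) : F)).map σ =
        cb (σ ((f.coeff 1 : 𝓞 F) : F)) (σ ((f.coeff 0 : 𝓞 F) : F)) := cb_map (E := ℝ) _ _
    have hcopR : IsCoprime (h₀.map σ) (cb (σ ((f.coeff 1 : 𝓞 F) : F)) (σ ((f.coeff 0 : 𝓞 F) : F))) := by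
      rw [← hmapc]
      exact hcop₀.map (mapRingHom σ)
    have hlr := hreal σ
    rw [hcA, hmapc] at hlr
    have hD : algebraMap F ℝ ((Dp J : ℕ) : F) = (Real.sqrt (Dp J : ℕ)) ^ 2 := by
      rw [map_natCast, Real.sq_sqrt (Nat.cast_nonneg _)]
    refine hSCL F ℝ _ _ _ _ h₀ hDF hD ?_
    rcases hLPR _ _ _ hab hcopR hlr with ⟨g, hg⟩ | ⟨x, y, hy, hxy, g, hg⟩
    · exact Or.inl ⟨g, hg⟩
    · exact Or.inr ⟨x, y, hy, hxy, g, hg⟩

end Pool.Agent.Run7.h245.SR
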