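import Pool.Agent.Run7.h245.SR.Locc
import Pool.Agent.Run7.h576.SR.SCL

/-!
# Project SR: the 2-Selmer group does not change if `(A, B)` is replaced by `(A u ^ 4, B u ^ 6)`
-/

set_option autoImplicit false
set_option linter.all false

open Polynomial IsDedekindDomain NumberField WithZero
open scoped Classical

namespace Pool.Agent.Run7.h245.SR

open Pool.Agent.N874.PM (PLoc)

section

variable {K : Type} [Field K] {A B D : K}

theorem cb_comp (hD : D ≠ 0) :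
    (cb (A * D ^ 2) (B * D ^ 3)).comp (C D * X) = C (D ^ 3) * cb A B := by
  simp only [cb, add_comp, mul_comp, pow_comp, X_comp, C_comp, C_mul, C_pow]
  ring

theorem comp_comp_inv (hD : D ≠ 0) (h : K[X]) :
    (h.comp (C D⁻¹ * X)).comp (C D * X) = h := by
  rw [comp_assoc]
  have e : (C D⁻¹ * X : K[X]).comp (C D * X) = X := by
    rw [mul_comp, C_comp, X_comp, ← mul_assoc, ← C_mul, inv_mul_cancel₀ hD, C_1, one_mul]
  rw [e, comp_X]

theorem comp_inv_comp (hD : D ≠ 0) (h : K[X]) :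
    (h.comp (C D * X)).comp (C D⁻¹ * X) = h := by
  rw [comp_assoc]
  have e : (C D * X : K[X]).comp (C D⁻¹ * X) = X := by
    rw [mul_comp, C_comp, X_comp, ← mul_assoc, ← C_mul, mul_inv_cancel₀ hD, C_1, one_mul]
  rw [e, comp_X]

theorem dvd_comp (hD : D ≠ 0) {p : K[X]} (h : cb (A * D ^ 2) (B * D ^ 3) ∣ p) :
    cb A B ∣ p.comp (C D * X) := by
  obtain ⟨t, rfl⟩ := h
  rw [mul_comp, cb_comp hD]
  exact Dvd.intro _ (by ring : cb A B * (C (D ^ 3) * t.comp (C D * X)) = _)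

theorem dvd_comp' (hD : D ≠ 0) {p : K[X]} (h : cb A B ∣ p) :
    cb (A * D ^ 2) (B * D ^ 3) ∣ p.comp (C D⁻¹ * X) := by
  have hDi : D⁻¹ ≠ 0 := inv_ne_zero hD
  have e : cb ((A * D ^ 2) * D⁻¹ ^ 2) ((B * D ^ 3) * D⁻¹ ^ 3) = cb A B := by
    congr 1
    · congr 3
      field_simp
    · congr 1
      field_simp
  have h1 := dvd_comp (A := A * D ^ 2) (B := B * D ^ 3) hDi (p := p) (by rw [e]; exact h)
  exact h1

/-- Invariance of the norm. -/
theorem norm_comp (hD : D ≠ 0) (h : K[X]) :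
    Algebra.norm K (AdjoinRoot.mk (cb (A * D ^ 2) (B * D ^ 3)) (h.comp (C D⁻¹ * X))) =
      Algebra.norm K (AdjoinRoot.mk (cb A B) h) := by
  -- the isomorphism
  have hr1 : aeval (AdjoinRoot.mk (cb A B) (C D * X)) (cb (A * D ^ 2) (B * D ^ 3)) = 0 := by
    have e : aeval (AdjoinRoot.mk (cb A B) (C D * X)) (cb (A * D ^ 2) (B * D ^ 3)) =
        AdjoinRoot.mk (cb A B) ((cb (A * D ^ 2) (B * D ^ 3)).comp (C D * X)) := by
      rw [← AdjoinRoot.coe_mkₐ, aeval_algHom_apply, aeval_def, Polynomial.comp]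
      rfl
    rw [e, AdjoinRoot.mk_eq_zero]
    exact dvd_comp hD dvd_rfl
  have hr2 : aeval (AdjoinRoot.mk (cb (A * D ^ 2) (B * D ^ 3)) (C D⁻¹ * X)) (cb A B) = 0 := by
    have e : aeval (AdjoinRoot.mk (cb (A * D ^ 2) (B * D ^ 3)) (C D⁻¹ * X)) (cb A B) =
        AdjoinRoot.mk (cb (A * D ^ 2) (B * D ^ 3)) ((cb A B).comp (C D⁻¹ * X)) := by
      rw [← AdjoinRoot.coe_mkₐ, aeval_algHom_apply, aeval_def, Polynomial.comp]
      rfl
    rw [e, AdjoinRoot.mk_eq_zero]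
    exact dvd_comp' hD dvd_rfl
  obtain ⟨φ, hφ⟩ : ∃ φ : AdjoinRoot (cb (A * D ^ 2) (B * D ^ 3)) →ₐ[K] AdjoinRoot (cb A B),
      ∀ p, φ (AdjoinRoot.mk _ p) = AdjoinRoot.mk _ (p.comp (C D * X)) := by
    refine ⟨AdjoinRoot.liftAlgHom _ (Algebra.ofId K _) _ hr1, fun p => ?_⟩
    have h1 := AdjoinRoot.liftAlgHom_mk (cb (A * D ^ 2) (B * D ^ 3)) (Algebra.ofId K _) _ hr1 p
    rw [Algebra.toRingHom_ofId, ← Polynomial.aeval_def] at h1
    rw [h1, ← AdjoinRoot.coe_mkₐ, aeval_algHom_apply, aeval_def, Polynomial.comp]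
    rfl
  obtain ⟨ψ, hψ⟩ : ∃ ψ : AdjoinRoot (cb A B) →ₐ[K] AdjoinRoot (cb (A * D ^ 2) (B * D ^ 3)),
      ∀ p, ψ (AdjoinRoot.mk _ p) = AdjoinRoot.mk _ (p.comp (C D⁻¹ * X)) := by
    refine ⟨AdjoinRoot.liftAlgHom _ (Algebra.ofId K _) _ hr2, fun p => ?_⟩
    have h1 := AdjoinRoot.liftAlgHom_mk (cb A B) (Algebra.ofId K _) _ hr2 p
    rw [Algebra.toRingHom_ofId, ← Polynomial.aeval_def] at h1
    rw [h1, ← AdjoinRoot.coe_mkₐ, aeval_algHom_apply, aeval_def, Polynomial.comp]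
    rfl
  obtain ⟨e, he⟩ : ∃ e : AdjoinRoot (cb (A * D ^ 2) (B * D ^ 3)) ≃ₐ[K] AdjoinRoot (cb A B),
      ∀ x, e x = φ x := by
    refine ⟨AlgEquiv.ofAlgHom φ ψ ?_ ?_, fun _ => rfl⟩
    · refine AlgHom.ext fun x => ?_
      obtain ⟨p, rfl⟩ := AdjoinRoot.mk_surjective x
      rw [AlgHom.comp_apply, hψ, hφ, comp_comp_inv hD]
      rfl
    · refine AlgHom.ext fun x => ?_
      obtain ⟨p, rfl⟩ := AdjoinRoot.mk_surjective x
      rw [AlgHom.comp_apply, hφ, hψ, comp_inv_comp hD]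
      rfl
  rw [← Algebra.norm_eq_of_algEquiv e, he, hφ, comp_comp_inv hD]

end

section

variable {F : Type} [Field F] [NumberField F] {A B u : F}

theorem selH_scale (hu : u ≠ 0) {h : F[X]} (H : SelH A B h) :
    SelH (A * (u ^ 2) ^ 2) (B * (u ^ 2) ^ 3) (h.comp (C (u ^ 2)⁻¹ * X)) := by
  have hD : u ^ 2 ≠ 0 := pow_ne_zero 2 hu
  refine ⟨?_, ?_, fun w => ?_, fun σ => ?_⟩
  · obtain ⟨a, b, hab⟩ := H.cop
    obtain ⟨t, ht⟩ := dvd_comp' (A := A) (B := B) hD dvd_rfl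
    have h1 : (a * h + b * cb A B).comp (C (u ^ 2)⁻¹ * X) = (1 : F[X]).comp (C (u ^ 2)⁻¹ * X) := by
      rw [hab]
    rw [add_comp, mul_comp, mul_comp, one_comp, ht] at h1
    exact ⟨a.comp (C (u ^ 2)⁻¹ * X), b.comp (C (u ^ 2)⁻¹ * X) * t, by rw [← h1]; ring⟩
  · rw [norm_comp hD]
    exact H.nrm
  · exact Run7.h576.SR.SCL.scl F (w.adicCompletion F) A B (u ^ 2)
      (algebraMap F (w.adicCompletion F) u) h hD (map_pow _ _ _) (H.fin w)
  · letI := σ.toAlgebra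
    exact Run7.h576.SR.SCL.scl F ℝ A B (u ^ 2) (algebraMap F ℝ u) h hD (map_pow _ _ _)
      (H.real σ)

/-- Invariance. -/
theorem selCard_scale (hu : u ≠ 0) {d : ℕ} (H : SelCard A B d) :
    SelCard (A * (u ^ 2) ^ 2) (B * (u ^ 2) ^ 3) d := by
  have hD : u ^ 2 ≠ 0 := pow_ne_zero 2 hu
  have hui : u⁻¹ ≠ 0 := inv_ne_zero hu
  obtain ⟨h, h1, h2, h3⟩ := H
  refine ⟨fun i => (h i).comp (C (u ^ 2)⁻¹ * X), fun i => selH_scale hu (h1 i), ?_, ?_⟩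
  · rintro i j hij ⟨s, hs⟩
    refine h2 i j hij ⟨s.comp (C (u ^ 2) * X), ?_⟩
    have h4 := dvd_comp (A := A) (B := B) hD hs
    rw [sub_comp, mul_comp, pow_comp, comp_comp_inv hD, comp_comp_inv hD] at h4
    exact h4
  · intro h' hh'
    have h4 := selH_scale hui hh'
    have eA : A * (u ^ 2) ^ 2 * (u⁻¹ ^ 2) ^ 2 = A := by field_simp
    have eB : B * (u ^ 2) ^ 3 * (u⁻¹ ^ 2) ^ 3 = B := by field_simp
    have eC : (u⁻¹ ^ 2)⁻¹ = u ^ 2 := by field_simp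
    rw [eA, eB, eC] at h4
    obtain ⟨i, s, hs⟩ := h3 _ h4
    refine ⟨i, s.comp (C (u ^ 2)⁻¹ * X), ?_⟩
    have h5 := dvd_comp' (A := A) (B := B) hD hs
    rw [sub_comp, mul_comp, pow_comp, comp_inv_comp hD] at h5
    exact h5

end

end Pool.Agent.Run7.h245.SR
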