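import Pool.Agent.Run7.h245.SR.Twd
import Pool.Agent.Run7.h245.SR.Lev
import Pool.Agent.Run7.h245.SR.Scl

/-!
# Project SR: all dimensions up to a bound at once
-/

set_option autoImplicit false
set_option linter.all false

open Polynomial IsDedekindDomain Matrix NumberField WithZero
open scoped Classical

namespace Pool.Agent.Run7.h245.SR

open Pool.Agent.N352.PJ (dd)
open Pool.Agent.N874.PP (Ev Sq1 U0 S_LIN)
open Pool.Agent.N783.PQ (LocIm)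
open Pool.Agent.N874.JM (LocF)
open Pool.Agent.N874.PM (PLoc)
open Pool.Agent.N783.PF

/-- The choice of the twists, for all dimensions up to `N`. -/
def S_TWDN : Prop := ∀ (F : Type) [Field F] [NumberField F] (N : ℕ), ∃ (K n₀ : ℕ) (ε : ℝ), 0 < ε ∧
  ∀ (W : ℕ) (T : ℕ → Finset ℕ) (𝔮 : ℕ → Ideal (𝓞 F)) (r P : ℕ → (𝓞 F)[X]) (f : (𝓞 F)[X]),
    GoodS 1 W ((Finset.range K).biUnion T) 𝔮 r P → (∀ k < K, n₀ ≤ (T k).card) →
    (∀ i < K, ∀ j < K, i ≠ j → Disjoint (T i) (T j)) → f.Monic → f.natDegree = 3 →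
    f.coeff 2 = 0 → Irreducible (fF f) → SqF 1 f → Small W f →
    (∃ f₁ : (𝓞 F)[X], GoodF 1 W f₁ ∧ Cg (sp F W) f f₁) →
    (∀ q ∈ (Finset.range K).biUnion T, Cg (sp F q) f (P q)) →
    (∀ k < K, PrAt 1 f 𝔮 ((Finset.range k).biUnion T) (T k) ε) → ∀ d ≤ N,
    ∃ J ⊆ (Finset.range K).biUnion T,
      SelCard (((f.coeff 1 : 𝓞 F) : F) * ((Dp J : ℕ) : F) ^ 2)
        (((f.coeff 0 : 𝓞 F) : F) * ((Dp J : ℕ) : F) ^ 3) d

theorem twdN (hBIGJ : S_BIGJ) (hWALK : S_WALK) (hUNI : S_UNI) (hREC : S_REC) (hEXQ : S_EXQ)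
    (hLOC : S_LOC) (hLOCC : S_LOCC) (hGEN : S_GEN) : S_TWDN := by
  intro F _ _ N
  obtain ⟨c, hc⟩ := hUNI F
  obtain ⟨K, n₀, ε, hε, hbig⟩ := hBIGJ c (N + 1)
  have hK : 0 < K := bigJ_pos hbig
  refine ⟨K, max n₀ 1, min ε (1 / 4), lt_min hε (by norm_num), ?_⟩
  intro W T 𝔮 r P f hS hn hdj hm hd h2 hirr hsq hsm hf₁ hcon hP d hdN
  obtain ⟨L, _, _, _, θ, hG⟩ := hGEN F 1 f hm hd hirr
  have hθ := theta_ne hG
  obtain ⟨S, hT⟩ : ∃ S, (Finset.range K).biUnion T = S := ⟨_, rfl⟩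
  rw [hT] at hS hcon ⊢
  obtain ⟨𝔔, hQ⟩ := exists_Q hEXQ le_rfl hG hsq hS hcon
  obtain ⟨X, hX1, hX2, hX3⟩ := hc L f θ W S 𝔮 r P hG hsq h2 (fun w hw => by
    have h6 : (6 : 𝓞 F) ∈ w.asIdeal := by
      have e : (6 : 𝓞 F) = 3 * 2 := by norm_num
      rw [e]
      exact Ideal.mul_mem_left _ _ hw
    have hi := hsm.irr w h6
    haveI hmax : w.asIdeal.IsMaximal := w.isPrime.isMaximal w.ne_bot
    haveI hfin : Finite (𝓞 F ⧸ w.asIdeal) := Ideal.finiteQuotientOfFreeOfNeBot _ w.ne_bot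
    letI : Field (𝓞 F ⧸ w.asIdeal) := Ideal.Quotient.field _
    exact PerfectField.separable_of_irreducible hi) hS (cg_sp hS hcon)
  have hXM : ∀ x ∈ X, InM f θ S 𝔔 x := by
    intro x hx
    obtain ⟨h1, h3, h4, h₀, h5, h6, h7⟩ := hX3 x hx
    refine ⟨h1, h3, fun 𝔓 h𝔓 => h4 𝔓 fun q hq hO hv => h𝔓 q hq (hQ.uniq q hq 𝔓 hO hv), h₀, h5,
      fun w hw => ?_, fun σ => ?_⟩
    · obtain ⟨s, hs⟩ := h6 w hw
      refine ⟨[], s, fun p hp => absurd hp List.not_mem_nil, ?_⟩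
      rw [List.map_nil, List.prod_nil, mul_one]
      exact hs
    · obtain ⟨s, hs⟩ := h7 σ
      refine ⟨[], s, fun p hp => absurd hp List.not_mem_nil, ?_⟩
      rw [List.map_nil, List.prod_nil, mul_one]
      exact hs
  have hlev := lev_Lam hREC hG hsq hS hcon hT hdj hQ hθ hK hn hP hX1 hX2 hXM
  have hsqp : ∀ α, InM f θ S 𝔔 α → psi θ S 𝔔 α = 0 → IsSquare α := fun α hα h0 =>
    sq_of_psi hG hT hQ hK (hP 0 hK) (min_le_right _ _) ((le_max_right _ _).trans (hn 0 hK)) hα h0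
  obtain ⟨J₁, hJ₁⟩ := hbig S (Lam f hS hQ hθ) _ hlev
  obtain ⟨J₀, hJ₀⟩ := exists_J0 hlev.iso
  obtain ⟨J, hJ⟩ := hWALK S (Lam f hS hQ hθ) d J₀ J₁ hJ₀
    ((Nat.pow_le_pow_right (by norm_num) (by omega)).trans hJ₁)
  exact ⟨Jn S J, Jn_sub, sel_Jn hLOC hLOCC hG hsq h2 hirr hsm hf₁ hS hcon hQ hθ hsqp hJ⟩

/-- The property of the polynomials which we count: dimension `d`, and all dimensions up to `N` among the
twists by natural numbers up to `D₀`. -/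
structure QD {F : Type} [Field F] [NumberField F] (d N D₀ : ℕ) (f : (𝓞 F)[X]) : Prop where
  irr : Irreducible (fF f)
  min : Min 1 f
  sel : SelCard ((f.coeff 1 : 𝓞 F) : F) ((f.coeff 0 : 𝓞 F) : F) d
  all : ∀ d' ≤ N, ∃ D : ℕ, D ≠ 0 ∧ D ≤ D₀ ∧ SelCard (((f.coeff 1 : 𝓞 F) : F) * (D : F) ^ 2)
    (((f.coeff 0 : 𝓞 F) : F) * (D : F) ^ 3) d'

theorem coeff_scale {F : Type} [Field F] [NumberField F] {f : (𝓞 F)[X]} (hd : f.natDegree = 3)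
    (D : ℕ) : (((f.scaleRoots (D : 𝓞 F)).coeff 1 : 𝓞 F) : F) = ((f.coeff 1 : 𝓞 F) : F) * (D : F) ^ 2 ∧
      (((f.scaleRoots (D : 𝓞 F)).coeff 0 : 𝓞 F) : F) = ((f.coeff 0 : 𝓞 F) : F) * (D : F) ^ 3 := by
  rw [coeff_scaleRoots, coeff_scaleRoots, hd]
  constructor
  · exact (map_mul (algebraMap (𝓞 F) F) _ _).trans (by rw [map_pow, map_natCast])
  · exact (map_mul (algebraMap (𝓞 F) F) _ _).trans (by rw [map_pow, map_natCast])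

/-- A positive proportion of all polynomials. -/
theorem maind (hPRX : S_PRX) (hLEVB : S_LEVB) (hTW : S_TWDN) (F : Type) [Field F] [NumberField F]
    (d N : ℕ) :
    ∃ D₀ : ℕ, ∃ c : ℝ, 0 < c ∧ ∃ B₀ : ℕ, ∀ B ≥ B₀, {f : (𝓞 F)[X] | Ht 1 B f}.Finite ∧
      c * ({f : (𝓞 F)[X] | Ht 1 B f}.ncard : ℝ) ≤
        ({f : (𝓞 F)[X] | Ht 1 B f ∧ QD d N D₀ f}.ncard : ℝ) := by
  obtain ⟨K, n₀, ε, hε, htw⟩ := hTW F (max d N)
  obtain ⟨W, T, 𝔮, r, P, hS, hn, hdj, c, hc, B₁₀, hlev⟩ := lev hPRX hLEVB F K n₀ ε hε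
  obtain ⟨-, Cp, hCp, hlow, hpt⟩ := Pool.Agent.N490.PF.pts F
  obtain ⟨S, hSd⟩ : ∃ S, (Finset.range K).biUnion T = S := ⟨_, rfl⟩
  have htw' := fun f => htw W T 𝔮 r P f hS hn hdj
  rw [hSd] at hS hlev htw'
  have hq1 : ∀ q ∈ S, 1 ≤ q := fun q hq => (hS q hq).1.pos
  set Q : ℕ := ∏ q ∈ S, q with hQ
  have hQ1 : 1 ≤ Q := Finset.one_le_prod' hq1
  have hQ0 : (0 : ℝ) < Q := by exact_mod_cast hQ1
  set X₀ : ℕ := max B₁₀ 1 with hX₀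
  refine ⟨Q * Q, c / (2 ^ S.card * (Cp ^ 2 * ((2 * Cp) ^ (2 * 1) * (2 * Q) ^ De F))), by positivity,
    X₀ * Q, fun B hB => ?_⟩
  set B₁ : ℕ := B / Q with hB₁
  have hBX : X₀ ≤ B₁ := (Nat.le_div_iff_mul_le hQ1).2 hB
  have hb1 : 1 ≤ B₁ := (le_max_right _ _).trans hBX
  have hb2 : B₁₀ ≤ B₁ := (le_max_left _ _).trans hBX
  have hBQ : B₁ * Q ≤ B := Nat.div_mul_le_self B Q
  have hBQ2 : B ≤ 2 * Q * B₁ := by
    have e1 : B < B₁ * Q + Q := Nat.lt_div_mul_add (a := B) (b := Q) hQ1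
    nlinarith
  have hB1 : 1 ≤ B := le_trans (by nlinarith) hBQ
  obtain ⟨hHf, hHc⟩ := Pool.Agent.N99.PF.ht_card hCp hpt 1 B hB1
  refine ⟨hHf, ?_⟩
  obtain ⟨hfin1, hlev1⟩ := hlev B₁ hb2
  set H := {f : (𝓞 F)[X] | Ht 1 B f ∧ QD d N (Q * Q) f} with hH
  set G := {f : (𝓞 F)[X] | Ht 1 B₁ f ∧ Irreducible (fF f) ∧ SqF 1 f ∧ Small W f ∧
        (∃ f₁ : (𝓞 F)[X], GoodF 1 W f₁ ∧ Cg (sp F W) f f₁) ∧
        (∀ q ∈ S, Cg (sp F q) f (P q)) ∧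
        ∀ k < K, PrAt 1 f 𝔮 ((Finset.range k).biUnion T) (T k) ε} with hGdef
  have hHfin : H.Finite := hHf.subset fun f hf => hf.1
  have hGf : G.Finite := hfin1.subset fun f hf => hf.1
  have hDle : ∀ J ⊆ S, Dp J ≤ Q := fun J hJ =>
    Finset.prod_le_prod_of_subset_of_one_le' hJ fun q hq _ => hq1 q hq
  have hD0 : ∀ J ⊆ S, Dp J ≠ 0 := fun J hJ =>
    (Finset.prod_pos fun q hq => hq1 q (hJ hq)).ne'
  have hJ0 : ∀ J ⊆ S, ((Dp J : ℕ) : 𝓞 F) ≠ 0 := fun J hJ => by exact_mod_cast hD0 J hJ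
  have hcard1 := Pool.Agent.N99.PF.card_fib hGf hHfin S
    (fun J f => f.scaleRoots ((Dp J : ℕ) : 𝓞 F)) (by
      rintro f ⟨a1, a2, a3, a4, a5, a6, a7⟩
      have a8 : f.natDegree = 3 := a1.deg
      have key := htw' f a1.mon a1.deg a1.tr a2 a3 a4 a5 a6 a7
      obtain ⟨J, hJ, hsel⟩ := key d (le_max_left _ _)
      refine ⟨J, hJ, Pool.Agent.N99.PF.ht_scale a1 ((Nat.mul_le_mul_left _ (hDle J hJ)).trans hBQ),
        ?_, ?_, ?_, ?_⟩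
      · rw [Pool.Agent.N170.PF.fF_scale a1.mon]
        exact Pool.Agent.N170.PF.irr_scale (Nat.cast_ne_zero.2 (hD0 J hJ)) a2
      · exact Pool.Agent.N547.PF.min 1 W F S J 𝔮 r P f le_rfl hS a3 a1.mon a1.deg a6 hJ
      · rw [(coeff_scale a8 _).1, (coeff_scale a8 _).2]
        exact hsel
      · intro d' hd'
        obtain ⟨J', hJ', hsel'⟩ := key d' (hd'.trans (le_max_right _ _))
        refine ⟨Dp J * Dp J', Nat.mul_ne_zero (hD0 J hJ) (hD0 J' hJ'),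
          Nat.mul_le_mul (hDle J hJ) (hDle J' hJ'), ?_⟩
        have h1 := selCard_scale (u := ((Dp J : ℕ) : F)) (Nat.cast_ne_zero.2 (hD0 J hJ)) hsel'
        rw [(coeff_scale a8 _).1, (coeff_scale a8 _).2]
        have e1 : ((f.coeff 1 : 𝓞 F) : F) * ((Dp J : ℕ) : F) ^ 2 *
            ((Dp J * Dp J' : ℕ) : F) ^ 2 =
            ((f.coeff 1 : 𝓞 F) : F) * ((Dp J' : ℕ) : F) ^ 2 * (((Dp J : ℕ) : F) ^ 2) ^ 2 := by
          push_cast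
          ring
        have e0 : ((f.coeff 0 : 𝓞 F) : F) * ((Dp J : ℕ) : F) ^ 3 *
            ((Dp J * Dp J' : ℕ) : F) ^ 3 =
            ((f.coeff 0 : 𝓞 F) : F) * ((Dp J' : ℕ) : F) ^ 3 * (((Dp J : ℕ) : F) ^ 2) ^ 3 := by
          push_cast
          ring
        rw [e1, e0]
        exact h1) (by
      intro J hJ x hx y hy hxy
      exact Pool.Agent.N99.PF.scale_inj (hJ0 J hJ) (by rw [hx.1.deg, hy.1.deg]) hxy)
  have hcard' : (G.ncard : ℝ) ≤ 2 ^ S.card * H.ncard := by exact_mod_cast hcard1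
  have hB₁1 : (1 : ℝ) ≤ B₁ := by exact_mod_cast hb1
  have hlow1 : (B₁ : ℝ) ^ De F ≤ Cp ^ 2 * ({f : (𝓞 F)[X] | Ht 1 B₁ f}.ncard : ℝ) := by
    have h1 := Pool.Agent.N61.PF.ht_lower hCp hlow hb1 hfin1
    have e : De F = 5 * Module.finrank ℚ F := by
      unfold De dd
      ring
    rw [e]
    exact h1
  have hM' : ({f : (𝓞 F)[X] | Ht 1 B f}.ncard : ℝ) ≤
      (2 * Cp) ^ (2 * 1) * (2 * Q) ^ De F * (B₁ : ℝ) ^ De F := by
    have e1 : ({f : (𝓞 F)[X] | Ht 1 B f}.ncard : ℝ) ≤ (2 * Cp) ^ (2 * 1) * (B : ℝ) ^ De F := hHc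
    refine e1.trans ?_
    rw [mul_assoc, ← mul_pow]
    have e2 : (B : ℝ) ≤ 2 * Q * B₁ := by exact_mod_cast hBQ2
    gcongr
  calc c / (2 ^ S.card * (Cp ^ 2 * ((2 * Cp) ^ (2 * 1) * (2 * Q) ^ De F))) *
        ({f : (𝓞 F)[X] | Ht 1 B f}.ncard : ℝ)
      ≤ c / (2 ^ S.card * (Cp ^ 2 * ((2 * Cp) ^ (2 * 1) * (2 * Q) ^ De F))) *
        ((2 * Cp) ^ (2 * 1) * (2 * Q) ^ De F *
          (Cp ^ 2 * ({f : (𝓞 F)[X] | Ht 1 B₁ f}.ncard : ℝ))) := by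
        refine mul_le_mul_of_nonneg_left (hM'.trans ?_) (by positivity)
        exact mul_le_mul_of_nonneg_left hlow1 (by positivity)
    _ = c * ({f : (𝓞 F)[X] | Ht 1 B₁ f}.ncard : ℝ) / 2 ^ S.card := by
        field_simp
    _ ≤ (G.ncard : ℝ) / 2 ^ S.card := by gcongr
    _ ≤ (2 ^ S.card * (H.ncard : ℝ)) / 2 ^ S.card := by gcongr
    _ = H.ncard := by field_simp

end Pool.Agent.Run7.h245.SR
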