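import Pool.Agent.Run7.h245.SR.Alg
import Pool.Agent.N498.PP.Lin

/-!
# Project SR: the choice of the twist (part TWD)
-/

set_option autoImplicit false
set_option linter.all false

open Polynomial IsDedekindDomain Matrix NumberField WithZero
open scoped Classical

namespace Pool.Agent.Run7.h245.SR

open Pool.Agent.N874.PP (Ev Sq1 U0 S_LIN)
open Pool.Agent.N783.PQ (LocIm)
open Pool.Agent.N874.JM (LocF)
open Pool.Agent.N874.PM (PLoc)
open Pool.Agent.N783.PF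

section

variable {F L : Type} [Field F] [NumberField F] [Field L] [NumberField L] [Algebra F L]
  {f : (𝓞 F)[X]} {θ : L} {S : Finset ℕ} {𝔮 : ℕ → Ideal (𝓞 F)} {𝔔 : ℕ → HeightOneSpectrum (𝓞 L)}
  {W K n₀ : ℕ} {ε : ℝ} {r P : ℕ → (𝓞 F)[X]} {T : ℕ → Finset ℕ}

/-- Pseudorandomness for the elements of the group. -/
theorem pr_InM (hG : IsGen 1 f θ) (hT : (Finset.range K).biUnion T = S) (hQ : IsQ θ S 𝔮 𝔔)
    {k : ℕ} (hk : k < K) (hP : PrAt 1 f 𝔮 ((Finset.range k).biUnion T) (T k) ε) {α : L}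
    (hα : InM f θ S 𝔔 α) (hns : ¬ IsSquare α)
    (h0 : ∀ q ∈ S, q ∉ (Finset.range k).biUnion T → Ev (𝔔 q) α) :
    (((T k).filter fun q => Sq1 (𝔔 q) α).card : ℝ) ≤ (1 / 2 + ε) * (T k).card := by
  have h1 := hP L θ hG α hα.ne hα.nrm hns (fun 𝔓 h𝔓 => ?_)
  · refine le_trans ?_ h1
    have h2 : ((T k).filter fun q => Sq1 (𝔔 q) α) ⊆ (T k).filter fun q =>
        ∀ 𝔓 : HeightOneSpectrum (𝓞 L), Ov (𝔮 q) 𝔓 → 𝔓.valuation L θ = 1 → Sq1 𝔓 α := by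
      intro q hq
      rw [Finset.mem_filter] at hq ⊢
      refine ⟨hq.1, fun 𝔓 hO hv => ?_⟩
      have hqS : q ∈ S := by
        rw [← hT]
        exact Finset.mem_biUnion.2 ⟨k, Finset.mem_range.2 hk, hq.1⟩
      rw [hQ.uniq q hqS 𝔓 hO hv]
      exact hq.2
    exact_mod_cast Finset.card_le_card h2
  · by_cases h : ∀ q ∈ S, 𝔓 ≠ 𝔔 q
    · exact hα.ev 𝔓 h
    · push Not at h
      obtain ⟨q, hq, rfl⟩ := h
      refine h0 q hq fun hmem => ?_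
      exact h𝔓 q hmem (hQ.ov q hq) (hQ.one q hq)

/-- An element of the group with trivial image is a square. -/
theorem sq_of_psi (hG : IsGen 1 f θ) (hT : (Finset.range K).biUnion T = S)
    (hQ : IsQ θ S 𝔮 𝔔) (hK : 0 < K) (hP : PrAt 1 f 𝔮 ((Finset.range 0).biUnion T) (T 0) ε)
    (hε : ε ≤ 1 / 4) (hn : 1 ≤ (T 0).card) {α : L} (hα : InM f θ S 𝔔 α)
    (h0 : psi θ S 𝔔 α = 0) : IsSquare α := by
  by_contra hns
  have hz1 : ∀ q ∈ S, Ev (𝔔 q) α ∧ U0 (𝔔 q) ((q : L) * θ) α := by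
    intro q hq
    have h1 := congrFun h0 ⟨q, hq⟩
    exact ⟨(psi_fst α ⟨q, hq⟩).1 (by rw [h1]; rfl), (psi_snd α ⟨q, hq⟩).1 (by rw [h1]; rfl)⟩
  have h1 := pr_InM hG hT hQ hK hP hα hns (fun q hq _ => (hz1 q hq).1)
  have h2 : ((T 0).filter fun q => Sq1 (𝔔 q) α) = T 0 := by
    rw [Finset.filter_eq_self]
    intro q hq
    have hqS : q ∈ S := by
      rw [← hT]
      exact Finset.mem_biUnion.2 ⟨0, Finset.mem_range.2 hK, hq⟩
    exact (hz1 q hqS).2.1 (hz1 q hqS).1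
  rw [h2] at h1
  have h3 : (1 : ℝ) ≤ (T 0).card := by exact_mod_cast hn
  nlinarith

/-- The level. -/
noncomputable def lv (T : ℕ → Finset ℕ) (K : ℕ) (q : ℕ) : ℕ :=
  if h : ∃ k, k < K ∧ q ∈ T k then h.choose else 0

theorem lv_spec (hT : (Finset.range K).biUnion T = S) {q : ℕ} (hq : q ∈ S) :
    lv T K q < K ∧ q ∈ T (lv T K q) := by
  have h : ∃ k, k < K ∧ q ∈ T k := by
    rw [← hT] at hq
    obtain ⟨k, hk, hqk⟩ := Finset.mem_biUnion.1 hq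
    exact ⟨k, Finset.mem_range.1 hk, hqk⟩
  rw [lv, dif_pos h]
  exact h.choose_spec

theorem lv_eq (hT : (Finset.range K).biUnion T = S)
    (hdj : ∀ i < K, ∀ j < K, i ≠ j → Disjoint (T i) (T j)) {q k : ℕ} (hk : k < K) (hq : q ∈ T k) :
    lv T K q = k := by
  have hqS : q ∈ S := by
    rw [← hT]
    exact Finset.mem_biUnion.2 ⟨k, Finset.mem_range.2 hk, hq⟩
  obtain ⟨h1, h2⟩ := lv_spec hT hqS
  by_contra hne
  exact Finset.disjoint_left.1 (hdj _ h1 _ hk hne) h2 hq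

theorem lev_lt (hT : (Finset.range K).biUnion T = S) {q k : ℕ} (hq : q ∈ S)
    (hk : q ∈ (Finset.range k).biUnion T) (hkK : k ≤ K)
    (hdj : ∀ i < K, ∀ j < K, i ≠ j → Disjoint (T i) (T j)) : lv T K q < k := by
  obtain ⟨i, hi, hqi⟩ := Finset.mem_biUnion.1 hk
  rw [Finset.mem_range] at hi
  rw [lv_eq hT hdj (hi.trans_le hkK) hqi]
  exact hi

theorem card_lev (hT : (Finset.range K).biUnion T = S)
    (hdj : ∀ i < K, ∀ j < K, i ≠ j → Disjoint (T i) (T j)) {k : ℕ} (hk : k < K)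
    (p : ℕ → Prop) [DecidablePred p] :
    (Finset.univ.filter fun i : S => lv T K i = k ∧ p i).card = ((T k).filter p).card := by
  refine Finset.card_bij (fun i _ => (i : ℕ)) ?_ ?_ ?_
  · intro i hi
    rw [Finset.mem_filter] at hi ⊢
    refine ⟨?_, hi.2.2⟩
    have := (lv_spec hT i.2).2
    rwa [hi.2.1] at this
  · intro i _ j _ h
    exact Subtype.ext h
  · intro q hq
    rw [Finset.mem_filter] at hq
    have hqS : q ∈ S := by
      rw [← hT]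
      exact Finset.mem_biUnion.2 ⟨k, Finset.mem_range.2 hk, hq.1⟩
    exact ⟨⟨q, hqS⟩, Finset.mem_filter.2 ⟨Finset.mem_univ _, lv_eq hT hdj hk hq.1, hq.2⟩, rfl⟩

theorem card_lev' (hT : (Finset.range K).biUnion T = S)
    (hdj : ∀ i < K, ∀ j < K, i ≠ j → Disjoint (T i) (T j)) {k : ℕ} (hk : k < K) :
    (Finset.univ.filter fun i : S => lv T K i = k).card = (T k).card := by
  have h := card_lev hT hdj hk (fun _ => True)
  rw [Finset.filter_true_of_mem (fun _ _ => trivial)] at h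
  rw [← h]
  congr 1
  ext i
  simp

/-- The data of the combinatorial theorem. -/
theorem lev_Lam (hREC : S_REC) (hG : IsGen 1 f θ) (hsq : SqF 1 f)
    (hS : GoodS 1 W S 𝔮 r P) (hc : ∀ q ∈ S, Cg (sp F q) f (P q))
    (hT : (Finset.range K).biUnion T = S)
    (hdj : ∀ i < K, ∀ j < K, i ≠ j → Disjoint (T i) (T j))
    (hQ : IsQ θ S 𝔮 𝔔) (hθ : θ ≠ 0) (hK : 0 < K) (hn : ∀ k < K, max n₀ 1 ≤ (T k).card)
    (hP : ∀ k < K, PrAt 1 f 𝔮 ((Finset.range k).biUnion T) (T k) (min ε (1 / 4))) {c : ℕ}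
    {X : Finset L} (hX : 2 ^ S.card ≤ 2 ^ c * X.card)
    (hX2 : ∀ x ∈ X, ∀ y ∈ X, x ≠ y → ¬ IsSquare (x * y)) (hXM : ∀ x ∈ X, InM f θ S 𝔔 x) :
    Lev S (Lam f hS hQ hθ) (fun i => lv T K i) K c n₀ ε := by
  have hsqp : ∀ α, InM f θ S 𝔔 α → psi θ S 𝔔 α = 0 → IsSquare α := fun α hα h0 =>
    sq_of_psi hG hT hQ hK (hP 0 hK) (min_le_right _ _) ((le_max_right _ _).trans (hn 0 hK)) hα h0
  refine ⟨fun i => (lv_spec hT i.2).1, fun k hk => ?_, ?_, ?_, ?_⟩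
  · rw [card_lev' hT hdj hk]
    exact (le_max_left _ _).trans (hn k hk)
  · rintro _ ⟨α, hα, rfl⟩
    exact psi_iso hREC le_rfl hG hsq hS hc hQ hα
  · rw [Fintype.card_coe]
    refine hX.trans (Nat.mul_le_mul_left _ ?_)
    have hfin : Finite (Lam f hS hQ hθ) := inferInstance
    rw [← Fintype.card_coe, ← Nat.card_eq_fintype_card]
    refine Nat.card_le_card_of_injective
      (fun x : X => (⟨psi θ S 𝔔 (x : L), ⟨x, hXM x x.2, rfl⟩⟩ : Lam f hS hQ hθ)) ?_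
    intro x y hxy
    have hxy' : psi θ S 𝔔 (x : L) = psi θ S 𝔔 (y : L) := congrArg Subtype.val hxy
    by_contra hne
    have hne' : (x : L) ≠ y := fun h => hne (Subtype.ext h)
    refine hX2 x x.2 y y.2 hne' (hsqp _ ((hXM x x.2).mul (hXM y y.2)) ?_)
    rw [psi_mul hS hQ hθ (hXM x x.2).ne (hXM y y.2).ne, hxy']
    funext Q
    exact Prod.ext (CharTwo.add_self_eq_zero _) (CharTwo.add_self_eq_zero _)
  · rintro k hk _ ⟨α, hα, rfl⟩ hne h0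
    have hns : ¬ IsSquare α := by
      rintro ⟨s, rfl⟩
      exact hne (psi_self hS hQ hθ (left_ne_zero_of_mul hα.ne))
    have h1 := pr_InM hG hT hQ hk (hP k hk) hα hns (fun q hq hqk => ?_)
    · rw [card_lev' hT hdj hk]
      have h2 : (Finset.univ.filter fun i : S => lv T K i = k ∧ (psi θ S 𝔔 α i).2 = 0).card ≤
          ((T k).filter fun q => Sq1 (𝔔 q) α).card := by
        rw [← card_lev hT hdj hk]
        refine Finset.card_le_card fun i hi => ?_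
        rw [Finset.mem_filter] at hi ⊢
        refine ⟨hi.1, hi.2.1, ?_⟩
        have h3 : (psi θ S 𝔔 α i).1 = 0 := h0 i (by rw [hi.2.1])
        exact ((psi_snd α i).1 hi.2.2).1 ((psi_fst α i).1 h3)
      calc ((Finset.univ.filter fun i : S => lv T K i = k ∧ (psi θ S 𝔔 α i).2 = 0).card : ℝ) ≤
            (((T k).filter fun q => Sq1 (𝔔 q) α).card : ℝ) := by exact_mod_cast h2
        _ ≤ (1 / 2 + min ε (1 / 4)) * (T k).card := h1
        _ ≤ (1 / 2 + ε) * (T k).card := by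
            refine mul_le_mul_of_nonneg_right ?_ (Nat.cast_nonneg _)
            linarith [min_le_left ε (1 / 4)]
    · have h3 : k ≤ lv T K q := by
        by_contra hcon
        rw [not_le] at hcon
        exact hqk (Finset.mem_biUnion.2 ⟨_, Finset.mem_range.2 hcon, (lv_spec hT hq).2⟩)
      exact (psi_fst α ⟨q, hq⟩).1 (h0 ⟨q, hq⟩ h3)

/-- The subset of natural numbers. -/
noncomputable def Jn (S : Finset ℕ) (J : Finset S) : Finset ℕ := J.map (Function.Embedding.subtype _)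

theorem mem_Jn {J : Finset S} {q : ℕ} (hq : q ∈ S) : q ∈ Jn S J ↔ (⟨q, hq⟩ : S) ∈ J := by
  unfold Jn
  rw [Finset.mem_map]
  constructor
  · rintro ⟨x, hx, rfl⟩
    exact hx
  · intro h
    exact ⟨⟨q, hq⟩, h, rfl⟩

theorem Jn_sub {J : Finset S} : Jn S J ⊆ S := by
  intro q hq
  unfold Jn at hq
  rw [Finset.mem_map] at hq
  obtain ⟨x, hx, rfl⟩ := hq
  exact x.2

/-- The Selmer group of the twist. -/
theorem sel_Jn (hLOC : S_LOC) (hLOCC : S_LOCC) (hG : IsGen 1 f θ) (hsq : SqF 1 f)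
    (h2 : f.coeff 2 = 0) (hirr : Irreducible (fF f)) (hsm : Small W f)
    (hf₁ : ∃ f₁ : (𝓞 F)[X], GoodF 1 W f₁ ∧ Cg (sp F W) f f₁)
    (hS : GoodS 1 W S 𝔮 r P) (hc : ∀ q ∈ S, Cg (sp F q) f (P q))
    (hQ : IsQ θ S 𝔮 𝔔) (hθ : θ ≠ 0)
    (hsqp : ∀ α, InM f θ S 𝔔 α → psi θ S 𝔔 α = 0 → IsSquare α) {J : Finset S} {d : ℕ}
    (hJ : Nat.card (Sj (Lam f hS hQ hθ) J) = 2 ^ d) :
    SelCard (((f.coeff 1 : 𝓞 F) : F) * ((Dp (Jn S J) : ℕ) : F) ^ 2)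
      (((f.coeff 0 : 𝓞 F) : F) * ((Dp (Jn S J) : ℕ) : F) ^ 3) d := by
  have hJS : Jn S J ⊆ S := Jn_sub
  have hD0 : Dp (Jn S J) ≠ 0 := by
    rw [Dp, Finset.prod_ne_zero_iff]
    exact fun q hq => (hS q (hJS hq)).1.ne_zero
  obtain ⟨f₁, hf₁, hcf₁⟩ := hf₁
  have hloc := hLOC 1 W F L f f₁ θ S (Jn S J) 𝔮 r P le_rfl hG hsq hf₁ hS hcf₁ hc hJS
  have hlocc := hLOCC F L f θ W S (Jn S J) 𝔮 r P hG hsq h2 hsm hS hc hJS
  have hmm : ∀ {q : ℕ} (hq : q ∈ S), q ∈ Jn S J ↔ (⟨q, hq⟩ : S) ∈ J := fun hq => mem_Jn hq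
  have hd3 : f.natDegree = 3 := hG.deg
  have hcb := cb_scale hG.mon hd3 h2 (Dp (Jn S J))
  rw [hcb] at hloc
  generalize hDD : Dp (Jn S J) = D at hD0 hloc hlocc hcb ⊢
  obtain ⟨k1, k2, k3, k4⟩ := sq_iff hG h2 hirr hD0
  haveI hfin : Finite (Sj (Lam f hS hQ hθ) J) := inferInstance
  have e := Finite.equivFinOfCardEq hJ
  have hch : ∀ l : Sj (Lam f hS hQ hθ) J, ∃ h₀ : F[X], InM f θ S 𝔔 (aeval θ h₀) ∧
      psi θ S 𝔔 (aeval θ h₀) = l.1 ∧ LocB f h₀ := by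
    intro l
    obtain ⟨α, hα, hl⟩ := l.2.1
    obtain ⟨h₀, h1, h3⟩ := hα.loc
    exact ⟨h₀, by rw [h1]; exact hα, by rw [h1]; exact hl, h3⟩
  choose p hp1 hp2 hp3 using hch
  refine ⟨fun i => (p (e.symm i)).comp (C ((D : F)⁻¹) * X), fun i => ?_, fun i j hij => ?_,
    fun h hh => ?_⟩
  · have hl := (e.symm i).2
    refine hlocc (p (e.symm i)) (hp1 _).ne (hp1 _).nrm (fun 𝔓 h𝔓 => ?_) (fun q hq 𝔓 hO hv => ?_)
      (hp3 _).two (hp3 _).real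
    · by_cases h : ∀ q ∈ S, 𝔓 ≠ 𝔔 q
      · exact (hp1 _).ev 𝔓 h
      · push Not at h
        obtain ⟨q, hq, rfl⟩ := h
        have hqJ : q ∉ Jn S J := fun hqJ => h𝔓 q hqJ (hQ.ov q hq) (hQ.one q hq)
        rw [hmm hq] at hqJ
        have h3 := hl.2.1 ⟨q, hq⟩ hqJ
        rw [← hp2] at h3
        exact (psi_fst _ ⟨q, hq⟩).1 h3
    · have hqS := hJS hq
      rw [hQ.uniq q hqS 𝔓 hO hv]
      have h3 := hl.2.2 ⟨q, hqS⟩ ((hmm hqS).1 hq)
      rw [← hp2] at h3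
      exact (psi_snd _ ⟨q, hqS⟩).1 h3
  · rw [k4, comp_aeval θ hD0, comp_aeval θ hD0]
    rintro ⟨s, hs⟩
    have hne : s ≠ 0 := by
      rintro rfl
      rw [mul_zero] at hs
      exact mul_ne_zero (hp1 _).ne (hp1 _).ne hs
    have h3 := psi_self (𝔔 := 𝔔) hS hQ hθ hne
    rw [← hs, psi_mul hS hQ hθ (hp1 _).ne (hp1 _).ne, hp2, hp2] at h3
    apply hij
    apply e.symm.injective
    apply Subtype.ext
    have h4 : ((e.symm i).1 : S → ZMod 2 × ZMod 2) = -((e.symm j).1 : S → ZMod 2 × ZMod 2) :=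
      eq_neg_of_add_eq_zero_left h3
    rw [h4]
    funext Q
    exact Prod.ext (CharTwo.neg_eq _) (CharTwo.neg_eq _)
  · have hne : aeval ((D : L) * θ) h ≠ 0 := k2 h hh.cop
    have hnrm : IsSquare (Algebra.norm F (aeval ((D : L) * θ) h)) := (k3 h).1 hh.nrm
    obtain ⟨m1, m2, m3, m4⟩ := hloc h hne hnrm
      (fun w => Pool.Agent.N521.QM.ploc_locF (hh.fin w))
      (fun σ => by
        letI := σ.toAlgebra
        exact Pool.Agent.N521.QM.ploc_locF (hh.real σ))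
    have hInM : InM f θ S 𝔔 (aeval ((D : L) * θ) h) := by
      refine ⟨hne, hnrm, fun 𝔓 h𝔓 => m1 𝔓 fun q hq hO hv => ?_, h.comp (C (D : F) * X),
        comp_aeval' θ D h, ⟨m3, m4⟩⟩
      exact h𝔓 q (hJS hq) (hQ.uniq q (hJS hq) 𝔓 hO hv)
    have hmem : psi θ S 𝔔 (aeval ((D : L) * θ) h) ∈ Sj (Lam f hS hQ hθ) J := by
      refine ⟨⟨_, hInM, rfl⟩, fun i hi => ?_, fun i hi => ?_⟩
      · rw [psi_fst]
        refine m1 _ fun q hq hO hv => ?_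
        have : q = (i : ℕ) := hQ.ovinj q (hJS hq) i i.2 _ hO (hQ.ov i i.2)
        subst this
        exact hi ((hmm i.2).1 hq)
      · rw [psi_snd]
        exact m2 i ((hmm i.2).2 hi) _ (hQ.ov i i.2) (hQ.one i i.2)
    refine ⟨e ⟨_, hmem⟩, ?_⟩
    rw [k4, comp_aeval θ hD0, Equiv.symm_apply_apply]
    refine hsqp _ (hInM.mul (hp1 _)) ?_
    rw [psi_mul hS hQ hθ hne (hp1 _).ne, hp2]
    funext Q
    exact Prod.ext (CharTwo.add_self_eq_zero _) (CharTwo.add_self_eq_zero _)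

end

/-- `K ≥ 1`. -/
theorem bigJ_pos {c d K n₀ : ℕ} {ε : ℝ}
    (h : ∀ (ι : Type) [Fintype ι] (Λ : AddSubgroup (ι → ZMod 2 × ZMod 2)) (lev : ι → ℕ),
      Lev ι Λ lev K c n₀ ε → ∃ J : Finset ι, 2 ^ (d + 1) ≤ Nat.card (Sj Λ J)) : 0 < K := by
  rcases Nat.eq_zero_or_pos K with rfl | hK
  · exfalso
    obtain ⟨J, hJ⟩ := h PEmpty ⊥ (fun _ => 0) ⟨fun i => i.elim, fun k hk => absurd hk (Nat.not_lt_zero _),
      fun l _ => by simp, by
        have h1 : 0 < Nat.card (⊥ : AddSubgroup (PEmpty → ZMod 2 × ZMod 2)) := Nat.card_pos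
        have h2 : 0 < 2 ^ c := by positivity
        rw [Fintype.card_pempty, pow_zero]
        exact Nat.mul_pos h2 h1, fun k hk => absurd hk (Nat.not_lt_zero _)⟩
    have h1 : Nat.card (Sj (⊥ : AddSubgroup (PEmpty → ZMod 2 × ZMod 2)) J) ≤ 1 := by
      rw [Nat.card_eq_fintype_card]
      exact Fintype.card_le_one_iff.2 fun a b => Subtype.ext (Subsingleton.elim _ _)
    have h2 : 2 ^ 1 ≤ 2 ^ (d + 1) := Nat.pow_le_pow_right (by norm_num) (by omega)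
    omega
  · exact hK

/-- `J₀`. -/
theorem exists_J0 {ι : Type} [Fintype ι] {Λ : AddSubgroup (ι → ZMod 2 × ZMod 2)}
    (hiso : ∀ l ∈ Λ, ∑ i, (l i).1 * (l i).2 = 0) : ∃ J : Finset ι, Nat.card (Sj Λ J) = 1 := by
  obtain ⟨J, hJ⟩ := Pool.Agent.N498.PP.lin ι Λ hiso
  refine ⟨Finset.univ.filter fun i => i ∈ J, ?_⟩
  rw [Nat.card_eq_one_iff_unique]
  refine ⟨⟨fun a b => ?_⟩, ⟨0⟩⟩
  have h : ∀ l : Sj Λ (Finset.univ.filter fun i => i ∈ J), l.1 = 0 := by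
    intro l
    refine hJ l.1 l.2.1 (fun i hi => l.2.2.2 i ?_) (fun i hi => l.2.2.1 i ?_)
    · exact Finset.mem_filter.2 ⟨Finset.mem_univ _, hi⟩
    · exact fun h => hi (Finset.mem_filter.1 h).2
  exact Subtype.ext ((h a).trans (h b).symm)

theorem twd (hBIGJ : S_BIGJ) (hWALK : S_WALK) (hUNI : S_UNI) (hREC : S_REC) (hEXQ : S_EXQ)
    (hLOC : S_LOC) (hLOCC : S_LOCC) (hGEN : S_GEN) : S_TWD := by
  intro F _ _ d
  obtain ⟨c, hc⟩ := hUNI F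
  obtain ⟨K, n₀, ε, hε, hbig⟩ := hBIGJ c (d + 1)
  have hK : 0 < K := bigJ_pos hbig
  refine ⟨K, max n₀ 1, min ε (1 / 4), lt_min hε (by norm_num), ?_⟩
  intro W T 𝔮 r P f hS hn hdj hm hd h2 hirr hsq hsm hf₁ hcon hP
  obtain ⟨L, _, _, _, θ, hG⟩ := hGEN F 1 f hm hd hirr
  have hθ := theta_ne hG
  obtain ⟨S, hT⟩ : ∃ S, (Finset.range K).biUnion T = S := ⟨_, rfl⟩
  rw [hT] at hS hcon ⊢
  obtain ⟨𝔔, hQ⟩ := exists_Q hEXQ le_rfl hG hsq hS hcon
  obtain ⟨X, hX1, hX2, hX3⟩ := hc L f θ W S 𝔮 r P hG hsq h2 (fun w hw => by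
    have h6 : (6 : 𝓞 F) ∈ w.asIdeal := by
      have e : (6 : 𝓞 F) = 3 * 2 := by norm_num
      rw [e]
      exact Ideal.mul_mem_left _ _ hw
    have hi := hsm.irr w h6
    haveI hmax : w.asIdeal.IsMaximal := w.isPrime.isMaximal w.ne_bot
    haveI hfin : Finite (𝓞 F ⧸ w.asIdeal) := Ideal.finiteQuotientOfFreeOfNeBot _ w.ne_bot
    letI : Field (𝓞 F ⧸ w.asIdeal) := Ideal.Quotient.field _
    exact PerfectField.separable_of_irreducible hi) hS (cg_sp hS hcon)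
  have hXM : ∀ x ∈ X, InM f θ S 𝔔 x := by
    intro x hx
    obtain ⟨h1, h3, h4, h₀, h5, h6, h7⟩ := hX3 x hx
    refine ⟨h1, h3, fun 𝔓 h𝔓 => h4 𝔓 fun q hq hO hv => h𝔓 q hq (hQ.uniq q hq 𝔓 hO hv), h₀, h5,
      fun w hw => ?_, fun σ => ?_⟩
    · obtain ⟨s, hs⟩ := h6 w hw
      refine ⟨[], s, fun p hp => absurd hp List.not_mem_nil, ?_⟩
      rw [List.map_nil, List.prod_nil, mul_one]
      exact hs
    · obtain ⟨s, hs⟩ := h7 σ
      refine ⟨[], s, fun p hp => absurd hp List.not_mem_nil, ?_⟩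
      rw [List.map_nil, List.prod_nil, mul_one]
      exact hs
  have hlev := lev_Lam hREC hG hsq hS hcon hT hdj hQ hθ hK hn hP hX1 hX2 hXM
  have hsqp : ∀ α, InM f θ S 𝔔 α → psi θ S 𝔔 α = 0 → IsSquare α := fun α hα h0 =>
    sq_of_psi hG hT hQ hK (hP 0 hK) (min_le_right _ _) ((le_max_right _ _).trans (hn 0 hK)) hα h0
  obtain ⟨J₁, hJ₁⟩ := hbig S (Lam f hS hQ hθ) _ hlev
  obtain ⟨J₀, hJ₀⟩ := exists_J0 hlev.iso
  obtain ⟨J, hJ⟩ := hWALK S (Lam f hS hQ hθ) d J₀ J₁ hJ₀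
    ((Nat.pow_le_pow_right (by norm_num) (by omega)).trans hJ₁)
  exact ⟨Jn S J, Jn_sub, sel_Jn hLOC hLOCC hG hsq h2 hirr hsm hf₁ hS hcon hQ hθ hsqp hJ⟩

end Pool.Agent.Run7.h245.SR
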